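import Pool.Agent.Lib.MP_8501c9_pr.Mid.Defs

/-!
# Counting the points near a box
-/

set_option autoImplicit false
open Set

namespace Pool.Agent.Lib.MP_8501c9_pr.Mid

open Pool.Agent.Lib.MP_8501c9_pr

variable {n d : ℕ}

/-! ### coordinates -/

theorem d_coe_sup (a b : Fin n) : ((a ⊔ b : Fin n) : ℕ) = max (a : ℕ) b := by
  rcases le_total a b with h | h
  · rw [sup_eq_right.2 h, max_eq_right (Fin.le_def.1 h)]
  · rw [sup_eq_left.2 h, max_eq_left (Fin.le_def.1 h)]

theorem d_coe_inf (a b : Fin n) : ((a ⊓ b : Fin n) : ℕ) = min (a : ℕ) b := by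
  rcases le_total a b with h | h
  · rw [inf_eq_left.2 h, min_eq_left (Fin.le_def.1 h)]
  · rw [inf_eq_right.2 h, min_eq_right (Fin.le_def.1 h)]

theorem d_ext1 (Q : BoxT n d) (x : Vtx n d) (i : Fin d) :
    ((ext Q x).1 i : ℕ) = min (Q.1 i : ℕ) (x i) := by
  unfold ext hull
  rw [← d_coe_inf]
  rfl

theorem d_ext2 (Q : BoxT n d) (x : Vtx n d) (i : Fin d) :
    ((ext Q x).2 i : ℕ) = max (Q.2 i : ℕ) (x i) := by
  unfold ext hull
  rw [← d_coe_sup]
  rfl

theorem d_le {Q : BoxT n d} (hQ : Q.1 ≤ Q.2) (i : Fin d) : (Q.1 i : ℕ) ≤ Q.2 i :=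
  Fin.le_def.1 (hQ i)

theorem d_sd_ext {Q : BoxT n d} (hQ : Q.1 ≤ Q.2) (x : Vtx n d) (i : Fin d) :
    sd (ext Q x) i = sd Q i + out Q x i := by
  have h := d_le hQ i
  unfold sd out
  rw [d_ext1, d_ext2]
  omega

theorem d_phi_ext {Q : BoxT n d} (hQ : Q.1 ≤ Q.2) (x : Vtx n d) :
    phi (ext Q x) = phi Q + ∑ i, out Q x i := by
  unfold phi
  rw [← Finset.sum_add_distrib]
  refine Finset.sum_congr rfl fun i _ => ?_
  have := d_sd_ext hQ x i
  unfold sd at this
  omega

theorem d_mem_N2 {Q : BoxT n d} (hQ : Q.1 ≤ Q.2) (x : Vtx n d) :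
    x ∈ N2 Q ↔ ∑ i, out Q x i = 2 := by
  unfold N2
  rw [Finset.mem_filter, d_phi_ext hQ]
  simp

theorem d_mem_Nreg (l : ℕ) (Q : BoxT n d) (x : Vtx n d) :
    x ∈ Nreg l Q ↔ (∀ i, out Q x i ≤ 1 ∧ (out Q x i = 1 → sd Q i = l)) ∧
      ∑ i, out Q x i = 2 := by
  unfold Nreg
  rw [Finset.mem_filter]
  simp

theorem d_sd_pos (Q : BoxT n d) (i : Fin d) : 1 ≤ sd Q i := by
  unfold sd
  omega

theorem d_vol_pos (Q : BoxT n d) : 0 < vol Q := by
  unfold vol
  exact Finset.prod_pos fun i _ => by exact_mod_cast d_sd_pos Q i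

/-! ### counting -/

theorem d_card_zero {lo hi : Fin n} (h : (lo : ℕ) ≤ hi) :
    (Finset.univ.filter (fun a : Fin n => ((lo : ℕ) - a) + ((a : ℕ) - hi) = 0)).card ≤
      ((hi : ℕ) - lo) + 1 := by
  have h1 : (Finset.univ.filter (fun a : Fin n => ((lo : ℕ) - a) + ((a : ℕ) - hi) = 0)) ⊆
      Finset.Icc lo hi := by
    intro a ha
    rw [Finset.mem_filter] at ha
    rw [Finset.mem_Icc, Fin.le_def, Fin.le_def]
    omega
  refine (Finset.card_le_card h1).trans ?_
  rw [Fin.card_Icc]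
  omega

theorem d_card_two {lo hi : Fin n} (h : (lo : ℕ) ≤ hi) {v : ℕ} (hv : 1 ≤ v) :
    (Finset.univ.filter (fun a : Fin n => ((lo : ℕ) - a) + ((a : ℕ) - hi) = v)).card ≤ 2 := by
  have h1 : ((Finset.univ.filter (fun a : Fin n => ((lo : ℕ) - a) + ((a : ℕ) - hi) = v)).image
      (fun a : Fin n => (a : ℕ))) ⊆ {(lo : ℕ) - v, (hi : ℕ) + v} := by
    intro a ha
    rw [Finset.mem_image] at ha
    obtain ⟨b, hb, rfl⟩ := ha
    rw [Finset.mem_filter] at hb
    rw [Finset.mem_insert, Finset.mem_singleton]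
    omega
  rw [← Finset.card_image_of_injective _ (Fin.val_injective)]
  exact (Finset.card_le_card h1).trans Finset.card_le_two

theorem d_card_out {Q : BoxT n d} (hQ : Q.1 ≤ Q.2) (o : Fin d → ℕ) :
    (Finset.univ.filter (fun x : Vtx n d => ∀ i, out Q x i = o i)).card ≤
      ∏ i, (if o i = 0 then sd Q i else 2) := by
  have h1 : (Finset.univ.filter (fun x : Vtx n d => ∀ i, out Q x i = o i)) ⊆
      Fintype.piFinset (fun i => Finset.univ.filter
        (fun a : Fin n => ((Q.1 i : ℕ) - a) + ((a : ℕ) - Q.2 i) = o i)) := by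
    intro x hx
    rw [Finset.mem_filter] at hx
    rw [Fintype.mem_piFinset]
    intro i
    rw [Finset.mem_filter]
    exact ⟨Finset.mem_univ _, hx.2 i⟩
  refine (Finset.card_le_card h1).trans ?_
  rw [Fintype.card_piFinset]
  refine Finset.prod_le_prod (fun _ _ => Nat.zero_le _) fun i _ => ?_
  split_ifs with h0
  · rw [h0]
    exact d_card_zero (d_le hQ i)
  · exact d_card_two (d_le hQ i) (by omega)

open Classical in
/-- two directions -/
theorem d_card_pair {Q : BoxT n d} (hQ : Q.1 ≤ Q.2) {i j : Fin d} (hij : i ≠ j) :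
    ((Finset.univ.filter (fun x : Vtx n d =>
      out Q x i = 1 ∧ out Q x j = 1 ∧ ∑ m, out Q x m = 2)).card : ℝ) ≤
      4 * vol Q / (sd Q i * sd Q j) := by
  set o : Fin d → ℕ := fun m => if m = i ∨ m = j then 1 else 0 with ho
  have h1 : (Finset.univ.filter (fun x : Vtx n d =>
      out Q x i = 1 ∧ out Q x j = 1 ∧ ∑ m, out Q x m = 2)) ⊆
      (Finset.univ.filter (fun x : Vtx n d => ∀ m, out Q x m = o m)) := by
    intro x hx
    rw [Finset.mem_filter] at hx ⊢
    refine ⟨Finset.mem_univ _, fun m => ?_⟩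
    obtain ⟨-, hi, hj, hs⟩ := hx
    rw [ho]
    simp only
    split_ifs with h
    · rcases h with rfl | rfl
      · exact hi
      · exact hj
    · push Not at h
      rw [← Finset.add_sum_erase _ _ (Finset.mem_univ i), ← Finset.add_sum_erase _ _
        (Finset.mem_erase.2 ⟨hij.symm, Finset.mem_univ j⟩), ← Finset.add_sum_erase _ _
        (Finset.mem_erase.2 ⟨h.2, Finset.mem_erase.2 ⟨h.1, Finset.mem_univ m⟩⟩)] at hs
      omega
  have h2 := (Finset.card_le_card h1).trans (d_card_out hQ o)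
  have h3 : (∏ m, (if o m = 0 then sd Q m else 2)) * (sd Q i * sd Q j) =
      4 * ∏ m, sd Q m := by
    rw [← Finset.mul_prod_erase _ _ (Finset.mem_univ i), ← Finset.mul_prod_erase _ _
      (Finset.mem_erase.2 ⟨hij.symm, Finset.mem_univ j⟩),
      ← Finset.mul_prod_erase _ (fun m => sd Q m) (Finset.mem_univ i),
      ← Finset.mul_prod_erase _ (fun m => sd Q m)
      (Finset.mem_erase.2 ⟨hij.symm, Finset.mem_univ j⟩)]
    have e1 : o i = 1 := by simp [ho]
    have e2 : o j = 1 := by simp [ho]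
    have e3 : ∏ m ∈ (Finset.univ.erase i).erase j, (if o m = 0 then sd Q m else 2) =
        ∏ m ∈ (Finset.univ.erase i).erase j, sd Q m := by
      refine Finset.prod_congr rfl fun m hm => ?_
      have hm1 := Finset.ne_of_mem_erase hm
      have hm2 := Finset.ne_of_mem_erase (Finset.mem_of_mem_erase hm)
      rw [if_pos]
      simp [ho, hm1, hm2]
    rw [e1, e2, e3]
    simp only [one_ne_zero, if_false]
    ring
  have hpos : (0 : ℝ) < (sd Q i : ℝ) * sd Q j := by
    have := d_sd_pos Q i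
    have := d_sd_pos Q j
    positivity
  rw [le_div_iff₀ hpos]
  unfold vol
  have h4 := Nat.mul_le_mul_right (sd Q i * sd Q j) h2
  rw [h3] at h4
  exact_mod_cast h4

open Classical in
/-- one direction -/
theorem d_card_straight {Q : BoxT n d} (hQ : Q.1 ≤ Q.2) (i : Fin d) :
    ((Finset.univ.filter (fun x : Vtx n d =>
      out Q x i = 2 ∧ ∑ m, out Q x m = 2)).card : ℝ) ≤ 2 * vol Q / sd Q i := by
  set o : Fin d → ℕ := fun m => if m = i then 2 else 0 with ho
  have h1 : (Finset.univ.filter (fun x : Vtx n d =>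
      out Q x i = 2 ∧ ∑ m, out Q x m = 2)) ⊆
      (Finset.univ.filter (fun x : Vtx n d => ∀ m, out Q x m = o m)) := by
    intro x hx
    rw [Finset.mem_filter] at hx ⊢
    refine ⟨Finset.mem_univ _, fun m => ?_⟩
    obtain ⟨-, hi, hs⟩ := hx
    rw [ho]
    simp only
    split_ifs with h
    · rw [h]
      exact hi
    · rw [← Finset.add_sum_erase _ _ (Finset.mem_univ i), ← Finset.add_sum_erase _ _
        (Finset.mem_erase.2 ⟨h, Finset.mem_univ m⟩)] at hs
      omega
  have h2 := (Finset.card_le_card h1).trans (d_card_out hQ o)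
  have h3 : (∏ m, (if o m = 0 then sd Q m else 2)) * sd Q i = 2 * ∏ m, sd Q m := by
    rw [← Finset.mul_prod_erase _ _ (Finset.mem_univ i),
      ← Finset.mul_prod_erase _ (fun m => sd Q m) (Finset.mem_univ i)]
    have e1 : o i = 2 := by simp [ho]
    have e3 : ∏ m ∈ Finset.univ.erase i, (if o m = 0 then sd Q m else 2) =
        ∏ m ∈ Finset.univ.erase i, sd Q m := by
      refine Finset.prod_congr rfl fun m hm => ?_
      have hm1 := Finset.ne_of_mem_erase hm
      rw [if_pos]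
      simp [ho, hm1]
    rw [e1, e3]
    simp only [OfNat.ofNat_ne_zero, if_false]
    ring
  have hpos : (0 : ℝ) < sd Q i := by
    have := d_sd_pos Q i
    positivity
  rw [le_div_iff₀ hpos]
  unfold vol
  have h4 := Nat.mul_le_mul_right (sd Q i) h2
  rw [h3] at h4
  exact_mod_cast h4

/-- the shape of a vector with sum two -/
theorem d_shape {o : Fin d → ℕ} (h : ∑ i, o i = 2) :
    (∃ i, o i = 2) ∨ (∀ i, o i ≤ 1) ∧ ∃ i j, i ≠ j ∧ o i = 1 ∧ o j = 1 := by
  by_cases h2 : ∃ i, o i = 2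
  · exact Or.inl h2
  · right
    push Not at h2
    have hle : ∀ i, o i ≤ 1 := by
      intro i
      have h3 := Finset.single_le_sum (f := o) (fun j _ => Nat.zero_le _) (Finset.mem_univ i)
      have := h2 i
      omega
    refine ⟨hle, ?_⟩
    have h3 : ∃ i, o i ≠ 0 := by
      by_contra hcon
      push Not at hcon
      simp [hcon] at h
    obtain ⟨i, hi⟩ := h3
    have hi1 : o i = 1 := by
      have := hle i
      omega
    have h4 : ∃ j ∈ Finset.univ.erase i, o j ≠ 0 := by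
      by_contra hcon
      push Not at hcon
      rw [← Finset.add_sum_erase _ _ (Finset.mem_univ i), Finset.sum_eq_zero hcon] at h
      omega
    obtain ⟨j, hj, hj0⟩ := h4
    refine ⟨i, j, (Finset.ne_of_mem_erase hj).symm, hi1, ?_⟩
    have := hle j
    omega

theorem d_card_out_one {l : ℕ} {Q : BoxT n d} {x : Vtx n d} (hx : x ∈ Nreg l Q) :
    (Finset.univ.filter (fun i => out Q x i = 1)).card = 2 := by
  rw [d_mem_Nreg] at hx
  rw [Finset.card_filter]
  rw [← hx.2]
  refine Finset.sum_congr rfl fun i _ => ?_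
  have := (hx.1 i).1
  split_ifs <;> omega

open Classical in
/-- double counting of the pairs of directions -/
theorem d_double {Q : BoxT n d} (S : Finset (Fin d)) (X : Finset (Vtx n d)) {A : ℝ}
    (hX : ∀ x ∈ X, ∑ i, out Q x i = 2 ∧ ∃ i ∈ S, ∃ j ∈ S, i ≠ j ∧ out Q x i = 1 ∧ out Q x j = 1)
    (hA : ∀ i ∈ S, ∀ j ∈ S, i ≠ j → ((Finset.univ.filter (fun x : Vtx n d =>
      out Q x i = 1 ∧ out Q x j = 1 ∧ ∑ m, out Q x m = 2)).card : ℝ) ≤ A) :
    2 * (X.card : ℝ) ≤ S.card * ((S.card : ℝ) - 1) * A := by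
  have h1 := Finset.sum_card_bipartiteAbove_eq_sum_card_bipartiteBelow (s := X) (t := S.offDiag)
    (fun (x : Vtx n d) (p : Fin d × Fin d) => out Q x p.1 = 1 ∧ out Q x p.2 = 1)
  have h2 : 2 * X.card ≤ ∑ x ∈ X, (Finset.bipartiteAbove
      (fun (x : Vtx n d) (p : Fin d × Fin d) => out Q x p.1 = 1 ∧ out Q x p.2 = 1)
      S.offDiag x).card := by
    rw [mul_comm, ← smul_eq_mul]
    refine Finset.card_nsmul_le_sum _ _ _ fun x hx => ?_
    obtain ⟨-, i, hi, j, hj, hij, h3, h4⟩ := hX x hx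
    have hsub : ({(i, j), (j, i)} : Finset (Fin d × Fin d)) ⊆ Finset.bipartiteAbove
        (fun (x : Vtx n d) (p : Fin d × Fin d) => out Q x p.1 = 1 ∧ out Q x p.2 = 1)
        S.offDiag x := by
      intro p hp
      rw [Finset.mem_insert, Finset.mem_singleton] at hp
      rw [Finset.mem_bipartiteAbove, Finset.mem_offDiag]
      rcases hp with rfl | rfl
      · exact ⟨⟨hi, hj, hij⟩, h3, h4⟩
      · exact ⟨⟨hj, hi, hij.symm⟩, h4, h3⟩
    refine le_trans (le_of_eq ?_) (Finset.card_le_card hsub)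
    rw [Finset.card_pair]
    intro h
    exact hij (Prod.mk.inj h).1
  rw [h1] at h2
  have h3 : (∑ p ∈ S.offDiag, ((Finset.bipartiteBelow
      (fun (x : Vtx n d) (p : Fin d × Fin d) => out Q x p.1 = 1 ∧ out Q x p.2 = 1)
      X p).card : ℝ)) ≤ S.offDiag.card • A := by
    refine Finset.sum_le_card_nsmul _ _ _ fun p hp => ?_
    rw [Finset.mem_offDiag] at hp
    refine le_trans ?_ (hA p.1 hp.1 p.2 hp.2.1 hp.2.2)
    have hsub : Finset.bipartiteBelow
        (fun (x : Vtx n d) (p : Fin d × Fin d) => out Q x p.1 = 1 ∧ out Q x p.2 = 1) X p ⊆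
        Finset.univ.filter (fun x : Vtx n d =>
          out Q x p.1 = 1 ∧ out Q x p.2 = 1 ∧ ∑ m, out Q x m = 2) := by
      intro x hx
      rw [Finset.mem_bipartiteBelow] at hx
      rw [Finset.mem_filter]
      exact ⟨Finset.mem_univ _, hx.2.1, hx.2.2, (hX x hx.1).1⟩
    exact_mod_cast Finset.card_le_card hsub
  have h4 : (2 * (X.card : ℝ)) ≤ S.offDiag.card • A := by
    refine le_trans ?_ h3
    exact_mod_cast h2
  refine h4.trans (le_of_eq ?_)
  rw [Finset.offDiag_card, nsmul_eq_mul, Nat.cast_sub (Nat.le_mul_self _)]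
  push_cast
  ring

theorem card_N2_le {Q : BoxT n d} (hQ : Q.1 ≤ Q.2) :
    ((N2 Q).card : ℝ) ≤ 2 * (d : ℝ) ^ 2 * vol Q := by
  classical
  have hv := d_vol_pos Q
  set X₁ := (N2 Q).filter (fun x => ∀ i, out Q x i ≤ 1) with hX₁
  set X₂ := (N2 Q).filter (fun x => ¬ ∀ i, out Q x i ≤ 1) with hX₂
  have hcard : (N2 Q).card = X₁.card + X₂.card :=
    (Finset.card_filter_add_card_filter_not _).symm
  have h1 : 2 * (X₁.card : ℝ) ≤ (Finset.univ : Finset (Fin d)).card *
      (((Finset.univ : Finset (Fin d)).card : ℝ) - 1) * (4 * vol Q) := by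
    refine d_double (Q := Q) Finset.univ X₁ ?_ ?_
    · intro x hx
      rw [hX₁, Finset.mem_filter, d_mem_N2 hQ] at hx
      refine ⟨hx.1, ?_⟩
      rcases d_shape hx.1 with ⟨i, hi⟩ | ⟨-, i, j, hij, h1, h2⟩
      · have := hx.2 i
        omega
      · exact ⟨i, Finset.mem_univ _, j, Finset.mem_univ _, hij, h1, h2⟩
    · intro i _ j _ hij
      refine (d_card_pair hQ hij).trans ?_
      refine div_le_self (by positivity) ?_
      have h1 : (1 : ℝ) ≤ sd Q i := by exact_mod_cast d_sd_pos Q i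
      have h2 : (1 : ℝ) ≤ sd Q j := by exact_mod_cast d_sd_pos Q j
      nlinarith
  have h2 : (X₂.card : ℝ) ≤ d * (2 * vol Q) := by
    have hsub : X₂ ⊆ Finset.univ.biUnion (fun i : Fin d => Finset.univ.filter
        (fun x : Vtx n d => out Q x i = 2 ∧ ∑ m, out Q x m = 2)) := by
      intro x hx
      rw [hX₂, Finset.mem_filter, d_mem_N2 hQ] at hx
      rw [Finset.mem_biUnion]
      rcases d_shape hx.1 with ⟨i, hi⟩ | ⟨h, -⟩
      · exact ⟨i, Finset.mem_univ _, Finset.mem_filter.2 ⟨Finset.mem_univ _, hi, hx.1⟩⟩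
      · exact absurd h hx.2
    have h3 := (Finset.card_le_card hsub).trans Finset.card_biUnion_le
    have h4 : (X₂.card : ℝ) ≤ ∑ i : Fin d, ((Finset.univ.filter
        (fun x : Vtx n d => out Q x i = 2 ∧ ∑ m, out Q x m = 2)).card : ℝ) := by
      exact_mod_cast h3
    refine h4.trans ((Finset.sum_le_card_nsmul _ _ (2 * vol Q) fun i _ => ?_).trans
      (le_of_eq ?_))
    · refine (d_card_straight hQ i).trans (div_le_self (by positivity) ?_)
      exact_mod_cast d_sd_pos Q i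
    · rw [Finset.card_univ, Fintype.card_fin, nsmul_eq_mul]
  rw [Finset.card_univ, Fintype.card_fin] at h1
  rw [hcard]
  push_cast
  nlinarith

theorem Nreg_subset {Q : BoxT n d} (hQ : Q.1 ≤ Q.2) (l : ℕ) : Nreg l Q ⊆ N2 Q := by
  intro x hx
  rw [d_mem_N2 hQ]
  exact ((d_mem_Nreg l Q x).1 hx).2

theorem card_Nreg_le {Q : BoxT n d} (hQ : Q.1 ≤ Q.2) {l : ℕ} (hl : 1 ≤ l) :
    ((Nreg l Q).card : ℝ) ≤ nst l Q := by
  classical
  have hl0 : (0 : ℝ) < l := by exact_mod_cast hl
  have h1 := d_double (Q := Q) (Finset.univ.filter (fun i => sd Q i = l)) (Nreg l Q)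
    (A := 4 * vol Q / (l : ℝ) ^ 2) ?_ ?_
  · unfold nst rr
    have e : 2 * ((Finset.univ.filter (fun i => sd Q i = l)).card : ℝ) *
        (((Finset.univ.filter (fun i => sd Q i = l)).card : ℝ) - 1) * vol Q / (l : ℝ) ^ 2 =
        (((Finset.univ.filter (fun i => sd Q i = l)).card : ℝ) *
        (((Finset.univ.filter (fun i => sd Q i = l)).card : ℝ) - 1) *
          (4 * vol Q / (l : ℝ) ^ 2)) / 2 := by
      field_simp
      ring
    rw [e]
    linarith
  · intro x hx
    have hx' := (d_mem_Nreg l Q x).1 hx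
    refine ⟨hx'.2, ?_⟩
    rcases d_shape hx'.2 with ⟨i, hi⟩ | ⟨-, i, j, hij, h1, h2⟩
    · have := (hx'.1 i).1
      omega
    · exact ⟨i, Finset.mem_filter.2 ⟨Finset.mem_univ _, (hx'.1 i).2 h1⟩, j,
        Finset.mem_filter.2 ⟨Finset.mem_univ _, (hx'.1 j).2 h2⟩, hij, h1, h2⟩
  · intro i hi j hj hij
    refine (d_card_pair hQ hij).trans (le_of_eq ?_)
    rw [(Finset.mem_filter.1 hi).2, (Finset.mem_filter.1 hj).2, pow_two]

/-- regular points sticking out in direction `i` -/
theorem card_Nreg_dir {Q : BoxT n d} (hQ : Q.1 ≤ Q.2) {l : ℕ} (hl : 1 ≤ l) (i : Fin d)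
    (hi : sd Q i = l) :
    (((Nreg l Q).filter (fun z => out Q z i = 1)).card : ℝ) ≤
      4 * ((rr l Q : ℝ) - 1) * vol Q / (l : ℝ) ^ 2 := by
  classical
  set S := (Finset.univ.filter (fun i => sd Q i = l)) with hS
  have hiS : i ∈ S := Finset.mem_filter.2 ⟨Finset.mem_univ _, hi⟩
  have hsub : (Nreg l Q).filter (fun z => out Q z i = 1) ⊆ (S.erase i).biUnion
      (fun j => Finset.univ.filter (fun x : Vtx n d =>
        out Q x i = 1 ∧ out Q x j = 1 ∧ ∑ m, out Q x m = 2)) := by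
    intro x hx
    rw [Finset.mem_filter, d_mem_Nreg] at hx
    obtain ⟨⟨h1, h2⟩, h3⟩ := hx
    rw [Finset.mem_biUnion]
    have h4 : ∃ j ∈ Finset.univ.erase i, out Q x j ≠ 0 := by
      by_contra hcon
      push Not at hcon
      rw [← Finset.add_sum_erase _ _ (Finset.mem_univ i), Finset.sum_eq_zero hcon] at h2
      omega
    obtain ⟨j, hj, hj0⟩ := h4
    have hj1 : out Q x j = 1 := by
      have := (h1 j).1
      omega
    refine ⟨j, Finset.mem_erase.2 ⟨Finset.ne_of_mem_erase hj, Finset.mem_filter.2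
      ⟨Finset.mem_univ _, (h1 j).2 hj1⟩⟩, Finset.mem_filter.2 ⟨Finset.mem_univ _, h3, hj1, h2⟩⟩
  have h3 := (Finset.card_le_card hsub).trans Finset.card_biUnion_le
  have h4 : (((Nreg l Q).filter (fun z => out Q z i = 1)).card : ℝ) ≤
      ∑ j ∈ S.erase i, ((Finset.univ.filter (fun x : Vtx n d =>
        out Q x i = 1 ∧ out Q x j = 1 ∧ ∑ m, out Q x m = 2)).card : ℝ) := by
    exact_mod_cast h3
  refine h4.trans ((Finset.sum_le_card_nsmul _ _ (4 * vol Q / (l : ℝ) ^ 2) fun j hj => ?_).trans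
    (le_of_eq ?_))
  · refine (d_card_pair hQ (Finset.ne_of_mem_erase hj).symm).trans (le_of_eq ?_)
    rw [hi, (Finset.mem_filter.1 (Finset.mem_of_mem_erase hj)).2, pow_two]
  · have h5 : 1 ≤ S.card := Finset.card_pos.2 ⟨i, hiS⟩
    rw [Finset.card_erase_of_mem hiS, nsmul_eq_mul, Nat.cast_sub h5]
    unfold rr
    push_cast
    ring

theorem Nreg_ext {Q : BoxT n d} (hQ : Q.1 ≤ Q.2) {l : ℕ} {x z : Vtx n d} (hx : x ∈ Nreg l Q)
    (hz : z ∈ Nreg l Q) (h : ∀ i, out Q x i = 1 → out Q z i = 0) : z ∈ Nreg l (ext Q x) := by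
  rw [d_mem_Nreg] at hx hz ⊢
  have hout : ∀ i, out (ext Q x) z i = out Q z i := by
    intro i
    have h1 := h i
    have h2 := (hx.1 i).1
    have h3 := d_le hQ i
    unfold out at h1 h2 ⊢
    rw [d_ext1, d_ext2]
    omega
  simp only [hout]
  refine ⟨fun i => ⟨(hz.1 i).1, fun h1 => ?_⟩, hz.2⟩
  rw [d_sd_ext hQ, (hz.1 i).2 h1]
  have h2 := h i
  have h3 := (hx.1 i).1
  omega

theorem vol_ext {Q : BoxT n d} (hQ : Q.1 ≤ Q.2) {l : ℕ} (hl : 1 ≤ l) {x : Vtx n d}
    (hx : x ∈ Nreg l Q) : vol (ext Q x) = vol Q * (((l : ℝ) + 1) / l) ^ 2 := by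
  have hl0 : (l : ℝ) ≠ 0 := by exact_mod_cast (by omega : l ≠ 0)
  unfold vol
  rw [← d_card_out_one hx, ← Finset.prod_const, Finset.prod_filter, ← Finset.prod_mul_distrib]
  refine Finset.prod_congr rfl fun i _ => ?_
  rw [d_sd_ext hQ]
  rw [d_mem_Nreg] at hx
  split_ifs with h
  · rw [h, (hx.1 i).2 h]
    push_cast
    field_simp
  · have := (hx.1 i).1
    have h0 : out Q x i = 0 := by omega
    rw [h0, add_zero, mul_one]

theorem rr_ext {Q : BoxT n d} (hQ : Q.1 ≤ Q.2) {l : ℕ} {x : Vtx n d}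
    (hx : x ∈ Nreg l Q) : rr l (ext Q x) + 2 = rr l Q := by
  classical
  have hc := d_card_out_one hx
  rw [d_mem_Nreg] at hx
  unfold rr
  rw [← hc, ← Finset.card_union_of_disjoint]
  · congr 1
    ext i
    simp only [Finset.mem_union, Finset.mem_filter, Finset.mem_univ, true_and]
    rw [d_sd_ext hQ]
    have h1 := hx.1 i
    constructor
    · rintro (h | h)
      · rcases Nat.eq_zero_or_pos (out Q x i) with h0 | h0
        · omega
        · have := h1.2 (by omega)
          omega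
      · exact h1.2 h
    · intro h
      rcases Nat.eq_zero_or_pos (out Q x i) with h0 | h0
      · left
        omega
      · right
        omega
  · rw [Finset.disjoint_filter]
    intro i _ h h'
    rw [d_sd_ext hQ] at h
    have := (hx.1 i).2 h'
    omega

theorem Exc_ext_reg {Q : BoxT n d} (hQ : Q.1 ≤ Q.2) {l : ℕ} {x : Vtx n d}
    (hx : x ∈ Nreg l Q) : Exc l (ext Q x) = Exc l Q := by
  rw [d_mem_Nreg] at hx
  unfold Exc
  refine Finset.sum_congr rfl fun i _ => ?_
  rw [d_sd_ext hQ]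
  have h1 := hx.1 i
  rcases Nat.eq_zero_or_pos (out Q x i) with h0 | h0
  · rw [h0]
    rfl
  · have := h1.2 (by omega)
    omega

theorem Exc_le_hull {Q P : BoxT n d} (hQ : Q.1 ≤ Q.2) (l : ℕ) :
    Exc l Q ≤ Exc l (hull Q P) := by
  unfold Exc
  refine Finset.sum_le_sum fun i _ => ?_
  have h : sd Q i ≤ sd (hull Q P) i := by
    have h0 := d_le hQ i
    have h1 : ((hull Q P).1 i : ℕ) = min (Q.1 i : ℕ) (P.1 i) := by
      unfold hull
      rw [← d_coe_inf]
      rfl
    have h2 : ((hull Q P).2 i : ℕ) = max (Q.2 i : ℕ) (P.2 i) := by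
      unfold hull
      rw [← d_coe_sup]
      rfl
    unfold sd
    rw [h1, h2]
    omega
  omega

theorem d_card_lt_le (l : ℕ) (Q : BoxT n d) :
    (Finset.univ.filter (fun i => sd Q i < l)).card ≤ Lag l Q := by
  unfold Lag
  rw [Finset.card_filter]
  refine Finset.sum_le_sum fun i _ => ?_
  split_ifs <;> omega

theorem d_Exc_eq {Q : BoxT n d} (hQ : Q.1 ≤ Q.2) {l : ℕ} {x : Vtx n d}
    (h : Exc l (ext Q x) = Exc l Q) (i : Fin d) (hi : 1 ≤ out Q x i) :
    sd Q i + out Q x i ≤ l + 1 := by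
  by_contra hcon
  push Not at hcon
  have hlt : Exc l Q < Exc l (ext Q x) := by
    unfold Exc
    refine Finset.sum_lt_sum (fun j _ => ?_) ⟨i, Finset.mem_univ _, ?_⟩
    · rw [d_sd_ext hQ]
      omega
    · rw [d_sd_ext hQ]
      omega
  omega

open Classical in
/-- the points which are neither regular nor increase the excess use a lagging direction -/
theorem card_lag_le {Q : BoxT n d} (hQ : Q.1 ≤ Q.2) {l : ℕ} (hl : 1 ≤ l) :
    (((N2 Q).filter (fun x => x ∉ Nreg l Q ∧ Exc l (ext Q x) = Exc l Q)).card : ℝ) ≤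
      4 * vol Q * Lag l Q * (nle l Q + 1) := by
  have hv := d_vol_pos Q
  set A : Finset (Fin d) := Finset.univ.filter (fun i => sd Q i < l) with hA
  set B : Finset (Fin d) := Finset.univ.filter (fun i => sd Q i ≤ l) with hB
  have hsub : (N2 Q).filter (fun x => x ∉ Nreg l Q ∧ Exc l (ext Q x) = Exc l Q) ⊆
      (A.biUnion fun i => (B.erase i).biUnion fun j => Finset.univ.filter (fun x : Vtx n d =>
        out Q x i = 1 ∧ out Q x j = 1 ∧ ∑ m, out Q x m = 2)) ∪
      (A.biUnion fun i => Finset.univ.filter (fun x : Vtx n d =>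
        out Q x i = 2 ∧ ∑ m, out Q x m = 2)) := by
    intro x hx
    rw [Finset.mem_filter, d_mem_N2 hQ] at hx
    obtain ⟨hs, hreg, hexc⟩ := hx
    have hE := d_Exc_eq hQ hexc
    rw [Finset.mem_union]
    rcases d_shape hs with ⟨i, hi⟩ | ⟨hle, i, j, hij, h1, h2⟩
    · right
      rw [Finset.mem_biUnion]
      have := hE i (by omega)
      exact ⟨i, Finset.mem_filter.2 ⟨Finset.mem_univ _, by omega⟩,
        Finset.mem_filter.2 ⟨Finset.mem_univ _, hi, hs⟩⟩
    · left
      have e1 := hE i (by omega)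
      have e2 := hE j (by omega)
      -- one of the two directions lags
      have h3 : sd Q i < l ∨ sd Q j < l := by
        by_contra hcon
        push Not at hcon
        apply hreg
        rw [d_mem_Nreg]
        refine ⟨fun m => ⟨hle m, fun hm => ?_⟩, hs⟩
        by_cases hmi : m = i
        · rw [hmi]
          omega
        · by_cases hmj : m = j
          · rw [hmj]
            omega
          · exfalso
            rw [← Finset.add_sum_erase _ _ (Finset.mem_univ i), ← Finset.add_sum_erase _ _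
              (Finset.mem_erase.2 ⟨hij.symm, Finset.mem_univ j⟩), ← Finset.add_sum_erase _ _
              (Finset.mem_erase.2 ⟨hmj, Finset.mem_erase.2 ⟨hmi, Finset.mem_univ m⟩⟩)] at hs
            omega
      rw [Finset.mem_biUnion]
      rcases h3 with h3 | h3
      · refine ⟨i, Finset.mem_filter.2 ⟨Finset.mem_univ _, h3⟩, ?_⟩
        rw [Finset.mem_biUnion]
        exact ⟨j, Finset.mem_erase.2 ⟨hij.symm, Finset.mem_filter.2 ⟨Finset.mem_univ _,
          by omega⟩⟩, Finset.mem_filter.2 ⟨Finset.mem_univ _, h1, h2, hs⟩⟩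
      · refine ⟨j, Finset.mem_filter.2 ⟨Finset.mem_univ _, h3⟩, ?_⟩
        rw [Finset.mem_biUnion]
        exact ⟨i, Finset.mem_erase.2 ⟨hij, Finset.mem_filter.2 ⟨Finset.mem_univ _,
          by omega⟩⟩, Finset.mem_filter.2 ⟨Finset.mem_univ _, h2, h1, hs⟩⟩
  have h1 := (Finset.card_le_card hsub).trans (Finset.card_union_le _ _)
  have h2 : ((A.biUnion fun i => (B.erase i).biUnion fun j =>
      Finset.univ.filter (fun x : Vtx n d =>
        out Q x i = 1 ∧ out Q x j = 1 ∧ ∑ m, out Q x m = 2)).card : ℝ) ≤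
      A.card * (B.card * (4 * vol Q)) := by
    have h3 : ((A.biUnion fun i => (B.erase i).biUnion fun j =>
        Finset.univ.filter (fun x : Vtx n d =>
          out Q x i = 1 ∧ out Q x j = 1 ∧ ∑ m, out Q x m = 2)).card : ℝ) ≤
        ∑ i ∈ A, (((B.erase i).biUnion fun j => Finset.univ.filter (fun x : Vtx n d =>
          out Q x i = 1 ∧ out Q x j = 1 ∧ ∑ m, out Q x m = 2)).card : ℝ) := by
      exact_mod_cast Finset.card_biUnion_le
    refine h3.trans ((Finset.sum_le_card_nsmul _ _ (B.card * (4 * vol Q))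
      fun i _ => ?_).trans (le_of_eq (by rw [nsmul_eq_mul])))
    have h4 : (((B.erase i).biUnion fun j => Finset.univ.filter (fun x : Vtx n d =>
          out Q x i = 1 ∧ out Q x j = 1 ∧ ∑ m, out Q x m = 2)).card : ℝ) ≤
        ∑ j ∈ B.erase i, ((Finset.univ.filter (fun x : Vtx n d =>
          out Q x i = 1 ∧ out Q x j = 1 ∧ ∑ m, out Q x m = 2)).card : ℝ) := by
      exact_mod_cast Finset.card_biUnion_le
    refine h4.trans ((Finset.sum_le_card_nsmul _ _ (4 * vol Q) fun j hj => ?_).trans ?_)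
    · refine (d_card_pair hQ (Finset.ne_of_mem_erase hj).symm).trans ?_
      refine div_le_self (by positivity) ?_
      have h1 : (1 : ℝ) ≤ sd Q i := by exact_mod_cast d_sd_pos Q i
      have h2 : (1 : ℝ) ≤ sd Q j := by exact_mod_cast d_sd_pos Q j
      nlinarith
    · rw [nsmul_eq_mul]
      refine mul_le_mul_of_nonneg_right ?_ (by positivity)
      exact_mod_cast Finset.card_erase_le
  have h3 : ((A.biUnion fun i => Finset.univ.filter (fun x : Vtx n d =>
        out Q x i = 2 ∧ ∑ m, out Q x m = 2)).card : ℝ) ≤ A.card * (2 * vol Q) := by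
    have h4 : ((A.biUnion fun i => Finset.univ.filter (fun x : Vtx n d =>
        out Q x i = 2 ∧ ∑ m, out Q x m = 2)).card : ℝ) ≤
        ∑ i ∈ A, ((Finset.univ.filter (fun x : Vtx n d =>
          out Q x i = 2 ∧ ∑ m, out Q x m = 2)).card : ℝ) := by
      exact_mod_cast Finset.card_biUnion_le
    refine h4.trans ((Finset.sum_le_card_nsmul _ _ (2 * vol Q) fun i _ => ?_).trans
      (le_of_eq (by rw [nsmul_eq_mul])))
    refine (d_card_straight hQ i).trans (div_le_self (by positivity) ?_)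
    exact_mod_cast d_sd_pos Q i
  have h4 : (A.card : ℝ) ≤ Lag l Q := by exact_mod_cast d_card_lt_le l Q
  have h5 : (B.card : ℝ) = nle l Q := rfl
  have h6 : (((N2 Q).filter (fun x => x ∉ Nreg l Q ∧ Exc l (ext Q x) = Exc l Q)).card : ℝ) ≤
      ((A.biUnion fun i => (B.erase i).biUnion fun j =>
        Finset.univ.filter (fun x : Vtx n d =>
          out Q x i = 1 ∧ out Q x j = 1 ∧ ∑ m, out Q x m = 2)).card : ℝ) +
      ((A.biUnion fun i => Finset.univ.filter (fun x : Vtx n d =>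
        out Q x i = 2 ∧ ∑ m, out Q x m = 2)).card : ℝ) := by
    exact_mod_cast h1
  refine h6.trans ((add_le_add h2 h3).trans ?_)
  rw [h5]
  have h7 : (A.card : ℝ) * (nle l Q * (4 * vol Q)) + A.card * (2 * vol Q) ≤
      A.card * (4 * vol Q * (nle l Q + 1)) := by
    have : (0 : ℝ) ≤ A.card * vol Q := by positivity
    nlinarith
  refine h7.trans ?_
  have h8 : (0 : ℝ) ≤ 4 * vol Q * (nle l Q + 1) := by positivity
  have h9 := mul_le_mul_of_nonneg_right h4 h8
  linarith

end Pool.Agent.Lib.MP_8501c9_pr.Mid
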