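import Pool.Agent.Lib.MP_8501c9_pr.Mid.Defs2

/-!
# Definitions: states of the growth strategy, seeds, the constant of the asymptotics
-/

set_option autoImplicit false
open Set

namespace Pool.Agent.Lib.MP_8501c9_pr.Mid

open Pool.Agent.Lib.MP_8501c9_pr

variable {n d : ℕ}

/-- bound for the number of sites looked at before size `t` -/
noncomputable def zb (d t : ℕ) : ℝ :=
  1 + ∑ s ∈ Finset.range t, (2 * (rem d s : ℝ) ^ 2 + 4) * Real.exp (sfun d s)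

/-- states of the growth strategy: previous box, current box, sites looked at -/
structure St (z : Vtx n d) (Q' Q : BoxT n d) (Z : Finset (Vtx n d)) : Prop where
  le' : Q'.1 ≤ Q'.2
  le : Q.1 ≤ Q.2
  sub1 : Q.1 ≤ Q'.1
  sub2 : Q'.2 ≤ Q.2
  mem1 : Q.1 ≤ z
  mem2 : z ≤ Q.2
  bal : Balanced Q
  outs_le : ∀ y ∈ Z, outs Q' y ≤ 2
  card_le : (Z.card : ℝ) ≤ zb d (phi Q)
  enl : (phi Q = 0 ∧ Q' = Q) ∨ ∃ i j : Fin d, i ≠ j ∧ sd Q' i + 1 = sd Q i ∧ sd Q' j + 1 = sd Q j ∧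
    (∀ a, a ≠ i → a ≠ j → sd Q' a = sd Q a) ∧
    ((sd Q i ≠ lev d (phi Q) ∧ sd Q j ≠ lev d (phi Q)) ∨ d ≤ rem d (phi Q) + 1)

open Classical in
/-- pairs of a point of the cell and a seed containing it -/
noncomputable def seedJ (K B : ℕ) (o : Fin d → ℕ) : Finset (Vtx n d × Finset (Vtx n d)) :=
  Finset.univ.filter (fun j => j.1 ∈ nbox o (fun _ => B) ∧ j.1 ∈ j.2 ∧ j.2.card = K + 1 ∧
    ∀ y ∈ j.2, ∑ i, (((y i : ℕ) - j.1 i) + ((j.1 i : ℕ) - y i)) ≤ 2 * K)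

/-! ### the constant -/

/-- the minimiser in the definition of the rate function -/
noncomputable def aopt (b : ℝ) : ℝ :=
  sInf {a : ℝ | 0 < a ∧ 2 * b ≤ a * vfun a - ∫ u in (0 : ℝ)..a, vfun u}

/-- the sum of `log (l² x_l / 2)` over the levels, linearly interpolated -/
noncomputable def levsum (xs : ℕ → ℝ) (a : ℝ) : ℝ :=
  ∑ l ∈ Finset.range ⌊a⌋₊, Real.log (((l : ℝ) + 1) ^ 2 * xs (l + 1) / 2) +
    (a - ⌊a⌋₊) * Real.log (((⌊a⌋₊ : ℝ) + 1) ^ 2 * xs (⌊a⌋₊ + 1) / 2)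

/-- the bracket in the expansion of the exponent -/
noncomputable def brk (xs : ℕ → ℝ) (a : ℝ) : ℝ :=
  a + (1 - (a - ⌊a⌋₊)) * Real.log (1 - (a - ⌊a⌋₊)) + vfun a / 2 + levsum xs a / 2

/-- the constant in the asymptotics -/
noncomputable def cexp (b : ℝ) : ℝ := (2 * brk lam (aopt b) + 2 * vfun (aopt b)) / aopt b

/-- the exponent of the first moment at the critical size `k` -/
noncomputable def Fex (xs : ℕ → ℝ) (n d k : ℕ) : ℝ :=
  d * Real.log n + ∑ t ∈ Finset.range k, ax xs d t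

end Pool.Agent.Lib.MP_8501c9_pr.Mid
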