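import Pool.Agent.Lib.MP_8501c9_pr.Mid.Defs

/-!
# Sets of points extending a box by exactly two each
-/

set_option autoImplicit false
open Set

namespace Pool.Agent.Lib.MP_8501c9_pr.Mid

open Pool.Agent.Lib.MP_8501c9_pr

variable {n d : ℕ}

theorem b_ext_fst (Q : BoxT n d) (x : Vtx n d) (i : Fin d) :
    (((ext Q x).1 i : Fin n) : ℕ) = min (Q.1 i : ℕ) (x i) := by
  change ((Q.1 i ⊓ x i : Fin n) : ℕ) = _
  rcases le_total (Q.1 i) (x i) with h | h
  · rw [inf_eq_left.2 h, min_eq_left (by exact_mod_cast h)]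
  · rw [inf_eq_right.2 h, min_eq_right (by exact_mod_cast h)]

theorem b_ext_snd (Q : BoxT n d) (x : Vtx n d) (i : Fin d) :
    (((ext Q x).2 i : Fin n) : ℕ) = max (Q.2 i : ℕ) (x i) := by
  change ((Q.2 i ⊔ x i : Fin n) : ℕ) = _
  rcases le_total (Q.2 i) (x i) with h | h
  · rw [sup_eq_right.2 h, max_eq_right (by exact_mod_cast h)]
  · rw [sup_eq_left.2 h, max_eq_left (by exact_mod_cast h)]

theorem phi_ext {Q : BoxT n d} (hQ : Q.1 ≤ Q.2) (x : Vtx n d) :
    phi (ext Q x) = phi Q + ∑ i, out Q x i := by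
  unfold phi
  rw [← Finset.sum_add_distrib]
  refine Finset.sum_congr rfl fun i _ => ?_
  rw [b_ext_fst, b_ext_snd, out]
  have h : (Q.1 i : ℕ) ≤ Q.2 i := hQ i
  omega

theorem ext_le {Q : BoxT n d} (hQ : Q.1 ≤ Q.2) (x : Vtx n d) : (ext Q x).1 ≤ (ext Q x).2 := by
  exact (inf_le_left : Q.1 ⊓ x ≤ Q.1).trans (hQ.trans (le_sup_left : Q.2 ≤ Q.2 ⊔ x))

theorem Ext2.le {Q R : BoxT n d} {T : Finset (Vtx n d)} (h : Ext2 Q T R) (hQ : Q.1 ≤ Q.2) :
    R.1 ≤ R.2 := by
  induction h with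
  | nil => exact hQ
  | cons h x hx ih => exact ext_le ih x

/-- the new box contains the old one -/
theorem Ext2.sub {Q R : BoxT n d} {T : Finset (Vtx n d)} (h : Ext2 Q T R) :
    R.1 ≤ Q.1 ∧ Q.2 ≤ R.2 := by
  induction h with
  | nil => exact ⟨le_rfl, le_rfl⟩
  | cons h x hx ih =>
    exact ⟨(inf_le_left : _ ⊓ x ≤ _).trans ih.1, ih.2.trans (le_sup_left : _ ≤ _ ⊔ x)⟩

/-- the new box contains the points -/
theorem Ext2.mem {Q R : BoxT n d} {T : Finset (Vtx n d)} (h : Ext2 Q T R) :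
    ∀ z ∈ T, R.1 ≤ z ∧ z ≤ R.2 := by
  induction h with
  | nil => intro z hz; simp at hz
  | @cons K B h x hx ih =>
    intro z hz
    rcases Finset.mem_insert.1 hz with rfl | hz
    · exact ⟨(inf_le_right : B.1 ⊓ z ≤ z), (le_sup_right : z ≤ B.2 ⊔ z)⟩
    · exact ⟨(inf_le_left : B.1 ⊓ x ≤ B.1).trans (ih z hz).1,
        (ih z hz).2.trans (le_sup_left : B.2 ≤ B.2 ⊔ x)⟩

/-- the new box is the least one containing the old one and the points -/
theorem Ext2.least {Q R : BoxT n d} {T : Finset (Vtx n d)} (h : Ext2 Q T R) (c e : Vtx n d)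
    (h1 : c ≤ Q.1) (h2 : Q.2 ≤ e) (h3 : ∀ z ∈ T, c ≤ z ∧ z ≤ e) : c ≤ R.1 ∧ R.2 ≤ e := by
  induction h with
  | nil => exact ⟨h1, h2⟩
  | @cons K B h x hx ih =>
    have hi := ih fun z hz => h3 z (Finset.mem_insert_of_mem hz)
    have hx' := h3 x (Finset.mem_insert_self _ _)
    exact ⟨le_inf hi.1 hx'.1, sup_le hi.2 hx'.2⟩

/-- a point extending the size of the box is not in the box -/
theorem b_notMem {B : BoxT n d} {x : Vtx n d} (hx : phi (ext B x) = phi B + 2)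
    (h : B.1 ≤ x ∧ x ≤ B.2) : False := by
  have e : ext B x = B := by
    unfold ext hull
    simp only
    rw [inf_eq_left.2 h.1, sup_eq_left.2 h.2]
  rw [e] at hx
  omega

theorem Ext2.notMem {Q B : BoxT n d} {T : Finset (Vtx n d)} (h : Ext2 Q T B) {x : Vtx n d}
    (hx : phi (ext B x) = phi B + 2) : x ∉ T := fun hxT => b_notMem hx (h.mem x hxT)

theorem Ext2.phi_eq {Q R : BoxT n d} {T : Finset (Vtx n d)} (h : Ext2 Q T R) (hQ : Q.1 ≤ Q.2) :
    phi R = phi Q + 2 * T.card := by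
  induction h with
  | nil => simp
  | cons h x hx ih =>
    rw [hx, ih, Finset.card_insert_of_notMem (h.notMem hx)]
    ring

theorem Ext2.unique {Q R R' : BoxT n d} {T : Finset (Vtx n d)} (h : Ext2 Q T R)
    (h' : Ext2 Q T R') : R = R' := by
  have h1 := h.least R'.1 R'.2 h'.sub.1 h'.sub.2 h'.mem
  have h2 := h'.least R.1 R.2 h.sub.1 h.sub.2 h.mem
  exact Prod.ext (le_antisymm h2.1 h1.1) (le_antisymm h1.2 h2.2)

theorem b_mem_N2 {Q : BoxT n d} {x : Vtx n d} : x ∈ N2 Q ↔ phi (ext Q x) = phi Q + 2 := by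
  simp [N2]

theorem Ext2.exists_mem {Q R : BoxT n d} {T : Finset (Vtx n d)} (h : Ext2 Q T R)
    (hT : T.Nonempty) : ∃ x ∈ T, x ∈ N2 Q := by
  induction h with
  | nil => simp at hT
  | @cons K B h x hx ih =>
    rcases K.eq_empty_or_nonempty with hK | hK
    · subst hK
      have e : B = Q := h.unique Ext2.nil
      refine ⟨x, Finset.mem_insert_self _ _, ?_⟩
      rw [b_mem_N2, ← e]
      exact hx
    · obtain ⟨y, hy, hy'⟩ := ih hK
      exact ⟨y, Finset.mem_insert_of_mem hy, hy'⟩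

/-- the distance to a larger box is smaller -/
theorem b_out_mono {Q B : BoxT n d} (h1 : B.1 ≤ Q.1) (h2 : Q.2 ≤ B.2) (x : Vtx n d) (i : Fin d) :
    out B x i ≤ out Q x i := by
  unfold out
  have a1 : (B.1 i : ℕ) ≤ Q.1 i := h1 i
  have a2 : (Q.2 i : ℕ) ≤ B.2 i := h2 i
  omega

theorem b_phi_ext_iff {Q : BoxT n d} (hQ : Q.1 ≤ Q.2) (x : Vtx n d) :
    phi (ext Q x) = phi Q + 2 ↔ ∑ i, out Q x i = 2 := by
  rw [phi_ext hQ]
  omega

theorem b_ext_comm (B : BoxT n d) (x z : Vtx n d) : ext (ext B x) z = ext (ext B z) x := by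
  unfold ext hull
  simp only
  rw [inf_right_comm, sup_right_comm]

/-- the points can be added after a point at distance two from both boxes -/
theorem Ext2.add {Q B : BoxT n d} {K : Finset (Vtx n d)} (hQ : Q.1 ≤ Q.2) (h : Ext2 Q K B)
    {x : Vtx n d} (h1 : phi (ext Q x) = phi Q + 2) (h2 : phi (ext B x) = phi B + 2) :
    Ext2 (ext Q x) K (ext B x) := by
  induction h with
  | nil => exact Ext2.nil
  | @cons K B h z hz ih =>
    have hB : B.1 ≤ B.2 := h.le hQ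
    have hB' : (ext B z).1 ≤ (ext B z).2 := ext_le hB z
    have e1 : ∑ i, out Q x i = 2 := (b_phi_ext_iff hQ x).1 h1
    have e2 : ∑ i, out (ext B z) x i = 2 := (b_phi_ext_iff hB' x).1 h2
    have l1 : ∑ i, out (ext B z) x i ≤ ∑ i, out B x i :=
      Finset.sum_le_sum fun i _ => b_out_mono (inf_le_left : B.1 ⊓ z ≤ B.1)
        (le_sup_left : B.2 ≤ B.2 ⊔ z) x i
    have l2 : ∑ i, out B x i ≤ ∑ i, out Q x i :=
      Finset.sum_le_sum fun i _ => b_out_mono h.sub.1 h.sub.2 x i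
    have e3 : phi (ext B x) = phi B + 2 := (b_phi_ext_iff hB x).2 (by omega)
    have h4 := ih e3
    have h5 : phi (ext (ext B x) z) = phi (ext B x) + 2 := by
      rw [b_ext_comm, h2, hz, e3]
    have h6 := Ext2.cons h4 z h5
    rw [b_ext_comm] at h6
    exact h6

theorem Ext2.peel {Q R : BoxT n d} {T : Finset (Vtx n d)} (hQ : Q.1 ≤ Q.2) (h : Ext2 Q T R)
    {x : Vtx n d} (hxT : x ∈ T) (hx : x ∈ N2 Q) : Ext2 (ext Q x) (T.erase x) R := by
  rw [b_mem_N2] at hx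
  induction h with
  | nil => simp at hxT
  | @cons K B h z hz ih =>
    have hzK : z ∉ K := h.notMem hz
    rcases eq_or_ne x z with rfl | hne
    · rw [Finset.erase_insert hzK]
      exact h.add hQ hx hz
    · have hxK : x ∈ K := by
        rcases Finset.mem_insert.1 hxT with h0 | h0
        · exact absurd h0 hne
        · exact h0
      rw [Finset.erase_insert_of_ne hne.symm]
      exact Ext2.cons (ih hxK) z hz

theorem Fz_nonneg {p : ℝ} (hp : 0 ≤ p) {g : BoxT n d → ℝ} (hg : ∀ R, 0 ≤ g R)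
    (Z : Finset (Vtx n d)) (Q : BoxT n d) : 0 ≤ Fz p g Z Q := by
  unfold Fz
  refine Finset.sum_nonneg fun T _ => Finset.sum_nonneg fun R _ => ?_
  exact mul_nonneg (pow_nonneg hp _) (hg R)

/-- monotone in `g` on the honest boxes of at least the size of `Q` -/
theorem Fz_mono {p : ℝ} (hp : 0 ≤ p) {g g' : BoxT n d → ℝ} (Z : Finset (Vtx n d))
    {Q : BoxT n d} (hQ : Q.1 ≤ Q.2) (h : ∀ R : BoxT n d, R.1 ≤ R.2 → phi Q ≤ phi R → g R ≤ g' R) :
    Fz p g Z Q ≤ Fz p g' Z Q := by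
  unfold Fz
  refine Finset.sum_le_sum fun T _ => Finset.sum_le_sum fun R hR => ?_
  simp only [Finset.mem_filter, Finset.mem_univ, true_and] at hR
  have hE := hR
  refine mul_le_mul_of_nonneg_left (h R (hE.le hQ) ?_) (pow_nonneg hp _)
  rw [hE.phi_eq hQ]
  omega

theorem Fz_smul (p a : ℝ) (g : BoxT n d → ℝ) (Z : Finset (Vtx n d)) (Q : BoxT n d) :
    Fz p (fun R => a * g R) Z Q = a * Fz p g Z Q := by
  unfold Fz
  rw [Finset.mul_sum]
  refine Finset.sum_congr rfl fun T _ => ?_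
  rw [Finset.mul_sum]
  refine Finset.sum_congr rfl fun R _ => ?_
  ring

theorem b_sum_le_of_inj {α τ : Type*} [DecidableEq τ] (S : Finset α) (T : Finset τ) (f : α → ℝ)
    (g : τ → ℝ) (φ : α → τ) (hφ : ∀ a ∈ S, φ a ∈ T) (hinj : Set.InjOn φ (S : Set α))
    (hfg : ∀ a ∈ S, f a = g (φ a)) (hg : ∀ t ∈ T, 0 ≤ g t) : ∑ a ∈ S, f a ≤ ∑ t ∈ T, g t := by
  rw [Finset.sum_congr rfl hfg, ← Finset.sum_image (f := g) hinj]
  refine Finset.sum_le_sum_of_subset_of_nonneg ?_ fun t ht _ => hg t ht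
  intro t ht
  obtain ⟨a, ha, rfl⟩ := Finset.mem_image.mp ht
  exact hφ a ha

theorem b_rk_inj : Function.Injective (rk : Vtx n d → ℕ) := by
  intro x y h
  unfold rk at h
  exact (Fintype.equivFin (Vtx n d)).injective (Fin.ext h)

/-- peeling off the smallest point near `Q` -/
theorem Fz_le {p : ℝ} (hp : 0 ≤ p) {g : BoxT n d → ℝ} (hg : ∀ R, 0 ≤ g R)
    (Z : Finset (Vtx n d)) {Q : BoxT n d} (hQ : Q.1 ≤ Q.2) :
    Fz p g Z Q ≤ g Q + ∑ x ∈ N2 Q \ Z, p * Fz p g (Znext Q Z x) (ext Q x) := by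
  classical
  -- the smallest near point
  have hex : ∀ T : Finset (Vtx n d), ∃ x : Vtx n d, (∃ y ∈ T, y ∈ N2 Q) →
      (x ∈ T ∧ x ∈ N2 Q) ∧ ∀ y ∈ T, y ∈ N2 Q → rk x ≤ rk y := by
    intro T
    by_cases h : ∃ y ∈ T, y ∈ N2 Q
    · obtain ⟨y, hy1, hy2⟩ := h
      have hne : (T.filter (fun y => y ∈ N2 Q)).Nonempty :=
        ⟨y, Finset.mem_filter.2 ⟨hy1, hy2⟩⟩
      obtain ⟨x, hx, hmin⟩ := Finset.exists_min_image _ rk hne
      refine ⟨x, fun _ => ⟨Finset.mem_filter.1 hx, fun y hy hy' => ?_⟩⟩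
      exact hmin y (Finset.mem_filter.2 ⟨hy, hy'⟩)
    · exact ⟨Q.1, fun h' => absurd h' h⟩
  choose X hX using hex
  set S : Finset ((_ : Finset (Vtx n d)) × BoxT n d) :=
    (Finset.univ.filter (fun T : Finset (Vtx n d) => Disjoint T Z)).sigma
      (fun T => Finset.univ.filter (fun R => Ext2 Q T R)) with hS
  have hF : Fz p g Z Q = ∑ a ∈ S, p ^ a.1.card * g a.2 := by
    rw [hS, Finset.sum_sigma]
    rfl
  have hsplit : ∑ a ∈ S, p ^ a.1.card * g a.2 =
      ∑ a ∈ S.filter (fun a => a.1 = ∅), p ^ a.1.card * g a.2 +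
        ∑ a ∈ S.filter (fun a => ¬ a.1 = ∅), p ^ a.1.card * g a.2 := by
    rw [Finset.sum_filter_add_sum_filter_not]
  have hmem : ∀ a : (_ : Finset (Vtx n d)) × BoxT n d, a ∈ S ↔ Disjoint a.1 Z ∧ Ext2 Q a.1 a.2 := by
    intro a
    rw [hS, Finset.mem_sigma, Finset.mem_filter, Finset.mem_filter]
    simp
  rw [hF, hsplit]
  refine add_le_add ?_ ?_
  · -- the empty set
    have hsub : S.filter (fun a => a.1 = ∅) ⊆ {⟨∅, Q⟩} := by
      intro a ha
      obtain ⟨ha1, ha2⟩ := Finset.mem_filter.1 ha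
      obtain ⟨-, ha3⟩ := (hmem a).1 ha1
      obtain ⟨T, R⟩ := a
      simp only at ha2 ha3
      subst ha2
      have e : R = Q := ha3.unique Ext2.nil
      rw [e]
      exact Finset.mem_singleton_self _
    refine (Finset.sum_le_sum_of_subset_of_nonneg hsub fun a _ _ => ?_).trans ?_
    · exact mul_nonneg (pow_nonneg hp _) (hg _)
    · simp
  · set W : Finset ((_ : Vtx n d) × ((_ : Finset (Vtx n d)) × BoxT n d)) :=
      (N2 Q \ Z).sigma (fun x =>
        (Finset.univ.filter (fun T : Finset (Vtx n d) => Disjoint T (Znext Q Z x))).sigma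
          (fun T => Finset.univ.filter (fun R => Ext2 (ext Q x) T R))) with hW
    have hR : ∑ x ∈ N2 Q \ Z, p * Fz p g (Znext Q Z x) (ext Q x) =
        ∑ t ∈ W, p * (p ^ t.2.1.card * g t.2.2) := by
      rw [hW, Finset.sum_sigma]
      refine Finset.sum_congr rfl fun x _ => ?_
      rw [Finset.sum_sigma]
      unfold Fz
      rw [Finset.mul_sum]
      refine Finset.sum_congr rfl fun T _ => ?_
      rw [Finset.mul_sum]
    rw [hR]
    have hkey : ∀ a ∈ S.filter (fun a => ¬ a.1 = ∅), Disjoint a.1 Z ∧ Ext2 Q a.1 a.2 ∧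
        (X a.1 ∈ a.1 ∧ X a.1 ∈ N2 Q) ∧ ∀ y ∈ a.1, y ∈ N2 Q → rk (X a.1) ≤ rk y := by
      intro a ha
      obtain ⟨ha1, ha2⟩ := Finset.mem_filter.1 ha
      obtain ⟨h1, h2⟩ := (hmem a).1 ha1
      have h3 := h2.exists_mem (Finset.nonempty_iff_ne_empty.2 ha2)
      exact ⟨h1, h2, hX a.1 h3⟩
    apply b_sum_le_of_inj _ W _ (fun t => p * (p ^ t.2.1.card * g t.2.2))
      (fun a => ⟨X a.1, ⟨a.1.erase (X a.1), a.2⟩⟩)
    · intro a ha
      obtain ⟨h1, h2, h3, h4⟩ := hkey a ha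
      rw [hW, Finset.mem_sigma, Finset.mem_sigma, Finset.mem_filter, Finset.mem_filter]
      refine ⟨Finset.mem_sdiff.2 ⟨h3.2, Finset.disjoint_left.1 h1 h3.1⟩,
        ⟨Finset.mem_univ _, ?_⟩, ⟨Finset.mem_univ _, ?_⟩⟩
      · rw [Finset.disjoint_left]
        intro y hy hy'
        have hy1 : y ∈ a.1 := Finset.mem_of_mem_erase hy
        have hy2 : y ≠ X a.1 := Finset.ne_of_mem_erase hy
        simp only [Znext, Finset.mem_union, Finset.mem_filter] at hy'
        rcases hy' with h | h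
        · exact Finset.disjoint_left.1 h1 hy1 h
        · exact hy2 (b_rk_inj (le_antisymm h.2 (h4 y hy1 h.1)))
      · exact h2.peel hQ h3.1 h3.2
    · intro a ha b hb he
      obtain ⟨h1, h2, h3, h4⟩ := hkey a ha
      obtain ⟨k1, k2, k3, k4⟩ := hkey b hb
      obtain ⟨T, R⟩ := a
      obtain ⟨T', R'⟩ := b
      simp only [Sigma.mk.injEq, heq_eq_eq] at he
      obtain ⟨e1, e2, e3⟩ := he
      simp only at h3 k3
      have e4 : T = T' := by
        rw [← Finset.insert_erase h3.1, ← Finset.insert_erase k3.1, e2, e1]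
      rw [e4, e3]
    · intro a ha
      obtain ⟨h1, h2, h3, h4⟩ := hkey a ha
      have hc : a.1.card = (a.1.erase (X a.1)).card + 1 :=
        (Finset.card_erase_add_one h3.1).symm
      simp only
      rw [hc, pow_succ]
      ring
    · intro t _
      exact mul_nonneg hp (mul_nonneg (pow_nonneg hp _) (hg _))

end Pool.Agent.Lib.MP_8501c9_pr.Mid
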