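import Pool.Agent.Lib.MP_8501c9_pr.Closure
import Pool.Agent.Lib.MP_8501c9_pr.Cube
import Pool.Agent.Lib.MP_8501c9_pr.Mid.Ext2
import Pool.Agent.Lib.MP_8501c9_pr.Mid.Defs3

/-!
# Growth of boxes by single points; percolation from one internally filled box
-/

set_option autoImplicit false
open Set

namespace Pool.Agent.Lib.MP_8501c9_pr.Mid

open Pool.Agent.Lib.MP_8501c9_pr

theorem j_adj {n d : ℕ} (x : Vtx n d) (i : Fin d) (v : ℕ) (hv : v < n)
    (h : v + 1 = x i ∨ (x i : ℕ) + 1 = v) : Adj (Function.update x i ⟨v, hv⟩) x := by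
  refine ⟨i, fun l hl => by rw [Function.update_of_ne hl], ?_⟩
  rw [Function.update_self]
  rcases h with h | h
  · exact Or.inl h
  · exact Or.inr h

/-- filling one more layer -/
theorem j_grow_one {n d : ℕ} {U : Set (Vtx n d)} (hU : Closed U) {Q : BoxT n d} (hQ : Q.1 ≤ Q.2)
    (h : ∀ x, Q.1 ≤ x → x ≤ Q.2 → x ∈ U) {x : Vtx n d} (hx : x ∈ U) (i : Fin d)
    (hi : out Q x i = 1) (hj : ∀ j, j ≠ i → out Q x j = 0) :
    ∀ y, (ext Q x).1 ≤ y → y ≤ (ext Q x).2 → y ∈ U := by
  intro y hy1 hy2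
  have hQi : (Q.1 i : ℕ) ≤ Q.2 i := hQ i
  have hyi1 : min (Q.1 i : ℕ) (x i) ≤ y i := by
    rw [← b_ext_fst]
    exact hy1 i
  have hyi2 : (y i : ℕ) ≤ max (Q.2 i : ℕ) (x i) := by
    rw [← b_ext_snd]
    exact hy2 i
  have hyj : ∀ j, j ≠ i → (Q.1 j : ℕ) ≤ y j ∧ (y j : ℕ) < Q.2 j + 1 := by
    intro j hji
    have h1 : min (Q.1 j : ℕ) (x j) ≤ y j := by
      rw [← b_ext_fst]
      exact hy1 j
    have h2 : (y j : ℕ) ≤ max (Q.2 j : ℕ) (x j) := by
      rw [← b_ext_snd]
      exact hy2 j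
    have h3 := hj j hji
    unfold out at h3
    omega
  have hxj : ∀ j, j ≠ i → (Q.1 j : ℕ) ≤ x j ∧ (x j : ℕ) < Q.2 j + 1 := by
    intro j hji
    have h3 := hj j hji
    unfold out at h3
    omega
  unfold out at hi
  by_cases hin : (Q.1 i : ℕ) ≤ y i ∧ (y i : ℕ) ≤ Q.2 i
  · apply h y
    · intro j
      by_cases hji : j = i
      · rw [hji]
        exact Fin.le_def.2 hin.1
      · exact Fin.le_def.2 (hyj j hji).1
    · intro j
      by_cases hji : j = i
      · rw [hji]
        exact Fin.le_def.2 hin.2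
      · have := (hyj j hji).2
        rw [Fin.le_def]
        omega
  · refine layer_fill hU i (x i) (fun j => (Q.1 j : ℕ)) (fun j => (Q.2 j : ℕ) + 1) hx rfl hxj ?_ y
      (by omega) hyj
    intro z hzi hzj
    obtain ⟨v, hv, hvz, hv1, hv2⟩ : ∃ v : ℕ, v < n ∧ (v + 1 = z i ∨ (z i : ℕ) + 1 = v) ∧
        (Q.1 i : ℕ) ≤ v ∧ v ≤ Q.2 i := by
      have h1 := (Q.1 i).2
      have h2 := (Q.2 i).2
      have h3 := (z i).2
      rcases Nat.lt_or_ge (x i : ℕ) (Q.1 i) with hlt | hge
      · exact ⟨z i + 1, by omega, Or.inr rfl, by omega, by omega⟩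
      · exact ⟨z i - 1, by omega, Or.inl (by omega), by omega, by omega⟩
    refine ⟨Function.update z i ⟨v, hv⟩, ?_, adj_update z i v hv hvz, ?_⟩
    · apply h
      · intro j
        by_cases hji : j = i
        · subst hji
          rw [Function.update_self]
          exact Fin.le_def.2 hv1
        · rw [Function.update_of_ne hji]
          exact Fin.le_def.2 (hzj j hji).1
      · intro j
        by_cases hji : j = i
        · subst hji
          rw [Function.update_self]
          exact Fin.le_def.2 hv2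
        · rw [Function.update_of_ne hji]
          have := (hzj j hji).2
          rw [Fin.le_def]
          omega
    · rw [Function.update_self]
      intro he
      have := congrArg Fin.val he
      simp only at this
      omega

theorem j_grow_le_one {n d : ℕ} {U : Set (Vtx n d)} (hU : Closed U) {Q : BoxT n d}
    (hQ : Q.1 ≤ Q.2) (h : ∀ x, Q.1 ≤ x → x ≤ Q.2 → x ∈ U) {x : Vtx n d} (hx : x ∈ U)
    (hs : ∑ i, out Q x i ≤ 1) :
    ∀ y, (ext Q x).1 ≤ y → y ≤ (ext Q x).2 → y ∈ U := by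
  by_cases h0 : ∀ i, out Q x i = 0
  · intro y hy1 hy2
    apply h
    · intro i
      have h1 : min (Q.1 i : ℕ) (x i) ≤ y i := by
        rw [← b_ext_fst]
        exact hy1 i
      have h2 := h0 i
      unfold out at h2
      rw [Fin.le_def]
      omega
    · intro i
      have h1 : (y i : ℕ) ≤ max (Q.2 i : ℕ) (x i) := by
        rw [← b_ext_snd]
        exact hy2 i
      have h2 := h0 i
      unfold out at h2
      rw [Fin.le_def]
      omega
  · push Not at h0
    obtain ⟨i, hi⟩ := h0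
    rw [← Finset.add_sum_erase _ _ (Finset.mem_univ i)] at hs
    refine j_grow_one hU hQ h hx i (by omega) ?_
    intro j hji
    have h1 : ∑ l ∈ Finset.univ.erase i, out Q x l = 0 := by omega
    rw [Finset.sum_eq_zero_iff] at h1
    exact h1 j (Finset.mem_erase.2 ⟨hji, Finset.mem_univ j⟩)

/-- one step towards the box -/
theorem j_toward {n d : ℕ} {Q : BoxT n d} (hQ : Q.1 ≤ Q.2) {x : Vtx n d} {i : Fin d}
    (hi : out Q x i ≠ 0) : ∃ x' : Vtx n d, Adj x' x ∧ x' ≠ x ∧ (∀ j, j ≠ i → x' j = x j) ∧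
      out Q x' i + 1 = out Q x i ∧ ((x' i : ℕ) + 1 = x i ∨ (x i : ℕ) + 1 = x' i) := by
  have hQi : (Q.1 i : ℕ) ≤ Q.2 i := hQ i
  have h1 := (Q.1 i).2
  have h2 := (Q.2 i).2
  have h3 := (x i).2
  unfold out at hi
  obtain ⟨v, hv, hvx, hv1⟩ : ∃ v : ℕ, v < n ∧ (v + 1 = x i ∨ (x i : ℕ) + 1 = v) ∧
      (((Q.1 i : ℕ) - v) + (v - Q.2 i)) + 1 = ((Q.1 i : ℕ) - x i) + ((x i : ℕ) - Q.2 i) := by
    rcases Nat.lt_or_ge (x i : ℕ) (Q.1 i) with hlt | hge
    · exact ⟨x i + 1, by omega, Or.inr rfl, by omega⟩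
    · exact ⟨x i - 1, by omega, Or.inl (by omega), by omega⟩
  refine ⟨Function.update x i ⟨v, hv⟩, j_adj x i v hv hvx, ?_,
    fun j hj => Function.update_of_ne hj _ _, ?_, ?_⟩
  · intro he
    have h4 := congrArg (fun y : Vtx n d => (y i : ℕ)) he
    simp only [Function.update_self] at h4
    omega
  · unfold out
    rw [Function.update_self]
    exact hv1
  · rw [Function.update_self]
    exact hvx

theorem j_sum_out {n d : ℕ} {Q : BoxT n d} {x x' : Vtx n d} {i : Fin d}
    (h1 : ∀ j, j ≠ i → x' j = x j) (h2 : out Q x' i + 1 = out Q x i) :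
    ∑ j, out Q x' j + 1 = ∑ j, out Q x j := by
  rw [← Finset.add_sum_erase _ _ (Finset.mem_univ i),
    ← Finset.add_sum_erase _ (fun j => out Q x j) (Finset.mem_univ i)]
  have : ∑ j ∈ Finset.univ.erase i, out Q x' j = ∑ j ∈ Finset.univ.erase i, out Q x j := by
    refine Finset.sum_congr rfl fun j hj => ?_
    unfold out
    rw [h1 j (Finset.ne_of_mem_erase hj)]
  rw [this]
  omega

theorem j_exists_out {n d : ℕ} {Q : BoxT n d} {x : Vtx n d} (h : ∑ j, out Q x j ≠ 0) :
    ∃ i, out Q x i ≠ 0 := by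
  by_contra hcon
  push Not at hcon
  exact h (Finset.sum_eq_zero fun i _ => hcon i)

theorem j_mem_of_sum {n d : ℕ} {Q : BoxT n d} {x : Vtx n d} (h : ∑ j, out Q x j = 0) :
    Q.1 ≤ x ∧ x ≤ Q.2 := by
  rw [Finset.sum_eq_zero_iff] at h
  constructor
  · intro i
    have h1 := h i (Finset.mem_univ i)
    unfold out at h1
    rw [Fin.le_def]
    omega
  · intro i
    have h1 := h i (Finset.mem_univ i)
    unfold out at h1
    rw [Fin.le_def]
    omega

theorem grow_ext {n d : ℕ} {U : Set (Vtx n d)} (hU : Closed U) {Q : BoxT n d} (hQ : Q.1 ≤ Q.2)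
    (h : ∀ x, Q.1 ≤ x → x ≤ Q.2 → x ∈ U) {x : Vtx n d} (hx : x ∈ U)
    (hphi : phi (ext Q x) ≤ phi Q + 2) :
    ∀ y, (ext Q x).1 ≤ y → y ≤ (ext Q x).2 → y ∈ U := by
  rw [phi_ext hQ] at hphi
  by_cases hs : ∑ i, out Q x i ≤ 1
  · exact j_grow_le_one hU hQ h hx hs
  have hs2 : ∑ i, out Q x i = 2 := by omega
  obtain ⟨i, hi⟩ := j_exists_out (Q := Q) (x := x) (by omega)
  obtain ⟨x', ha, hne, hj, ho, hstep⟩ := j_toward hQ hi
  have hs1 : ∑ j, out Q x' j = 1 := by
    have := j_sum_out hj ho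
    omega
  obtain ⟨i', hi'⟩ := j_exists_out (Q := Q) (x := x') (by omega)
  obtain ⟨x'', ha', hne', hj', ho', -⟩ := j_toward hQ hi'
  have hs0 : ∑ j, out Q x'' j = 0 := by
    have := j_sum_out hj' ho'
    omega
  have hx'' : x'' ∈ U := by
    have := j_mem_of_sum hs0
    exact h x'' this.1 this.2
  have hx' : x' ∈ U := by
    refine hU x' x x'' hx hx'' ?_ ha ?_
    · intro he
      rw [he] at hs2
      omega
    · obtain ⟨k, hk1, hk2⟩ := ha'
      exact ⟨k, fun l hl => (hk1 l hl).symm, hk2.symm⟩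
  have hQ' : (ext Q x').1 ≤ (ext Q x').2 := ext_le hQ x'
  have h1 := j_grow_le_one hU hQ h hx' (by omega)
  have hs3 : ∑ j, out (ext Q x') x j ≤ 1 := by
    rw [← Finset.add_sum_erase _ _ (Finset.mem_univ i)]
    have h2 : ∑ j ∈ Finset.univ.erase i, out (ext Q x') x j = 0 := by
      refine Finset.sum_eq_zero fun j hj2 => ?_
      have h3 := hj j (Finset.ne_of_mem_erase hj2)
      unfold out
      rw [b_ext_fst, b_ext_snd, h3]
      omega
    have h4 : out (ext Q x') x i ≤ 1 := by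
      unfold out
      rw [b_ext_fst, b_ext_snd]
      omega
    omega
  intro y hy1 hy2
  refine j_grow_le_one hU hQ' h1 hx hs3 y ?_ ?_
  · refine le_trans ?_ hy1
    exact inf_le_inf_right x (inf_le_left : Q.1 ⊓ x' ≤ Q.1)
  · refine le_trans hy2 ?_
    exact sup_le_sup_right (le_sup_left : Q.2 ≤ Q.2 ⊔ x') x

theorem percProb_ge_box (n d : ℕ) (hd : 1 ≤ d) (p : ℝ) (hp0 : 0 ≤ p) (hp1 : p ≤ 1) (S B : ℕ)
    (hS : 1 ≤ S) (hSB : S ≤ B) (hBn : B ≤ n) (q : ℝ) (hq0 : 0 ≤ q) (hq1 : q ≤ 1)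
    (hbox : ∀ o : Fin d → ℕ, (∀ i, o i + B ≤ n) → q ≤ Pr p (fun A : Finset (Vtx n d) =>
      ∃ R : BoxT n d, R.1 ≤ R.2 ∧ (∀ i, S ≤ sd R i) ∧ ∀ x, R.1 ≤ x → x ≤ R.2 →
        x ∈ bclosure 2 ((A : Set (Vtx n d)) ∩ nbox o (fun _ => B)))) :
    1 - (1 - q) ^ ((n / B) ^ d) - d * (n : ℝ) ^ (d + 1) * (1 - p) ^ (S ^ (d - 1)) ≤
      percProb n d 2 p := by
  classical
  have hB : 1 ≤ B := hS.trans hSB
  -- blocks
  set J : Finset (Fin d → ℕ) := Fintype.piFinset fun _ => Finset.range (n / B) with hJ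
  have hJcard : J.card = (n / B) ^ d := by
    rw [hJ, Fintype.card_piFinset]
    simp
  let off : (Fin d → ℕ) → (Fin d → ℕ) := fun u i => u i * B
  have hoff : ∀ u ∈ J, ∀ i, off u i + B ≤ n := by
    intro u hu i
    have h1 : u i < n / B := by
      have := (Fintype.mem_piFinset.1 hu) i
      simpa using this
    have h2 : n / B * B ≤ n := Nat.div_mul_le_self n B
    have h3 : (u i + 1) * B ≤ n / B * B := Nat.mul_le_mul_right B h1
    show u i * B + B ≤ n
    linarith
  let blk : (Fin d → ℕ) → Finset (Vtx n d) := fun u =>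
    Finset.univ.filter fun x => x ∈ nbox (off u) (fun _ => B)
  have hblk : ∀ u (A : Finset (Vtx n d)),
      ((A ∩ blk u : Finset (Vtx n d)) : Set (Vtx n d)) = (A : Set (Vtx n d)) ∩
        nbox (off u) (fun _ => B) := by
    intro u A
    ext x
    simp [blk]
  have hdisj : (J : Set (Fin d → ℕ)).PairwiseDisjoint blk := by
    intro u _ w _ huw
    rw [Function.onFun, Finset.disjoint_left]
    intro x hx hx'
    apply huw
    funext i
    have h1 := (Finset.mem_filter.1 hx).2 i
    have h2 := (Finset.mem_filter.1 hx').2 i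
    simp only [off] at h1 h2
    have h3 : (x i : ℕ) / B = u i := by
      rw [Nat.div_eq_iff hB]
      exact ⟨h1.1, by omega⟩
    have h4 : (x i : ℕ) / B = w i := by
      rw [Nat.div_eq_iff hB]
      exact ⟨h2.1, by omega⟩
    rw [← h3, ← h4]
  let E : (Fin d → ℕ) → Finset (Vtx n d) → Prop := fun _ A =>
    ∃ R : BoxT n d, R.1 ≤ R.2 ∧ (∀ i, S ≤ sd R i) ∧ ∀ x, R.1 ≤ x → x ≤ R.2 →
        x ∈ bclosure 2 (A : Set (Vtx n d))
  have hP1 : Pr p (fun A : Finset (Vtx n d) => ∀ u ∈ J, ¬ E u (A ∩ blk u)) ≤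
      (1 - q) ^ ((n / B) ^ d) := by
    rw [Pr_forall_indep J blk hdisj (fun u A => ¬ E u A), ← hJcard, ← Finset.prod_const]
    apply Finset.prod_le_prod
    · intro u _
      exact Pr_nonneg hp0 hp1 _
    · intro u hu
      rw [Pr_not (fun A : Finset (Vtx n d) => E u (A ∩ blk u))]
      have := hbox (off u) (hoff u hu)
      have h2 : (fun A : Finset (Vtx n d) => E u (A ∩ blk u)) = (fun A : Finset (Vtx n d) =>
          ∃ R : BoxT n d, R.1 ≤ R.2 ∧ (∀ i, S ≤ sd R i) ∧ ∀ x, R.1 ≤ x → x ≤ R.2 →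
            x ∈ bclosure 2 ((A : Set (Vtx n d)) ∩ nbox (off u) (fun _ => B))) := by
        funext A
        simp only [E, hblk]
      rw [h2]
      linarith
  -- bad layers
  set T : Finset (Fin d × ℕ × (Fin d → ℕ)) :=
    Finset.univ ×ˢ (Finset.range n ×ˢ Fintype.piFinset fun _ => Finset.range n) with hT
  have hTcard : (T.card : ℝ) = d * (n : ℝ) ^ (d + 1) := by
    rw [hT, Finset.card_product, Finset.card_product, Fintype.card_piFinset]
    simp only [Finset.card_univ, Fintype.card_fin, Finset.card_range, Finset.prod_const]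
    push_cast
    ring
  let bad : Option (Fin d × ℕ × (Fin d → ℕ)) → Finset (Vtx n d) → Prop := fun t A =>
    match t with
    | none => ∀ u ∈ J, ¬ E u (A ∩ blk u)
    | some t => (∀ j, t.2.2 j + S ≤ n) ∧ Disjoint A (layerPiece S t)
  have hbad : ∀ t ∈ T, Pr p (bad (some t)) ≤ (1 - p) ^ (S ^ (d - 1)) := by
    intro t ht
    by_cases hgood : ∀ j, t.2.2 j + S ≤ n
    · have hc : t.2.1 < n := by
        rw [hT] at ht
        simp only [Finset.mem_product, Finset.mem_range] at ht
        exact ht.2.1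
      have h1 : Pr p (bad (some t)) = Pr p (fun A : Finset (Vtx n d) =>
          Disjoint A (layerPiece S t)) := by
        congr 1
        funext A
        simp only [bad, eq_iff_iff]
        exact ⟨fun h => h.2, fun h => ⟨hgood, h⟩⟩
      rw [h1, Pr_disjoint]
      exact pow_le_pow_of_le_one (by linarith) (by linarith) (card_layerPiece S t hc hgood)
    · have h1 : Pr p (bad (some t)) ≤ 0 := by
        have h2 : Pr p (bad (some t)) ≤ Pr p (fun A : Finset (Vtx n d) => ¬ True) := by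
          apply Pr_mono hp0 hp1
          intro A hA
          exact absurd hA.1 hgood
        rw [Pr_not (fun _ : Finset (Vtx n d) => True), Pr_true] at h2
        linarith
      exact h1.trans (pow_nonneg (by linarith) _)
  have hincl : ∀ A : Finset (Vtx n d), ¬ Percolates 2 (A : Set (Vtx n d)) →
      ∃ t ∈ Finset.insertNone T, bad t A := by
    intro A hA
    by_contra hcon
    push Not at hcon
    apply hA
    have hnone := hcon none (by simp)
    have hsome : ∀ t ∈ T, ¬ bad (some t) A := fun t ht => hcon (some t) (by simpa using ht)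
    simp only [bad] at hnone
    push Not at hnone
    obtain ⟨u, hu, hEu⟩ := hnone
    obtain ⟨R, hR, hRS, hRc⟩ := hEu
    have hcl : nbox (fun i => (R.1 i : ℕ)) (fun _ => S) ⊆ bclosure 2 (A : Set (Vtx n d)) := by
      intro y hy
      have h5 : y ∈ bclosure 2 ((A ∩ blk u : Finset (Vtx n d)) : Set (Vtx n d)) := by
        refine hRc y (fun i => ?_) (fun i => ?_)
        · exact Fin.le_def.2 (hy i).1
        · have h6 := hRS i
          have h7 : (y i : ℕ) < (R.1 i : ℕ) + S := (hy i).2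
          have h8 : (R.1 i : ℕ) ≤ R.2 i := hR i
          unfold sd at h6
          rw [Fin.le_def]
          omega
      refine bclosure_mono 2 ?_ h5
      rw [hblk]
      exact inter_subset_left
    refine percolates_of_cube hS (o := fun i => (R.1 i : ℕ)) (fun i => ?_) hcl ?_
    · have h6 := hRS i
      have h7 := (R.2 i).2
      have h8 : (R.1 i : ℕ) ≤ R.2 i := hR i
      unfold sd at h6
      omega
    · intro i c hc o' ho'
      have ht : (i, c, o') ∈ T := by
        rw [hT]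
        simp only [Finset.mem_product, Finset.mem_univ, true_and, Finset.mem_range,
          Fintype.mem_piFinset]
        refine ⟨hc, fun j => ?_⟩
        have := ho' j
        omega
      have h1 := hsome _ ht
      simp only [bad] at h1
      rw [not_and] at h1
      have h2 := h1 ho'
      rw [Finset.not_disjoint_iff] at h2
      obtain ⟨x, hxA, hxL⟩ := h2
      simp only [layerPiece, Finset.mem_filter, Finset.mem_univ, true_and] at hxL
      exact ⟨x, hxA, hxL.1, hxL.2⟩
  have hfinal : Pr p (fun A : Finset (Vtx n d) => ¬ Percolates 2 (A : Set (Vtx n d))) ≤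
      (1 - q) ^ ((n / B) ^ d) + d * (n : ℝ) ^ (d + 1) * (1 - p) ^ (S ^ (d - 1)) := by
    refine (Pr_mono hp0 hp1 hincl).trans ((Pr_exists_le hp0 hp1 _ bad).trans ?_)
    rw [Finset.sum_insertNone]
    refine add_le_add hP1 ?_
    refine (Finset.sum_le_sum hbad).trans ?_
    rw [Finset.sum_const, nsmul_eq_mul, hTcard]
  rw [Pr_not (fun A : Finset (Vtx n d) => Percolates 2 (A : Set (Vtx n d)))] at hfinal
  unfold percProb
  linarith

end Pool.Agent.Lib.MP_8501c9_pr.Mid
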