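import Pool.Agent.Lib.MP_8501c9_pr.Mid.Defs
import Pool.Agent.Lib.MP_8501c9_pr.Volume

/-!
# Task E: arithmetic of levels
-/

set_option autoImplicit false
open Set

namespace Pool.Agent.Lib.MP_8501c9_pr.Mid

open Pool.Agent.Lib.MP_8501c9_pr

section E
variable {n d : ℕ}

theorem lev_add {t i : ℕ} (hd : 1 ≤ d) (h : i < rem d t) :
    lev d (t + i) = lev d t ∧ rem d (t + i) = rem d t - i := by
  unfold rem at h
  unfold lev rem
  have h1 : t % d < d := Nat.mod_lt _ (by omega)
  have h2 : d * (t / d) + t % d = t := Nat.div_add_mod t d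
  have h3 : t + i = (t % d + i) + d * (t / d) := by omega
  have h4 : (t + i) / d = t / d := by
    rw [h3, Nat.add_mul_div_left _ _ (by omega), Nat.div_eq_of_lt (by omega), zero_add]
  have h5 : (t + i) % d = t % d + i := by
    rw [h3, Nat.add_mul_mod_self_left, Nat.mod_eq_of_lt (by omega)]
  rw [h4, h5]
  omega

theorem rem_pos (hd : 1 ≤ d) (t : ℕ) : 1 ≤ rem d t := by
  unfold rem
  have : t % d < d := Nat.mod_lt _ (by omega)
  omega

theorem rem_le (t : ℕ) : rem d t ≤ d := Nat.sub_le _ _

theorem E_sd_pos (Q : BoxT n d) (i : Fin d) : 1 ≤ sd Q i := by unfold sd; omega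

theorem E_sum_sd (Q : BoxT n d) : ∑ i, sd Q i = phi Q + d := by
  unfold sd phi
  rw [Finset.sum_add_distrib]
  simp

/-- concavity of the logarithm at consecutive integers, with the gain -/
theorem E_log_le (l a : ℕ) (hl : 1 ≤ l) (ha : 1 ≤ a) :
    Real.log a ≤ Real.log l + ((a : ℝ) - l) * (Real.log (l + 1) - Real.log l) -
      Real.log (1 + 1 / ((l : ℝ) * (l + 2))) * (((a - (l + 1) : ℕ) : ℝ) + ((l - a : ℕ) : ℝ)) := by
  have hl' : (1 : ℝ) ≤ l := by exact_mod_cast hl
  have hl0 : (0 : ℝ) < l := by linarith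
  have hdl : Real.log (1 + 1 / ((l : ℝ) * (l + 2))) =
      (Real.log (l + 1) - Real.log l) - (Real.log (l + 2) - Real.log (l + 1)) := by
    have e1 : 1 + 1 / ((l : ℝ) * (l + 2)) = (l + 1) * (l + 1) / (l * (l + 2)) := by
      field_simp
      ring
    rw [e1, Real.log_div (by positivity) (by positivity), Real.log_mul (by positivity) (by positivity),
      Real.log_mul (by positivity) (by positivity)]
    ring
  rcases Nat.lt_or_ge a l with h | h
  · -- `a < l`
    have e1 : a - (l + 1) = 0 := by omega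
    rw [e1, Nat.cast_zero, zero_add, Nat.cast_sub h.le]
    -- descend from `l`
    have key : ∀ j : ℕ, j < l → Real.log ((l - j : ℕ) : ℝ) ≤ Real.log l -
        (j : ℝ) * ((Real.log (l + 1) - Real.log l) + Real.log (1 + 1 / ((l : ℝ) * (l + 2)))) := by
      intro j
      induction j with
      | zero => intro _; simp
      | succ j ih =>
        intro hj
        have h1 := ih (by omega)
        have hm : ((l - j : ℕ) : ℝ) = (l : ℝ) - j := by rw [Nat.cast_sub (by omega)]
        have hm' : ((l - (j + 1) : ℕ) : ℝ) = (l : ℝ) - j - 1 := by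
          rw [Nat.cast_sub (by omega)]; push_cast; ring
        have hjl : (j : ℝ) + 2 ≤ l := by
          have : j + 2 ≤ l := by omega
          exact_mod_cast this
        rw [hm] at h1
        rw [hm']
        set m : ℝ := (l : ℝ) - j with hmdef
        have hm2 : 2 ≤ m := by linarith
        have hml : m ≤ l := by
          have : (0 : ℝ) ≤ j := Nat.cast_nonneg j
          linarith
        have h2 : (Real.log (l + 1) - Real.log l) + Real.log (1 + 1 / ((l : ℝ) * (l + 2))) ≤
            Real.log m - Real.log (m - 1) := by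
          rw [hdl]
          have e2 : (Real.log (l + 1) - Real.log l) + ((Real.log (l + 1) - Real.log l) -
              (Real.log (l + 2) - Real.log (l + 1))) =
              Real.log ((l + 1) ^ 3 / (l ^ 2 * (l + 2))) := by
            rw [Real.log_div (by positivity) (by positivity), Real.log_mul (by positivity)
              (by positivity), Real.log_pow, Real.log_pow]
            push_cast
            ring
          rw [e2, ← Real.log_div (by linarith) (by linarith)]
          apply Real.log_le_log (by positivity)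
          rw [div_le_div_iff₀ (by positivity) (by linarith)]
          have h3 : (m - 1) * l ≤ m * (l - 1) := by nlinarith
          have h4 : ((l : ℝ) + 1) ^ 3 * (l - 1) ≤ l * (l ^ 2 * (l + 2)) := by
            nlinarith [sq_nonneg ((l : ℝ) - 1)]
          have hl3 : 0 ≤ ((l : ℝ) + 1) ^ 3 := by positivity
          have h5 : ((l : ℝ) + 1) ^ 3 * (m - 1) * l ≤ (l + 1) ^ 3 * (m * (l - 1)) := by
            have := mul_le_mul_of_nonneg_left h3 hl3
            linarith
          have h6 : ((l : ℝ) + 1) ^ 3 * (m * (l - 1)) ≤ m * (l * (l ^ 2 * (l + 2))) := by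
            have := mul_le_mul_of_nonneg_left h4 (by linarith : 0 ≤ m)
            linarith
          have h7 : ((l : ℝ) + 1) ^ 3 * (m - 1) * l ≤ m * (l ^ 2 * (l + 2)) * l := by linarith
          exact le_of_mul_le_mul_right h7 hl0
        push_cast
        linarith
    have h1 := key (l - a) (by omega)
    have e2 : l - (l - a) = a := by omega
    rw [e2, Nat.cast_sub h.le] at h1
    linarith
  · rcases Nat.lt_or_ge a (l + 1) with h' | h'
    · have e1 : a = l := by omega
      subst e1
      simp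
    · -- `a ≥ l + 1`
      have e1 : l - a = 0 := by omega
      rw [e1, Nat.cast_zero, add_zero]
      have key : ∀ j : ℕ, Real.log ((l + 1 + j : ℕ) : ℝ) ≤ Real.log (l + 1) +
          (j : ℝ) * (Real.log (l + 2) - Real.log (l + 1)) := by
        intro j
        induction j with
        | zero => simp
        | succ j ih =>
          have h1 : Real.log ((l + 1 + (j + 1) : ℕ) : ℝ) - Real.log ((l + 1 + j : ℕ) : ℝ) ≤
              Real.log (l + 2) - Real.log (l + 1) := by
            push_cast
            rw [← Real.log_div (by positivity) (by positivity),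
              ← Real.log_div (by positivity) (by positivity)]
            apply Real.log_le_log (by positivity)
            rw [div_le_div_iff₀ (by positivity) (by positivity)]
            have : (0 : ℝ) ≤ j := Nat.cast_nonneg j
            nlinarith
          push_cast at h1 ih ⊢
          linarith
      have h1 := key (a - (l + 1))
      have e2 : l + 1 + (a - (l + 1)) = a := by omega
      rw [e2] at h1
      rw [hdl]
      have e3 : ((a - (l + 1) : ℕ) : ℝ) = (a : ℝ) - l - 1 := by
        rw [Nat.cast_sub h']; push_cast; ring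
      rw [e3] at h1 ⊢
      linarith

theorem log_vol_le (hd : 1 ≤ d) {Q : BoxT n d} (hQ : Q.1 ≤ Q.2) (l : ℕ)
    (hl : l = lev d (phi Q)) :
    Real.log (vol Q) ≤ sfun d (phi Q) -
      Real.log (1 + 1 / ((l : ℝ) * (l + 2))) * ((Exc l Q : ℝ) + Lag l Q) := by
  have hl1 : 1 ≤ l := by rw [hl]; exact Nat.le_add_left 1 _
  have h0 : Real.log (vol Q) = ∑ i, Real.log (sd Q i) := by
    unfold vol
    rw [Real.log_prod]
    intro i _
    have := E_sd_pos Q i
    have h : (sd Q i) ≠ 0 := by omega
    exact_mod_cast h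
  rw [h0]
  have h1 : ∑ i, Real.log (sd Q i) ≤ ∑ i, (Real.log l + ((sd Q i : ℝ) - l) *
      (Real.log (l + 1) - Real.log l) - Real.log (1 + 1 / ((l : ℝ) * (l + 2))) *
        (((sd Q i - (l + 1) : ℕ) : ℝ) + ((l - sd Q i : ℕ) : ℝ))) :=
    Finset.sum_le_sum fun i _ => E_log_le l (sd Q i) hl1 (E_sd_pos Q i)
  refine h1.trans (le_of_eq ?_)
  rw [Finset.sum_sub_distrib, Finset.sum_add_distrib, ← Finset.mul_sum, Finset.sum_add_distrib,
    ← Finset.sum_mul, Finset.sum_sub_distrib]
  have h2 : ∑ i, (sd Q i : ℝ) = phi Q + d := by exact_mod_cast E_sum_sd Q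
  have h3 : (Exc l Q : ℝ) = ∑ i, ((sd Q i - (l + 1) : ℕ) : ℝ) := by unfold Exc; push_cast; rfl
  have h4 : (Lag l Q : ℝ) = ∑ i, ((l - sd Q i : ℕ) : ℝ) := by unfold Lag; push_cast; rfl
  rw [h2, h3, h4]
  have hq1 : (phi Q / d) * d ≤ phi Q := Nat.div_mul_le_self _ _
  have hq2 : phi Q ≤ (phi Q / d + 1) * d := by
    have := Nat.lt_mul_of_div_lt (Nat.lt_succ_self (phi Q / d)) hd
    exact this.le
  rw [sfun_eq d (phi Q) hd (phi Q / d) hq1 hq2]
  have e1 : (l : ℝ) = ((phi Q / d : ℕ) : ℝ) + 1 := by rw [hl]; unfold lev; push_cast; rfl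
  unfold vslope
  simp only [Finset.sum_const, Finset.card_univ, Fintype.card_fin, nsmul_eq_mul]
  rw [e1]
  ring_nf

theorem vol_pos (Q : BoxT n d) : 0 < vol Q := by
  unfold vol
  apply Finset.prod_pos
  intro i _
  have := E_sd_pos Q i
  exact_mod_cast this

/-- the total deficit -/
theorem E_deficit (hd : 1 ≤ d) {Q : BoxT n d} (l : ℕ) (hl : l = lev d (phi Q)) :
    ∑ i, (l + 1 - sd Q i) = rem d (phi Q) + Exc l Q := by
  have h1 : ∀ i, (l + 1 - sd Q i) + sd Q i = (l + 1) + (sd Q i - (l + 1)) := by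
    intro i; omega
  have h2 : ∑ i, ((l + 1 - sd Q i) + sd Q i) = ∑ i : Fin d, ((l + 1) + (sd Q i - (l + 1))) :=
    Finset.sum_congr rfl fun i _ => h1 i
  rw [Finset.sum_add_distrib, Finset.sum_add_distrib, E_sum_sd] at h2
  simp only [Finset.sum_const, Finset.card_univ, Fintype.card_fin, smul_eq_mul] at h2
  unfold rem Exc
  have h3 : phi Q % d < d := Nat.mod_lt _ (by omega)
  have h4 : d * (phi Q / d) + phi Q % d = phi Q := Nat.div_add_mod _ d
  have h5 : d * (l + 1) = d * (phi Q / d) + 2 * d := by rw [hl]; unfold lev; ring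
  omega

theorem nle_le (hd : 1 ≤ d) {Q : BoxT n d} (hQ : Q.1 ≤ Q.2) (l : ℕ) (hl : l = lev d (phi Q)) :
    nle l Q ≤ rem d (phi Q) + Exc l Q := by
  rw [← E_deficit hd l hl]
  unfold nle
  rw [Finset.card_filter]
  apply Finset.sum_le_sum
  intro i _
  split_ifs with h <;> omega

theorem rr_le (hd : 1 ≤ d) {Q : BoxT n d} (hQ : Q.1 ≤ Q.2) (l : ℕ) (hl : l = lev d (phi Q)) :
    rr l Q ≤ rem d (phi Q) + Exc l Q := by
  refine le_trans ?_ (nle_le hd hQ l hl)
  unfold rr nle
  apply Finset.card_le_card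
  intro i hi
  simp only [Finset.mem_filter, Finset.mem_univ, true_and] at hi ⊢
  omega

theorem le_rr (hd : 1 ≤ d) {Q : BoxT n d} (hQ : Q.1 ≤ Q.2) (l : ℕ) (hl : l = lev d (phi Q)) :
    rem d (phi Q) + Exc l Q ≤ rr l Q + 2 * Lag l Q := by
  rw [← E_deficit hd l hl]
  unfold rr Lag
  rw [Finset.card_filter, Finset.mul_sum, ← Finset.sum_add_distrib]
  apply Finset.sum_le_sum
  intro i _
  split_ifs with h <;> omega

theorem Exc_le_phi (Q : BoxT n d) (l : ℕ) : Exc l Q ≤ phi Q := by
  unfold Exc phi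
  apply Finset.sum_le_sum
  intro i _
  unfold sd
  omega

theorem ax_add (xs : ℕ → ℝ) (hd : 1 ≤ d) (t : ℕ) (hxs : 0 < xs (lev d t))
    (h : 2 ≤ rem d t) :
    ax xs d t + ax xs d (t + 1) = Real.log (2 * (rem d t : ℝ) * ((rem d t : ℝ) - 1) *
      Real.exp (sfun d t) / ((lev d t : ℝ) ^ 2 * xs (lev d t))) := by
  obtain ⟨h1, h2⟩ := lev_add (t := t) (i := 1) hd (by omega)
  have hl : (1 : ℝ) ≤ lev d t := by
    have : 1 ≤ lev d t := Nat.le_add_left 1 _
    exact_mod_cast this
  have hr : (2 : ℝ) ≤ rem d t := by exact_mod_cast h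
  have hr1 : ((rem d t - 1 : ℕ) : ℝ) = (rem d t : ℝ) - 1 := by
    rw [Nat.cast_sub (by omega)]; norm_num
  have hS : sfun d (t + 1) = sfun d t + Real.log (((lev d t : ℝ) + 1) / lev d t) := by
    rw [sfun_succ d t hd, Real.log_div (by positivity) (by positivity)]
    unfold lev
    push_cast
    ring_nf
  unfold ax
  rw [h1, h2, hS, hr1]
  rw [Real.log_div (x := 2 * (rem d t : ℝ) * ((rem d t : ℝ) - 1) * Real.exp (sfun d t))
    (by
      have : (0 : ℝ) < (rem d t : ℝ) - 1 := by linarith
      positivity) (by positivity),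
    Real.log_mul (x := 2 * (rem d t : ℝ) * ((rem d t : ℝ) - 1)) (by
      have : (0 : ℝ) < (rem d t : ℝ) - 1 := by linarith
      positivity) (by positivity), Real.log_exp,
    Real.log_mul (x := 2 * (rem d t : ℝ)) (by positivity) (by linarith),
    Real.log_mul (x := 2) (by norm_num) (by positivity),
    Real.log_mul (by positivity) (by positivity), Real.log_pow,
    Real.log_div (x := 2) (by norm_num) (by positivity)]
  push_cast
  ring

theorem E_lev_mem (M d t : ℕ) (hd : 1 ≤ d) (ht : t ≤ M * d) :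
    1 ≤ lev d t ∧ lev d t ≤ M + 1 := by
  have : t / d ≤ M := Nat.div_le_of_le_mul (by rw [mul_comm]; exact ht)
  exact ⟨Nat.le_add_left 1 _, Nat.succ_le_succ this⟩

theorem E_bound_xs (M : ℕ) (xs : ℕ → ℝ) : ∃ C : ℝ, 0 ≤ C ∧ ∀ l, l ≤ M + 1 →
    |Real.log (2 / xs l)| ≤ C := by
  refine ⟨∑ l ∈ Finset.range (M + 2), |Real.log (2 / xs l)|,
    Finset.sum_nonneg fun _ _ => abs_nonneg _, fun l hl => ?_⟩
  exact Finset.single_le_sum (f := fun l => |Real.log (2 / xs l)|) (fun _ _ => abs_nonneg _)
    (Finset.mem_range.2 (by omega))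

/-- crude lower bound for the exponent per unit -/
theorem le_ax (M : ℕ) (xs : ℕ → ℝ) (hxs : ∀ l, 1 ≤ l → l ≤ M + 1 → 0 < xs l) : ∃ C : ℝ, ∀ d t : ℕ, 1 ≤ d →
    t ≤ M * d → sfun d t / 2 - C ≤ ax xs d t := by
  obtain ⟨C, hC0, hC⟩ := E_bound_xs M xs
  refine ⟨Real.log 2 / 4 + Real.log (M + 1) + C / 2, fun d t hd ht => ?_⟩
  obtain ⟨h1, h2⟩ := E_lev_mem M d t hd ht
  have hl1 : (1 : ℝ) ≤ lev d t := by exact_mod_cast h1
  have hl2 : (lev d t : ℝ) ≤ M + 1 := by exact_mod_cast h2
  have hr : (1 : ℝ) ≤ rem d t := by exact_mod_cast rem_pos hd t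
  have e1 : Real.log (((lev d t : ℝ) + 1) / lev d t) ≤ Real.log 2 := by
    apply Real.log_le_log (by positivity)
    rw [div_le_iff₀ (by linarith)]
    linarith
  have e2 : 0 ≤ Real.log (rem d t) := Real.log_nonneg hr
  have e3 : Real.log (lev d t) ≤ Real.log (M + 1) := Real.log_le_log (by linarith) hl2
  have e4 := (abs_le.1 (hC (lev d t) h2)).1
  unfold ax
  linarith

/-- crude upper bound for the exponent per unit -/
theorem ax_le (M : ℕ) (xs : ℕ → ℝ) (hxs : ∀ l, 1 ≤ l → l ≤ M + 1 → 0 < xs l) : ∃ C : ℝ, ∀ d t : ℕ, 1 ≤ d →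
    t ≤ M * d → ax xs d t ≤ sfun d t / 2 + Real.log d + C := by
  obtain ⟨C, hC0, hC⟩ := E_bound_xs M xs
  refine ⟨C / 2, fun d t hd ht => ?_⟩
  obtain ⟨h1, h2⟩ := E_lev_mem M d t hd ht
  have hl1 : (1 : ℝ) ≤ lev d t := by exact_mod_cast h1
  have hr : (1 : ℝ) ≤ rem d t := by exact_mod_cast rem_pos hd t
  have hrd : (rem d t : ℝ) ≤ d := by exact_mod_cast rem_le (d := d) t
  have e1 : 0 ≤ Real.log (((lev d t : ℝ) + 1) / lev d t) := by
    apply Real.log_nonneg
    rw [le_div_iff₀ (by linarith)]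
    linarith
  have e2 : Real.log (rem d t) ≤ Real.log d := Real.log_le_log (by linarith) hrd
  have e3 : 0 ≤ Real.log (lev d t) := Real.log_nonneg hl1
  have e4 := (abs_le.1 (hC (lev d t) h2)).2
  unfold ax
  linarith

theorem nbad_succ (d k r0 m1 t : ℕ) (ht : t < k) :
    nbad d k r0 m1 t = nbad d k r0 m1 (t + 1) + if Bad d k r0 m1 t then 1 else 0 := by
  unfold nbad
  rw [← Finset.insert_Ico_succ_left_eq_Ico ht, Finset.filter_insert]
  split_ifs with h
  · rw [Finset.card_insert_of_notMem (by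
      simp only [Finset.mem_filter, Finset.mem_Ico, Order.succ_eq_add_one]
      omega)]
    rfl
  · rw [add_zero]
    rfl

/-- ratio of the potentials for an enlargement by two -/
theorem GG_ratio (xs : ℕ → ℝ) (k r0 m1 : ℕ) (L ε Λ c : ℝ) (Q R : BoxT n d)
    (hR : phi R = phi Q + 2) (hk : phi R < k) :
    GG xs k r0 m1 L ε Λ c R = GG xs k r0 m1 L ε Λ c Q * Real.exp (L - ax xs d (phi Q) -
      ax xs d (phi Q + 1) - 2 * ε - Λ * (nbad d k r0 m1 (phi Q) - nbad d k r0 m1 (phi Q + 2)) +
      c * th d k r0 (phi Q) * Exc (lev d (phi Q)) Q -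
      c * th d k r0 (phi Q + 2) * Exc (lev d (phi Q + 2)) R) := by
  unfold GG
  rw [if_pos hk, if_pos (by omega), ← Real.exp_add]
  congr 1
  rw [hR]
  unfold psi
  have h1 : ∑ s ∈ Finset.Ico (phi Q) k, (ax xs d s - L / 2 + ε) =
      (ax xs d (phi Q) - L / 2 + ε) + ((ax xs d (phi Q + 1) - L / 2 + ε) +
        ∑ s ∈ Finset.Ico (phi Q + 2) k, (ax xs d s - L / 2 + ε)) := by
    rw [Finset.sum_eq_sum_Ico_succ_bot (by omega : phi Q < k),
      Finset.sum_eq_sum_Ico_succ_bot (by omega : phi Q + 1 < k)]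
  rw [h1]
  ring

/-- total number of sizes in the boundary layers -/
theorem nbad_zero_le (d k r0 m1 M : ℕ) (hd : 1 ≤ d) (hk : k ≤ M * d) :
    nbad d k r0 m1 0 ≤ m1 + 2 * r0 * (M + 2) := by
  unfold nbad
  have h1 : (Finset.Ico 0 k).filter (fun s => Bad d k r0 m1 s) ⊆
      (Finset.range m1 ∪ (Finset.range k).filter (fun s => rem d s < 2 * r0)) ∪
        (Finset.range k).filter (fun s => k < s + 2 * r0) := by
    intro s hs
    simp only [Finset.mem_filter, Finset.mem_Ico, Bad, Finset.mem_union, Finset.mem_range] at hs ⊢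
    omega
  have h2 : ((Finset.range k).filter (fun s => rem d s < 2 * r0)).card ≤ M * (2 * r0) := by
    have h3 : ((Finset.range M) ×ˢ (Finset.range (2 * r0))).card = M * (2 * r0) := by simp
    rw [← h3]
    refine Finset.card_le_card_of_injOn (fun s => (s / d, rem d s)) ?_ ?_
    · intro s hs
      simp only [Finset.coe_filter, Finset.mem_range, mem_ofPred_eq] at hs
      simp only [Finset.coe_product, Finset.coe_range, mem_prod, mem_Iio]
      refine ⟨?_, hs.2⟩
      rw [Nat.div_lt_iff_lt_mul (by omega)]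
      omega
    · intro s hs s' hs' heq
      simp only [Prod.mk.injEq] at heq
      obtain ⟨e1, e2⟩ := heq
      unfold rem at e2
      have a1 : s % d < d := Nat.mod_lt _ (by omega)
      have a2 : s' % d < d := Nat.mod_lt _ (by omega)
      have a3 : d * (s / d) + s % d = s := Nat.div_add_mod s d
      have a4 : d * (s' / d) + s' % d = s' := Nat.div_add_mod s' d
      rw [e1] at a3
      omega
  have h4 : ((Finset.range k).filter (fun s => k < s + 2 * r0)).card ≤ 2 * r0 := by
    have h5 : (Finset.range k).filter (fun s => k < s + 2 * r0) ⊆ Finset.Ico (k - 2 * r0) k := by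
      intro s hs
      simp only [Finset.mem_filter, Finset.mem_range, Finset.mem_Ico] at hs ⊢
      omega
    refine (Finset.card_le_card h5).trans ?_
    rw [Nat.card_Ico]
    omega
  refine (Finset.card_le_card h1).trans ((Finset.card_union_le _ _).trans ?_)
  have h6 := Finset.card_union_le (Finset.range m1)
    ((Finset.range k).filter (fun s => rem d s < 2 * r0))
  rw [Finset.card_range] at h6
  nlinarith

/-- change of the penalty length: within a level or towards `k` it decreases by at most the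
step; it vanishes before a change of level -/
theorem th_sub (hd : 1 ≤ d) (k r0 t c : ℕ) (h : c < rem d t) (hr0 : 1 ≤ r0) :
    th d k r0 t ≤ th d k r0 (t + c) + c := by
  obtain ⟨-, h2⟩ := lev_add (t := t) (i := c) hd h
  unfold th
  rw [h2]
  omega

theorem th_le_of_rem_le (k r0 t c : ℕ) (h : rem d t ≤ c ∨ k ≤ t + c) : th d k r0 t ≤ c := by
  unfold th
  omega

end E

end Pool.Agent.Lib.MP_8501c9_pr.Mid
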