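import Pool.Agent.Lib.MP_8501c9_pr.Volume
import Pool.Agent.Lib.MP_8501c9_pr.Mid.Defs3
import Pool.Agent.Lib.MP_8501c9_pr.Mid.Counts
import Pool.Agent.Lib.MP_8501c9_pr.Mid.Level
import Pool.Agent.Lib.MP_8501c9_pr.Mid.Ext2

/-!
# Counting the points near a box: lower bounds, and the points sticking out
-/

set_option autoImplicit false
open Set

namespace Pool.Agent.Lib.MP_8501c9_pr.Mid

open Pool.Agent.Lib.MP_8501c9_pr

variable {n d : ℕ}

theorem Balanced.rr_eq (hd : 1 ≤ d) {Q : BoxT n d} (h : Balanced Q) :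
    rr (lev d (phi Q)) Q = rem d (phi Q) := by
  have h1 := E_deficit hd (Q := Q) (lev d (phi Q)) rfl
  have h2 : Exc (lev d (phi Q)) Q = 0 := by
    unfold Exc
    refine Finset.sum_eq_zero fun i _ => ?_
    rcases h i with h3 | h3 <;> omega
  rw [h2, add_zero] at h1
  rw [← h1]
  unfold rr
  rw [Finset.card_filter]
  refine Finset.sum_congr rfl fun i _ => ?_
  rcases h i with h3 | h3
  · rw [h3, if_pos rfl]
    omega
  · rw [h3, if_neg (by omega)]
    omega

theorem Balanced.vol_eq (hd : 1 ≤ d) {Q : BoxT n d} (h : Balanced Q) :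
    vol Q = Real.exp (sfun d (phi Q)) := by
  have h1 := sum_log_eq_sfun (Finset.univ : Finset (Fin d)) d (phi Q) hd (by simp)
    (fun i => (Q.2 i : ℕ) - Q.1 i) rfl (by
      intro i _
      have h2 := h i
      unfold sd lev at h2
      omega)
  rw [← h1, Real.exp_sum]
  unfold vol
  refine Finset.prod_congr rfl fun i _ => ?_
  rw [Real.exp_log (by positivity)]
  unfold sd
  push_cast
  ring

theorem Balanced.nst_eq (hd : 1 ≤ d) {Q : BoxT n d} (h : Balanced Q) :
    nst (lev d (phi Q)) Q = nt d (phi Q) := by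
  unfold nst nt
  rw [h.rr_eq hd, h.vol_eq hd]

theorem k_card_zero {lo hi : Fin n} :
    ((hi : ℕ) - lo) + 1 ≤
      (Finset.univ.filter (fun a : Fin n => ((lo : ℕ) - a) + ((a : ℕ) - hi) = 0)).card + 
        ((lo : ℕ) - hi) := by
  have h1 : Finset.Icc lo hi ⊆
      (Finset.univ.filter (fun a : Fin n => ((lo : ℕ) - a) + ((a : ℕ) - hi) = 0)) := by
    intro a ha
    rw [Finset.mem_Icc, Fin.le_def, Fin.le_def] at ha
    rw [Finset.mem_filter]
    exact ⟨Finset.mem_univ _, by omega⟩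
  have h2 := Finset.card_le_card h1
  rw [Fin.card_Icc] at h2
  omega

theorem k_card_one {lo hi : Fin n} (h0 : (lo : ℕ) ≤ hi) (h1 : 1 ≤ (lo : ℕ))
    (h2 : (hi : ℕ) + 1 < n) :
    2 ≤ (Finset.univ.filter (fun a : Fin n => ((lo : ℕ) - a) + ((a : ℕ) - hi) = 1)).card := by
  have h3 : ({⟨(lo : ℕ) - 1, by omega⟩, ⟨(hi : ℕ) + 1, h2⟩} : Finset (Fin n)) ⊆
      (Finset.univ.filter (fun a : Fin n => ((lo : ℕ) - a) + ((a : ℕ) - hi) = 1)) := by
    intro a ha
    rw [Finset.mem_insert, Finset.mem_singleton] at ha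
    rw [Finset.mem_filter]
    refine ⟨Finset.mem_univ _, ?_⟩
    rcases ha with rfl | rfl
    · simp only
      omega
    · simp only
      omega
  have h4 := Finset.card_le_card h3
  rwa [Finset.card_pair] at h4
  intro he
  have := congrArg Fin.val he
  simp only at this
  omega

theorem k_card_out {Q : BoxT n d} (hQ : Q.1 ≤ Q.2) (o : Fin d → ℕ) (ho : ∀ i, o i ≤ 1)
    (hroom : ∀ i, 1 ≤ (Q.1 i : ℕ) ∧ (Q.2 i : ℕ) + 1 < n) :
    ∏ i, (if o i = 0 then sd Q i else 2) ≤
      (Finset.univ.filter (fun x : Vtx n d => ∀ i, out Q x i = o i)).card := by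
  have h1 : Fintype.piFinset (fun i => Finset.univ.filter
        (fun a : Fin n => ((Q.1 i : ℕ) - a) + ((a : ℕ) - Q.2 i) = o i)) ⊆
      (Finset.univ.filter (fun x : Vtx n d => ∀ i, out Q x i = o i)) := by
    intro x hx
    rw [Fintype.mem_piFinset] at hx
    rw [Finset.mem_filter]
    refine ⟨Finset.mem_univ _, fun i => ?_⟩
    have := hx i
    rw [Finset.mem_filter] at this
    exact this.2
  refine le_trans ?_ (Finset.card_le_card h1)
  rw [Fintype.card_piFinset]
  refine Finset.prod_le_prod (fun _ _ => Nat.zero_le _) fun i _ => ?_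
  have hle := d_le hQ i
  split_ifs with h0
  · have := k_card_zero (lo := Q.1 i) (hi := Q.2 i)
    rw [h0]
    unfold sd
    omega
  · have h2 : o i = 1 := by
      have := ho i
      omega
    rw [h2]
    exact k_card_one hle (hroom i).1 (hroom i).2

/-- two directions, lower bound -/
theorem k_card_pair {Q : BoxT n d} (hQ : Q.1 ≤ Q.2) {i j : Fin d} (hij : i ≠ j)
    (hroom : ∀ i, 1 ≤ (Q.1 i : ℕ) ∧ (Q.2 i : ℕ) + 1 < n) :
    4 * vol Q / (sd Q i * sd Q j) ≤ ((Finset.univ.filter (fun x : Vtx n d =>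
      ∀ m, out Q x m = if m = i ∨ m = j then 1 else 0)).card : ℝ) := by
  set o : Fin d → ℕ := fun m => if m = i ∨ m = j then 1 else 0 with ho
  have h2 := k_card_out hQ o (by intro m; rw [ho]; simp only; split_ifs <;> omega) hroom
  have h3 : (∏ m, (if o m = 0 then sd Q m else 2)) * (sd Q i * sd Q j) =
      4 * ∏ m, sd Q m := by
    rw [← Finset.mul_prod_erase _ _ (Finset.mem_univ i), ← Finset.mul_prod_erase _ _
      (Finset.mem_erase.2 ⟨hij.symm, Finset.mem_univ j⟩),
      ← Finset.mul_prod_erase _ (fun m => sd Q m) (Finset.mem_univ i),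
      ← Finset.mul_prod_erase _ (fun m => sd Q m)
      (Finset.mem_erase.2 ⟨hij.symm, Finset.mem_univ j⟩)]
    have e1 : o i = 1 := by simp [ho]
    have e2 : o j = 1 := by simp [ho]
    have e3 : ∏ m ∈ (Finset.univ.erase i).erase j, (if o m = 0 then sd Q m else 2) =
        ∏ m ∈ (Finset.univ.erase i).erase j, sd Q m := by
      refine Finset.prod_congr rfl fun m hm => ?_
      have hm1 := Finset.ne_of_mem_erase hm
      have hm2 := Finset.ne_of_mem_erase (Finset.mem_of_mem_erase hm)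
      rw [if_pos]
      simp [ho, hm1, hm2]
    rw [e1, e2, e3]
    simp only [one_ne_zero, if_false]
    ring
  have hpos : (0 : ℝ) < (sd Q i : ℝ) * sd Q j := by
    have := d_sd_pos Q i
    have := d_sd_pos Q j
    positivity
  rw [div_le_iff₀ hpos]
  unfold vol
  have h4 := Nat.mul_le_mul_right (sd Q i * sd Q j) h2
  rw [h3] at h4
  exact_mod_cast h4

theorem k_sum_pair {i j : Fin d} (hij : i ≠ j) :
    ∑ m : Fin d, (if m = i ∨ m = j then 1 else 0) = 2 := by
  rw [← Finset.card_filter]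
  have : Finset.univ.filter (fun m : Fin d => m = i ∨ m = j) = {i, j} := by
    ext m
    simp
  rw [this, Finset.card_pair hij]

theorem card_Nreg_eq {Q : BoxT n d} (hQ : Q.1 ≤ Q.2) {l : ℕ} (hl : 1 ≤ l)
    (hroom : ∀ i, 1 ≤ (Q.1 i : ℕ) ∧ (Q.2 i : ℕ) + 1 < n) :
    ((Nreg l Q).card : ℝ) = nst l Q := by
  classical
  refine le_antisymm (card_Nreg_le hQ hl) ?_
  have hl0 : (0 : ℝ) < l := by exact_mod_cast hl
  set S := (Finset.univ.filter (fun i => sd Q i = l)) with hS
  have h1 := Finset.sum_card_bipartiteAbove_eq_sum_card_bipartiteBelow (s := Nreg l Q)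
    (t := S.offDiag) (fun (x : Vtx n d) (p : Fin d × Fin d) => out Q x p.1 = 1 ∧ out Q x p.2 = 1)
  have h2 : ∑ x ∈ Nreg l Q, (Finset.bipartiteAbove
      (fun (x : Vtx n d) (p : Fin d × Fin d) => out Q x p.1 = 1 ∧ out Q x p.2 = 1)
      S.offDiag x).card ≤ (Nreg l Q).card • 2 := by
    refine Finset.sum_le_card_nsmul _ _ _ fun x hx => ?_
    have hc := d_card_out_one hx
    have hsub : Finset.bipartiteAbove
        (fun (x : Vtx n d) (p : Fin d × Fin d) => out Q x p.1 = 1 ∧ out Q x p.2 = 1)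
        S.offDiag x ⊆ (Finset.univ.filter (fun i => out Q x i = 1)).offDiag := by
      intro p hp
      rw [Finset.mem_bipartiteAbove, Finset.mem_offDiag] at hp
      rw [Finset.mem_offDiag]
      exact ⟨Finset.mem_filter.2 ⟨Finset.mem_univ _, hp.2.1⟩,
        Finset.mem_filter.2 ⟨Finset.mem_univ _, hp.2.2⟩, hp.1.2.2⟩
    have h3 := Finset.card_le_card hsub
    rw [Finset.offDiag_card, hc] at h3
    omega
  have h3 : S.offDiag.card • (4 * vol Q / (l : ℝ) ^ 2) ≤
      ∑ p ∈ S.offDiag, ((Finset.bipartiteBelow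
      (fun (x : Vtx n d) (p : Fin d × Fin d) => out Q x p.1 = 1 ∧ out Q x p.2 = 1)
      (Nreg l Q) p).card : ℝ) := by
    refine Finset.card_nsmul_le_sum _ _ _ fun p hp => ?_
    rw [Finset.mem_offDiag] at hp
    obtain ⟨hp1, hp2, hp3⟩ := hp
    have e1 : sd Q p.1 = l := (Finset.mem_filter.1 hp1).2
    have e2 : sd Q p.2 = l := (Finset.mem_filter.1 hp2).2
    have h4 := k_card_pair hQ hp3 hroom
    rw [e1, e2, ← pow_two] at h4
    refine h4.trans ?_
    have hsub : (Finset.univ.filter (fun x : Vtx n d =>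
        ∀ m, out Q x m = if m = p.1 ∨ m = p.2 then 1 else 0)) ⊆ Finset.bipartiteBelow
        (fun (x : Vtx n d) (p : Fin d × Fin d) => out Q x p.1 = 1 ∧ out Q x p.2 = 1)
        (Nreg l Q) p := by
      intro x hx
      rw [Finset.mem_filter] at hx
      obtain ⟨-, hx⟩ := hx
      rw [Finset.mem_bipartiteBelow, d_mem_Nreg]
      refine ⟨⟨fun m => ⟨?_, ?_⟩, ?_⟩, ?_, ?_⟩
      · rw [hx m]
        split_ifs <;> omega
      · intro hm
        rw [hx m] at hm
        by_cases h5 : m = p.1 ∨ m = p.2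
        · rcases h5 with h5 | h5
          · rw [h5]; exact e1
          · rw [h5]; exact e2
        · rw [if_neg h5] at hm
          omega
      · rw [Finset.sum_congr rfl fun m _ => hx m]
        exact k_sum_pair hp3
      · rw [hx p.1, if_pos (Or.inl rfl)]
      · rw [hx p.2, if_pos (Or.inr rfl)]
    exact_mod_cast Finset.card_le_card hsub
  have h4 : S.offDiag.card • (4 * vol Q / (l : ℝ) ^ 2) ≤ ((Nreg l Q).card : ℝ) * 2 := by
    refine h3.trans ?_
    rw [h1, smul_eq_mul] at h2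
    exact_mod_cast h2
  rw [Finset.offDiag_card, nsmul_eq_mul, Nat.cast_sub (Nat.le_mul_self _)] at h4
  push_cast at h4
  unfold nst rr
  rw [← hS]
  have e : 2 * (S.card : ℝ) * ((S.card : ℝ) - 1) * vol Q / (l : ℝ) ^ 2 =
      (((S.card : ℝ) * S.card - S.card) * (4 * vol Q / (l : ℝ) ^ 2)) / 2 := by
    field_simp
    ring
  rw [e]
  linarith

theorem k_mem_Fresh {Q' Q : BoxT n d} {P : Fin d × Fin d} {x : Vtx n d} :
    x ∈ Fresh Q' Q P ↔ out Q x P.1 = 1 ∧ out Q x P.2 = 1 ∧
      (∀ i, i ≠ P.1 → i ≠ P.2 → out Q x i = 0) ∧ ∃ i, i ≠ P.1 ∧ i ≠ P.2 ∧ out Q' x i ≠ 0 := by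
  unfold Fresh
  rw [Finset.mem_filter]
  simp

theorem k_Fresh_out {Q' Q : BoxT n d} {P : Fin d × Fin d} {x : Vtx n d} (hx : x ∈ Fresh Q' Q P)
    (m : Fin d) : out Q x m = if m = P.1 ∨ m = P.2 then 1 else 0 := by
  rw [k_mem_Fresh] at hx
  obtain ⟨h1, h2, h3, -⟩ := hx
  split_ifs with h
  · rcases h with h | h
    · rw [h]; exact h1
    · rw [h]; exact h2
  · push Not at h
    exact h3 m h.1 h.2

theorem card_Fresh_le {Q' Q : BoxT n d} (hQ : Q.1 ≤ Q.2) {P : Fin d × Fin d} (hP : P.1 ≠ P.2) :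
    ((Fresh Q' Q P).card : ℝ) ≤ 4 * vol Q := by
  classical
  have hv := d_vol_pos Q
  have hsub : Fresh Q' Q P ⊆ Finset.univ.filter (fun x : Vtx n d =>
      out Q x P.1 = 1 ∧ out Q x P.2 = 1 ∧ ∑ m, out Q x m = 2) := by
    intro x hx
    rw [Finset.mem_filter]
    refine ⟨Finset.mem_univ _, (k_mem_Fresh.1 hx).1, (k_mem_Fresh.1 hx).2.1, ?_⟩
    rw [Finset.sum_congr rfl fun m _ => k_Fresh_out hx m]
    exact k_sum_pair hP
  have h1 : ((Fresh Q' Q P).card : ℝ) ≤ ((Finset.univ.filter (fun x : Vtx n d =>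
      out Q x P.1 = 1 ∧ out Q x P.2 = 1 ∧ ∑ m, out Q x m = 2)).card : ℝ) := by
    exact_mod_cast Finset.card_le_card hsub
  refine h1.trans ((d_card_pair hQ hP).trans (div_le_self (by positivity) ?_))
  have h2 : (1 : ℝ) ≤ sd Q P.1 := by exact_mod_cast d_sd_pos Q P.1
  have h3 : (1 : ℝ) ≤ sd Q P.2 := by exact_mod_cast d_sd_pos Q P.2
  nlinarith

theorem card_Fresh_ge {Q' Q : BoxT n d} (hQ' : Q'.1 ≤ Q'.2) (h1 : Q.1 ≤ Q'.1) (h2 : Q'.2 ≤ Q.2)
    {P : Fin d × Fin d} (hP : P.1 ≠ P.2)
    (hex : ∃ i, i ≠ P.1 ∧ i ≠ P.2 ∧ sd Q' i < sd Q i)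
    (hroom : ∀ i, 1 ≤ (Q.1 i : ℕ) ∧ (Q.2 i : ℕ) + 1 < n) (b : ℕ) (hb : ∀ i, sd Q i ≤ b) :
    vol Q / (b : ℝ) ^ 3 ≤ (Fresh Q' Q P).card := by
  classical
  obtain ⟨i0, hi1, hi2, hi3⟩ := hex
  have hQ : Q.1 ≤ Q.2 := h1.trans (hQ'.trans h2)
  -- a layer of `Q` not meeting `Q'`
  obtain ⟨a0, ha1, ha2⟩ : ∃ a : Fin n, ((Q.1 i0 : ℕ) ≤ a ∧ (a : ℕ) ≤ Q.2 i0) ∧
      ((a : ℕ) < Q'.1 i0 ∨ (Q'.2 i0 : ℕ) < a) := by
    have e1 := d_le hQ i0
    have e2 := d_le hQ' i0
    have e3 : (Q.1 i0 : ℕ) ≤ Q'.1 i0 := Fin.le_def.1 (h1 i0)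
    have e4 : (Q'.2 i0 : ℕ) ≤ Q.2 i0 := Fin.le_def.1 (h2 i0)
    unfold sd at hi3
    by_cases h : (Q.1 i0 : ℕ) < Q'.1 i0
    · exact ⟨Q.1 i0, ⟨le_rfl, e1⟩, Or.inl h⟩
    · exact ⟨Q.2 i0, ⟨e1, le_rfl⟩, Or.inr (by omega)⟩
  let o : Fin d → ℕ := fun m => if m = P.1 ∨ m = P.2 then 1 else 0
  let t : Fin d → Finset (Fin n) := fun i => if i = i0 then {a0} else Finset.univ.filter
        (fun a : Fin n => ((Q.1 i : ℕ) - a) + ((a : ℕ) - Q.2 i) = o i)
  have hsub : Fintype.piFinset t ⊆ Fresh Q' Q P := by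
    intro x hx
    rw [Fintype.mem_piFinset] at hx
    have hx0 : x i0 = a0 := by
      have := hx i0
      simp only [t, if_true, Finset.mem_singleton] at this
      exact this
    have hxo : ∀ i, i ≠ i0 → out Q x i = o i := by
      intro i hi
      have := hx i
      simp only [t, if_neg hi, Finset.mem_filter, Finset.mem_univ, true_and] at this
      exact this
    rw [k_mem_Fresh]
    refine ⟨?_, ?_, ?_, i0, hi1, hi2, ?_⟩
    · rw [hxo _ (Ne.symm hi1)]
      simp [o]
    · rw [hxo _ (Ne.symm hi2)]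
      simp [o]
    · intro i hiP1 hiP2
      by_cases hii : i = i0
      · rw [hii]
        unfold out
        rw [hx0]
        omega
      · rw [hxo i hii]
        simp [o, hiP1, hiP2]
    · unfold out
      rw [hx0]
      omega
  have hcard := Finset.card_le_card hsub
  rw [Fintype.card_piFinset] at hcard
  set T3 : Finset (Fin d) := {P.1, P.2, i0} with hT3
  have hT3card : T3.card = 3 := by
    rw [hT3, Finset.card_insert_of_notMem, Finset.card_pair (Ne.symm hi2)]
    rw [Finset.mem_insert, Finset.mem_singleton]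
    push Not
    exact ⟨hP, Ne.symm hi1⟩
  have hb1 : 1 ≤ b := (d_sd_pos Q i0).trans (hb i0)
  have hprod : vol Q ≤ (∏ i, ((t i).card : ℝ)) * ∏ i, (if i ∈ T3 then (b : ℝ) else 1) := by
    rw [← Finset.prod_mul_distrib]
    unfold vol
    refine Finset.prod_le_prod (fun i _ => by positivity) fun i _ => ?_
    have hbi : (sd Q i : ℝ) ≤ b := by exact_mod_cast hb i
    by_cases hiT : i ∈ T3
    · rw [if_pos hiT]
      have h5 : 1 ≤ (t i).card := by
        by_cases hii : i = i0
        · simp [t, hii]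
        · have hiP : i = P.1 ∨ i = P.2 := by
            rw [hT3, Finset.mem_insert, Finset.mem_insert, Finset.mem_singleton] at hiT
            tauto
          have : o i = 1 := by simp [o, hiP]
          simp only [t, if_neg hii]
          rw [this]
          exact (by omega : 1 ≤ 2).trans (k_card_one (d_le hQ i) (hroom i).1 (hroom i).2)
      have h6 : (1 : ℝ) ≤ ((t i).card : ℝ) := by exact_mod_cast h5
      have h7 : (1 : ℝ) ≤ b := by exact_mod_cast hb1
      nlinarith
    · rw [if_neg hiT, mul_one]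
      rw [hT3, Finset.mem_insert, Finset.mem_insert, Finset.mem_singleton] at hiT
      push Not at hiT
      have h5 : o i = 0 := by simp [o, hiT.1, hiT.2.1]
      have h6 := k_card_zero (lo := Q.1 i) (hi := Q.2 i)
      have h7 := d_le hQ i
      have h8 : sd Q i ≤ (t i).card := by
        simp only [t, if_neg hiT.2.2]
        rw [h5]
        unfold sd
        omega
      exact_mod_cast h8
  have hbp : ∏ i, (if i ∈ T3 then (b : ℝ) else 1) = (b : ℝ) ^ 3 := by
    rw [Finset.prod_ite_mem, Finset.univ_inter, Finset.prod_const, hT3card]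
  rw [hbp] at hprod
  have hb3 : (0 : ℝ) < (b : ℝ) ^ 3 := by
    have : (0 : ℝ) < b := by exact_mod_cast hb1
    positivity
  rw [div_le_iff₀ hb3]
  refine hprod.trans (mul_le_mul_of_nonneg_right ?_ hb3.le)
  exact_mod_cast hcard

/-- points looked at in the main strategy stick out in two directions -/
theorem outs_of_Nreg {Q : BoxT n d} {l : ℕ} {x : Vtx n d} (hx : x ∈ Nreg l Q) :
    outs Q x = 2 := by
  have h1 := d_card_out_one hx
  rw [d_mem_Nreg] at hx
  unfold outs
  rw [← h1]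
  congr 1
  ext i
  simp only [Finset.mem_filter, Finset.mem_univ, true_and]
  have := (hx.1 i).1
  omega

/-- fresh points stick out of the current box in two directions and out of the previous one in at
least three -/
theorem outs_of_Fresh {Q' Q : BoxT n d} (h1 : Q.1 ≤ Q'.1) (h2 : Q'.2 ≤ Q.2) {P : Fin d × Fin d}
    (hP : P.1 ≠ P.2) {x : Vtx n d} (hx : x ∈ Fresh Q' Q P) :
    outs Q x = 2 ∧ 3 ≤ outs Q' x := by
  classical
  have ho := k_Fresh_out hx
  rw [k_mem_Fresh] at hx
  obtain ⟨hx1, hx2, hx3, i, hi1, hi2, hi3⟩ := hx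
  constructor
  · unfold outs
    have : Finset.univ.filter (fun m => out Q x m ≠ 0) = {P.1, P.2} := by
      ext m
      simp only [Finset.mem_filter, Finset.mem_univ, true_and, Finset.mem_insert,
        Finset.mem_singleton]
      rw [ho m]
      split_ifs with h
      · simp [h]
      · simp [h]
    rw [this, Finset.card_pair hP]
  · unfold outs
    have hsub : ({P.1, P.2, i} : Finset (Fin d)) ⊆
        Finset.univ.filter (fun m => out Q' x m ≠ 0) := by
      intro m hm
      rw [Finset.mem_insert, Finset.mem_insert, Finset.mem_singleton] at hm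
      rw [Finset.mem_filter]
      refine ⟨Finset.mem_univ _, ?_⟩
      have h3 := b_out_mono h1 h2 x m
      rcases hm with rfl | rfl | rfl
      · omega
      · omega
      · exact hi3
    have h3 := Finset.card_le_card hsub
    rw [Finset.card_insert_of_notMem, Finset.card_pair (Ne.symm hi2)] at h3
    · exact h3
    · rw [Finset.mem_insert, Finset.mem_singleton]
      push Not
      exact ⟨hP, Ne.symm hi1⟩

/-- no revealed point is irregularly placed: regular points of the new box among the points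
sticking out of `Q` in at most two directions are regular for `Q` -/
theorem Nreg_ext_subset {Q : BoxT n d} (hQ : Q.1 ≤ Q.2) {l : ℕ} {x y : Vtx n d}
    (hx : x ∈ Nreg l Q) (hy : y ∈ Nreg l (ext Q x)) (ho : outs Q y ≤ 2) : y ∈ Nreg l Q := by
  classical
  have hc := d_card_out_one hy
  rw [d_mem_Nreg] at hx hy ⊢
  have key : ∀ i, out (ext Q x) y i = 1 → out Q y i = 1 ∧ sd Q i = l := by
    intro i hi
    have h1 := (hy.1 i).2 hi
    rw [d_sd_ext hQ] at h1
    have h2 := hx.1 i
    have h3 : out Q x i = 0 := by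
      rcases Nat.eq_zero_or_pos (out Q x i) with h0 | h0
      · exact h0
      · have := h2.2 (by omega)
        omega
    refine ⟨?_, by omega⟩
    have h4 := d_le hQ i
    unfold out at hi h3 ⊢
    rw [d_ext1, d_ext2] at hi
    omega
  have hsub : Finset.univ.filter (fun i => out (ext Q x) y i = 1) ⊆
      Finset.univ.filter (fun i => out Q y i ≠ 0) := by
    intro i hi
    rw [Finset.mem_filter] at hi ⊢
    refine ⟨Finset.mem_univ _, ?_⟩
    have := (key i hi.2).1
    omega
  have heq := Finset.eq_of_subset_of_card_le hsub (by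
    rw [hc]
    exact ho)
  have hout : ∀ i, out Q y i = out (ext Q x) y i := by
    intro i
    by_cases h : out (ext Q x) y i = 1
    · rw [h, (key i h).1]
    · have h1 : out Q y i = 0 := by
        by_contra hne
        have : i ∈ Finset.univ.filter (fun i => out (ext Q x) y i = 1) := by
          rw [heq, Finset.mem_filter]
          exact ⟨Finset.mem_univ _, hne⟩
        exact h (Finset.mem_filter.1 this).2
      have h2 := (hy.1 i).1
      omega
  refine ⟨fun i => ⟨?_, fun h => ?_⟩, ?_⟩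
  · rw [hout i]
    exact (hy.1 i).1
  · rw [hout i] at h
    exact (key i h).2
  · rw [Finset.sum_congr rfl fun i _ => hout i]
    exact hy.2

end Pool.Agent.Lib.MP_8501c9_pr.Mid
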