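import Pool.Agent.Lib.MP_8501c9_pr.Mid.Defs3

/-!
# Counting seeds
-/

set_option autoImplicit false
open Set

namespace Pool.Agent.Lib.MP_8501c9_pr.Mid

open Pool.Agent.Lib.MP_8501c9_pr

variable {n d : ℕ}

/-- the `ℓ¹` distance -/
private def l1 (y z : Vtx n d) : ℕ := ∑ i, (((y i : ℕ) - z i) + ((z i : ℕ) - y i))

private theorem l1_comm (y z : Vtx n d) : l1 y z = l1 z y := by
  unfold l1
  exact Finset.sum_congr rfl fun i _ => add_comm _ _

/-- one step -/
private def mv (x : Vtx n d) : Option (Fin d × Bool) → Vtx n d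
  | none => x
  | some (i, true) => Function.update x i (if h : (x i : ℕ) + 1 < n then ⟨(x i : ℕ) + 1, h⟩ else x i)
  | some (i, false) => Function.update x i ⟨(x i : ℕ) - 1, lt_of_le_of_lt (Nat.sub_le _ _) (x i).2⟩

private theorem l1_zero {y z : Vtx n d} (h : l1 y z = 0) : y = z := by
  unfold l1 at h
  rw [Finset.sum_eq_zero_iff] at h
  funext i
  have := h i (Finset.mem_univ i)
  apply Fin.ext
  omega

private theorem l1_update {y z : Vtx n d} {i : Fin d} {v : Fin n}
    (h : ((v : ℕ) - z i) + ((z i : ℕ) - v) + 1 = ((y i : ℕ) - z i) + ((z i : ℕ) - y i)) :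
    l1 (Function.update y i v) z + 1 = l1 y z := by
  classical
  unfold l1
  rw [← Finset.add_sum_erase _ _ (Finset.mem_univ i), ← Finset.add_sum_erase _ _ (Finset.mem_univ i)]
  rw [Function.update_self, ← h]
  have : ∑ x ∈ Finset.univ.erase i, (((Function.update y i v x : Fin n) : ℕ) - z x +
      ((z x : ℕ) - (Function.update y i v x : Fin n))) =
      ∑ x ∈ Finset.univ.erase i, (((y x : ℕ) - z x) + ((z x : ℕ) - y x)) := by
    refine Finset.sum_congr rfl fun x hx => ?_
    rw [Function.update_of_ne (Finset.ne_of_mem_erase hx)]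
  rw [this]
  omega

private theorem step_exists {y z : Vtx n d} {R : ℕ} (h : l1 y z ≤ R + 1) :
    ∃ x : Vtx n d, l1 x z ≤ R ∧ ∃ o, mv x o = y := by
  by_cases h0 : l1 y z ≤ R
  · exact ⟨y, h0, none, rfl⟩
  have h1 : l1 y z = R + 1 := by omega
  have hne : ∃ i, y i ≠ z i := by
    by_contra hcon
    push Not at hcon
    have : y = z := funext hcon
    subst this
    unfold l1 at h1
    simp at h1
  obtain ⟨i, hi⟩ := hne
  have hi' : (y i : ℕ) ≠ z i := fun h => hi (Fin.ext h)
  rcases lt_or_gt_of_ne hi' with hlt | hgt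
  · have hn : (y i : ℕ) + 1 < n := lt_of_le_of_lt hlt (z i).2
    refine ⟨Function.update y i ⟨(y i : ℕ) + 1, hn⟩, ?_, some (i, false), ?_⟩
    · have := l1_update (y := y) (z := z) (i := i) (v := ⟨(y i : ℕ) + 1, hn⟩) (by
        simp only
        omega)
      omega
    · unfold mv
      simp only [Function.update_self, Function.update_idem]
      have : (⟨(y i : ℕ) + 1 - 1, lt_of_le_of_lt (Nat.sub_le _ _) hn⟩ : Fin n) = y i := by
        apply Fin.ext
        simp
      rw [this, Function.update_eq_self]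
  · have hn : (y i : ℕ) - 1 < n := lt_of_le_of_lt (Nat.sub_le _ _) (y i).2
    refine ⟨Function.update y i ⟨(y i : ℕ) - 1, hn⟩, ?_, some (i, true), ?_⟩
    · have := l1_update (y := y) (z := z) (i := i) (v := ⟨(y i : ℕ) - 1, hn⟩) (by
        simp only
        omega)
      omega
    · unfold mv
      simp only [Function.update_self, Function.update_idem]
      have h2 : (y i : ℕ) - 1 + 1 < n := by
        have := (y i).2
        omega
      rw [dif_pos h2]
      have : (⟨(y i : ℕ) - 1 + 1, h2⟩ : Fin n) = y i := by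
        apply Fin.ext
        simp only
        omega
      rw [this, Function.update_eq_self]

open Classical in
private noncomputable def bl (z : Vtx n d) (R : ℕ) : Finset (Vtx n d) :=
  Finset.univ.filter fun y => l1 y z ≤ R

private theorem mem_bl {z y : Vtx n d} {R : ℕ} : y ∈ bl z R ↔ l1 y z ≤ R := by
  classical
  simp [bl]

private theorem card_bl (z : Vtx n d) (R : ℕ) : (bl z R).card ≤ (2 * d + 1) ^ R := by
  classical
  induction R with
  | zero =>
    have : bl z 0 ⊆ {z} := by
      intro y hy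
      rw [mem_bl] at hy
      rw [Finset.mem_singleton]
      exact l1_zero (by omega)
    simpa using Finset.card_le_card this
  | succ R ih =>
    have hsub : bl z (R + 1) ⊆ (bl z R ×ˢ (Finset.univ : Finset (Option (Fin d × Bool)))).image
        (fun q => mv q.1 q.2) := by
      intro y hy
      rw [mem_bl] at hy
      obtain ⟨x, hx, o, ho⟩ := step_exists hy
      rw [Finset.mem_image]
      exact ⟨(x, o), Finset.mem_product.2 ⟨mem_bl.2 hx, Finset.mem_univ _⟩, ho⟩
    have h1 := (Finset.card_le_card hsub).trans Finset.card_image_le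
    rw [Finset.card_product, Finset.card_univ, Fintype.card_option, Fintype.card_prod,
      Fintype.card_fin, Fintype.card_bool] at h1
    rw [pow_succ]
    calc (bl z (R + 1)).card ≤ (bl z R).card * (d * 2 + 1) := h1
      _ ≤ (2 * d + 1) ^ R * (2 * d + 1) := by
        rw [mul_comm d 2]
        exact Nat.mul_le_mul_right _ ih

/-- the seeds of a point -/
private noncomputable def sds (z : Vtx n d) (K : ℕ) : Finset (Finset (Vtx n d)) :=
  (bl z (2 * K)).powersetCard (K + 1)

private theorem card_sds (z : Vtx n d) (K : ℕ) :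
    (sds z K).card ≤ (2 * d + 1) ^ (2 * K * (K + 1)) := by
  unfold sds
  rw [Finset.card_powersetCard, pow_mul]
  exact (Nat.choose_le_pow _ _).trans (Nat.pow_le_pow_left (card_bl z (2 * K)) _)

private theorem seedJ_mem {K B : ℕ} {o : Fin d → ℕ} {j : Vtx n d × Finset (Vtx n d)}
    (h : j ∈ seedJ K B o) : j.1 ∈ nbox o (fun _ => B) ∧ j.2 ∈ sds j.1 K := by
  classical
  unfold seedJ at h
  rw [Finset.mem_filter] at h
  obtain ⟨-, h1, h2, h3, h4⟩ := h
  refine ⟨h1, ?_⟩
  unfold sds
  rw [Finset.mem_powersetCard]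
  refine ⟨fun y hy => ?_, h3⟩
  rw [mem_bl]
  exact h4 y hy

open Classical in
private theorem card_nbox (B : ℕ) (o : Fin d → ℕ) :
    (Finset.univ.filter fun z : Vtx n d => z ∈ nbox o (fun _ => B)).card ≤ B ^ d := by
  have h1 : (Finset.univ.filter fun z : Vtx n d => z ∈ nbox o (fun _ => B)).card ≤
      (Fintype.piFinset fun _ : Fin d => Finset.range B).card := by
    refine Finset.card_le_card_of_injOn (fun z i => (z i : ℕ) - o i) ?_ ?_
    · intro z hz
      rw [Finset.mem_coe, Finset.mem_filter] at hz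
      rw [Finset.mem_coe, Fintype.mem_piFinset]
      intro i
      rw [Finset.mem_range]
      have := hz.2 i
      simp only at this ⊢
      omega
    · intro z hz z' hz' hzz
      rw [Finset.mem_coe, Finset.mem_filter] at hz hz'
      funext i
      have h2 := congrFun hzz i
      have h3 := hz.2 i
      have h4 := hz'.2 i
      apply Fin.ext
      simp only at h2
      omega
  refine h1.trans ?_
  rw [Fintype.card_piFinset]
  simp

theorem seeds_sum_le (K B : ℕ) (o : Fin d → ℕ) {p : ℝ} (hp0 : 0 ≤ p) (hp1 : p ≤ 1) (m : ℕ)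
    (T : Finset (Vtx n d)) (hT : T.card ≤ m + 1) :
    ∑ j ∈ seedJ K B o, p ^ (j.2 \ T).card ≤
      (B : ℝ) ^ d * (2 * d + 1) ^ (2 * K * (K + 1)) * p ^ (K + 1) +
        ((m : ℝ) + 1) * (2 * d + 1) ^ (2 * K * (K + 2)) := by
  classical
  have hA : ∑ j ∈ (seedJ K B o).filter (fun j => Disjoint j.2 T), p ^ (j.2 \ T).card ≤
      (B : ℝ) ^ d * (2 * d + 1) ^ (2 * K * (K + 1)) * p ^ (K + 1) := by
    have h1 : ∀ j ∈ (seedJ K B o).filter (fun j => Disjoint j.2 T),
        p ^ (j.2 \ T).card = p ^ (K + 1) := by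
      intro j hj
      rw [Finset.mem_filter] at hj
      rw [Finset.sdiff_eq_self_of_disjoint hj.2]
      have h2 := (seedJ_mem hj.1).2
      unfold sds at h2
      rw [Finset.mem_powersetCard] at h2
      rw [h2.2]
    rw [Finset.sum_congr rfl h1, Finset.sum_const, nsmul_eq_mul]
    refine mul_le_mul_of_nonneg_right ?_ (pow_nonneg hp0 _)
    have h3 : ((seedJ K B o).filter (fun j => Disjoint j.2 T)).card ≤
        B ^ d * (2 * d + 1) ^ (2 * K * (K + 1)) := by
      have hsub : (seedJ K B o).filter (fun j => Disjoint j.2 T) ⊆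
          (Finset.univ.filter fun z : Vtx n d => z ∈ nbox o (fun _ => B)).biUnion
            (fun z => (sds z K).image (fun S => (z, S))) := by
        intro j hj
        rw [Finset.mem_filter] at hj
        obtain ⟨h4, h5⟩ := seedJ_mem hj.1
        rw [Finset.mem_biUnion]
        refine ⟨j.1, Finset.mem_filter.2 ⟨Finset.mem_univ _, h4⟩, ?_⟩
        rw [Finset.mem_image]
        exact ⟨j.2, h5, rfl⟩
      refine (Finset.card_le_card hsub).trans ((Finset.card_biUnion_le_card_mul _ _ _
        (fun z _ => Finset.card_image_le.trans (card_sds z K))).trans ?_)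
      exact Nat.mul_le_mul_right _ (card_nbox B o)
    calc (((seedJ K B o).filter (fun j => Disjoint j.2 T)).card : ℝ)
        ≤ ((B ^ d * (2 * d + 1) ^ (2 * K * (K + 1)) : ℕ) : ℝ) := by exact_mod_cast h3
      _ = _ := by push_cast; ring
  have hB : ∑ j ∈ (seedJ K B o).filter (fun j => ¬ Disjoint j.2 T), p ^ (j.2 \ T).card ≤
      ((m : ℝ) + 1) * (2 * d + 1) ^ (2 * K * (K + 2)) := by
    have h1 : ∀ j ∈ (seedJ K B o).filter (fun j => ¬ Disjoint j.2 T),
        p ^ (j.2 \ T).card ≤ 1 := fun j _ => pow_le_one₀ hp0 hp1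
    refine (Finset.sum_le_sum h1).trans ?_
    rw [Finset.sum_const, nsmul_eq_mul, mul_one]
    have h3 : ((seedJ K B o).filter (fun j => ¬ Disjoint j.2 T)).card ≤
        (m + 1) * ((2 * d + 1) ^ (2 * K) * (2 * d + 1) ^ (2 * K * (K + 1))) := by
      have hsub : (seedJ K B o).filter (fun j => ¬ Disjoint j.2 T) ⊆
          T.biUnion (fun y => (bl y (2 * K)).biUnion
            (fun z => (sds z K).image (fun S => (z, S)))) := by
        intro j hj
        rw [Finset.mem_filter] at hj
        obtain ⟨h4, h5⟩ := seedJ_mem hj.1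
        obtain ⟨y, hy1, hy2⟩ := Finset.not_disjoint_iff.1 hj.2
        rw [Finset.mem_biUnion]
        refine ⟨y, hy2, ?_⟩
        rw [Finset.mem_biUnion]
        refine ⟨j.1, ?_, ?_⟩
        · unfold sds at h5
          rw [Finset.mem_powersetCard] at h5
          have h6 := mem_bl.1 (h5.1 hy1)
          rw [mem_bl, l1_comm]
          exact h6
        · rw [Finset.mem_image]
          exact ⟨j.2, h5, rfl⟩
      refine (Finset.card_le_card hsub).trans ((Finset.card_biUnion_le_card_mul _ _
        ((2 * d + 1) ^ (2 * K) * (2 * d + 1) ^ (2 * K * (K + 1))) (fun y _ => ?_)).trans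
          (Nat.mul_le_mul_right _ hT))
      refine (Finset.card_biUnion_le_card_mul _ _ _
        (fun z _ => Finset.card_image_le.trans (card_sds z K))).trans ?_
      exact Nat.mul_le_mul_right _ (card_bl y (2 * K))
    calc (((seedJ K B o).filter (fun j => ¬ Disjoint j.2 T)).card : ℝ)
        ≤ (((m + 1) * ((2 * d + 1) ^ (2 * K) * (2 * d + 1) ^ (2 * K * (K + 1))) : ℕ) : ℝ) := by
          exact_mod_cast h3
      _ = _ := by
          rw [show 2 * K * (K + 2) = 2 * K + 2 * K * (K + 1) by ring, pow_add]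
          push_cast
          ring
  rw [← Finset.sum_filter_add_sum_filter_not (seedJ K B o) (fun j => Disjoint j.2 T)]
  exact add_le_add hA hB

end Pool.Agent.Lib.MP_8501c9_pr.Mid
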