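import Pool.Agent.Lib.MP_8501c9_pr.Mid.Defs3
import Pool.Agent.Lib.MP_8501c9_pr.Mid.Ext2
import Pool.Agent.Lib.MP_8501c9_pr.Mid.Counts
import Pool.Agent.Lib.MP_8501c9_pr.Mid.Level
import Pool.Agent.Lib.MP_8501c9_pr.Mid.GrowPoint
import Pool.Agent.Lib.MP_8501c9_pr.Mid.CountsLow
import Pool.Agent.Lib.MP_8501c9_pr.Closure

/-!
# Combinatorics of the growth strategy
-/

set_option autoImplicit false
open Set

namespace Pool.Agent.Lib.MP_8501c9_pr.Mid

open Pool.Agent.Lib.MP_8501c9_pr

variable {n d : ℕ}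

theorem L_phi_point (z : Vtx n d) : phi ((z, z) : BoxT n d) = 0 := by
  unfold phi
  simp

theorem St.init (hd : 1 ≤ d) (z : Vtx n d) : St z (z, z) (z, z) {z} where
  le' := le_refl _
  le := le_refl _
  sub1 := le_refl _
  sub2 := le_refl _
  mem1 := le_refl _
  mem2 := le_refl _
  bal := by
    intro i
    left
    rw [L_phi_point]
    unfold sd lev
    simp
  outs_le := by
    intro y hy
    rw [Finset.mem_singleton] at hy
    subst hy
    unfold outs out
    simp
  card_le := by
    rw [L_phi_point]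
    unfold zb
    simp
  enl := Or.inl ⟨L_phi_point z, rfl⟩

theorem L_cand_cases (s0 k1 : ℕ) (Q' Q : BoxT n d) :
    (Main d s0 k1 (phi Q) ∧ cand s0 k1 Q' Q = Nreg (lev d (phi Q)) Q) ∨
    (∃ P, PairDir Q' Q P ∧ cand s0 k1 Q' Q = Fresh Q' Q P) ∨ cand s0 k1 Q' Q = ∅ := by
  unfold cand
  split_ifs with h1 h2
  · left; exact ⟨h1, rfl⟩
  · right; left; exact ⟨_, h2.choose_spec, rfl⟩
  · right; right; rfl

theorem L_fresh_out {Q' Q : BoxT n d} {P : Fin d × Fin d} {x : Vtx n d}
    (hx : x ∈ Fresh Q' Q P) : out Q x P.1 = 1 ∧ out Q x P.2 = 1 ∧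
      (∀ i, i ≠ P.1 → i ≠ P.2 → out Q x i = 0) ∧ ∃ i, i ≠ P.1 ∧ i ≠ P.2 ∧ out Q' x i ≠ 0 := by
  unfold Fresh at hx
  exact (Finset.mem_filter.1 hx).2

theorem L_sum_two {o : Fin d → ℕ} {i j : Fin d} (hij : i ≠ j) (hi : o i = 1) (hj : o j = 1)
    (h : ∀ a, a ≠ i → a ≠ j → o a = 0) : ∑ a, o a = 2 := by
  rw [Finset.sum_eq_add i j hij (fun a _ ha => h a ha.1 ha.2) (by simp) (by simp), hi, hj]

theorem L_others {o : Fin d → ℕ} {i j : Fin d} (hij : i ≠ j) (hi : o i = 1) (hj : o j = 1)
    (h : ∑ a, o a = 2) : ∀ a, a ≠ i → a ≠ j → o a = 0 := by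
  intro a hai haj
  have h1 : ∑ b ∈ ({i, j, a} : Finset (Fin d)), o b ≤ ∑ b, o b :=
    Finset.sum_le_sum_of_subset (Finset.subset_univ _)
  rw [Finset.sum_insert (by simp [hij, Ne.symm hai]), Finset.sum_insert (by simp [Ne.symm haj]),
    Finset.sum_singleton] at h1
  omega

theorem L_reg_shape {l : ℕ} {Q : BoxT n d} {x : Vtx n d} (hx : x ∈ Nreg l Q) :
    ∃ i j, i ≠ j ∧ out Q x i = 1 ∧ out Q x j = 1 ∧ (∀ a, a ≠ i → a ≠ j → out Q x a = 0) ∧
      sd Q i = l ∧ sd Q j = l := by
  obtain ⟨h1, h2⟩ := (d_mem_Nreg l Q x).1 hx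
  rcases d_shape h2 with ⟨i, hi⟩ | ⟨_, i, j, hij, hi, hj⟩
  · have := (h1 i).1
    omega
  · exact ⟨i, j, hij, hi, hj, L_others hij hi hj h2, (h1 i).2 hi, (h1 j).2 hj⟩

theorem cand_phi (s0 k1 : ℕ) {Q' Q : BoxT n d} (hQ : Q.1 ≤ Q.2) {x : Vtx n d}
    (hx : x ∈ cand s0 k1 Q' Q) : phi (ext Q x) = phi Q + 2 := by
  rcases L_cand_cases s0 k1 Q' Q with ⟨_, h⟩ | ⟨P, hP, h⟩ | h
  · rw [h] at hx
    exact b_mem_N2.1 (Nreg_subset hQ _ hx)
  · rw [h] at hx
    obtain ⟨h1, h2, h3, _⟩ := L_fresh_out hx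
    rw [b_phi_ext_iff hQ]
    exact L_sum_two hP.1 h1 h2 h3
  · rw [h] at hx
    simp at hx

/-! ### levels -/

theorem L_lev_two (hd : 2 ≤ d) {t : ℕ} (h : rem d t = 2) :
    lev d (t + 2) = lev d t + 1 ∧ rem d (t + 2) = d := by
  have h1 : t % d < d := Nat.mod_lt _ (by omega)
  have h2 : t % d = d - 2 := by unfold rem at h; omega
  have h3 : t + 2 = d * (t / d + 1) := by
    have := Nat.div_add_mod t d
    rw [mul_add, mul_one]
    omega
  have h4 : (t + 2) / d = t / d + 1 := by
    rw [h3, Nat.mul_div_cancel_left _ (by omega)]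
  have h5 : (t + 2) % d = 0 := by
    rw [h3]
    exact Nat.mul_mod_right _ _
  unfold lev rem
  rw [h4, h5]
  simp

theorem L_lev_one (hd : 2 ≤ d) {t : ℕ} (h : rem d t = 1) :
    lev d (t + 2) = lev d t + 1 ∧ rem d (t + 2) = d - 1 := by
  have h1 : t % d < d := Nat.mod_lt _ (by omega)
  have h2 : t % d = d - 1 := by unfold rem at h; omega
  have h3 : t + 2 = 1 + d * (t / d + 1) := by
    have := Nat.div_add_mod t d
    rw [mul_add, mul_one]
    omega
  have h4 : (t + 2) / d = t / d + 1 := by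
    rw [h3, Nat.add_mul_div_left _ _ (by omega), Nat.div_eq_of_lt (by omega)]
    omega
  have h5 : (t + 2) % d = 1 := by
    rw [h3, Nat.add_mul_mod_self_left]
    exact Nat.mod_eq_of_lt (by omega)
  unfold lev rem
  rw [h4, h5]
  simp

theorem L_new (hd : 3 ≤ d) {Q : BoxT n d} (hQ : Q.1 ≤ Q.2) (hbal : Balanced Q) {x : Vtx n d}
    {i j : Fin d} (hij : i ≠ j) (hi : out Q x i = 1) (hj : out Q x j = 1)
    (h0 : ∀ a, a ≠ i → a ≠ j → out Q x a = 0)
    (hs : (sd Q i = lev d (phi Q) ∧ sd Q j = lev d (phi Q)) ∨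
      (rem d (phi Q) = 1 ∧ (sd Q i = lev d (phi Q) ∨ sd Q j = lev d (phi Q)))) :
    Balanced (ext Q x) ∧ ∃ i j : Fin d, i ≠ j ∧ sd Q i + 1 = sd (ext Q x) i ∧
      sd Q j + 1 = sd (ext Q x) j ∧ (∀ a, a ≠ i → a ≠ j → sd Q a = sd (ext Q x) a) ∧
      ((sd (ext Q x) i ≠ lev d (phi (ext Q x)) ∧ sd (ext Q x) j ≠ lev d (phi (ext Q x))) ∨
        d ≤ rem d (phi (ext Q x)) + 1) := by
  have hphi : phi (ext Q x) = phi Q + 2 := by
    rw [b_phi_ext_iff hQ]
    exact L_sum_two hij hi hj h0
  have hsd : ∀ a, sd (ext Q x) a = sd Q a + out Q x a := d_sd_ext hQ x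
  have hsi : sd (ext Q x) i = sd Q i + 1 := by rw [hsd, hi]
  have hsj : sd (ext Q x) j = sd Q j + 1 := by rw [hsd, hj]
  have hsa : ∀ a, a ≠ i → a ≠ j → sd (ext Q x) a = sd Q a := by
    intro a h1 h2
    rw [hsd, h0 a h1 h2, add_zero]
  have hrr := Balanced.rr_eq (by omega) hbal
  unfold rr at hrr
  have hrem1 := rem_pos (d := d) (by omega) (phi Q)
  -- reduce to the statement on the levels
  suffices hmain : Balanced (ext Q x) ∧
      ((sd (ext Q x) i ≠ lev d (phi (ext Q x)) ∧ sd (ext Q x) j ≠ lev d (phi (ext Q x))) ∨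
        d ≤ rem d (phi (ext Q x)) + 1) by
    exact ⟨hmain.1, i, j, hij, hsi.symm, hsj.symm, fun a h1 h2 => (hsa a h1 h2).symm, hmain.2⟩
  unfold Balanced
  rw [hphi]
  by_cases hboth : sd Q i = lev d (phi Q) ∧ sd Q j = lev d (phi Q)
  · have hsub : ({i, j} : Finset (Fin d)) ⊆
        Finset.univ.filter (fun a => sd Q a = lev d (phi Q)) := by
      intro a ha
      simp only [Finset.mem_insert, Finset.mem_singleton] at ha
      rw [Finset.mem_filter]
      rcases ha with rfl | rfl
      · exact ⟨Finset.mem_univ _, hboth.1⟩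
      · exact ⟨Finset.mem_univ _, hboth.2⟩
    have hc := Finset.card_le_card hsub
    rw [Finset.card_pair hij, hrr] at hc
    rcases hc.lt_or_eq with hlt | heq
    · obtain ⟨e1, e2⟩ := lev_add (d := d) (by omega) (i := 2) hlt
      rw [e1, e2]
      refine ⟨?_, Or.inl ⟨?_, ?_⟩⟩
      · intro a
        by_cases ha : a = i
        · subst ha
          right
          rw [hsi, hboth.1]
        · by_cases ha' : a = j
          · subst ha'
            right
            rw [hsj, hboth.2]
          · rw [hsa a ha ha']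
            exact hbal a
      · rw [hsi, hboth.1]
        omega
      · rw [hsj, hboth.2]
        omega
    · obtain ⟨e1, e2⟩ := L_lev_two (by omega) heq.symm
      rw [e1, e2]
      refine ⟨?_, Or.inr (by omega)⟩
      have hset : ({i, j} : Finset (Fin d)) =
          Finset.univ.filter (fun a => sd Q a = lev d (phi Q)) := by
        refine Finset.eq_of_subset_of_card_le hsub ?_
        rw [Finset.card_pair hij, hrr]
        exact heq.symm.le
      intro a
      left
      by_cases ha : a = i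
      · subst ha
        rw [hsi, hboth.1]
      · by_cases ha' : a = j
        · subst ha'
          rw [hsj, hboth.2]
        · rw [hsa a ha ha']
          rcases hbal a with h | h
          · exfalso
            have : a ∈ ({i, j} : Finset (Fin d)) := by
              rw [hset, Finset.mem_filter]
              exact ⟨Finset.mem_univ _, h⟩
            simp [ha, ha'] at this
          · exact h
  · have hr1 : rem d (phi Q) = 1 ∧ (sd Q i = lev d (phi Q) ∨ sd Q j = lev d (phi Q)) := by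
      rcases hs with h | h
      · exact absurd h hboth
      · exact h
    obtain ⟨hr, hor⟩ := hr1
    obtain ⟨e1, e2⟩ := L_lev_one (by omega) hr
    rw [e1, e2]
    refine ⟨?_, Or.inr (by omega)⟩
    rw [hr] at hrr
    obtain ⟨c, hc⟩ := Finset.card_eq_one.1 hrr
    have huniq : ∀ a, sd Q a = lev d (phi Q) → a = c := by
      intro a ha
      have : a ∈ Finset.univ.filter (fun a => sd Q a = lev d (phi Q)) := by
        rw [Finset.mem_filter]
        exact ⟨Finset.mem_univ _, ha⟩
      rw [hc, Finset.mem_singleton] at this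
      exact this
    have hci : c = i ∨ c = j := by
      rcases hor with h | h
      · left; exact (huniq i h).symm
      · right; exact (huniq j h).symm
    intro a
    rcases hbal a with h | h
    · left
      have hac := huniq a h
      rcases hci with h1 | h1
      · rw [hac, h1, hsi, ← h1, ← hac, h]
      · rw [hac, h1, hsj, ← h1, ← hac, h]
    · by_cases ha : a = i
      · right
        subst ha
        rw [hsi, h]
      · by_cases ha' : a = j
        · right
          subst ha'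
          rw [hsj, h]
        · left
          rw [hsa a ha ha', h]

theorem L_pair_side {Q' Q : BoxT n d} (hbal : Balanced Q) {P : Fin d × Fin d}
    (hP : PairDir Q' Q P) (h2 : 2 ≤ (Finset.univ.filter
      (fun i => sd Q' i = sd Q i ∧ sd Q i = lev d (phi Q))).card) :
    sd Q P.1 = lev d (phi Q) ∧ sd Q P.2 = lev d (phi Q) := by
  obtain ⟨_, _, _, hmin⟩ := hP
  constructor
  · by_contra hne
    have hsub : Finset.univ.filter (fun i => sd Q' i = sd Q i ∧ sd Q i = lev d (phi Q)) ⊆
        {P.2} := by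
      intro i hi
      rw [Finset.mem_filter] at hi
      rw [Finset.mem_singleton]
      by_contra hi2
      have hi1 : i ≠ P.1 := by
        rintro rfl
        exact hne hi.2.2
      have h3 := (hmin i hi.2.1 hi1 hi2).1
      rcases hbal P.1 with h | h
      · exact hne h
      · rw [h, hi.2.2] at h3
        omega
    have := Finset.card_le_card hsub
    rw [Finset.card_singleton] at this
    omega
  · by_contra hne
    have hsub : Finset.univ.filter (fun i => sd Q' i = sd Q i ∧ sd Q i = lev d (phi Q)) ⊆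
        {P.1} := by
      intro i hi
      rw [Finset.mem_filter] at hi
      rw [Finset.mem_singleton]
      by_contra hi1
      have hi2 : i ≠ P.2 := by
        rintro rfl
        exact hne hi.2.2
      have h3 := (hmin i hi.2.1 hi1 hi2).2
      rcases hbal P.2 with h | h
      · exact hne h
      · rw [h, hi.2.2] at h3
        omega
    have := Finset.card_le_card hsub
    rw [Finset.card_singleton] at this
    omega

theorem L_card_cand (s0 k1 : ℕ) (hd : 1 ≤ d) {Q' Q : BoxT n d} (hQ : Q.1 ≤ Q.2)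
    (hbal : Balanced Q) : ((cand s0 k1 Q' Q).card : ℝ) ≤
      (2 * (rem d (phi Q) : ℝ) ^ 2 + 4) * Real.exp (sfun d (phi Q)) := by
  have he := Real.exp_pos (sfun d (phi Q))
  rcases L_cand_cases s0 k1 Q' Q with ⟨_, h⟩ | ⟨P, hP, h⟩ | h
  · rw [h]
    have hl : 1 ≤ lev d (phi Q) := Nat.le_add_left 1 _
    refine (card_Nreg_le hQ hl).trans ?_
    rw [Balanced.nst_eq hd hbal]
    unfold nt
    have hl' : (1 : ℝ) ≤ (lev d (phi Q) : ℝ) ^ 2 := by
      have : (1 : ℝ) ≤ (lev d (phi Q) : ℝ) := by exact_mod_cast hl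
      nlinarith
    have hr : (1 : ℝ) ≤ (rem d (phi Q) : ℝ) := by exact_mod_cast rem_pos hd (phi Q)
    have h1 : 0 ≤ 2 * (rem d (phi Q) : ℝ) * ((rem d (phi Q) : ℝ) - 1) *
        Real.exp (sfun d (phi Q)) := by
      have : 0 ≤ (rem d (phi Q) : ℝ) - 1 := by linarith
      positivity
    refine (div_le_self h1 hl').trans ?_
    refine mul_le_mul_of_nonneg_right ?_ he.le
    nlinarith
  · rw [h]
    refine (card_Fresh_le hQ hP.1).trans ?_
    rw [Balanced.vol_eq hd hbal]
    refine mul_le_mul_of_nonneg_right ?_ he.le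
    nlinarith [sq_nonneg (rem d (phi Q) : ℝ)]
  · rw [h]
    simp only [Finset.card_empty, Nat.cast_zero]
    positivity

theorem L_outs_cand (s0 k1 : ℕ) {Q' Q : BoxT n d} (h1 : Q.1 ≤ Q'.1) (h2 : Q'.2 ≤ Q.2)
    {x : Vtx n d} (hx : x ∈ cand s0 k1 Q' Q) : outs Q x = 2 := by
  rcases L_cand_cases s0 k1 Q' Q with ⟨_, h⟩ | ⟨P, hP, h⟩ | h
  · rw [h] at hx
    exact outs_of_Nreg hx
  · rw [h] at hx
    exact (outs_of_Fresh h1 h2 hP.1 hx).1
  · rw [h] at hx
    simp at hx

theorem L_zb_step (t : ℕ) : zb d t + (2 * (rem d t : ℝ) ^ 2 + 4) * Real.exp (sfun d t) ≤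
    zb d (t + 2) := by
  unfold zb
  rw [show t + 2 = (t + 1) + 1 from rfl, Finset.sum_range_succ, Finset.sum_range_succ]
  have : 0 ≤ (2 * (rem d (t + 1) : ℝ) ^ 2 + 4) * Real.exp (sfun d (t + 1)) := by positivity
  linarith

theorem L_outs_mono {Q B : BoxT n d} (h1 : B.1 ≤ Q.1) (h2 : Q.2 ≤ B.2) (x : Vtx n d) :
    outs B x ≤ outs Q x := by
  unfold outs
  refine Finset.card_le_card ?_
  intro i hi
  rw [Finset.mem_filter] at hi ⊢
  refine ⟨Finset.mem_univ _, ?_⟩
  have := b_out_mono h1 h2 x i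
  omega

theorem L_ext_sub (Q : BoxT n d) (x : Vtx n d) : (ext Q x).1 ≤ Q.1 ∧ Q.2 ≤ (ext Q x).2 :=
  ⟨inf_le_left, le_sup_left⟩

theorem L_ext_mem (Q : BoxT n d) (x : Vtx n d) : (ext Q x).1 ≤ x ∧ x ≤ (ext Q x).2 :=
  ⟨inf_le_right, le_sup_right⟩

theorem St.step (s0 k1 : ℕ) (hs0 : 1 ≤ s0) (hd : 5 ≤ d) {z : Vtx n d} {Q' Q : BoxT n d}
    {Z : Finset (Vtx n d)} (h : St z Q' Q Z) {x : Vtx n d} (hx : x ∈ cand s0 k1 Q' Q)
    {Y : Finset (Vtx n d)} (hY : Y ⊆ cand s0 k1 Q' Q) :
    St z Q (ext Q x) (insert x (Z ∪ Y)) := by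
  have hphi := cand_phi s0 k1 h.le hx
  have hnew : Balanced (ext Q x) ∧ ∃ i j : Fin d, i ≠ j ∧ sd Q i + 1 = sd (ext Q x) i ∧
      sd Q j + 1 = sd (ext Q x) j ∧ (∀ a, a ≠ i → a ≠ j → sd Q a = sd (ext Q x) a) ∧
      ((sd (ext Q x) i ≠ lev d (phi (ext Q x)) ∧ sd (ext Q x) j ≠ lev d (phi (ext Q x))) ∨
        d ≤ rem d (phi (ext Q x)) + 1) := by
    rcases L_cand_cases s0 k1 Q' Q with ⟨_, hc⟩ | ⟨P, hP, hc⟩ | hc
    · rw [hc] at hx
      obtain ⟨i, j, hij, hi, hj, h0, hsi, hsj⟩ := L_reg_shape hx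
      exact L_new (by omega) h.le h.bal hij hi hj h0 (Or.inl ⟨hsi, hsj⟩)
    · rw [hc] at hx
      obtain ⟨h1, h2, h3, a0, ha1, ha2, ha3⟩ := L_fresh_out hx
      refine L_new (by omega) h.le h.bal hP.1 h1 h2 h3 ?_
      rcases h.enl with ⟨_, he⟩ | ⟨a, b, hab, hsa, hsb, hoth, hor⟩
      · exfalso
        rw [he] at ha3
        exact ha3 (h3 a0 ha1 ha2)
      · have hrr := Balanced.rr_eq (by omega) h.bal
        unfold rr at hrr
        have hr1 := rem_pos (d := d) (by omega) (phi Q)
        rcases hor with ⟨hna, hnb⟩ | hr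
        · -- the enlarged directions have the larger side
          have hset : ∀ i, sd Q i = lev d (phi Q) → sd Q' i = sd Q i := by
            intro i hi
            refine hoth i ?_ ?_
            · rintro rfl
              exact hna hi
            · rintro rfl
              exact hnb hi
          by_cases hr2 : 2 ≤ rem d (phi Q)
          · left
            refine L_pair_side h.bal hP ?_
            rw [← hrr] at hr2
            refine hr2.trans (Finset.card_le_card ?_)
            intro i hi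
            rw [Finset.mem_filter] at hi ⊢
            exact ⟨Finset.mem_univ _, hset i hi.2, hi.2⟩
          · right
            have hr : rem d (phi Q) = 1 := by omega
            refine ⟨hr, ?_⟩
            rw [hr] at hrr
            obtain ⟨c, hc'⟩ := Finset.card_eq_one.1 hrr
            have hcl : sd Q c = lev d (phi Q) := by
              have : c ∈ Finset.univ.filter (fun i => sd Q i = lev d (phi Q)) := by
                rw [hc']
                exact Finset.mem_singleton_self c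
              exact (Finset.mem_filter.1 this).2
            by_cases hc1 : c = P.1
            · left
              rw [← hc1]
              exact hcl
            · by_cases hc2 : c = P.2
              · right
                rw [← hc2]
                exact hcl
              · left
                have h4 := (hP.2.2.2 c (hset c hcl) hc1 hc2).1
                rcases h.bal P.1 with h5 | h5
                · exact h5
                · rw [h5, hcl] at h4
                  omega
        · left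
          refine L_pair_side h.bal hP ?_
          have h6 : (Finset.univ.filter (fun i => sd Q i = lev d (phi Q))) \ {a, b} ⊆
              Finset.univ.filter (fun i => sd Q' i = sd Q i ∧ sd Q i = lev d (phi Q)) := by
            intro i hi
            rw [Finset.mem_sdiff, Finset.mem_filter] at hi
            rw [Finset.mem_filter]
            have h7 := hi.2
            simp only [Finset.mem_insert, Finset.mem_singleton, not_or] at h7
            exact ⟨Finset.mem_univ _, hoth i h7.1 h7.2, hi.1.2⟩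
          have h8 := Finset.card_le_card h6
          have h9 := Finset.le_card_sdiff ({a, b} : Finset (Fin d))
            (Finset.univ.filter (fun i => sd Q i = lev d (phi Q)))
          rw [hrr, Finset.card_pair hab] at h9
          omega
    · rw [hc] at hx
      simp at hx
  refine
    { le' := h.le
      le := ext_le h.le x
      sub1 := (L_ext_sub Q x).1
      sub2 := (L_ext_sub Q x).2
      mem1 := (L_ext_sub Q x).1.trans h.mem1
      mem2 := h.mem2.trans (L_ext_sub Q x).2
      bal := hnew.1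
      outs_le := ?_
      card_le := ?_
      enl := Or.inr hnew.2 }
  · intro y hy
    rw [Finset.mem_insert, Finset.mem_union] at hy
    rcases hy with rfl | hy | hy
    · exact (L_outs_cand s0 k1 h.sub1 h.sub2 hx).le
    · exact (L_outs_mono h.sub1 h.sub2 y).trans (h.outs_le y hy)
    · exact (L_outs_cand s0 k1 h.sub1 h.sub2 (hY hy)).le
  · rw [hphi]
    refine le_trans ?_ (L_zb_step (phi Q))
    have h1 : insert x (Z ∪ Y) ⊆ Z ∪ cand s0 k1 Q' Q := by
      intro y hy
      rw [Finset.mem_insert, Finset.mem_union] at hy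
      rw [Finset.mem_union]
      rcases hy with rfl | hy | hy
      · exact Or.inr hx
      · exact Or.inl hy
      · exact Or.inr (hY hy)
    have h2 := (Finset.card_le_card h1).trans (Finset.card_union_le _ _)
    have h3 : ((insert x (Z ∪ Y)).card : ℝ) ≤ (Z.card : ℝ) + (cand s0 k1 Q' Q).card := by
      exact_mod_cast h2
    have h4 := L_card_cand s0 k1 (by omega) (Q' := Q') h.le h.bal
    have h5 := h.card_le
    linarith

/-- in the chain phase there is a pair of directions and the sites are fresh -/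
theorem St.pair (hd : 4 ≤ d) {z : Vtx n d} {Q' Q : BoxT n d} {Z : Finset (Vtx n d)}
    (h : St z Q' Q Z) : ∃ P : Fin d × Fin d, PairDir Q' Q P := by
  have hcard : 2 ≤ (Finset.univ.filter (fun i => sd Q' i = sd Q i)).card := by
    rcases h.enl with ⟨_, he⟩ | ⟨a, b, hab, _, _, hoth, _⟩
    · rw [he]
      simp
      omega
    · have h1 : (Finset.univ : Finset (Fin d)) \ {a, b} ⊆
          Finset.univ.filter (fun i => sd Q' i = sd Q i) := by
        intro i hi
        rw [Finset.mem_sdiff] at hi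
        have h7 := hi.2
        simp only [Finset.mem_insert, Finset.mem_singleton, not_or] at h7
        rw [Finset.mem_filter]
        exact ⟨Finset.mem_univ _, hoth i h7.1 h7.2⟩
      have h2 := Finset.card_le_card h1
      have h3 := Finset.le_card_sdiff ({a, b} : Finset (Fin d)) Finset.univ
      rw [Finset.card_pair hab, Finset.card_univ, Fintype.card_fin] at h3
      omega
  set N := Finset.univ.filter (fun i => sd Q' i = sd Q i) with hN
  have hne : N.Nonempty := Finset.card_pos.1 (by omega)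
  obtain ⟨a, ha, hmina⟩ := Finset.exists_min_image N (fun i => sd Q i) hne
  have hne2 : (N.erase a).Nonempty := by
    apply Finset.card_pos.1
    rw [Finset.card_erase_of_mem ha]
    omega
  obtain ⟨b, hb, hminb⟩ := Finset.exists_min_image (N.erase a) (fun i => sd Q i) hne2
  rw [Finset.mem_erase] at hb
  refine ⟨(a, b), hb.1.symm, (Finset.mem_filter.1 ha).2, (Finset.mem_filter.1 hb.2).2, ?_⟩
  intro i hi hia hib
  have hiN : i ∈ N := by
    rw [hN, Finset.mem_filter]
    exact ⟨Finset.mem_univ _, hi⟩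
  exact ⟨hmina i hiN, hminb i (Finset.mem_erase.2 ⟨hia, hiN⟩)⟩

theorem St.fresh {z : Vtx n d} {Q' Q : BoxT n d} {Z : Finset (Vtx n d)}
    (h : St z Q' Q Z) {P : Fin d × Fin d} (hP : P.1 ≠ P.2) : Disjoint (Fresh Q' Q P) Z := by
  rw [Finset.disjoint_left]
  intro y hy hyZ
  have h1 := (outs_of_Fresh h.sub1 h.sub2 hP hy).2
  have h2 := h.outs_le y hyZ
  omega

/-! ### the decision trees -/

theorem L_takeWhile {α : Type*} [DecidableEq α] {l pre post : List α} {x : α}
    (h : l = pre ++ x :: post) (hn : l.Nodup) :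
    l.takeWhile (fun y => decide (y ≠ x)) = pre := by
  subst h
  have hx : ∀ y ∈ pre, decide (y ≠ x) = true := by
    intro y hy
    rw [decide_eq_true_iff]
    rintro rfl
    rw [List.nodup_append] at hn
    exact hn.2.2 y hy y (List.mem_cons_self) rfl
  rw [List.takeWhile_append_of_pos hx]
  simp

theorem gtree_valid (s0 k1 m : ℕ) (Q' Q : BoxT n d) (Z : Finset (Vtx n d)) :
    (gtree s0 k1 m Q' Q Z).Valid Z := by
  induction m generalizing Q' Q Z with
  | zero => exact trivial
  | succ m ih =>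
    refine ⟨Finset.nodup_toList _, ?_, ?_⟩
    · intro x hx
      rw [Finset.mem_toList, Finset.mem_sdiff] at hx
      exact hx.2
    · intro pre post x hl
      have h1 := L_takeWhile hl (Finset.nodup_toList _)
      have h2 := ih Q (ext Q x) (insert x (Z ∪
        ((cand s0 k1 Q' Q \ Z).toList.takeWhile (fun y => decide (y ≠ x))).toFinset))
      rw [h1] at h2
      simp only
      rw [h1]
      exact h2

theorem rtree_valid (s0 k1 m : ℕ) (z : Vtx n d) : (rtree s0 k1 m z).Valid ∅ := by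
  refine ⟨List.nodup_singleton z, by simp, ?_⟩
  intro pre post x hl
  have hpre : pre = [] := by
    cases pre with
    | nil => rfl
    | cons a t =>
      simp at hl
  subst hpre
  have hx : x = z := by
    simp at hl
    exact hl.1.symm
  subst hx
  have h := gtree_valid s0 k1 m (x, x) (x, x) {x}
  simpa using h

theorem L_gtree_win (s0 k1 m : ℕ) (Q' Q : BoxT n d) (Z : Finset (Vtx n d))
    {T : Finset (Vtx n d)} (h : (gtree s0 k1 m Q' Q Z).Win T) : T.card ≤ m := by
  induction m generalizing Q' Q Z T with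
  | zero =>
    unfold gtree at h
    cases h
    simp
  | succ m ih =>
    unfold gtree at h
    cases h with
    | node hx h' =>
      have := ih _ _ _ h'
      exact (Finset.card_insert_le _ _).trans (by omega)

theorem rtree_win_card (s0 k1 m : ℕ) (z : Vtx n d) {T : Finset (Vtx n d)}
    (h : (rtree s0 k1 m z).Win T) : T.card ≤ m + 1 := by
  unfold rtree at h
  cases h with
  | node hx h' =>
    have := L_gtree_win s0 k1 m _ _ _ h'
    exact (Finset.card_insert_le _ _).trans (by omega)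

theorem L_find {α : Type*} [DecidableEq α] {l : List α} {A : Finset α} {x : α}
    (h : l.find? (fun y => decide (y ∈ A)) = some x) : x ∈ A ∧ x ∈ l := by
  refine ⟨?_, List.mem_of_find?_eq_some h⟩
  have := List.find?_some h
  simpa using this

theorem L_gtree_box (s0 k1 m : ℕ) (hs0 : 1 ≤ s0) (hd : 5 ≤ d) (z : Vtx n d)
    (A : Finset (Vtx n d)) (Q' Q : BoxT n d) (Z : Finset (Vtx n d)) (hst : St z Q' Q Z)
    (hQ : ∀ x, Q.1 ≤ x → x ≤ Q.2 →
        x ∈ bclosure 2 ((A : Set (Vtx n d)) ∩ {y | Q.1 ≤ y ∧ y ≤ Q.2}))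
    (h : (gtree s0 k1 m Q' Q Z).succ A) :
    ∃ R : BoxT n d, R.1 ≤ R.2 ∧ Balanced R ∧ phi R = phi Q + 2 * m ∧ R.1 ≤ z ∧ z ≤ R.2 ∧
      ∀ x, R.1 ≤ x → x ≤ R.2 →
        x ∈ bclosure 2 ((A : Set (Vtx n d)) ∩ {y | R.1 ≤ y ∧ y ≤ R.2}) := by
  induction m generalizing Q' Q Z with
  | zero => exact ⟨Q, hst.le, hst.bal, by simp, hst.mem1, hst.mem2, hQ⟩
  | succ m ih =>
    unfold gtree at h
    obtain ⟨x, hx, hs⟩ := h
    obtain ⟨hxA, hxl⟩ := L_find hx
    rw [Finset.mem_toList, Finset.mem_sdiff] at hxl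
    have hphi := cand_phi s0 k1 hst.le hxl.1
    have hY : ((cand s0 k1 Q' Q \ Z).toList.takeWhile (fun y => decide (y ≠ x))).toFinset ⊆
        cand s0 k1 Q' Q := by
      intro y hy
      rw [List.mem_toFinset] at hy
      have h1 := List.takeWhile_subset _ hy
      rw [Finset.mem_toList, Finset.mem_sdiff] at h1
      exact h1.1
    have hst' := St.step s0 k1 hs0 hd hst hxl.1 hY
    have hbox : ∀ y, (ext Q x).1 ≤ y → y ≤ (ext Q x).2 →
        y ∈ bclosure 2 ((A : Set (Vtx n d)) ∩ {y | (ext Q x).1 ≤ y ∧ y ≤ (ext Q x).2}) := by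
      refine grow_ext (closed_bclosure _) hst.le ?_ ?_ hphi.le
      · intro y h1 h2
        refine bclosure_mono 2 ?_ (hQ y h1 h2)
        rintro w ⟨hwA, hw1, hw2⟩
        exact ⟨hwA, (L_ext_sub Q x).1.trans hw1, hw2.trans (L_ext_sub Q x).2⟩
      · exact subset_bclosure 2 _ ⟨hxA, L_ext_mem Q x⟩
    obtain ⟨R, h1, h2, h3, h4, h5, h6⟩ := ih _ _ _ hst' hbox hs
    exact ⟨R, h1, h2, by rw [h3, hphi]; ring, h4, h5, h6⟩

theorem rtree_succ_box (s0 k1 m : ℕ) (hs0 : 1 ≤ s0) (hd : 5 ≤ d) (z : Vtx n d)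
    (A : Finset (Vtx n d)) (h : (rtree s0 k1 m z).succ A) :
    ∃ R : BoxT n d, R.1 ≤ R.2 ∧ Balanced R ∧ phi R = 2 * m ∧ R.1 ≤ z ∧ z ≤ R.2 ∧
      ∀ x, R.1 ≤ x → x ≤ R.2 →
        x ∈ bclosure 2 ((A : Set (Vtx n d)) ∩ {y | R.1 ≤ y ∧ y ≤ R.2}) := by
  unfold rtree at h
  obtain ⟨x, hx, hs⟩ := h
  obtain ⟨hxA, hxl⟩ := L_find hx
  rw [List.mem_singleton] at hxl
  subst hxl
  have h0 := L_gtree_box s0 k1 m hs0 hd x A (x, x) (x, x) {x} (St.init (by omega) x) ?_ hs
  · rw [L_phi_point, zero_add] at h0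
    exact h0
  · intro y h1 h2
    have hyx : y = x := le_antisymm h2 h1
    subst hyx
    exact subset_bclosure 2 _ ⟨hxA, le_refl _, le_refl _⟩

theorem L_gtree_seed (s0 k1 m K a : ℕ) (hK : K ≤ m) (z : Vtx n d) (A : Finset (Vtx n d))
    (Q' Q : BoxT n d) (Z T : Finset (Vtx n d)) (hQ : Q.1 ≤ Q.2) (hz1 : Q.1 ≤ z) (hz2 : z ≤ Q.2)
    (hTA : T ⊆ A) (hTZ : T ⊆ Z) (hT : T.card = a + 1) (hin : ∀ y ∈ T, Q.1 ≤ y ∧ y ≤ Q.2)
    (hphi : phi Q = 2 * a) (h : (gtree s0 k1 m Q' Q Z).succ A) :
    ∃ (S : Finset (Vtx n d)) (R : BoxT n d), S ⊆ A ∧ T ⊆ S ∧ S.card = a + K + 1 ∧ R.1 ≤ R.2 ∧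
      R.1 ≤ z ∧ z ≤ R.2 ∧ phi R = 2 * (a + K) ∧ ∀ y ∈ S, R.1 ≤ y ∧ y ≤ R.2 := by
  induction m generalizing K a Q' Q Z T with
  | zero =>
    have : K = 0 := by omega
    subst this
    exact ⟨T, Q, hTA, Finset.Subset.refl T, by simpa using hT, hQ, hz1, hz2, by simpa using hphi,
      hin⟩
  | succ m ih =>
    rcases Nat.eq_zero_or_pos K with hK0 | hKpos
    · subst hK0
      exact ⟨T, Q, hTA, Finset.Subset.refl T, by simpa using hT, hQ, hz1, hz2,
        by simpa using hphi, hin⟩
    · unfold gtree at h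
      obtain ⟨x, hx, hs⟩ := h
      obtain ⟨hxA, hxl⟩ := L_find hx
      rw [Finset.mem_toList, Finset.mem_sdiff] at hxl
      have hphi' := cand_phi s0 k1 hQ hxl.1
      have hxT : x ∉ T := fun hxT => hxl.2 (hTZ hxT)
      have hin' : ∀ y ∈ insert x T, (ext Q x).1 ≤ y ∧ y ≤ (ext Q x).2 := by
        intro y hy
        rw [Finset.mem_insert] at hy
        rcases hy with rfl | hy
        · exact L_ext_mem Q y
        · exact ⟨(L_ext_sub Q x).1.trans (hin y hy).1, (hin y hy).2.trans (L_ext_sub Q x).2⟩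
      obtain ⟨S, R, h1, h2, h3, h4, h5, h6, h7, h8⟩ := ih (K - 1) (a + 1) (by omega) Q (ext Q x)
        (insert x (Z ∪
        ((cand s0 k1 Q' Q \ Z).toList.takeWhile (fun y => decide (y ≠ x))).toFinset))
        (insert x T) (ext_le hQ x) ((L_ext_sub Q x).1.trans hz1) (hz2.trans (L_ext_sub Q x).2)
        (Finset.insert_subset hxA hTA)
        (Finset.insert_subset_insert x (hTZ.trans Finset.subset_union_left))
        (by rw [Finset.card_insert_of_notMem hxT, hT]) hin' (by rw [hphi', hphi]; ring) hs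
      refine ⟨S, R, h1, (Finset.subset_insert x T).trans h2, ?_, h4, h5, h6, ?_, h8⟩
      · rw [h3]
        omega
      · rw [h7]
        congr 1
        omega

theorem rtree_succ_seed (s0 k1 m K : ℕ) (hK : K ≤ m) (z : Vtx n d)
    (A : Finset (Vtx n d)) (h : (rtree s0 k1 m z).succ A) :
    ∃ S : Finset (Vtx n d), S ⊆ A ∧ z ∈ S ∧ S.card = K + 1 ∧
      ∀ y ∈ S, ∑ i, (((y i : ℕ) - z i) + ((z i : ℕ) - y i)) ≤ 2 * K := by
  unfold rtree at h
  obtain ⟨x, hx, hs⟩ := h
  obtain ⟨hxA, hxl⟩ := L_find hx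
  rw [List.mem_singleton] at hxl
  subst hxl
  obtain ⟨S, R, h1, h2, h3, h4, h5, h6, h7, h8⟩ := L_gtree_seed s0 k1 m K 0 hK x A (x, x) (x, x)
    {x} {x} (le_refl _) (le_refl _) (le_refl _) (by simpa using hxA) (Finset.Subset.refl _)
    (by simp) (by simp) (by rw [L_phi_point]) hs
  refine ⟨S, h1, h2 (Finset.mem_singleton_self x), by rw [h3]; omega, ?_⟩
  intro y hy
  rw [zero_add] at h7
  rw [← h7]
  unfold phi
  refine Finset.sum_le_sum ?_
  intro i _
  have e1 : ((R.1 i : Fin n) : ℕ) ≤ y i := (h8 y hy).1 i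
  have e2 : (y i : ℕ) ≤ (R.2 i : ℕ) := (h8 y hy).2 i
  have e3 : ((R.1 i : Fin n) : ℕ) ≤ x i := h5 i
  have e4 : (x i : ℕ) ≤ (R.2 i : ℕ) := h6 i
  omega

end Pool.Agent.Lib.MP_8501c9_pr.Mid
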