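import Pool.Agent.Lib.MP_8501c9_pr.Mid.Defs2
import Pool.Agent.Lib.MP_8501c9_pr.Prob

set_option autoImplicit false
open Set

/-!
# Decision trees: success probability and the second moment bound
-/

namespace Pool.Agent.Lib.MP_8501c9_pr.Mid

open Pool.Agent.Lib.MP_8501c9_pr

section I
variable {V : Type} [Fintype V] [DecidableEq V]

omit [Fintype V] in
theorem I_succ_nil (g : V → DT V) (A : Finset V) : ¬ (DT.node [] g).succ A := by
  simp [DT.succ]

omit [Fintype V] in
theorem I_succ_cons (x : V) (l : List V) (g : V → DT V) (A : Finset V) :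
    (DT.node (x :: l) g).succ A ↔
      (x ∈ A ∧ (g x).succ A) ∨ (x ∉ A ∧ (DT.node l g).succ A) := by
  by_cases hx : x ∈ A
  · simp [DT.succ, hx]
  · simp [DT.succ, hx]

omit [Fintype V] in
theorem I_valid_cons {x : V} {l : List V} {g : V → DT V} {Z : Finset V}
    (h : (DT.node (x :: l) g).Valid Z) :
    x ∉ Z ∧ (g x).Valid (insert x Z) ∧ (DT.node l g).Valid (insert x Z) := by
  obtain ⟨h1, h2, h3⟩ := h
  rw [List.nodup_cons] at h1
  refine ⟨h2 x (by simp), ?_, h1.2, ?_, ?_⟩
  · have := h3 [] l x rfl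
    simpa using this
  · intro y hy
    rw [Finset.mem_insert]
    rintro (rfl | h4)
    · exact h1.1 hy
    · exact h2 y (by simp [hy]) h4
  · intro pre post y hl
    have := h3 (x :: pre) post y (by simp [hl])
    have he : insert y (Z ∪ (x :: pre).toFinset) = insert y (insert x Z ∪ pre.toFinset) := by
      ext z
      simp only [Finset.mem_insert, Finset.mem_union, List.toFinset_cons]
      tauto
    rwa [he] at this

omit [Fintype V] [DecidableEq V] in
theorem I_val_nil (p : ℝ) (g : V → DT V) : (DT.node [] g).val p = 0 := by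
  simp [DT.val]

omit [Fintype V] [DecidableEq V] in
theorem I_val_cons (p : ℝ) (x : V) (l : List V) (g : V → DT V) :
    (DT.node (x :: l) g).val p = p * (g x).val p + (1 - p) * (DT.node l g).val p := by
  simp only [DT.val]
  change ∑ i : Fin (l.length + 1), _ = _
  rw [Fin.sum_univ_succ]
  simp only [Finset.mul_sum]
  congr 1
  · simp
  · refine Finset.sum_congr rfl fun i _ => ?_
    simp only [Fin.val_succ, pow_succ, List.get_eq_getElem, List.getElem_cons_succ]
    ring

omit [DecidableEq V] in
theorem I_Ex_add (p : ℝ) (f g : Finset V → ℝ) :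
    Ex p (fun A => f A + g A) = Ex p f + Ex p g := by
  unfold Ex
  rw [← Finset.sum_add_distrib]
  exact Finset.sum_congr rfl fun A _ => by ring

omit [DecidableEq V] in
theorem I_Ex_sum (p : ℝ) {ι : Type*} (s : Finset ι) (f : ι → Finset V → ℝ) :
    Ex p (fun A => ∑ i ∈ s, f i A) = ∑ i ∈ s, Ex p (f i) := by
  unfold Ex
  rw [Finset.sum_comm]
  exact Finset.sum_congr rfl fun A _ => by rw [Finset.mul_sum]

omit [DecidableEq V] in
theorem I_Ex_mul (p c : ℝ) (f : Finset V → ℝ) :
    Ex p (fun A => c * f A) = c * Ex p f := by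
  unfold Ex
  rw [Finset.mul_sum]
  exact Finset.sum_congr rfl fun A _ => by ring

omit [DecidableEq V] in
theorem I_Ex_mono {p : ℝ} (hp0 : 0 ≤ p) (hp1 : p ≤ 1) {f g : Finset V → ℝ}
    (h : ∀ A, f A ≤ g A) : Ex p f ≤ Ex p g := by
  unfold Ex
  refine Finset.sum_le_sum fun A _ => ?_
  have : 0 ≤ 1 - p := by linarith
  exact mul_le_mul_of_nonneg_left (h A) (by positivity)

/-- looking at one new site -/
theorem I_Ex_mem (p : ℝ) (Z : Finset V) (x : V) (hx : x ∉ Z) (f : Finset V → ℝ) :
    Ex p (fun A => f (A ∩ Z) * (if x ∈ A then 1 else 0)) = p * Ex p (fun A => f (A ∩ Z)) := by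
  have h1 : (fun A : Finset V => f (A ∩ Z) * (if x ∈ A then (1 : ℝ) else 0)) =
      fun A => f (A ∩ Z) * (fun B => if x ∈ B then (1 : ℝ) else 0) (A \ Z) := by
    funext A
    simp [hx]
  rw [h1, Ex_indep Z f (fun B => if x ∈ B then (1 : ℝ) else 0)]
  have h2 : (fun A : Finset V => (fun B => if x ∈ B then (1 : ℝ) else 0) (A \ Z)) =
      fun A => if ({x} : Finset V) ⊆ A then (1 : ℝ) else 0 := by
    funext A
    simp [hx]
  rw [h2, ← Pr_eq_Ex (fun A : Finset V => ({x} : Finset V) ⊆ A), Pr_superset]
  simp [mul_comm]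

theorem I_Ex_not_mem (p : ℝ) (Z : Finset V) (x : V) (hx : x ∉ Z) (f : Finset V → ℝ) :
    Ex p (fun A => f (A ∩ Z) * (if x ∈ A then 0 else 1)) =
      (1 - p) * Ex p (fun A => f (A ∩ Z)) := by
  have h1 : (fun A : Finset V => f (A ∩ Z)) = fun A =>
      f (A ∩ Z) * (if x ∈ A then (1 : ℝ) else 0) + f (A ∩ Z) * (if x ∈ A then 0 else 1) := by
    funext A
    by_cases h : x ∈ A <;> simp [h]
  have h2 := congrArg (Ex p) h1
  rw [I_Ex_add, I_Ex_mem p Z x hx f] at h2
  linarith

open Classical in
theorem I_pr_succ (p : ℝ) (t : DT V) : ∀ (Z : Finset V), t.Valid Z → ∀ f : Finset V → ℝ,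
    Ex p (fun A => f (A ∩ Z) * (if t.succ A then 1 else 0)) =
      Ex p (fun A => f (A ∩ Z)) * t.val p := by
  induction t with
  | win =>
    intro Z _ f
    simp [DT.succ, DT.val]
  | node l g ih =>
    induction l with
    | nil =>
      intro Z _ f
      simp [I_succ_nil, I_val_nil, Ex]
    | cons x l ihl =>
      intro Z hv f
      obtain ⟨hx, h1, h2⟩ := I_valid_cons hv
      have e1 := ih x (insert x Z) h1 (fun B => f (B ∩ Z) * (if x ∈ B then 1 else 0))
      have e2 := ihl (insert x Z) h2 (fun B => f (B ∩ Z) * (if x ∈ B then 0 else 1))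
      have hint : ∀ A : Finset V, (A ∩ insert x Z) ∩ Z = A ∩ Z := by
        intro A
        ext y
        simp only [Finset.mem_inter, Finset.mem_insert]
        tauto
      have hmem : ∀ A : Finset V, x ∈ A ∩ insert x Z ↔ x ∈ A := by
        intro A
        simp
      simp only [hint, hmem] at e1 e2
      have hsplit : (fun A : Finset V => f (A ∩ Z) *
          (if (DT.node (x :: l) g).succ A then (1 : ℝ) else 0)) = fun A =>
          f (A ∩ Z) * (if x ∈ A then (1 : ℝ) else 0) * (if (g x).succ A then 1 else 0) +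
          f (A ∩ Z) * (if x ∈ A then 0 else 1) * (if (DT.node l g).succ A then 1 else 0) := by
        funext A
        by_cases h : x ∈ A
        · simp [I_succ_cons, h]
        · simp [I_succ_cons, h]
      rw [hsplit, I_Ex_add, e1, e2, I_Ex_mem p Z x hx f, I_Ex_not_mem p Z x hx f, I_val_cons]
      ring

theorem DT.pr_succ (p : ℝ) (t : DT V) (hv : t.Valid ∅) :
    Pr p (fun A => t.succ A) = t.val p := by
  classical
  have h := I_pr_succ p t ∅ hv (fun _ => 1)
  simp only [one_mul, Ex_one] at h
  rw [Pr_eq_Ex]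
  exact h

omit [Fintype V] [DecidableEq V] in
theorem DT.val_nonneg {p : ℝ} (hp0 : 0 ≤ p) (hp1 : p ≤ 1) (t : DT V) : 0 ≤ t.val p := by
  induction t with
  | win => simp [DT.val]
  | node l g ih =>
    simp only [DT.val]
    refine Finset.sum_nonneg fun i _ => ?_
    have : 0 ≤ 1 - p := by linarith
    exact mul_nonneg (by positivity) (ih _)

open Classical in
theorem I_base {p : ℝ} (hp0 : 0 ≤ p) (hp1 : p ≤ 1) (Z T0 S : Finset V) (hT : T0 ⊆ Z) :
    Ex p (fun A => (if A ∩ Z = T0 then (1 : ℝ) else 0) * (if S ⊆ A then 1 else 0)) ≤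
      Ex p (fun A => if A ∩ Z = T0 then (1 : ℝ) else 0) * p ^ (S \ T0).card := by
  by_cases h : S ∩ Z ⊆ T0
  · have he : S \ T0 = S \ Z := by
      ext y
      simp only [Finset.mem_sdiff]
      constructor
      · rintro ⟨h1, h2⟩
        exact ⟨h1, fun h3 => h2 (h (Finset.mem_inter.2 ⟨h1, h3⟩))⟩
      · rintro ⟨h1, h2⟩
        exact ⟨h1, fun h3 => h2 (hT h3)⟩
    have h1 : (fun A : Finset V => (if A ∩ Z = T0 then (1 : ℝ) else 0) *
        (if S ⊆ A then 1 else 0)) ≤ fun A => (fun B => if B = T0 then (1 : ℝ) else 0) (A ∩ Z) *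
        (fun C => if S \ Z ⊆ C then (1 : ℝ) else 0) (A \ Z) := by
      intro A
      by_cases hA : A ∩ Z = T0
      · by_cases hS : S ⊆ A
        · have : S \ Z ⊆ A \ Z := Finset.sdiff_subset_sdiff hS (Finset.Subset.refl _)
          simp [hA, hS, this]
        · simp only [hA, hS, if_true, if_false, mul_zero, one_mul]
          positivity
      · simp [hA]
    refine (I_Ex_mono hp0 hp1 h1).trans ?_
    rw [Ex_indep Z (fun B => if B = T0 then (1 : ℝ) else 0)
      (fun C => if S \ Z ⊆ C then (1 : ℝ) else 0)]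
    have h2 : (fun A : Finset V => (fun C => if S \ Z ⊆ C then (1 : ℝ) else 0) (A \ Z)) =
        fun A => if S \ Z ⊆ A then (1 : ℝ) else 0 := by
      funext A
      have : S \ Z ⊆ A \ Z ↔ S \ Z ⊆ A := by
        constructor
        · intro h
          exact h.trans Finset.sdiff_subset
        · intro h y hy
          exact Finset.mem_sdiff.2 ⟨h hy, (Finset.mem_sdiff.1 hy).2⟩
      simp only [this]
    rw [h2, ← Pr_eq_Ex (fun A : Finset V => S \ Z ⊆ A), Pr_superset, he]
  · have h1 : (fun A : Finset V => (if A ∩ Z = T0 then (1 : ℝ) else 0) *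
        (if S ⊆ A then 1 else 0)) = fun _ => 0 := by
      funext A
      by_cases hA : A ∩ Z = T0
      · by_cases hS : S ⊆ A
        · exact absurd (fun y hy => hA ▸ Finset.mem_inter.2
            ⟨hS (Finset.mem_inter.1 hy).1, (Finset.mem_inter.1 hy).2⟩) h
        · simp [hS]
      · simp [hA]
    rw [h1]
    have h0 : Ex p (fun _ : Finset V => (0 : ℝ)) = 0 := by simp [Ex]
    rw [h0]
    refine mul_nonneg ?_ (by positivity)
    rw [← Pr_eq_Ex]
    exact Pr_nonneg hp0 hp1 _

open Classical in
theorem I_sum_pr {p : ℝ} (hp0 : 0 ≤ p) (hp1 : p ≤ 1) {κ : Type*} (J : Finset κ)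
    (S : κ → Finset V) (D : ℝ) (t : DT V) : ∀ (Z T0 : Finset V), t.Valid Z → T0 ⊆ Z →
    (∀ T, t.Win T → ∑ j ∈ J, p ^ (S j \ (T0 ∪ T)).card ≤ D) →
    ∑ j ∈ J, Ex p (fun A => (if A ∩ Z = T0 then (1 : ℝ) else 0) *
      ((if t.succ A then 1 else 0) * (if S j ⊆ A then 1 else 0))) ≤
      D * (Ex p (fun A => if A ∩ Z = T0 then (1 : ℝ) else 0) * t.val p) := by
  induction t with
  | win =>
    intro Z T0 _ hT hD
    have h1 := hD ∅ DT.Win.win
    simp only [Finset.union_empty] at h1
    simp only [DT.succ, if_true, one_mul, DT.val, mul_one]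
    have h0 : 0 ≤ Ex p (fun A => if A ∩ Z = T0 then (1 : ℝ) else 0) := by
      rw [← Pr_eq_Ex]
      exact Pr_nonneg hp0 hp1 _
    calc _ ≤ ∑ j ∈ J, Ex p (fun A => if A ∩ Z = T0 then (1 : ℝ) else 0) *
          p ^ (S j \ T0).card := Finset.sum_le_sum fun j _ => I_base hp0 hp1 Z T0 (S j) hT
      _ = Ex p (fun A => if A ∩ Z = T0 then (1 : ℝ) else 0) *
          ∑ j ∈ J, p ^ (S j \ T0).card := by rw [Finset.mul_sum]
      _ ≤ Ex p (fun A => if A ∩ Z = T0 then (1 : ℝ) else 0) * D :=
          mul_le_mul_of_nonneg_left h1 h0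
      _ = _ := by ring
  | node l g ih =>
    induction l with
    | nil =>
      intro Z T0 _ hT hD
      simp [I_succ_nil, I_val_nil, Ex]
    | cons x l ihl =>
      intro Z T0 hv hT hD
      obtain ⟨hx, h1, h2⟩ := I_valid_cons hv
      have hxT : x ∉ T0 := fun h => hx (hT h)
      have e1 := ih x (insert x Z) (insert x T0) h1 (Finset.insert_subset_insert _ hT) (by
        intro T hW
        have := hD (insert x T) (DT.Win.node (by simp) hW)
        have he : insert x T0 ∪ T = T0 ∪ insert x T := by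
          ext y
          simp only [Finset.mem_insert, Finset.mem_union]
          tauto
        rwa [he])
      have e2 := ihl (insert x Z) T0 h2 (hT.trans (Finset.subset_insert _ _)) (by
        intro T hW
        refine hD T ?_
        cases hW with
        | node hx h => exact DT.Win.node (by simp [hx]) h)
      have c1 : ∀ A : Finset V, (if A ∩ insert x Z = insert x T0 then (1 : ℝ) else 0) =
          (if A ∩ Z = T0 then (1 : ℝ) else 0) * (if x ∈ A then 1 else 0) := by
        intro A
        have : A ∩ insert x Z = insert x T0 ↔ A ∩ Z = T0 ∧ x ∈ A := by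
          constructor
          · intro h
            have hxA : x ∈ A := by
              have : x ∈ A ∩ insert x Z := by rw [h]; simp
              exact (Finset.mem_inter.1 this).1
            refine ⟨?_, hxA⟩
            ext y
            constructor
            · intro hy
              have hy' := Finset.mem_inter.1 hy
              have : y ∈ A ∩ insert x Z := by simp [hy'.1, hy'.2]
              rw [h, Finset.mem_insert] at this
              rcases this with rfl | h3
              · exact absurd hy'.2 hx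
              · exact h3
            · intro hy
              have : y ∈ A ∩ insert x Z := by rw [h]; simp [hy]
              exact Finset.mem_inter.2 ⟨(Finset.mem_inter.1 this).1, hT hy⟩
          · rintro ⟨h, hxA⟩
            rw [Finset.inter_insert_of_mem hxA, h]
        simp only [this]
        by_cases ha : A ∩ Z = T0 <;> by_cases hb : x ∈ A <;> simp [ha, hb]
      have c2 : ∀ A : Finset V, (if A ∩ insert x Z = T0 then (1 : ℝ) else 0) =
          (if A ∩ Z = T0 then (1 : ℝ) else 0) * (if x ∈ A then 0 else 1) := by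
        intro A
        have : A ∩ insert x Z = T0 ↔ A ∩ Z = T0 ∧ x ∉ A := by
          constructor
          · intro h
            have hxA : x ∉ A := by
              intro hxA
              have : x ∈ A ∩ insert x Z := by simp [hxA]
              rw [h] at this
              exact hxT this
            refine ⟨?_, hxA⟩
            rw [← h, Finset.inter_insert_of_notMem hxA]
          · rintro ⟨h, hxA⟩
            rw [Finset.inter_insert_of_notMem hxA, h]
        simp only [this]
        by_cases ha : A ∩ Z = T0 <;> by_cases hb : x ∈ A <;> simp [ha, hb]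
      simp only [c1, c2] at e1 e2
      have m1 := I_Ex_mem p Z x hx (fun B => if B = T0 then (1 : ℝ) else 0)
      have m2 := I_Ex_not_mem p Z x hx (fun B => if B = T0 then (1 : ℝ) else 0)
      rw [m1] at e1
      rw [m2] at e2
      have hsplit : ∀ j, Ex p (fun A => (if A ∩ Z = T0 then (1 : ℝ) else 0) *
          ((if (DT.node (x :: l) g).succ A then 1 else 0) * (if S j ⊆ A then 1 else 0))) =
          Ex p (fun A => (if A ∩ Z = T0 then (1 : ℝ) else 0) * (if x ∈ A then 1 else 0) *
            ((if (g x).succ A then 1 else 0) * (if S j ⊆ A then 1 else 0))) +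
          Ex p (fun A => (if A ∩ Z = T0 then (1 : ℝ) else 0) * (if x ∈ A then 0 else 1) *
            ((if (DT.node l g).succ A then 1 else 0) * (if S j ⊆ A then 1 else 0))) := by
        intro j
        rw [← I_Ex_add]
        congr 1
        funext A
        by_cases h : x ∈ A
        · simp [I_succ_cons, h]
        · simp [I_succ_cons, h]
      rw [Finset.sum_congr rfl fun j _ => hsplit j, Finset.sum_add_distrib, I_val_cons]
      calc _ ≤ _ := add_le_add e1 e2
        _ = _ := by ring

theorem DT.sum_pr_le {p : ℝ} (hp0 : 0 ≤ p) (hp1 : p ≤ 1) {κ : Type*} (J : Finset κ)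
    (S : κ → Finset V) (D : ℝ) (t : DT V) (hv : t.Valid ∅)
    (hD : ∀ T, t.Win T → ∑ j ∈ J, p ^ (S j \ T).card ≤ D) :
    ∑ j ∈ J, Pr p (fun A => t.succ A ∧ S j ⊆ A) ≤ D * t.val p := by
  classical
  have h := I_sum_pr hp0 hp1 J S D t ∅ ∅ hv (Finset.Subset.refl _) (by
    intro T hT
    simpa using hD T hT)
  simp only [Finset.inter_empty, if_true, one_mul, Ex_one] at h
  refine le_trans (le_of_eq ?_) h
  refine Finset.sum_congr rfl fun j _ => ?_
  rw [Pr_eq_Ex]
  congr 1
  funext A
  by_cases h1 : t.succ A <;> by_cases h2 : S j ⊆ A <;> simp [h1, h2]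

/-- second moment bound -/
theorem second_moment {p : ℝ} (hp0 : 0 ≤ p) (hp1 : p ≤ 1) {ι κ : Type*} (I : Finset ι)
    (t : ι → DT V) (J : Finset κ) (S : κ → Finset V) (D : ℝ)
    (hv : ∀ i ∈ I, (t i).Valid ∅)
    (hdom : ∀ A : Finset V, {i | i ∈ I ∧ (t i).succ A}.ncard ≤ {j | j ∈ J ∧ S j ⊆ A}.ncard)
    (hD : ∀ i ∈ I, ∀ T, (t i).Win T → ∑ j ∈ J, p ^ (S j \ T).card ≤ D) :
    ∑ i ∈ I, (t i).val p ≤ D * Pr p (fun A => ∃ i ∈ I, (t i).succ A) := by
  classical
  set X : Finset V → ℝ := fun A => ∑ i ∈ I, (if (t i).succ A then (1 : ℝ) else 0) with hX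
  set Y : Finset V → ℝ := fun A => ∑ j ∈ J, (if S j ⊆ A then (1 : ℝ) else 0) with hY
  have hXY : ∀ A, X A ≤ Y A := by
    intro A
    have h := hdom A
    have h1 : {i | i ∈ I ∧ (t i).succ A} = ((I.filter fun i => (t i).succ A : Finset ι) : Set ι) := by
      ext i; simp
    have h2 : {j | j ∈ J ∧ S j ⊆ A} = ((J.filter fun j => S j ⊆ A : Finset κ) : Set κ) := by
      ext i; simp
    rw [h1, h2, Set.ncard_coe_finset, Set.ncard_coe_finset] at h
    simp only [hX, hY, Finset.sum_boole]
    exact_mod_cast h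
  have hX0 : ∀ A, 0 ≤ X A := fun A => Finset.sum_nonneg fun i _ => by positivity
  set v := ∑ i ∈ I, (t i).val p with hvdef
  have hv0 : 0 ≤ v := Finset.sum_nonneg fun i _ => DT.val_nonneg hp0 hp1 _
  have hEX : Ex p X = v := by
    rw [hX, I_Ex_sum]
    refine Finset.sum_congr rfl fun i hi => ?_
    rw [← Pr_eq_Ex]
    exact DT.pr_succ p (t i) (hv i hi)
  have hEX2 : Ex p (fun A => X A * X A) ≤ D * v := by
    calc Ex p (fun A => X A * X A) ≤ Ex p (fun A => X A * Y A) :=
          I_Ex_mono hp0 hp1 fun A => mul_le_mul_of_nonneg_left (hXY A) (hX0 A)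
      _ = ∑ i ∈ I, ∑ j ∈ J, Pr p (fun A => (t i).succ A ∧ S j ⊆ A) := by
          have : (fun A => X A * Y A) = fun A => ∑ i ∈ I, ∑ j ∈ J,
              (if (t i).succ A ∧ S j ⊆ A then (1 : ℝ) else 0) := by
            funext A
            simp only [hX, hY, Finset.sum_mul_sum]
            refine Finset.sum_congr rfl fun i _ => Finset.sum_congr rfl fun j _ => ?_
            by_cases h1 : (t i).succ A <;> by_cases h2 : S j ⊆ A <;> simp [h1, h2]
          rw [this, I_Ex_sum]
          refine Finset.sum_congr rfl fun i _ => ?_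
          rw [I_Ex_sum]
          exact Finset.sum_congr rfl fun j _ => (Pr_eq_Ex _).symm
      _ ≤ ∑ i ∈ I, D * (t i).val p := Finset.sum_le_sum fun i hi =>
          DT.sum_pr_le hp0 hp1 J S D (t i) (hv i hi) (hD i hi)
      _ = D * v := by rw [hvdef, Finset.mul_sum]
  set P := Pr p (fun A => ∃ i ∈ I, (t i).succ A) with hP
  have hP0 : 0 ≤ P := Pr_nonneg hp0 hp1 _
  have hPv : P ≤ v := by
    refine (Pr_exists_le hp0 hp1 I (fun i A => (t i).succ A)).trans (le_of_eq ?_)
    exact Finset.sum_congr rfl fun i hi => DT.pr_succ p (t i) (hv i hi)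
  rcases hv0.eq_or_lt with h0 | hpos
  · have : P = 0 := le_antisymm (h0 ▸ hPv) hP0
    rw [this, ← h0]
    simp
  · have hXX : ∀ A, X A ≤ X A * X A := by
      intro A
      simp only [hX, Finset.sum_boole]
      rcases Nat.eq_zero_or_pos (I.filter fun i => (t i).succ A).card with h | h
      · simp [h]
      · have : (1 : ℝ) ≤ ((I.filter fun i => (t i).succ A).card : ℝ) := by exact_mod_cast h
        nlinarith
    have hD1 : v ≤ D * v := by
      rw [← hEX]
      exact (I_Ex_mono hp0 hp1 hXX).trans (hEX ▸ hEX2)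
    have hDpos : 0 < D := by
      by_contra hneg
      have : D * v ≤ 0 := mul_nonpos_of_nonpos_of_nonneg (not_lt.1 hneg) hv0
      linarith
    have hquad : 0 ≤ Ex p (fun A => X A * X A) + (-2 * D) * Ex p X + D ^ 2 * P := by
      have e : Ex p (fun A => X A * X A) + (-2 * D) * Ex p X + D ^ 2 * P =
          Ex p (fun A => (X A * X A + (-2 * D) * X A) +
            D ^ 2 * (if ∃ i ∈ I, (t i).succ A then (1 : ℝ) else 0)) := by
        rw [I_Ex_add, I_Ex_add, I_Ex_mul, I_Ex_mul, hP, Pr_eq_Ex]
      rw [e]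
      have z : Ex p (fun _ : Finset V => (0 : ℝ)) = 0 := by simp [Ex]
      refine z.symm.le.trans (I_Ex_mono hp0 hp1 fun A => ?_)
      by_cases h : ∃ i ∈ I, (t i).succ A
      · rw [if_pos h]
        nlinarith [sq_nonneg (X A - D)]
      · rw [if_neg h]
        have : X A = 0 := by
          refine Finset.sum_eq_zero fun i hi => ?_
          rw [if_neg]
          intro hs
          exact h ⟨i, hi, hs⟩
        rw [this]
        simp
    rw [hEX] at hquad
    have h1 : D * v ≤ D * (D * P) := by nlinarith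
    exact le_of_mul_le_mul_left h1 hDpos

end I

end Pool.Agent.Lib.MP_8501c9_pr.Mid
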