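import Pool.Agent.Lib.MP_8501c9_pr.Mid.Defs3
import Pool.Agent.Lib.MP_8501c9_pr.Mid.Ext2
import Pool.Agent.Lib.MP_8501c9_pr.Mid.Counts
import Pool.Agent.Lib.MP_8501c9_pr.Mid.Level
import Pool.Agent.Lib.MP_8501c9_pr.Mid.Tree
import Pool.Agent.Lib.MP_8501c9_pr.Mid.CountsLow
import Pool.Agent.Lib.MP_8501c9_pr.Mid.Strategy

/-!
# Task N: the success probability of the growth strategy
-/

set_option autoImplicit false
open Set

namespace Pool.Agent.Lib.MP_8501c9_pr.Mid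

open Pool.Agent.Lib.MP_8501c9_pr

section N
variable {n d : ℕ}

/-! ### decision trees -/

theorem n_takeWhile_len {α : Type*} [DecidableEq α] : ∀ (L : List α) (i : Fin L.length),
    (L.takeWhile (fun y => decide (y ≠ L.get i))).length ≤ i
  | [], i => i.elim0
  | a :: L, ⟨0, _⟩ => by simp
  | a :: L, ⟨i + 1, h⟩ => by
    have ih := n_takeWhile_len L ⟨i, by simpa using h⟩
    simp only [List.get_eq_getElem, List.getElem_cons_succ] at ih ⊢
    rw [List.takeWhile_cons]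
    split_ifs
    · simpa using ih
    · simp

theorem n_val_ge {V : Type} [DecidableEq V] {p : ℝ} (hp0 : 0 ≤ p) (hp1 : p ≤ 1) (L : List V)
    (f : V → DT V) (h : ℕ → ℝ) (hh : ∀ i : Fin L.length, h i ≤ (f (L.get i)).val p) :
    ∑ i ∈ Finset.range L.length, p * (1 - p) ^ i * h i ≤ (DT.node L f).val p := by
  rw [DT.val, ← Fin.sum_univ_eq_sum_range (fun i => p * (1 - p) ^ i * h i)]
  refine Finset.sum_le_sum fun i _ => ?_
  have : 0 ≤ p * (1 - p) ^ (i : ℕ) := mul_nonneg hp0 (pow_nonneg (by linarith) _)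
  exact mul_le_mul_of_nonneg_left (hh i) this

theorem n_one_sub {p : ℝ} (hp0 : 0 ≤ p) (hp1 : p ≤ 1 / 2) : Real.exp (-(2 * p)) ≤ 1 - p := by
  rw [Real.exp_neg, inv_le_comm₀ (Real.exp_pos _) (by linarith)]
  refine le_trans ?_ (Real.add_one_le_exp (2 * p))
  rw [inv_le_iff_one_le_mul₀ (by linarith)]
  nlinarith

theorem n_one_sub_pow {p N : ℝ} (hp0 : 0 ≤ p) (hp1 : p ≤ 1 / 2) (j : ℕ) (hj : (j : ℝ) ≤ N) :
    Real.exp (-(2 * p * N)) ≤ (1 - p) ^ j := by
  calc Real.exp (-(2 * p * N)) ≤ Real.exp (-(2 * p) * j) := by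
        refine Real.exp_le_exp.2 ?_
        nlinarith
    _ = Real.exp (-(2 * p)) ^ j := by rw [mul_comm, Real.exp_nat_mul]
    _ ≤ (1 - p) ^ j := pow_le_pow_left₀ (Real.exp_pos _).le (n_one_sub hp0 hp1) j

theorem n_geom (p : ℝ) (J : ℕ) :
    ∑ i ∈ Finset.range J, p * (1 - p) ^ i = 1 - (1 - p) ^ J := by
  induction J with
  | zero => simp
  | succ J ih => rw [Finset.sum_range_succ, ih]; ring

theorem n_pow_le {p c : ℝ} (hp0 : 0 ≤ p) (hp1 : p ≤ 1 / 2) (J : ℕ) (hJ : c ≤ J) :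
    (1 - p) ^ J ≤ Real.exp (-(p * c)) := by
  have h1 : 1 - p ≤ Real.exp (-p) := by
    have := Real.add_one_le_exp (-p)
    linarith
  calc (1 - p) ^ J ≤ Real.exp (-p) ^ J := pow_le_pow_left₀ (by linarith) h1 J
    _ = Real.exp (J * (-p)) := by rw [Real.exp_nat_mul]
    _ ≤ _ := Real.exp_le_exp.2 (by nlinarith)

/-! ### numerical lemmas -/

theorem n_g_le_one {y x ν : ℝ} {g : ℝ → ℝ} (H : AdmL y x ν g) {ρ : ℝ} (h0 : 0 ≤ ρ)
    (h1 : ρ ≤ 1) : g ρ ≤ 1 := by
  have := H.anti (left_mem_Icc.2 zero_le_one) ⟨h0, h1⟩ h0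
  rwa [H.zero] at this

theorem n_num_a {y x ν : ℝ} {g : ℝ → ℝ} (H : AdmL y x ν g) {N ρ μ p W : ℝ} {J : ℕ}
    (hN : 0 < N) (hρ0 : 0 ≤ ρ) (hρ1 : ρ ≤ 1 - ν) (hJ : ρ + J / N = 1) (hμ1 : 1 ≤ μ)
    (hμ2 : μ - 1 ≤ ν / 2) (hx : x * (μ - 1) + x * (μ / N) ≤ ν / 2) (hp0 : 0 ≤ p)
    (hp1 : p ≤ 1 / 2) (hW : 0 ≤ W) (hy : 0 ≤ y) (v : ℕ → ℝ)
    (hv : ∀ i, i < J → W * g (y * (μ * ρ + ((i : ℝ) + 1) / (N / μ))) ≤ v i) :
    W * ((p * N / x) * Real.exp (-(2 * p * N))) * g ρ ≤
      ∑ i ∈ Finset.range J, p * (1 - p) ^ i * v i := by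
  have hx0 := H.x_pos
  have hν0 := H.ν_pos
  have hν1 := H.ν_le
  have hN' : 0 < N / μ := by positivity
  have hρ' : 0 ≤ μ * ρ := by positivity
  have hJ' : μ * ρ + J / (N / μ) = μ := by
    have : (J : ℝ) / (N / μ) = μ * (J / N) := by field_simp
    rw [this, ← mul_add, hJ, mul_one]
  have hρ'1 : μ * ρ ≤ 1 := by nlinarith
  have hsum := H.sum (N / μ) (μ * ρ) J hN' hρ' hρ'1 (by rw [hJ']; exact hμ1)
    (by rw [hJ']; linarith)
  have hlip := H.lip ρ (μ * ρ) hρ0 (by nlinarith) hρ'1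
  have hg1 : g ρ ≤ 1 := n_g_le_one H hρ0 (by linarith)
  have hexp := n_one_sub_pow hp0 hp1 J (N := N) (by
    have h1 : (J : ℝ) / N ≤ 1 := by linarith
    rwa [div_le_one hN] at h1)
  have hgn : ∀ i, i < J → 0 ≤ g (y * (μ * ρ + ((i : ℝ) + 1) / (N / μ))) := by
    intro i hi
    have hi' : (i : ℝ) + 1 ≤ J := by exact_mod_cast hi
    have h1 : μ * ρ + ((i : ℝ) + 1) / (N / μ) ≤ μ := by
      have := div_le_div_of_nonneg_right hi' hN'.le
      linarith [hJ'.le]
    refine H.y_nonneg _ (by positivity) ?_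
    refine mul_le_mul_of_nonneg_left ?_ hy
    linarith
  -- lower bound of the sum
  have h2 : ∀ i ∈ Finset.range J, (W * (p * (N / μ / x) * Real.exp (-(2 * p * N)))) *
      (x / (N / μ) * g (y * (μ * ρ + ((i : ℝ) + 1) / (N / μ)))) ≤ p * (1 - p) ^ i * v i := by
    intro i hi
    have hi' := Finset.mem_range.1 hi
    have h3 := hgn i hi'
    have h4 : Real.exp (-(2 * p * N)) ≤ (1 - p) ^ i :=
      hexp.trans (pow_le_pow_of_le_one (by linarith) (by linarith) hi'.le)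
    calc (W * (p * (N / μ / x) * Real.exp (-(2 * p * N)))) *
          (x / (N / μ) * g (y * (μ * ρ + ((i : ℝ) + 1) / (N / μ))))
        = p * Real.exp (-(2 * p * N)) * (W * g (y * (μ * ρ + ((i : ℝ) + 1) / (N / μ)))) := by
          field_simp
      _ ≤ p * (1 - p) ^ i * (W * g (y * (μ * ρ + ((i : ℝ) + 1) / (N / μ)))) := by
          refine mul_le_mul_of_nonneg_right ?_ (by positivity)
          exact mul_le_mul_of_nonneg_left h4 hp0
      _ ≤ p * (1 - p) ^ i * v i := by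
          refine mul_le_mul_of_nonneg_left (hv i hi') ?_
          exact mul_nonneg hp0 (pow_nonneg (by linarith) _)
  refine le_trans ?_ (Finset.sum_le_sum h2)
  rw [← Finset.mul_sum]
  have h5 : 0 ≤ W * (p * (N / μ / x) * Real.exp (-(2 * p * N))) := by positivity
  refine le_trans ?_ (mul_le_mul_of_nonneg_left hsum h5)
  have h6 : x / (N / μ) = x * (μ / N) := by field_simp
  have h7 : x * (μ * ρ - ρ) ≤ x * (μ - 1) := by
    refine mul_le_mul_of_nonneg_left ?_ hx0.le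
    have : 0 ≤ μ - 1 := by linarith
    nlinarith
  have h8 : μ * g ρ ≤ g (μ * ρ) + ν - x / (N / μ) := by
    rw [h6]
    have h9 : (μ - 1) * g ρ ≤ μ - 1 := by
      have : 0 ≤ μ - 1 := by linarith
      nlinarith
    linarith
  have h10 : W * ((p * N / x) * Real.exp (-(2 * p * N))) * g ρ =
      W * (p * (N / μ / x) * Real.exp (-(2 * p * N))) * (μ * g ρ) := by
    field_simp
  rw [h10]
  exact mul_le_mul_of_nonneg_left h8 h5


/-! ### counting the sites looked at -/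

/-- bound for the number of sites looked at before size `t` -/
noncomputable def n_zb (d t : ℕ) : ℝ :=
  1 + ∑ s ∈ Finset.range (t - 1), (2 * (rem d s : ℝ) ^ 2 + 4) * Real.exp (sfun d s)

theorem n_zb_step (d t : ℕ) :
    n_zb d t + (2 * (rem d t : ℝ) ^ 2 + 4) * Real.exp (sfun d t) ≤ n_zb d (t + 2) := by
  unfold n_zb
  have h1 : t + 2 - 1 = t + 1 := rfl
  rw [h1, Finset.sum_range_succ]
  have h2 : ∑ s ∈ Finset.range (t - 1), (2 * (rem d s : ℝ) ^ 2 + 4) * Real.exp (sfun d s) ≤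
      ∑ s ∈ Finset.range t, (2 * (rem d s : ℝ) ^ 2 + 4) * Real.exp (sfun d s) := by
    refine Finset.sum_le_sum_of_subset_of_nonneg (Finset.range_mono (Nat.sub_le _ _)) ?_
    intro s _ _
    positivity
  linarith

/-- the slope of the volume function -/
noncomputable def n_sig (M : ℕ) : ℝ := Real.log (((M : ℝ) + 2) / (M + 1))

theorem n_sig_pos (M : ℕ) : 0 < n_sig M := by
  unfold n_sig
  refine Real.log_pos ?_
  rw [one_lt_div (by positivity)]
  linarith

theorem n_slope {M T : ℕ} (hd : 1 ≤ d) (hT : T ≤ M * d) : ∀ j s : ℕ, s + j = T →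
    sfun d s ≤ sfun d T - n_sig M * j := by
  intro j
  induction j with
  | zero =>
    intro s hs
    rw [← hs]
    simp
  | succ j ih =>
    intro s hs
    have h1 := ih (s + 1) (by omega)
    rw [sfun_succ' d s hd] at h1
    have h2 : s / d ≤ M := Nat.div_le_of_le_mul (by rw [mul_comm]; omega)
    have h3 := vslope_anti h2
    have h4 : n_sig M = vslope M := by
      unfold n_sig vslope
      rw [Real.log_div (by positivity) (by positivity)]
    rw [h4] at h1 ⊢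
    push_cast
    linarith

theorem n_summable (M : ℕ) : Summable (fun j : ℕ => (2 * (j : ℝ) ^ 2 + 4) *
    Real.exp (-(n_sig M) * j)) := by
  have h1 := (Real.summable_pow_mul_exp_neg_nat_mul 2 (n_sig_pos M)).mul_left 2
  have h2 := (Real.summable_pow_mul_exp_neg_nat_mul 0 (n_sig_pos M)).mul_left 4
  refine (h1.add h2).congr ?_
  intro j
  simp only [pow_zero]
  ring

/-- the constant in the bound of the number of sites looked at -/
noncomputable def n_C (M : ℕ) : ℝ := 1 + ∑' j : ℕ, (2 * (j : ℝ) ^ 2 + 4) *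
    Real.exp (-(n_sig M) * j)

theorem n_zb_le {M T : ℕ} (hd : 1 ≤ d) (hT : T ≤ M * d)
    (hrem : ∀ s, s + 2 ≤ T → rem d s ≤ T - s) :
    n_zb d T ≤ n_C M * Real.exp (sfun d T) := by
  set F : ℕ → ℝ := fun j => (2 * (j : ℝ) ^ 2 + 4) * Real.exp (-(n_sig M) * j) with hF
  have hF0 : ∀ j, 0 ≤ F j := fun j => by simp only [hF]; positivity
  have h1 : ∀ s ∈ Finset.range (T - 1), (2 * (rem d s : ℝ) ^ 2 + 4) * Real.exp (sfun d s) ≤
      F (T - s) * Real.exp (sfun d T) := by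
    intro s hs
    have hs' := Finset.mem_range.1 hs
    have h2 := hrem s (by omega)
    have h2' : (rem d s : ℝ) ≤ ((T - s : ℕ) : ℝ) := by exact_mod_cast h2
    have h3 := n_slope (M := M) hd hT (T - s) s (by omega)
    have h4 : (2 * (rem d s : ℝ) ^ 2 + 4) ≤ 2 * (((T - s : ℕ) : ℝ)) ^ 2 + 4 := by
      have : (rem d s : ℝ) ^ 2 ≤ (((T - s : ℕ) : ℝ)) ^ 2 := by gcongr
      linarith
    simp only [hF]
    rw [mul_assoc, ← Real.exp_add]
    refine mul_le_mul h4 (Real.exp_le_exp.2 (by linarith)) (Real.exp_pos _).le (by positivity)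
  have h2 : ∑ s ∈ Finset.range (T - 1), F (T - s) ≤ ∑' j, F j := by
    calc ∑ s ∈ Finset.range (T - 1), F (T - s) ≤ ∑ s ∈ Finset.range (T + 1), F (T - s) :=
          Finset.sum_le_sum_of_subset_of_nonneg (Finset.range_mono (by omega))
            (fun s _ _ => hF0 _)
      _ = ∑ j ∈ Finset.range (T + 1), F j := Finset.sum_range_reflect F (T + 1)
      _ ≤ ∑' j, F j := (n_summable M).sum_le_tsum _ (fun j _ => hF0 j)
  have h3 : 1 ≤ Real.exp (sfun d T) := by
    refine Real.one_le_exp ?_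
    have := sfun_mono d hd (Nat.zero_le T)
    rwa [sfun_zero] at this
  unfold n_zb n_C
  have h4 := Finset.sum_le_sum h1
  rw [← Finset.sum_mul] at h4
  have h5 := mul_le_mul_of_nonneg_right h2 (Real.exp_pos (sfun d T)).le
  calc _ ≤ Real.exp (sfun d T) + (∑' j, F j) * Real.exp (sfun d T) := by linarith
    _ = _ := by simp only [hF]; ring

/-- at the beginning of a level -/
theorem n_wrap {t s0 : ℕ} (hd : 2 ≤ d) (h1 : rem d t < 2 * s0) (h2 : 2 * s0 ≤ rem d (t + 2)) :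
    d ≤ rem d (t + 2) + 1 ∧ ∀ s, s + 2 ≤ t + 2 → rem d s ≤ t + 2 - s := by
  have e1 : t % d < d := Nat.mod_lt _ (by omega)
  have e2 := Nat.div_add_mod t d
  have e3 : d ≤ t % d + 2 := by
    by_contra hcon
    push Not at hcon
    have h3 : (t + 2) % d = t % d + 2 := by
      have : t + 2 = d * (t / d) + (t % d + 2) := by omega
      rw [this, Nat.mul_add_mod]
      exact Nat.mod_eq_of_lt hcon
    unfold rem at h1 h2
    rw [h3] at h2
    omega
  have e4 : (t + 2) % d = t % d + 2 - d := by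
    have : t + 2 = d * (t / d + 1) + (t % d + 2 - d) := by
      rw [Nat.mul_add, mul_one]
      omega
    rw [this, Nat.mul_add_mod]
    exact Nat.mod_eq_of_lt (by omega)
  constructor
  · unfold rem
    rw [e4]
    omega
  · intro s hs
    have e5 := Nat.div_add_mod s d
    have e6 : s % d < d := Nat.mod_lt _ (by omega)
    have e7 : s / d ≤ t / d := Nat.div_le_div_right (by omega)
    have e8 : d * (s / d) ≤ d * (t / d) := Nat.mul_le_mul_left _ e7
    unfold rem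
    omega

theorem n_cand_card (s0 k1 : ℕ) (hd : 1 ≤ d) {z : Vtx n d} {Q' Q : BoxT n d}
    {Z : Finset (Vtx n d)} (h : St z Q' Q Z) :
    ((cand s0 k1 Q' Q).card : ℝ) ≤ (2 * (rem d (phi Q) : ℝ) ^ 2 + 4) *
      Real.exp (sfun d (phi Q)) := by
  have hr : (1:ℝ) ≤ rem d (phi Q) := by exact_mod_cast rem_pos hd (phi Q)
  have hl : 1 ≤ lev d (phi Q) := Nat.le_add_left _ _
  have hl' : (1:ℝ) ≤ lev d (phi Q) := by exact_mod_cast hl
  have he := Real.exp_pos (sfun d (phi Q))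
  unfold cand
  split_ifs with h1 h2
  · refine (card_Nreg_le h.le hl).trans ?_
    rw [h.bal.nst_eq hd]
    unfold nt
    rw [div_le_iff₀ (by positivity)]
    have h3 : 2 * (rem d (phi Q) : ℝ) * ((rem d (phi Q) : ℝ) - 1) ≤
        2 * (rem d (phi Q) : ℝ) ^ 2 + 4 := by nlinarith
    have h4 : (1:ℝ) ≤ (lev d (phi Q) : ℝ) ^ 2 := one_le_pow₀ hl'
    calc _ ≤ (2 * (rem d (phi Q) : ℝ) ^ 2 + 4) * Real.exp (sfun d (phi Q)) :=
          mul_le_mul_of_nonneg_right h3 he.le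
      _ ≤ _ := le_mul_of_one_le_right (by positivity) h4
  · have h3 := card_Fresh_le (Q' := Q') h.le (h2.choose_spec).1
    rw [h.bal.vol_eq hd] at h3
    refine h3.trans (mul_le_mul_of_nonneg_right ?_ he.le)
    nlinarith [sq_nonneg (rem d (phi Q) : ℝ)]
  · simp only [Finset.card_empty, Nat.cast_zero]
    positivity

/-- a state after one more step -/
theorem n_next (s0 k1 : ℕ) (hs0 : 1 ≤ s0) (hd : 5 ≤ d) {z : Vtx n d} {Q' Q : BoxT n d}
    {Z : Finset (Vtx n d)} (h : St z Q' Q Z) (hZ : (Z.card : ℝ) ≤ n_zb d (phi Q))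
    (L : List (Vtx n d)) (hL : L = (cand s0 k1 Q' Q \ Z).toList) (i : Fin L.length) :
    L.get i ∈ cand s0 k1 Q' Q ∧
    ((L.takeWhile (fun y => decide (y ≠ L.get i))).toFinset.card ≤ i) ∧
    St z Q (ext Q (L.get i)) (insert (L.get i) (Z ∪
        (L.takeWhile (fun y => decide (y ≠ L.get i))).toFinset)) ∧
    ((insert (L.get i) (Z ∪
        (L.takeWhile (fun y => decide (y ≠ L.get i))).toFinset)).card : ℝ) ≤
      n_zb d (phi Q + 2) := by
  have hxL : L.get i ∈ L := List.get_mem _ _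
  have hYcard : (L.takeWhile (fun y => decide (y ≠ L.get i))).toFinset.card ≤ i :=
    (List.toFinset_card_le _).trans (n_takeWhile_len L i)
  generalize L.get i = x at *
  generalize hY : (L.takeWhile (fun y => decide (y ≠ x))).toFinset = Y at *
  have hxc : x ∈ cand s0 k1 Q' Q := by
    rw [hL] at hxL
    exact (Finset.mem_sdiff.1 (Finset.mem_toList.1 hxL)).1
  have hYc : Y ⊆ cand s0 k1 Q' Q := by
    intro y hy
    rw [← hY, List.mem_toFinset] at hy
    have : y ∈ L := (List.takeWhile_sublist _).subset hy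
    rw [hL] at this
    exact (Finset.mem_sdiff.1 (Finset.mem_toList.1 this)).1
  refine ⟨hxc, hYcard, h.step s0 k1 hs0 hd hxc hYc, ?_⟩
  have h1 : insert x (Z ∪ Y) ⊆ Z ∪ cand s0 k1 Q' Q := by
    intro y hy
    rw [Finset.mem_insert, Finset.mem_union] at hy
    rw [Finset.mem_union]
    rcases hy with hy | hy | hy
    · rw [hy]; exact Or.inr hxc
    · exact Or.inl hy
    · exact Or.inr (hYc hy)
  have h2 : ((insert x (Z ∪ Y)).card : ℝ) ≤ (Z.card : ℝ) + (cand s0 k1 Q' Q).card := by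
    exact_mod_cast (Finset.card_le_card h1).trans (Finset.card_union_le _ _)
  have h3 := n_cand_card s0 k1 (by omega) h
  have h4 := n_zb_step d (phi Q)
  linarith


theorem n_room {z : Vtx n d} {Q' Q : BoxT n d} {Z : Finset (Vtx n d)} (h : St z Q' Q Z) {M : ℕ}
    (hM : lev d (phi Q) ≤ M + 1) (hz : Room (M + 4) z) :
    (∀ i, 1 ≤ (Q.1 i : ℕ) ∧ (Q.2 i : ℕ) + 1 < n) ∧ ∀ i, sd Q i ≤ M + 3 := by
  have h1 : ∀ i, sd Q i ≤ M + 2 := by
    intro i
    rcases h.bal i with h2 | h2 <;> omega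
  refine ⟨fun i => ?_, fun i => (h1 i).trans (by omega)⟩
  have h2 := h1 i
  have h3 : (Q.1 i : ℕ) ≤ z i := Fin.le_def.1 (h.mem1 i)
  have h4 : (z i : ℕ) ≤ Q.2 i := Fin.le_def.1 (h.mem2 i)
  have h5 := hz i
  unfold sd at h2
  omega

theorem n_lev_le {t M : ℕ} (hd : 1 ≤ d) (ht : t ≤ M * d) : 1 ≤ lev d t ∧ lev d t ≤ M + 1 := by
  unfold lev
  have h1 : t / d ≤ M := Nat.div_le_of_le_mul (by rw [mul_comm]; omega)
  exact ⟨Nat.le_add_left _ _, Nat.add_le_add_right h1 1⟩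

theorem n_nt_nonneg (hd : 1 ≤ d) (t : ℕ) : 0 ≤ nt d t := by
  unfold nt
  have hr : (1:ℝ) ≤ rem d t := by exact_mod_cast rem_pos hd t
  have h2 : (0:ℝ) ≤ (rem d t : ℝ) - 1 := by linarith
  positivity

theorem n_Wv_nonneg (M : ℕ) (xs : ℕ → ℝ) {ν cF p : ℝ}
    (hxs : ∀ l, 1 ≤ l → l ≤ M + 1 → 0 < xs l) (hν : 0 ≤ ν) (hcF : 0 ≤ cF) (hp : 0 ≤ p)
    (hd : 1 ≤ d) (s0 k1 : ℕ) : ∀ m t, t + 2 * m ≤ M * d → 0 ≤ Wv xs ν cF p d s0 k1 m t := by
  intro m
  induction m with
  | zero => intro t _; simp [Wv]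
  | succ m ih =>
    intro t ht
    have h1 := ih (t + 2) (by omega)
    have h2 := n_nt_nonneg hd t
    obtain ⟨h3, h4⟩ := n_lev_le (M := M) hd (by omega : t ≤ M * d)
    have h5 := hxs _ h3 h4
    have h6 : 0 ≤ 1 - Real.exp (-(p * (cF * Real.exp (sfun d t)))) := by
      have : Real.exp (-(p * (cF * Real.exp (sfun d t)))) ≤ 1 := by
        refine Real.exp_le_one_iff.2 ?_
        have : 0 ≤ p * (cF * Real.exp (sfun d t)) := by positivity
        linarith
      linarith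
    unfold Wv
    refine mul_nonneg h1 ?_
    split_ifs <;> positivity

/-- the fraction of looked at points in the next step -/
theorem n_rho_next {Q : BoxT n d} (hQ : Q.1 ≤ Q.2) {l : ℕ} (hl : 1 ≤ l) {x : Vtx n d}
    (hx : x ∈ Nreg l Q) (hr : 4 ≤ rr l Q) (Z Y : Finset (Vtx n d)) {i : ℕ} (hY : Y.card ≤ i)
    (ho : ∀ y ∈ insert x (Z ∪ Y), outs Q y ≤ 2) :
    rho l (insert x (Z ∪ Y)) (ext Q x) ≤ yl l * ((rr l Q : ℝ) * ((rr l Q : ℝ) - 1) /
      (((rr l Q : ℝ) - 2) * ((rr l Q : ℝ) - 3)) * rho l Z Q + ((i : ℝ) + 1) / (nst l Q /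
      ((rr l Q : ℝ) * ((rr l Q : ℝ) - 1) / (((rr l Q : ℝ) - 2) * ((rr l Q : ℝ) - 3))))) := by
  classical
  have h1 := rr_ext hQ hx
  have h2 : (rr l (ext Q x) : ℝ) = rr l Q - 2 := by
    have : (rr l (ext Q x) : ℝ) + 2 = rr l Q := by exact_mod_cast h1
    linarith
  have h3 := vol_ext hQ hl hx
  have hl' : (1:ℝ) ≤ l := by exact_mod_cast hl
  have hr' : (4:ℝ) ≤ rr l Q := by exact_mod_cast hr
  have hv := vol_pos Q
  have e1 : nst l (ext Q x) = 2 * ((rr l Q : ℝ) - 2) * ((rr l Q : ℝ) - 3) *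
      (vol Q * (((l : ℝ) + 1) / l) ^ 2) / (l:ℝ) ^ 2 := by
    unfold nst
    rw [h2, h3]
    ring
  have h4 : (0:ℝ) < (rr l Q : ℝ) - 2 := by linarith
  have h5 : (0:ℝ) < (rr l Q : ℝ) - 3 := by linarith
  have h6 : (0:ℝ) < (rr l Q : ℝ) - 1 := by linarith
  have h7 : 0 < nst l (ext Q x) := by rw [e1]; positivity
  have hsub : Nreg l (ext Q x) ∩ insert x (Z ∪ Y) ⊆ (Nreg l Q ∩ Z) ∪ insert x Y := by
    intro y hy
    rw [Finset.mem_inter] at hy
    have hy2 := Nreg_ext_subset hQ hx hy.1 (ho y hy.2)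
    rw [Finset.mem_insert, Finset.mem_union] at hy
    rw [Finset.mem_union, Finset.mem_inter, Finset.mem_insert]
    tauto
  have hcard : ((Nreg l (ext Q x) ∩ insert x (Z ∪ Y)).card : ℝ) ≤
      ((Nreg l Q ∩ Z).card : ℝ) + ((i : ℝ) + 1) := by
    have h8 : (Nreg l (ext Q x) ∩ insert x (Z ∪ Y)).card ≤ (Nreg l Q ∩ Z).card + (i + 1) := by
      refine (Finset.card_le_card hsub).trans ((Finset.card_union_le _ _).trans ?_)
      have := Finset.card_insert_le x Y
      omega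
    exact_mod_cast h8
  have e2 : yl l * ((rr l Q : ℝ) * ((rr l Q : ℝ) - 1) /
      (((rr l Q : ℝ) - 2) * ((rr l Q : ℝ) - 3)) * rho l Z Q + ((i : ℝ) + 1) / (nst l Q /
      ((rr l Q : ℝ) * ((rr l Q : ℝ) - 1) / (((rr l Q : ℝ) - 2) * ((rr l Q : ℝ) - 3))))) =
      (((Nreg l Q ∩ Z).card : ℝ) + ((i : ℝ) + 1)) / nst l (ext Q x) := by
    rw [e1]
    unfold rho nst yl
    field_simp
  rw [e2]
  unfold rho
  exact div_le_div_of_nonneg_right hcard h7.le

theorem n_rho_nonneg (l : ℕ) (Z : Finset (Vtx n d)) (Q : BoxT n d) : 0 ≤ rho l Z Q := by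
  unfold rho nst
  have h1 := (vol_pos Q).le
  refine div_nonneg (Nat.cast_nonneg _) ?_
  rcases Nat.eq_zero_or_pos (rr l Q) with h | h
  · rw [h]; simp
  · have h2 : (1:ℝ) ≤ rr l Q := by exact_mod_cast h
    have h3 : (0:ℝ) ≤ (rr l Q : ℝ) - 1 := by linarith
    positivity

theorem n_rho_le_one {l : ℕ} (hl : 1 ≤ l) (Z : Finset (Vtx n d)) {Q : BoxT n d}
    (hQ : Q.1 ≤ Q.2) : rho l Z Q ≤ 1 := by
  unfold rho
  refine div_le_one_of_le₀ ?_ ?_
  · refine le_trans ?_ (card_Nreg_le hQ hl)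
    exact_mod_cast Finset.card_le_card Finset.inter_subset_left
  · exact le_trans (Nat.cast_nonneg _) (card_Nreg_le hQ hl)

/-- both this and the next step belong to the main strategy -/
theorem n_case_a (hd : 5 ≤ d) {M s0 : ℕ} (hs0 : 4 ≤ s0) {x0 ν p W : ℝ} {g : ℝ → ℝ}
    {z : Vtx n d} {Q' Q : BoxT n d} {Z : Finset (Vtx n d)} (hSt : St z Q' Q Z)
    (hadm : AdmL (yl (lev d (phi Q))) x0 ν g) (hM1 : 2 * s0 ≤ rem d (phi Q))
    (hlM : lev d (phi Q) ≤ M + 1)
    (hA : x0 * (8 + ((M : ℝ) + 1) ^ 2) ≤ ν / 2 * (2 * s0)) (hA2 : 8 ≤ ν / 2 * (2 * s0))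
    (hroom : ∀ i, 1 ≤ (Q.1 i : ℕ) ∧ (Q.2 i : ℕ) + 1 < n) (hp0 : 0 ≤ p) (hp1 : p ≤ 1 / 2)
    (hW : 0 ≤ W) (L : List (Vtx n d)) (hL : L = (Nreg (lev d (phi Q)) Q \ Z).toList)
    (f : Vtx n d → DT (Vtx n d)) (Zf : Fin L.length → Finset (Vtx n d))
    (hZf : ∀ i : Fin L.length, ∃ Y : Finset (Vtx n d), Y.card ≤ i ∧
      Zf i = insert (L.get i) (Z ∪ Y) ∧
      ∀ y ∈ Zf i, outs Q y ≤ 2)
    (hf : ∀ i : Fin L.length, W * g (rho (lev d (phi Q)) (Zf i) (ext Q (L.get i))) ≤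
      (f (L.get i)).val p) :
    W * ((p * nt d (phi Q) / x0) * Real.exp (-(2 * p * nt d (phi Q)))) *
      g (rho (lev d (phi Q)) Z Q) ≤ (DT.node L f).val p := by
  have hd1 : 1 ≤ d := by omega
  have hl1 : 1 ≤ lev d (phi Q) := Nat.le_add_left _ _
  have hrr := hSt.bal.rr_eq hd1
  have hnst := hSt.bal.nst_eq hd1
  have hNreg := card_Nreg_eq hSt.le hl1 hroom
  have hnt0 := n_nt_nonneg hd1 (phi Q)
  have hx0 := hadm.x_pos
  have hν0 := hadm.ν_pos
  have hν1 := hadm.ν_le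
  set l := lev d (phi Q) with hl
  have hρ0 := n_rho_nonneg l Z Q
  have hρ1 := n_rho_le_one hl1 Z hSt.le
  rcases lt_or_ge (1 - ν) (rho l Z Q) with h | h
  · have h1 := hadm.top _ h.le hρ1
    have h2 : 0 ≤ W * ((p * nt d (phi Q) / x0) * Real.exp (-(2 * p * nt d (phi Q)))) := by
      positivity
    exact (mul_nonpos_of_nonneg_of_nonpos h2 h1).trans (DT.val_nonneg hp0 (by linarith) _)
  -- the main case
  set r : ℝ := (rr l Q : ℝ) with hrdef
  have hr4 : 4 ≤ rr l Q := by rw [hrr]; omega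
  have hrs : 2 * (s0 : ℝ) ≤ r := by
    rw [hrdef, hrr]
    exact_mod_cast hM1
  have hs0' : (4:ℝ) ≤ s0 := by exact_mod_cast hs0
  have hr8 : 8 ≤ r := by linarith
  set μ : ℝ := r * (r - 1) / ((r - 2) * (r - 3)) with hμ
  have h2 : 0 < (r - 2) * (r - 3) := by nlinarith
  have hμ1 : 1 ≤ μ := by
    rw [hμ, one_le_div h2]
    nlinarith
  have hμ8 : μ - 1 ≤ 8 / r := by
    have : μ - 1 = (4 * r - 6) / ((r - 2) * (r - 3)) := by
      rw [hμ, div_sub_one h2.ne']
      congr 1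
      ring
    rw [this, div_le_div_iff₀ h2 (by linarith)]
    nlinarith
  have hνr : ν / 2 * (2 * s0) ≤ ν / 2 * r := mul_le_mul_of_nonneg_left hrs (by linarith)
  have h8r : 8 / r ≤ ν / 2 := by
    rw [div_le_iff₀ (by linarith)]
    linarith
  set N := nt d (phi Q) with hN
  have hSpos : (1:ℝ) ≤ Real.exp (sfun d (phi Q)) := by
    refine Real.one_le_exp ?_
    have := sfun_mono d hd1 (Nat.zero_le (phi Q))
    rwa [sfun_zero] at this
  have hl' : (1:ℝ) ≤ l := by exact_mod_cast hl1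
  have hlM' : (l:ℝ) ≤ M + 1 := by exact_mod_cast hlM
  have hNge : 2 * r * (r - 1) / ((M : ℝ) + 1) ^ 2 ≤ N := by
    rw [hN]
    unfold nt
    rw [← hl, ← hrr, ← hrdef]
    have h3 : 0 ≤ 2 * r * (r - 1) := by nlinarith
    calc 2 * r * (r - 1) / ((M : ℝ) + 1) ^ 2 ≤ 2 * r * (r - 1) / (l : ℝ) ^ 2 := by
          refine div_le_div_of_nonneg_left h3 (by positivity) ?_
          gcongr
      _ ≤ 2 * r * (r - 1) * Real.exp (sfun d (phi Q)) / (l : ℝ) ^ 2 := by
          refine div_le_div_of_nonneg_right ?_ (by positivity)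
          exact le_mul_of_one_le_right h3 hSpos
  have hNpos : 0 < N := by
    refine lt_of_lt_of_le ?_ hNge
    have : 0 < r - 1 := by linarith
    positivity
  have hμN : μ / N ≤ ((M : ℝ) + 1) ^ 2 / r := by
    have h3 : μ ≤ 2 := by linarith
    rw [div_le_div_iff₀ hNpos (by linarith)]
    have h4 : 2 * r * (r - 1) ≤ N * ((M : ℝ) + 1) ^ 2 := by
      rwa [div_le_iff₀ (by positivity)] at hNge
    nlinarith
  have hxx : x0 * (μ - 1) + x0 * (μ / N) ≤ ν / 2 := by
    have h3 := mul_le_mul_of_nonneg_left hμ8 hx0.le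
    have h4 := mul_le_mul_of_nonneg_left hμN hx0.le
    have h5 : x0 * (8 / r) + x0 * (((M : ℝ) + 1) ^ 2 / r) =
        x0 * (8 + ((M : ℝ) + 1) ^ 2) / r := by ring
    have h6 : x0 * (8 + ((M : ℝ) + 1) ^ 2) / r ≤ ν / 2 := by
      rw [div_le_iff₀ (by linarith)]
      linarith
    linarith
  have hy0 : 0 < yl l := by unfold yl; positivity
  have hLlen : L.length = (Nreg l Q \ Z).card := by rw [hL, Finset.length_toList]
  have hJ : rho l Z Q + (L.length : ℝ) / N = 1 := by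
    have h3 : ((Nreg l Q ∩ Z).card : ℝ) + (L.length : ℝ) = N := by
      rw [← hnst, ← hNreg, hLlen]
      exact_mod_cast Finset.card_inter_add_card_sdiff (Nreg l Q) Z
    unfold rho
    rw [hnst, ← add_div, h3, div_self hNpos.ne']
  have hnum := n_num_a hadm hNpos hρ0 h hJ hμ1 (by linarith) hxx hp0 hp1 hW hy0.le
    (fun i => W * g (yl l * (μ * rho l Z Q + ((i : ℝ) + 1) / (N / μ)))) (fun i _ => le_rfl)
  refine hnum.trans ?_
  refine n_val_ge hp0 (by linarith) L f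
    (fun i => W * g (yl l * (μ * rho l Z Q + ((i : ℝ) + 1) / (N / μ)))) ?_
  intro i
  refine le_trans (mul_le_mul_of_nonneg_left ?_ hW) (hf i)
  obtain ⟨Y, hY1, hY2, hY3⟩ := hZf i
  have hxi : L.get i ∈ Nreg l Q := by
    have h3 : L.get i ∈ (Nreg l Q \ Z).toList := by
      rw [← hL]
      exact List.get_mem _ _
    exact (Finset.mem_sdiff.1 (Finset.mem_toList.1 h3)).1
  have hle := n_rho_next hSt.le hl1 hxi hr4 Z Y hY1 (by rw [← hY2]; exact hY3)
  rw [← hrdef, ← hμ, hnst, ← hY2] at hle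
  refine hadm.anti ⟨n_rho_nonneg _ _ _, n_rho_le_one hl1 _ (ext_le hSt.le _)⟩ ⟨?_, ?_⟩ hle
  · have : 0 ≤ N / μ := by positivity
    positivity
  · have h3 : ((i : ℕ) : ℝ) + 1 ≤ L.length := by exact_mod_cast i.2
    have h4 : μ * rho l Z Q + (((i : ℕ) : ℝ) + 1) / (N / μ) ≤ μ := by
      have h5 : (((i : ℕ) : ℝ) + 1) / (N / μ) ≤ μ * ((L.length : ℝ) / N) := by
        have : (((i : ℕ) : ℝ) + 1) / (N / μ) = μ * ((((i : ℕ) : ℝ) + 1) / N) := by field_simp
        rw [this]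
        exact mul_le_mul_of_nonneg_left (div_le_div_of_nonneg_right h3 hNpos.le) (by linarith)
      calc _ ≤ μ * rho l Z Q + μ * ((L.length : ℝ) / N) := by linarith
        _ = μ * (rho l Z Q + (L.length : ℝ) / N) := by ring
        _ = μ := by rw [hJ, mul_one]
    calc yl l * (μ * rho l Z Q + (((i : ℕ) : ℝ) + 1) / (N / μ)) ≤ yl l * (1 + ν) :=
          mul_le_mul_of_nonneg_left (by linarith) hy0.le
      _ ≤ 1 := hadm.y_le


/-- the main strategy ends after this step -/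
theorem n_case_b (hd : 5 ≤ d) {s0 : ℕ} (hs0 : 4 ≤ s0) {x0 ν p W : ℝ} {g : ℝ → ℝ}
    {z : Vtx n d} {Q' Q : BoxT n d} {Z : Finset (Vtx n d)} (hSt : St z Q' Q Z)
    (hadm : AdmL (yl (lev d (phi Q))) x0 ν g) (hM1 : 2 * s0 ≤ rem d (phi Q))
    (hroom : ∀ i, 1 ≤ (Q.1 i : ℕ) ∧ (Q.2 i : ℕ) + 1 < n) (hp0 : 0 ≤ p) (hp1 : p ≤ 1 / 2)
    (hW : 0 ≤ W) (L : List (Vtx n d)) (hL : L = (Nreg (lev d (phi Q)) Q \ Z).toList)
    (f : Vtx n d → DT (Vtx n d)) (hf : ∀ i : Fin L.length, W ≤ (f (L.get i)).val p) :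
    W * ((ν * p * nt d (phi Q)) * Real.exp (-(2 * p * nt d (phi Q)))) *
      g (rho (lev d (phi Q)) Z Q) ≤ (DT.node L f).val p := by
  have hd1 : 1 ≤ d := by omega
  have hl1 : 1 ≤ lev d (phi Q) := Nat.le_add_left _ _
  have hnst := hSt.bal.nst_eq hd1
  have hNreg := card_Nreg_eq hSt.le hl1 hroom
  have hν0 := hadm.ν_pos
  set l := lev d (phi Q) with hl
  have hρ0 := n_rho_nonneg l Z Q
  have hρ1 := n_rho_le_one hl1 Z hSt.le
  set N := nt d (phi Q) with hN
  have hl' : (1:ℝ) ≤ l := by exact_mod_cast hl1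
  have hNpos : 0 < N := by
    rw [hN]
    unfold nt
    rw [← hl]
    have h1 : (2:ℝ) ≤ rem d (phi Q) := by exact_mod_cast (by omega : 2 ≤ rem d (phi Q))
    have h2 : (0:ℝ) < (rem d (phi Q) : ℝ) - 1 := by linarith
    positivity
  have hLlen : L.length = (Nreg l Q \ Z).card := by rw [hL, Finset.length_toList]
  have hJ : (L.length : ℝ) = N * (1 - rho l Z Q) := by
    have h3 : ((Nreg l Q ∩ Z).card : ℝ) + (L.length : ℝ) = N := by
      rw [← hnst, ← hNreg, hLlen]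
      exact_mod_cast Finset.card_inter_add_card_sdiff (Nreg l Q) Z
    unfold rho
    rw [hnst, mul_sub, mul_div_cancel₀ _ hNpos.ne']
    linarith
  have hJN : (L.length : ℝ) ≤ N := by
    rw [hJ]
    nlinarith
  have hνg : ν * g (rho l Z Q) ≤ 1 - rho l Z Q := by
    rcases lt_or_ge (1 - ν) (rho l Z Q) with h | h
    · have h1 := hadm.top _ h.le hρ1
      nlinarith
    · have h1 := n_g_le_one hadm hρ0 hρ1
      nlinarith
  refine le_trans ?_ (n_val_ge hp0 (by linarith) L f (fun _ => W) hf)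
  have h1 : ∀ i ∈ Finset.range L.length, p * Real.exp (-(2 * p * N)) * W ≤
      p * (1 - p) ^ i * W := by
    intro i hi
    refine mul_le_mul_of_nonneg_right (mul_le_mul_of_nonneg_left ?_ hp0) hW
    refine n_one_sub_pow hp0 hp1 i ?_
    have : (i : ℝ) ≤ L.length := by exact_mod_cast (Finset.mem_range.1 hi).le
    linarith
  refine le_trans ?_ (Finset.sum_le_sum h1)
  rw [Finset.sum_const, Finset.card_range, nsmul_eq_mul, hJ]
  have h2 : 0 ≤ W * (p * N * Real.exp (-(2 * p * N))) := by positivity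
  calc W * ((ν * p * N) * Real.exp (-(2 * p * N))) * g (rho l Z Q)
      = W * (p * N * Real.exp (-(2 * p * N))) * (ν * g (rho l Z Q)) := by ring
    _ ≤ W * (p * N * Real.exp (-(2 * p * N))) * (1 - rho l Z Q) :=
        mul_le_mul_of_nonneg_left hνg h2
    _ = _ := by ring

/-- a step of the chain strategy -/
theorem n_case_c {p W c : ℝ} (hp0 : 0 ≤ p) (hp1 : p ≤ 1 / 2)
    (hW : 0 ≤ W) (L : List (Vtx n d)) (hL : c ≤ L.length)
    (f : Vtx n d → DT (Vtx n d)) (hf : ∀ i : Fin L.length, W ≤ (f (L.get i)).val p) :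
    W * (1 - Real.exp (-(p * c))) ≤ (DT.node L f).val p := by
  refine le_trans ?_ (n_val_ge hp0 (by linarith) L f (fun _ => W) hf)
  rw [← Finset.sum_mul, n_geom, mul_comm]
  refine mul_le_mul_of_nonneg_right ?_ hW
  have := n_pow_le hp0 hp1 L.length hL
  linarith

/-- few of the regular points at the beginning of a level have been looked at -/
theorem n_half {M s0 : ℕ} (hd : 5 ≤ d) {x0 ν : ℝ} {g : ℝ → ℝ} {t : ℕ}
    (h1 : rem d t < 2 * s0) (h2 : 2 * s0 ≤ rem d (t + 2)) (ht : t + 2 ≤ M * d)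
    {z : Vtx n d} {Q' Q : BoxT n d} {Z : Finset (Vtx n d)} (hSt : St z Q' Q Z)
    (hphi : phi Q = t + 2) (hZ : (Z.card : ℝ) ≤ n_zb d (t + 2))
    (hadm : AdmL (yl (lev d (phi Q))) x0 ν g)
    (hA : x0 * (n_C M * ((M : ℝ) + 1) ^ 2) ≤ ((d : ℝ) - 1) * (d - 2)) :
    1 / 2 ≤ g (rho (lev d (phi Q)) Z Q) := by
  have hd1 : 1 ≤ d := by omega
  have hl1 : 1 ≤ lev d (phi Q) := Nat.le_add_left _ _
  obtain ⟨h3, h4⟩ := n_wrap (d := d) (by omega) h1 h2
  have h5 := n_zb_le (M := M) hd1 ht h4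
  have hρ0 := n_rho_nonneg (lev d (phi Q)) Z Q
  have hρ1 := n_rho_le_one hl1 Z hSt.le
  have hlip := hadm.lip 0 _ le_rfl hρ0 hρ1
  rw [hadm.zero, sub_zero] at hlip
  have hx0 := hadm.x_pos
  have hlM : lev d (phi Q) ≤ M + 1 := by
    rw [hphi]
    exact (n_lev_le hd1 ht).2
  have hC : 0 ≤ n_C M := by
    unfold n_C
    have : 0 ≤ ∑' j : ℕ, (2 * (j : ℝ) ^ 2 + 4) * Real.exp (-(n_sig M) * j) :=
      tsum_nonneg (fun j => by positivity)
    linarith
  have hd' : (5:ℝ) ≤ d := by exact_mod_cast hd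
  have hr : (d:ℝ) - 1 ≤ rem d (t + 2) := by
    have : (d:ℝ) ≤ (rem d (t + 2) : ℝ) + 1 := by exact_mod_cast h3
    linarith
  have hl' : (1:ℝ) ≤ lev d (phi Q) := by exact_mod_cast hl1
  have hlM' : (lev d (phi Q) : ℝ) ≤ M + 1 := by exact_mod_cast hlM
  have hnst := hSt.bal.nst_eq hd1
  have he := Real.exp_pos (sfun d (t + 2))
  have hρ : rho (lev d (phi Q)) Z Q ≤ n_C M * ((M : ℝ) + 1) ^ 2 /
      (2 * (((d:ℝ) - 1) * (d - 2))) := by
    have h6 : ((Nreg (lev d (phi Q)) Q ∩ Z).card : ℝ) ≤ n_C M * Real.exp (sfun d (t + 2)) := by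
      refine le_trans ?_ (hZ.trans h5)
      exact_mod_cast Finset.card_le_card Finset.inter_subset_right
    have h7 : 2 * (((d:ℝ) - 1) * (d - 2)) * Real.exp (sfun d (t + 2)) / ((M : ℝ) + 1) ^ 2 ≤
        nt d (phi Q) := by
      unfold nt
      rw [hphi] at hlM' hl' ⊢
      have h8 : ((d:ℝ) - 1) * (d - 2) ≤ (rem d (t + 2) : ℝ) * ((rem d (t + 2) : ℝ) - 1) :=
        mul_le_mul hr (by linarith) (by linarith) (by linarith)
      have h9 : 0 ≤ 2 * (rem d (t + 2) : ℝ) * ((rem d (t + 2) : ℝ) - 1) := by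
        have : 0 ≤ ((d:ℝ) - 1) * (d - 2) := mul_nonneg (by linarith) (by linarith)
        linarith
      calc _ ≤ 2 * (rem d (t + 2) : ℝ) * ((rem d (t + 2) : ℝ) - 1) *
            Real.exp (sfun d (t + 2)) / ((M : ℝ) + 1) ^ 2 := by
            refine div_le_div_of_nonneg_right ?_ (by positivity)
            refine mul_le_mul_of_nonneg_right ?_ he.le
            linarith
        _ ≤ _ := by
            refine div_le_div_of_nonneg_left (by positivity) (by positivity) ?_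
            gcongr
    have h10 : 0 < 2 * (((d:ℝ) - 1) * (d - 2)) := by
      have : 0 < ((d:ℝ) - 1) * (d - 2) := mul_pos (by linarith) (by linarith)
      linarith
    unfold rho
    rw [hnst]
    calc ((Nreg (lev d (phi Q)) Q ∩ Z).card : ℝ) / nt d (phi Q) ≤
          (n_C M * Real.exp (sfun d (t + 2))) /
          (2 * (((d:ℝ) - 1) * (d - 2)) * Real.exp (sfun d (t + 2)) / ((M : ℝ) + 1) ^ 2) :=
          div_le_div₀ (by positivity) h6 (by positivity) h7
      _ = _ := by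
          field_simp
  have h11 : x0 * rho (lev d (phi Q)) Z Q ≤ 1 / 2 := by
    have h12 : 0 < ((d:ℝ) - 1) * (d - 2) := mul_pos (by linarith) (by linarith)
    calc x0 * rho (lev d (phi Q)) Z Q ≤ x0 * (n_C M * ((M : ℝ) + 1) ^ 2 /
          (2 * (((d:ℝ) - 1) * (d - 2)))) := mul_le_mul_of_nonneg_left hρ hx0.le
      _ = x0 * (n_C M * ((M : ℝ) + 1) ^ 2) / (2 * (((d:ℝ) - 1) * (d - 2))) := by ring
      _ ≤ 1 / 2 := by
          rw [div_le_div_iff₀ (by linarith) (by norm_num)]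
          linarith
  linarith

/-- the lower bound for all states -/
theorem n_claim (hd : 5 ≤ d) (M : ℕ) (xs : ℕ → ℝ) (gs : ℕ → ℝ → ℝ) {ν X p : ℝ}
    (hadm : ∀ l, 1 ≤ l → l ≤ M + 1 → AdmL (yl l) (xs l) ν (gs l))
    (hX : ∀ l, 1 ≤ l → l ≤ M + 1 → xs l ≤ X) {s0 k1 : ℕ} (hs0 : 4 ≤ s0) (hs0d : 2 * s0 ≤ d)
    (hk1 : 1 ≤ k1) (hν : 0 < ν)
    (hA1 : X * (8 + ((M : ℝ) + 1) ^ 2) ≤ ν / 2 * (2 * s0)) (hA2 : 8 ≤ ν / 2 * (2 * s0))
    (hA3 : X * (n_C M * ((M : ℝ) + 1) ^ 2) ≤ ((d : ℝ) - 1) * (d - 2))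
    (hp0 : 0 ≤ p) (hp1 : p ≤ 1 / 2) {z : Vtx n d} (hz : Room (M + 4) z) :
    ∀ (m : ℕ) (Q' Q : BoxT n d) (Z : Finset (Vtx n d)), St z Q' Q Z →
      (Z.card : ℝ) ≤ n_zb d (phi Q) → phi Q + 2 * m ≤ M * d →
      Wv xs ν (1 / ((M : ℝ) + 3) ^ 3) p d s0 k1 m (phi Q) *
        (if Main d s0 k1 (phi Q) then gs (lev d (phi Q)) (rho (lev d (phi Q)) Z Q) else 1) ≤
        (gtree s0 k1 m Q' Q Z).val p := by
  have hd1 : 1 ≤ d := by omega
  have hxs : ∀ l, 1 ≤ l → l ≤ M + 1 → 0 < xs l := fun l h1 h2 => (hadm l h1 h2).x_pos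
  have hWv := fun m t h => n_Wv_nonneg M xs hxs hν.le (cF := 1 / ((M : ℝ) + 3) ^ 3)
    (by positivity) hp0 hd1 s0 k1 m t h
  intro m
  induction m with
  | zero =>
    intro Q' Q Z hSt _ ht
    obtain ⟨hl1, hlM⟩ := n_lev_le (M := M) hd1 (by omega : phi Q ≤ M * d)
    rw [Wv, gtree, DT.val, one_mul]
    split_ifs
    · exact n_g_le_one (hadm _ hl1 hlM) (n_rho_nonneg _ _ _) (n_rho_le_one hl1 _ hSt.le)
    · exact le_rfl
  | succ m ih =>
    intro Q' Q Z hSt hZ ht
    obtain ⟨hl1, hlM⟩ := n_lev_le (M := M) hd1 (by omega : phi Q ≤ M * d)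
    obtain ⟨hl1', hlM'⟩ := n_lev_le (M := M) hd1 (by omega : phi Q + 2 ≤ M * d)
    obtain ⟨hroom, hsd⟩ := n_room hSt hlM hz
    have hW := hWv m (phi Q + 2) (by omega)
    have hnext := n_next s0 k1 (by omega) hd hSt hZ _ rfl
    set L := (cand s0 k1 Q' Q \ Z).toList with hL
    set f : Vtx n d → DT (Vtx n d) := fun x => gtree s0 k1 m Q (ext Q x) (insert x (Z ∪
      (L.takeWhile (fun y => decide (y ≠ x))).toFinset)) with hf
    have hgt : gtree s0 k1 (m + 1) Q' Q Z = DT.node L f := rfl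
    have hphi : ∀ i : Fin L.length, phi (ext Q (L.get i)) = phi Q + 2 := fun i =>
      cand_phi s0 k1 hSt.le (hnext i).1
    have hih : ∀ i : Fin L.length, Wv xs ν (1 / ((M : ℝ) + 3) ^ 3) p d s0 k1 m (phi Q + 2) *
        (if Main d s0 k1 (phi Q + 2) then gs (lev d (phi Q + 2)) (rho (lev d (phi Q + 2))
          (insert (L.get i) (Z ∪ (L.takeWhile (fun y => decide (y ≠ L.get i))).toFinset))
          (ext Q (L.get i))) else 1) ≤ (f (L.get i)).val p := by
      intro i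
      have h1 := ih Q (ext Q (L.get i)) _ (hnext i).2.2.1 (by
        rw [hphi i]
        exact (hnext i).2.2.2) (by rw [hphi i]; omega)
      rw [hphi i] at h1
      exact h1
    rw [hgt]
    unfold Wv
    by_cases hM1 : Main d s0 k1 (phi Q)
    · have hcand : cand s0 k1 Q' Q = Nreg (lev d (phi Q)) Q := by
        unfold cand
        rw [if_pos hM1]
      have hL' : L = (Nreg (lev d (phi Q)) Q \ Z).toList := by rw [hL, hcand]
      rw [if_pos hM1, if_pos hM1]
      by_cases hM2 : Main d s0 k1 (phi Q + 2)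
      · rw [if_pos hM2]
        have hlev := (lev_add (d := d) (t := phi Q) (i := 2) hd1 (by
          have := hM1.1
          omega)).1
        refine n_case_a hd hs0 hSt (hadm _ hl1 hlM) hM1.1 hlM ?_ hA2 hroom hp0 hp1 hW L hL' f
          (fun i => insert (L.get i) (Z ∪
            (L.takeWhile (fun y => decide (y ≠ L.get i))).toFinset)) ?_ ?_
        · refine le_trans (mul_le_mul_of_nonneg_right (hX _ hl1 hlM) (by positivity)) hA1
        · intro i
          exact ⟨_, (hnext i).2.1, rfl, (hnext i).2.2.1.outs_le⟩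
        · intro i
          have h1 := hih i
          rw [if_pos hM2, hlev] at h1
          exact h1
      · rw [if_neg hM2]
        refine n_case_b hd hs0 hSt (hadm _ hl1 hlM) hM1.1 hroom hp0 hp1 hW L hL' f ?_
        intro i
        have h1 := hih i
        rw [if_neg hM2, mul_one] at h1
        exact h1
    · rw [if_neg hM1, if_neg hM1, mul_one]
      have hP := hSt.pair (by omega)
      have hcand : cand s0 k1 Q' Q = Fresh Q' Q hP.choose := by
        unfold cand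
        rw [if_neg hM1, dif_pos hP]
      have hPs := hP.choose_spec
      set P := hP.choose with hPdef
      have hdisj := hSt.fresh hPs.1
      have hlen : L.length = (Fresh Q' Q P).card := by
        rw [hL, Finset.length_toList, hcand, Finset.sdiff_eq_self_of_disjoint hdisj]
      have hex : ∃ i, i ≠ P.1 ∧ i ≠ P.2 ∧ sd Q' i < sd Q i := by
        rcases hSt.enl with ⟨h1, _⟩ | ⟨i, j, _, h1, _⟩
        · exfalso
          apply hM1
          rw [h1]
          refine ⟨?_, hk1⟩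
          unfold rem
          simpa using hs0d
        · refine ⟨i, ?_, ?_, by omega⟩
          · intro h
            have := hPs.2.1
            rw [← h] at this
            omega
          · intro h
            have := hPs.2.2.1
            rw [← h] at this
            omega
      have hcount := card_Fresh_ge hSt.le' hSt.sub1 hSt.sub2 hPs.1 hex hroom (M + 3) hsd
      rw [hSt.bal.vol_eq hd1, ← hlen] at hcount
      push_cast at hcount
      have hc : 1 / ((M : ℝ) + 3) ^ 3 * Real.exp (sfun d (phi Q)) ≤ L.length := by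
        rw [one_div_mul_eq_div]
        exact hcount
      by_cases hM2 : Main d s0 k1 (phi Q + 2)
      · rw [if_pos hM2]
        have hrem : rem d (phi Q) < 2 * s0 := by
          by_contra hcon
          push Not at hcon
          exact hM1 ⟨hcon, by have := hM2.2; omega⟩
        have h1 := n_case_c (W := Wv xs ν (1 / ((M : ℝ) + 3) ^ 3) p d s0 k1 m (phi Q + 2) *
          (1 / 2)) hp0 hp1 (by positivity) L hc f (by
            intro i
            refine le_trans ?_ (hih i)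
            rw [if_pos hM2]
            refine mul_le_mul_of_nonneg_left ?_ hW
            have h2 := n_half (M := M) hd hrem hM2.1 (by omega) (hnext i).2.2.1 (hphi i)
              (hnext i).2.2.2 (by rw [hphi i]; exact hadm _ hl1' hlM')
              (le_trans (mul_le_mul_of_nonneg_right (hX _ hl1' hlM') (by
                have : 0 ≤ n_C M := by
                  unfold n_C
                  have : 0 ≤ ∑' j : ℕ, (2 * (j : ℝ) ^ 2 + 4) * Real.exp (-(n_sig M) * j) :=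
                    tsum_nonneg (fun j => by positivity)
                  linarith
                positivity)) hA3)
            rw [hphi i] at h2
            exact h2)
        refine le_trans (le_of_eq ?_) h1
        ring
      · rw [if_neg hM2, mul_one]
        refine n_case_c hp0 hp1 hW L hc f ?_
        intro i
        have h1 := hih i
        rw [if_neg hM2, mul_one] at h1
        exact h1

end N

section N2

theorem value_ge (M : ℕ) (xs : ℕ → ℝ) (gs : ℕ → ℝ → ℝ) (ν : ℝ)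
    (hadm : ∀ l, 1 ≤ l → l ≤ M + 1 → AdmL (yl l) (xs l) ν (gs l)) :
    ∃ D₀ : ℕ, ∀ n d k1 m : ℕ, ∀ p : ℝ, 1 ≤ k1 → D₀ ≤ d → 0 ≤ p → p ≤ 1 / 2 → 2 * m ≤ M * d →
      ∀ z : Vtx n d, Room (M + 4) z →
      p * Wv xs ν (1 / ((M : ℝ) + 3) ^ 3) p d (Nat.sqrt d) k1 m 0 ≤
        (rtree (Nat.sqrt d) k1 m z).val p := by
  have hν := (hadm 1 le_rfl (by omega)).ν_pos
  obtain ⟨X, hX⟩ : ∃ X : ℝ, ∀ l, 1 ≤ l → l ≤ M + 1 → xs l ≤ X := by
    refine ⟨∑ l ∈ Finset.range (M + 2), |xs l|, ?_⟩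
    intro l _ hl
    refine (le_abs_self _).trans ?_
    exact Finset.single_le_sum (f := fun l => |xs l|) (fun _ _ => abs_nonneg _)
      (Finset.mem_range.2 (by omega))
  obtain ⟨R, hR⟩ := exists_nat_ge (max (max (X * (8 + ((M : ℝ) + 1) ^ 2) / ν) (8 / ν))
    (X * (n_C M * ((M : ℝ) + 1) ^ 2)))
  refine ⟨(R + 4) * (R + 4), ?_⟩
  intro n d k1 m p hk1 hd hp0 hp1 hm z hz
  have h1 : R + 4 ≤ Nat.sqrt d := Nat.le_sqrt.2 hd
  have hR1 := (le_max_left _ _).trans ((le_max_left _ _).trans hR)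
  have hR2 := (le_max_right _ _).trans ((le_max_left _ _).trans hR)
  have hR3 := (le_max_right _ _).trans hR
  rw [div_le_iff₀ hν] at hR1 hR2
  have h1' : (R : ℝ) + 4 ≤ Nat.sqrt d := by exact_mod_cast h1
  have hd4 : 16 ≤ d := le_trans (by nlinarith) hd
  have hd4' : (16:ℝ) ≤ d := by exact_mod_cast hd4
  have hs0d : 2 * Nat.sqrt d ≤ d := by
    have := Nat.sqrt_le d
    nlinarith
  have hdR : (R : ℝ) ≤ d := by
    have h2 : R ≤ d := le_trans (by nlinarith) hd
    exact_mod_cast h2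
  have hphi0 : phi ((z, z) : BoxT n d) = 0 := by
    unfold phi
    simp
  have hZ1 : ((({z} : Finset (Vtx n d)).card : ℕ) : ℝ) ≤ n_zb d (phi ((z, z) : BoxT n d)) := by
    rw [hphi0]
    unfold n_zb
    simp
  have key := n_claim (by omega : 5 ≤ d) M xs gs hadm hX (s0 := Nat.sqrt d) (k1 := k1)
    (by omega) hs0d hk1 hν (by nlinarith) (by nlinarith)
    (by nlinarith) hp0 hp1 hz m (z, z) (z, z) {z} (St.init (by omega) z) hZ1
    (by rw [hphi0]; omega)
  have hMain : Main d (Nat.sqrt d) k1 (phi ((z, z) : BoxT n d)) := by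
    rw [hphi0]
    refine ⟨?_, hk1⟩
    unfold rem
    simpa using hs0d
  rw [if_pos hMain] at key
  have hrho : rho (lev d (phi ((z, z) : BoxT n d))) {z} ((z, z) : BoxT n d) = 0 := by
    unfold rho
    have : Nreg (lev d (phi ((z, z) : BoxT n d))) ((z, z) : BoxT n d) ∩ {z} = ∅ := by
      rw [Finset.eq_empty_iff_forall_notMem]
      intro y hy
      rw [Finset.mem_inter, Finset.mem_singleton] at hy
      obtain ⟨hy1, hy2⟩ := hy
      unfold Nreg at hy1
      have h2 := (Finset.mem_filter.1 hy1).2.2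
      rw [hy2] at h2
      simp [out] at h2
    rw [this]
    simp
  have hlev1 : lev d (phi ((z, z) : BoxT n d)) = 1 := by
    rw [hphi0]
    unfold lev
    simp
  rw [hrho, hlev1, (hadm 1 le_rfl (by omega)).zero, mul_one, hphi0] at key
  have hval : (rtree (Nat.sqrt d) k1 m z).val p =
      p * (gtree (Nat.sqrt d) k1 m (z, z) (z, z) {z}).val p := by
    unfold rtree
    rw [DT.val]
    simp
  rw [hval]
  exact mul_le_mul_of_nonneg_left key hp0

end N2

end Pool.Agent.Lib.MP_8501c9_pr.Mid
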