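import Pool.Agent.Lib.MP_8501c9_pr.Mid.Defs3
import Pool.Agent.Lib.MP_8501c9_pr.Mid.Level
import Pool.Agent.Lib.MP_8501c9_pr.Volume

/-!
# Task O: lower bound of the success probability `Wv`
-/

set_option autoImplicit false
open Set

namespace Pool.Agent.Lib.MP_8501c9_pr.Mid

open Pool.Agent.Lib.MP_8501c9_pr

section O

/-- one factor of `Wv` -/
noncomputable def oFac (xs : ℕ → ℝ) (ν cF p : ℝ) (d s0 k1 t : ℕ) : ℝ :=
  if Main d s0 k1 t then
    (if Main d s0 k1 (t + 2) then p * nt d t / xs (lev d t) else ν * p * nt d t) *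
      Real.exp (-(2 * p * nt d t))
  else (1 - Real.exp (-(p * (cF * Real.exp (sfun d t))))) *
    (if Main d s0 k1 (t + 2) then 1 / 2 else 1)

theorem o_prod (xs : ℕ → ℝ) (ν cF p : ℝ) (d s0 k1 T : ℕ) (a : ℕ → ℝ)
    (h : ∀ s, s + 2 ≤ T → Real.exp (a s) ≤ oFac xs ν cF p d s0 k1 s) :
    ∀ m t : ℕ, t + 2 * m ≤ T →
      Real.exp (∑ j ∈ Finset.range m, a (t + 2 * j)) ≤ Wv xs ν cF p d s0 k1 m t := by
  intro m
  induction m with
  | zero =>
    intro t _
    simp [Wv]
  | succ m ih =>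
    intro t ht
    have h1 := ih (t + 2) (by omega)
    have h2 := h t (by omega)
    have h3 : Wv xs ν cF p d s0 k1 (m + 1) t =
        Wv xs ν cF p d s0 k1 m (t + 2) * oFac xs ν cF p d s0 k1 t := rfl
    rw [h3, Finset.sum_range_succ', Real.exp_add]
    have h4 : ∀ j, a (t + 2 * (j + 1)) = a (t + 2 + 2 * j) := by
      intro j
      congr 1
      ring
    simp only [h4, mul_zero, add_zero]
    exact mul_le_mul h1 h2 (Real.exp_pos _).le ((Real.exp_pos _).le.trans h1)

theorem o_sum_pairs (f : ℕ → ℝ) (m : ℕ) :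
    ∑ j ∈ Finset.range m, (f (2 * j) + f (2 * j + 1)) = ∑ t ∈ Finset.range (2 * m), f t := by
  induction m with
  | zero => simp
  | succ m ih =>
    rw [Finset.sum_range_succ, ih, show 2 * (m + 1) = 2 * m + 1 + 1 by ring,
      Finset.sum_range_succ, Finset.sum_range_succ]
    ring

theorem o_one_sub_exp {x : ℝ} (hx0 : 0 ≤ x) (hx1 : x ≤ 1) : x / 2 ≤ 1 - Real.exp (-x) := by
  have h1 : Real.exp (-x) ≤ 1 / (1 + x) := by
    rw [Real.exp_neg, ← one_div]
    apply one_div_le_one_div_of_le (by linarith)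
    linarith [Real.add_one_le_exp x]
  have h2 : x / 2 ≤ 1 - 1 / (1 + x) := by
    rw [le_sub_iff_add_le, div_add_div _ _ (by norm_num) (by linarith), div_le_one (by linarith)]
    nlinarith
  linarith

theorem o_nt_nonneg {d : ℕ} (hd : 1 ≤ d) (t : ℕ) : 0 ≤ nt d t := by
  have h1 : (1 : ℝ) ≤ rem d t := by exact_mod_cast rem_pos hd t
  unfold nt
  have h2 : (0 : ℝ) ≤ (rem d t : ℝ) - 1 := by linarith
  positivity

theorem o_nt_le {d : ℕ} (hd : 1 ≤ d) (t : ℕ) : nt d t ≤ 2 * (d : ℝ) ^ 2 * Real.exp (sfun d t) := by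
  have h1 : (1 : ℝ) ≤ rem d t := by exact_mod_cast rem_pos hd t
  have h2 : (rem d t : ℝ) ≤ d := by exact_mod_cast rem_le (d := d) t
  have h3 : (1 : ℝ) ≤ lev d t := by
    have : 1 ≤ lev d t := Nat.le_add_left 1 _
    exact_mod_cast this
  unfold nt
  have h4 : (0 : ℝ) ≤ (rem d t : ℝ) - 1 := by linarith
  refine (div_le_self (by positivity) (one_le_pow₀ h3)).trans ?_
  refine mul_le_mul_of_nonneg_right ?_ (Real.exp_pos _).le
  nlinarith

theorem o_p_nt {d k t : ℕ} {L C₀ : ℝ} (hd : 1 ≤ d) (hC₀ : 3 ≤ C₀) (htk : t ≤ k)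
    (hL1 : sfun d k + C₀ * Real.log d ≤ L) : 2 * Real.exp (-L) * nt d t ≤ 4 / d := by
  have hd' : (1 : ℝ) ≤ d := by exact_mod_cast hd
  have hlog : 0 ≤ Real.log d := Real.log_nonneg hd'
  have h1 := o_nt_le hd t
  have h2 : sfun d t ≤ sfun d k := sfun_mono d hd htk
  have h3 : Real.exp (-L) * Real.exp (sfun d t) ≤ ((d : ℝ) ^ 3)⁻¹ := by
    rw [← Real.exp_add]
    have : ((d : ℝ) ^ 3)⁻¹ = Real.exp (-(3 * Real.log d)) := by
      rw [Real.exp_neg, ← Real.exp_log (show (0 : ℝ) < (d : ℝ) ^ 3 by positivity), Real.log_pow]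
      norm_num
    rw [this]
    apply Real.exp_le_exp.2
    nlinarith
  calc 2 * Real.exp (-L) * nt d t
      ≤ 2 * Real.exp (-L) * (2 * (d : ℝ) ^ 2 * Real.exp (sfun d t)) := by
        refine mul_le_mul_of_nonneg_left h1 (by positivity)
    _ = 4 * (d : ℝ) ^ 2 * (Real.exp (-L) * Real.exp (sfun d t)) := by ring
    _ ≤ 4 * (d : ℝ) ^ 2 * ((d : ℝ) ^ 3)⁻¹ := by
        refine mul_le_mul_of_nonneg_left h3 (by positivity)
    _ = 4 / d := by field_simp

theorem o_ax_add (xs : ℕ → ℝ) {d t : ℕ} (hd : 1 ≤ d) (hxs : 0 < xs (lev d t))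
    (h : 2 ≤ rem d t) :
    Real.exp (ax xs d t + ax xs d (t + 1)) = nt d t / xs (lev d t) := by
  rw [ax_add xs hd t hxs h, Real.exp_log, nt, div_div]
  have h1 : (2 : ℝ) ≤ rem d t := by exact_mod_cast h
  have h2 : (0 : ℝ) < (rem d t : ℝ) - 1 := by linarith
  have h3 : (1 : ℝ) ≤ lev d t := by
    have : 1 ≤ lev d t := Nat.le_add_left 1 _
    exact_mod_cast this
  positivity

/-- the exceptional sizes -/
def oBd (d k T t : ℕ) : Prop :=
  (t < k ∧ Bad d k (Nat.sqrt d + 1) 0 t) ∨ (k ≤ t ∧ t < k + T)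

instance (d k T t : ℕ) : Decidable (oBd d k T t) := by unfold oBd; infer_instance

/-- the main pointwise inequality -/
theorem o_point (M : ℕ) (xs : ℕ → ℝ) {ν cF C₀ Ca Cb Cx B1 L : ℝ} {d k T t : ℕ}
    (hxs : ∀ l, 1 ≤ l → l ≤ M + 1 → 0 < xs l) (hν : 0 < ν) (hν1 : ν ≤ 1) (hcF : 0 < cF)
    (hcF1 : cF ≤ 1) (hC₀ : 3 ≤ C₀) (hd : 4 ≤ d)
    (hCa : ∀ s : ℕ, s ≤ M * d → sfun d s / 2 - Ca ≤ ax xs d s)
    (hCb : ∀ s : ℕ, s ≤ M * d → ax xs d s ≤ sfun d s / 2 + Real.log d + Cb)
    (hCx0 : 0 ≤ Cx) (hCx : ∀ l, l ≤ M + 1 → |Real.log (2 / xs l)| ≤ Cx)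
    (hB1 : (C₀ + 3) * Real.log d + (|Ca| + 2 * |Cb| + Cx + 3 - Real.log ν - Real.log cF) ≤ B1)
    (hT : ((M : ℝ) + 2) * ((C₀ + 2) * Real.log d - Real.log cF) ≤ T)
    (hL1 : sfun d k + C₀ * Real.log d ≤ L) (hL2 : L ≤ sfun d k + (C₀ + 1) * Real.log d)
    (ht : t + 2 ≤ M * d) :
    Real.exp ((if t < k then ax xs d t - L / 2 else 0) +
      (if t + 1 < k then ax xs d (t + 1) - L / 2 else 0) -
      (4 / d + if oBd d k T t then B1 else 0)) ≤
      oFac xs ν cF (Real.exp (-L)) d (Nat.sqrt d) k t := by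
  have hd1 : 1 ≤ d := by omega
  have hd' : (1 : ℝ) ≤ d := by exact_mod_cast hd1
  have hlog : 0 ≤ Real.log d := Real.log_nonneg hd'
  have hs2 : 2 ≤ Nat.sqrt d := by
    rw [Nat.le_sqrt]
    omega
  have h4d : (0 : ℝ) < 4 / d := by positivity
  have hlogν : Real.log ν ≤ 0 := Real.log_nonpos hν.le hν1
  have hlogcF : Real.log cF ≤ 0 := Real.log_nonpos hcF.le hcF1
  have hl2 : Real.log 2 < 0.6931471808 := Real.log_two_lt_d9
  have hl20 : 0 < Real.log 2 := Real.log_pos (by norm_num)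
  have hl4 : Real.log 4 = 2 * Real.log 2 := by
    rw [show (4 : ℝ) = 2 ^ 2 by norm_num, Real.log_pow]
    norm_num
  have hCa' := le_abs_self Ca
  have hCb' := le_abs_self Cb
  have hCan := abs_nonneg Ca
  have hCbn := abs_nonneg Cb
  have hB1' : 0 ≤ B1 := by
    refine le_trans ?_ hB1
    have : 0 ≤ (C₀ + 3) * Real.log d := by
      refine mul_nonneg (by linarith) hlog
    linarith
  unfold oFac
  by_cases htk : t < k
  swap
  · -- `t ≥ k`
    have hkt : k ≤ t := not_lt.1 htk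
    rw [if_neg htk, if_neg (by omega : ¬ t + 1 < k)]
    rw [if_neg (fun h : Main d (Nat.sqrt d) k t => htk h.2),
      if_neg (fun h : Main d (Nat.sqrt d) k (t + 2) => by have := h.2; omega), mul_one, add_zero,
      zero_sub]
    set x : ℝ := Real.exp (-L) * (cF * Real.exp (sfun d t)) with hx
    have hxe : x = Real.exp (-L + (Real.log cF + sfun d t)) := by
      rw [hx, Real.exp_add, Real.exp_add, Real.exp_log hcF]
    by_cases hT' : t < k + T
    · have hb : oBd d k T t := Or.inr ⟨hkt, hT'⟩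
      rw [if_pos hb]
      set x₀ : ℝ := Real.exp (-((C₀ + 1) * Real.log d) + Real.log cF) with hx₀
      have hx₀x : x₀ ≤ x := by
        rw [hxe, hx₀]
        apply Real.exp_le_exp.2
        have := sfun_mono d hd1 hkt
        linarith
      have hx₀1 : x₀ ≤ 1 := by
        rw [hx₀, Real.exp_le_one_iff]
        have : 0 ≤ (C₀ + 1) * Real.log d := mul_nonneg (by linarith) hlog
        linarith
      have h1 := o_one_sub_exp (Real.exp_pos _).le hx₀1
      have h2 : Real.exp (-x) ≤ Real.exp (-x₀) := Real.exp_le_exp.2 (by linarith)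
      have h3 : Real.exp (-(4 / (d : ℝ) + B1)) ≤ x₀ / 2 := by
        have : x₀ / 2 = Real.exp (-((C₀ + 1) * Real.log d) + Real.log cF - Real.log 2) := by
          rw [Real.exp_sub, Real.exp_log (by norm_num)]
        rw [this]
        apply Real.exp_le_exp.2
        nlinarith
      linarith
    · -- `t ≥ k + T`
      have hnb : ¬ oBd d k T t := by
        rintro (h | h)
        · exact htk h.1
        · exact hT' h.2
      rw [if_neg hnb, add_zero]
      have hxd : (d : ℝ) ≤ x := by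
        have h1 := le_sfun_add d k (t - k) hd1
        rw [show k + (t - k) = t by omega] at h1
        have h2 : (k : ℝ) + ((t - k : ℕ) : ℝ) = t := by
          rw [Nat.cast_sub hkt]
          ring
        rw [h2] at h1
        have h3 : (t : ℝ) ≤ M * d := by
          have : t ≤ M * d := by omega
          exact_mod_cast this
        have h4 : 1 / ((M : ℝ) + 2) ≤ (d : ℝ) / (t + 2 * d) := by
          rw [div_le_div_iff₀ (by positivity) (by positivity)]
          nlinarith
        have h5 : (T : ℝ) ≤ ((t - k : ℕ) : ℝ) := by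
          have : T ≤ t - k := by omega
          exact_mod_cast this
        have h6 : (C₀ + 2) * Real.log d - Real.log cF ≤ ((t - k : ℕ) : ℝ) * ((d : ℝ) / (t + 2 * d)) := by
          calc (C₀ + 2) * Real.log d - Real.log cF
              = ((M : ℝ) + 2) * ((C₀ + 2) * Real.log d - Real.log cF) * (1 / ((M : ℝ) + 2)) := by
                field_simp
            _ ≤ T * (1 / ((M : ℝ) + 2)) := by
                refine mul_le_mul_of_nonneg_right hT (by positivity)
            _ ≤ ((t - k : ℕ) : ℝ) * ((d : ℝ) / (t + 2 * d)) := by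
                refine mul_le_mul h5 h4 (by positivity) (by positivity)
        rw [hxe]
        calc (d : ℝ) = Real.exp (Real.log d) := (Real.exp_log (by linarith)).symm
          _ ≤ _ := by
            apply Real.exp_le_exp.2
            linarith
      have h1 : Real.exp (-x) ≤ 1 / (1 + d) := by
        rw [Real.exp_neg, ← one_div]
        apply one_div_le_one_div_of_le (by linarith)
        linarith [Real.add_one_le_exp x]
      have h2 : Real.exp (-(4 / (d : ℝ))) ≤ (d : ℝ) / (1 + d) := by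
        have h3 : 1 + 1 / (d : ℝ) ≤ Real.exp (4 / d) := by
          have := Real.add_one_le_exp (4 / (d : ℝ))
          have h5 : 1 / (d : ℝ) ≤ 4 / d := by
            rw [div_le_div_iff_of_pos_right (by linarith)]
            norm_num
          linarith
        rw [Real.exp_neg, ← one_div]
        calc 1 / Real.exp (4 / (d : ℝ)) ≤ 1 / (1 + 1 / (d : ℝ)) := by
              apply one_div_le_one_div_of_le (by positivity) h3
          _ = (d : ℝ) / (1 + d) := by field_simp; ring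
      have h3 : (1 : ℝ) - 1 / (1 + d) = (d : ℝ) / (1 + d) := by field_simp; ring
      linarith
  · -- `t < k`
    rw [if_pos htk]
    have htM : t ≤ M * d := by omega
    have ht1M : t + 1 ≤ M * d := by omega
    have hlevM := E_lev_mem M d t hd1 htM
    have hxl : 0 < xs (lev d t) := hxs _ hlevM.1 hlevM.2
    have hSt : sfun d t ≤ sfun d k := sfun_mono d hd1 htk.le
    have hS1 : sfun d (t + 1) ≤ sfun d t + Real.log 2 := by
      have := sfun_add_le d t 1 hd1
      simpa using this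
    have hp := o_p_nt (d := d) (k := k) (t := t) hd1 hC₀ htk.le hL1
    -- the last term, if it is missing
    have hlast : (if t + 1 < k then ax xs d (t + 1) - L / 2 else 0) ≤
        ax xs d (t + 1) - L / 2 + (|Ca| + (C₀ + 1) / 2 * Real.log d) := by
      split_ifs with h
      · have : 0 ≤ (C₀ + 1) / 2 * Real.log d := mul_nonneg (by linarith) hlog
        linarith
      · have hk1 : k = t + 1 := by omega
        have h1 := hCa (t + 1) ht1M
        rw [hk1] at hL2
        linarith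
    by_cases hM1 : Main d (Nat.sqrt d) k t
    · have hr : 2 ≤ rem d t := by
        have := hM1.1
        omega
      have hax := o_ax_add xs hd1 hxl hr
      rw [if_pos hM1]
      by_cases hM2 : Main d (Nat.sqrt d) k (t + 2)
      · -- main phase
        rw [if_pos hM2, if_pos (by have := hM2.2; omega : t + 1 < k)]
        have e1 : Real.exp (-L) * nt d t / xs (lev d t) =
            Real.exp (-L + (ax xs d t + ax xs d (t + 1))) := by
          rw [Real.exp_add, hax, mul_div_assoc]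
        rw [e1, ← Real.exp_add]
        apply Real.exp_le_exp.2
        have : 0 ≤ (if oBd d k T t then B1 else 0) := by
          split_ifs
          · exact hB1'
          · exact le_rfl
        linarith
      · -- end of the main phase
        rw [if_neg hM2]
        have hbd : oBd d k T t := by
          left
          refine ⟨htk, ?_⟩
          by_cases hk2 : k ≤ t + 2
          · right; right; omega
          · right; left
            have h1 : rem d (t + 2) < 2 * Nat.sqrt d := by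
              by_contra hcon
              exact hM2 ⟨not_lt.1 hcon, by omega⟩
            have h2 := (lev_add (d := d) (t := t) (i := 2) hd1 (by have := hM1.1; omega)).2
            omega
        rw [if_pos hbd]
        have hνx : 0 < ν * xs (lev d t) := mul_pos hν hxl
        have e1 : ν * Real.exp (-L) * nt d t =
            Real.exp (-L + (ax xs d t + ax xs d (t + 1)) + Real.log (ν * xs (lev d t))) := by
          rw [Real.exp_add, Real.exp_add, hax, Real.exp_log hνx]
          field_simp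
        rw [e1, ← Real.exp_add]
        apply Real.exp_le_exp.2
        have h1 : Real.log (ν * xs (lev d t)) = Real.log ν + (Real.log 2 -
            Real.log (2 / xs (lev d t))) := by
          rw [Real.log_mul hν.ne' hxl.ne', Real.log_div (by norm_num) hxl.ne']
          ring
        have h2 := (abs_le.1 (hCx (lev d t) hlevM.2)).2
        have h3 : (C₀ + 1) / 2 * Real.log d ≤ (C₀ + 3) * Real.log d :=
          mul_le_mul_of_nonneg_right (by linarith) hlog
        rw [h1]
        linarith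
    · -- chain phase
      rw [if_neg hM1]
      have hbd : oBd d k T t := by
        left
        refine ⟨htk, ?_⟩
        right; left
        by_contra hcon
        exact hM1 ⟨by omega, htk⟩
      rw [if_pos hbd]
      set x : ℝ := Real.exp (-L) * (cF * Real.exp (sfun d t)) with hx
      have hxe : x = Real.exp (-L + (Real.log cF + sfun d t)) := by
        rw [hx, Real.exp_add, Real.exp_add, Real.exp_log hcF]
      have hx1 : x ≤ 1 := by
        rw [hxe, Real.exp_le_one_iff]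
        have : 0 ≤ C₀ * Real.log d := mul_nonneg (by linarith) hlog
        linarith
      have h1 := o_one_sub_exp (hxe ▸ (Real.exp_pos _).le) hx1
      have h2 : x / 4 ≤ (1 - Real.exp (-x)) * (if Main d (Nat.sqrt d) k (t + 2) then 1 / 2 else 1) := by
        have hx0 : 0 ≤ x := hxe ▸ (Real.exp_pos _).le
        split_ifs <;> linarith
      refine le_trans ?_ h2
      have h3 : x / 4 = Real.exp (-L + (Real.log cF + sfun d t) - Real.log 4) := by
        rw [Real.exp_sub, Real.exp_log (by norm_num), hxe]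
      rw [h3]
      apply Real.exp_le_exp.2
      have h4 := hCb t htM
      have h5 := hCb (t + 1) ht1M
      by_cases h6 : t + 1 < k
      · rw [if_pos h6]
        have h7 : 2 * Real.log d ≤ (C₀ + 3) * Real.log d :=
          mul_le_mul_of_nonneg_right (by linarith) hlog
        linarith
      · rw [if_neg h6]
        have hk1 : k = t + 1 := by omega
        rw [hk1] at hL2
        have h7 : (C₀ + 1) / 2 * Real.log d + Real.log d ≤ (C₀ + 3) * Real.log d := by
          nlinarith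
        linarith

theorem o_card (M d k T m : ℕ) (hd : 1 ≤ d) (hk : k ≤ M * d) :
    ((Finset.range (2 * m)).filter (fun t => oBd d k T t)).card ≤
      2 * (Nat.sqrt d + 1) * (M + 2) + T := by
  have h1 : (Finset.range (2 * m)).filter (fun t => oBd d k T t) ⊆
      ((Finset.Ico 0 k).filter (fun s => Bad d k (Nat.sqrt d + 1) 0 s)) ∪ Finset.Ico k (k + T) := by
    intro t ht
    rw [Finset.mem_filter] at ht
    rw [Finset.mem_union, Finset.mem_filter, Finset.mem_Ico, Finset.mem_Ico]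
    rcases ht.2 with h | h
    · left
      exact ⟨⟨Nat.zero_le _, h.1⟩, h.2⟩
    · right
      exact h
  have h2 := nbad_zero_le d k (Nat.sqrt d + 1) 0 M hd hk
  unfold nbad at h2
  refine (Finset.card_le_card h1).trans ((Finset.card_union_le _ _).trans ?_)
  rw [Nat.card_Ico]
  omega

theorem o_asym (M : ℕ) {C₀ K lc ε : ℝ} (hC₀ : 3 ≤ C₀) (hK : 0 ≤ K) (hlc : 0 ≤ lc) (hε : 0 < ε) :
    ∃ D₀ : ℕ, 4 ≤ D₀ ∧ ∀ d : ℕ, D₀ ≤ d → 4 * (M : ℝ) + ((C₀ + 3) * Real.log d + K) *
      (2 * ((Nat.sqrt d : ℝ) + 1) * (M + 2) + (((M : ℝ) + 2) * ((C₀ + 2) * Real.log d + lc) + 1)) ≤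
      ε * d := by
  set A : ℝ := 4 * (C₀ + 3) + K with hA
  set B : ℝ := 4 * ((M : ℝ) + 2) + (((M : ℝ) + 2) * (4 * (C₀ + 2) + lc) + 1) with hB
  set C : ℝ := 4 * (M : ℝ) + A * B with hC
  have hA0 : 0 ≤ A := by rw [hA]; linarith
  have hM0 : (0 : ℝ) ≤ M := Nat.cast_nonneg M
  have hB0 : 0 ≤ B := by
    have : 0 ≤ ((M : ℝ) + 2) * (4 * (C₀ + 2) + lc) := mul_nonneg (by linarith) (by linarith)
    rw [hB]; linarith
  have hC00 : 0 ≤ C := by rw [hC]; positivity
  refine ⟨max 4 ⌈(C / ε) ^ 4⌉₊, le_max_left _ _, fun d hd => ?_⟩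
  have hd4 : 4 ≤ d := (le_max_left _ _).trans hd
  have hd' : (1 : ℝ) ≤ d := by
    have : 1 ≤ d := by omega
    exact_mod_cast this
  have hdC : (C / ε) ^ 4 ≤ (d : ℝ) := by
    refine (Nat.le_ceil _).trans ?_
    exact_mod_cast (le_max_right _ _).trans hd
  set s : ℝ := Real.sqrt (Real.sqrt d) with hs
  have hs2 : s ^ 2 = Real.sqrt d := Real.sq_sqrt (Real.sqrt_nonneg _)
  have hs4 : s ^ 4 = d := by
    rw [show s ^ 4 = (s ^ 2) ^ 2 by ring, hs2, Real.sq_sqrt (by linarith)]
  have hs1 : 1 ≤ s := by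
    rw [hs, Real.one_le_sqrt, Real.one_le_sqrt]
    exact hd'
  have hs0 : 0 < s := by linarith
  have hlog : Real.log d ≤ 4 * s := by
    rw [← hs4, Real.log_pow]
    have := Real.log_le_sub_one_of_pos hs0
    push_cast
    linarith
  have hlog0 : 0 ≤ Real.log d := Real.log_nonneg hd'
  have hsq : (Nat.sqrt d : ℝ) ≤ s ^ 2 := by
    rw [hs2]
    exact Real.nat_sqrt_le_real_sqrt
  have hss : s ≤ s ^ 2 := by nlinarith
  have h1 : (C₀ + 3) * Real.log d + K ≤ A * s := by
    have e1 : (C₀ + 3) * Real.log d ≤ (C₀ + 3) * (4 * s) :=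
      mul_le_mul_of_nonneg_left hlog (by linarith)
    have e2 : K ≤ K * s := le_mul_of_one_le_right hK hs1
    rw [hA]
    linarith
  have h10 : 0 ≤ (C₀ + 3) * Real.log d + K := by
    have := mul_nonneg (show 0 ≤ C₀ + 3 by linarith) hlog0
    linarith
  have h2 : 2 * ((Nat.sqrt d : ℝ) + 1) * (M + 2) +
      (((M : ℝ) + 2) * ((C₀ + 2) * Real.log d + lc) + 1) ≤ B * s ^ 2 := by
    have e1 : 2 * ((Nat.sqrt d : ℝ) + 1) * ((M : ℝ) + 2) ≤ 4 * ((M : ℝ) + 2) * s ^ 2 := by
      have : 2 * ((Nat.sqrt d : ℝ) + 1) ≤ 4 * s ^ 2 := by nlinarith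
      calc 2 * ((Nat.sqrt d : ℝ) + 1) * ((M : ℝ) + 2) ≤ 4 * s ^ 2 * ((M : ℝ) + 2) :=
            mul_le_mul_of_nonneg_right this (by linarith)
        _ = _ := by ring
    have e2 : (C₀ + 2) * Real.log d + lc ≤ (4 * (C₀ + 2) + lc) * s ^ 2 := by
      have e3 : (C₀ + 2) * Real.log d ≤ (C₀ + 2) * (4 * s ^ 2) :=
        mul_le_mul_of_nonneg_left (by linarith) (by linarith)
      have e4 : lc ≤ lc * s ^ 2 := le_mul_of_one_le_right hlc (by linarith)
      linarith
    have e5 : ((M : ℝ) + 2) * ((C₀ + 2) * Real.log d + lc) ≤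
        ((M : ℝ) + 2) * ((4 * (C₀ + 2) + lc) * s ^ 2) :=
      mul_le_mul_of_nonneg_left e2 (by linarith)
    have e6 : (1 : ℝ) ≤ 1 * s ^ 2 := by linarith
    rw [hB]
    calc _ ≤ 4 * ((M : ℝ) + 2) * s ^ 2 +
          (((M : ℝ) + 2) * ((4 * (C₀ + 2) + lc) * s ^ 2) + 1 * s ^ 2) := by linarith
      _ = _ := by ring
  have h3 : ((C₀ + 3) * Real.log d + K) *
      (2 * ((Nat.sqrt d : ℝ) + 1) * (M + 2) +
        (((M : ℝ) + 2) * ((C₀ + 2) * Real.log d + lc) + 1)) ≤ A * B * s ^ 3 := by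
    calc _ ≤ ((C₀ + 3) * Real.log d + K) * (B * s ^ 2) := mul_le_mul_of_nonneg_left h2 h10
      _ ≤ (A * s) * (B * s ^ 2) := mul_le_mul_of_nonneg_right h1 (by positivity)
      _ = _ := by ring
  have h4 : 4 * (M : ℝ) ≤ 4 * M * s ^ 3 :=
    le_mul_of_one_le_right (by positivity) (one_le_pow₀ hs1)
  have h5 : C / ε ≤ s := by
    by_contra hcon
    have h6 := pow_lt_pow_left₀ (not_le.1 hcon) hs0.le (show 4 ≠ 0 by norm_num)
    rw [hs4] at h6
    linarith
  have h7 : C ≤ s * ε := (div_le_iff₀ hε).1 h5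
  calc _ ≤ 4 * (M : ℝ) * s ^ 3 + A * B * s ^ 3 := by linarith
    _ = C * s ^ 3 := by rw [hC]; ring
    _ ≤ s * ε * s ^ 3 := mul_le_mul_of_nonneg_right h7 (by positivity)
    _ = ε * s ^ 4 := by ring
    _ = ε * d := by rw [hs4]

theorem Wv_ge (M : ℕ) (xs : ℕ → ℝ) (ν cF ε c₃ C₀ : ℝ)
    (hxs : ∀ l, 1 ≤ l → l ≤ M + 1 → 0 < xs l) (hν : 0 < ν) (hν1 : ν ≤ 1) (hcF : 0 < cF)
    (hcF1 : cF ≤ 1) (hε : 0 < ε) (hc₃ : 0 < c₃) (hC₀ : 3 ≤ C₀) :
    ∃ D₀ : ℕ, ∀ d k m : ℕ, ∀ L : ℝ, D₀ ≤ d → c₃ * d ≤ k → k ≤ 2 * m → 2 * m ≤ M * d →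
      sfun d k + C₀ * Real.log d ≤ L → L ≤ sfun d k + (C₀ + 1) * Real.log d →
      Real.exp (∑ t ∈ Finset.range k, (ax xs d t - L / 2) - ε * d) ≤
        Wv xs ν cF (Real.exp (-L)) d (Nat.sqrt d) k m 0 := by
  obtain ⟨Ca, hCa⟩ := le_ax M xs hxs
  obtain ⟨Cb, hCb⟩ := ax_le M xs hxs
  obtain ⟨Cx, hCx0, hCx⟩ := E_bound_xs M xs
  have hlogν : Real.log ν ≤ 0 := Real.log_nonpos hν.le hν1
  have hlogcF : Real.log cF ≤ 0 := Real.log_nonpos hcF.le hcF1
  set K : ℝ := |Ca| + 2 * |Cb| + Cx + 3 - Real.log ν - Real.log cF with hK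
  have hK0 : 0 ≤ K := by
    have := abs_nonneg Ca
    have := abs_nonneg Cb
    rw [hK]; linarith
  obtain ⟨D₀, hD4, hD⟩ := o_asym M hC₀ hK0 (neg_nonneg.2 hlogcF) hε
  refine ⟨D₀, fun d k m L hd _ hkm hmM hL1 hL2 => ?_⟩
  have hd4 : 4 ≤ d := hD4.trans hd
  have hd1 : 1 ≤ d := by omega
  have hd' : (1 : ℝ) ≤ d := by exact_mod_cast hd1
  have hlog0 : 0 ≤ Real.log d := Real.log_nonneg hd'
  have hDd := hD d hd
  set B1 : ℝ := (C₀ + 3) * Real.log d + K with hB1
  have hB10 : 0 ≤ B1 := by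
    have := mul_nonneg (show 0 ≤ C₀ + 3 by linarith) hlog0
    rw [hB1]; linarith
  set τ : ℝ := ((M : ℝ) + 2) * ((C₀ + 2) * Real.log d - Real.log cF) with hτ
  have hτ0 : 0 ≤ τ := by
    have := mul_nonneg (show 0 ≤ C₀ + 2 by linarith) hlog0
    rw [hτ]
    exact mul_nonneg (by positivity) (by linarith)
  set T : ℕ := ⌈τ⌉₊ with hT
  have hT1 : τ ≤ T := Nat.le_ceil _
  have hT2 : (T : ℝ) ≤ τ + 1 := (Nat.ceil_lt_add_one hτ0).le
  set f : ℕ → ℝ := fun t => if t < k then ax xs d t - L / 2 else 0 with hf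
  set lb : ℕ → ℝ := fun t => 4 / (d : ℝ) + if oBd d k T t then B1 else 0 with hlb
  have hlb0 : ∀ t, 0 ≤ lb t := by
    intro t
    rw [hlb]
    simp only
    split_ifs <;> positivity
  have key := o_prod xs ν cF (Real.exp (-L)) d (Nat.sqrt d) k (2 * m)
    (fun t => f t + f (t + 1) - lb t)
    (fun s hs => o_point M xs hxs hν hν1 hcF hcF1 hC₀ hd4 (fun t ht => hCa d t hd1 ht)
      (fun t ht => hCb d t hd1 ht) hCx0 hCx le_rfl hT1 hL1 hL2 (hs.trans hmM)) m 0 (by omega)
  refine le_trans (Real.exp_le_exp.2 ?_) key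
  simp only [zero_add]
  have h0 : ∑ j ∈ Finset.range m, (f (2 * j) + f (2 * j + 1) - lb (2 * j)) =
      ∑ t ∈ Finset.range (2 * m), f t - ∑ j ∈ Finset.range m, lb (2 * j) := by
    rw [Finset.sum_sub_distrib, o_sum_pairs f m]
  rw [h0]
  have h1 : ∑ t ∈ Finset.range (2 * m), f t = ∑ t ∈ Finset.range k, (ax xs d t - L / 2) := by
    rw [← Finset.sum_subset (Finset.range_mono hkm)]
    · refine Finset.sum_congr rfl fun t ht => ?_
      rw [hf]
      simp only
      rw [if_pos (Finset.mem_range.1 ht)]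
    · intro t _ ht
      rw [hf]
      simp only
      rw [if_neg (fun h => ht (Finset.mem_range.2 h))]
  have h2 : ∑ j ∈ Finset.range m, lb (2 * j) ≤ ∑ t ∈ Finset.range (2 * m), lb t := by
    rw [← o_sum_pairs lb m]
    refine Finset.sum_le_sum fun j _ => ?_
    linarith [hlb0 (2 * j + 1)]
  have h3 : ∑ t ∈ Finset.range (2 * m), lb t =
      2 * m * (4 / d) + ((Finset.range (2 * m)).filter (fun t => oBd d k T t)).card * B1 := by
    rw [hlb]
    simp only
    rw [Finset.sum_add_distrib, Finset.sum_const, Finset.card_range, nsmul_eq_mul,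
      ← Finset.sum_filter, Finset.sum_const, nsmul_eq_mul]
    push_cast
    ring
  have h4 : 2 * (m : ℝ) * (4 / d) ≤ 4 * M := by
    have h5 : 2 * (m : ℝ) ≤ M * d := by exact_mod_cast hmM
    calc 2 * (m : ℝ) * (4 / d) ≤ M * d * (4 / d) :=
          mul_le_mul_of_nonneg_right h5 (by positivity)
      _ = 4 * M := by field_simp
  have h6 : (((Finset.range (2 * m)).filter (fun t => oBd d k T t)).card : ℝ) ≤
      2 * ((Nat.sqrt d : ℝ) + 1) * (M + 2) + (τ + 1) := by
    have h7 := o_card M d k T m hd1 (hkm.trans hmM)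
    have h8 : (((Finset.range (2 * m)).filter (fun t => oBd d k T t)).card : ℝ) ≤
        2 * ((Nat.sqrt d : ℝ) + 1) * (M + 2) + T := by exact_mod_cast h7
    linarith
  have h9 : (((Finset.range (2 * m)).filter (fun t => oBd d k T t)).card : ℝ) * B1 ≤
      (2 * ((Nat.sqrt d : ℝ) + 1) * (M + 2) + (τ + 1)) * B1 :=
    mul_le_mul_of_nonneg_right h6 hB10
  have h10 : τ = ((M : ℝ) + 2) * ((C₀ + 2) * Real.log d + -Real.log cF) := by
    rw [hτ]; ring
  rw [h10] at h9
  rw [h1]
  have h11 : (2 * ((Nat.sqrt d : ℝ) + 1) * ((M : ℝ) + 2) +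
      (((M : ℝ) + 2) * ((C₀ + 2) * Real.log d + -Real.log cF) + 1)) * B1 =
      B1 * (2 * ((Nat.sqrt d : ℝ) + 1) * (M + 2) +
        (((M : ℝ) + 2) * ((C₀ + 2) * Real.log d + -Real.log cF) + 1)) := mul_comm _ _
  rw [h11] at h9
  linarith

end O

end Pool.Agent.Lib.MP_8501c9_pr.Mid
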