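import Pool.Agent.Lib.MP_8501c9_pr.Volume
import Pool.Agent.Lib.MP_8501c9_pr.Prob
import Pool.Agent.Lib.MP_8501c9_pr.Closure
import Pool.Agent.Lib.MP_8501c9_pr.Mid.Tree
import Pool.Agent.Lib.MP_8501c9_pr.Mid.GrowPoint
import Pool.Agent.Lib.MP_8501c9_pr.Mid.Strategy
import Pool.Agent.Lib.MP_8501c9_pr.Mid.Value
import Pool.Agent.Lib.MP_8501c9_pr.Mid.WBound
import Pool.Agent.Lib.MP_8501c9_pr.Mid.Seeds

/-!
# The upper bound: assembly
-/

set_option autoImplicit false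
open Set

namespace Pool.Agent.Lib.MP_8501c9_pr.Mid

open Pool.Agent.Lib.MP_8501c9_pr

variable {n d : ℕ}

open Classical in
/-- starting points in the interior of the cell -/
noncomputable def Q_I (n d w B : ℕ) (o : Fin d → ℕ) : Finset (Vtx n d) :=
  Finset.univ.filter fun z => ∀ i, o i + w ≤ (z i : ℕ) ∧ (z i : ℕ) + w < o i + B

theorem Q_mem_I {w B : ℕ} {o : Fin d → ℕ} {z : Vtx n d} : z ∈ Q_I n d w B o ↔
    ∀ i, o i + w ≤ (z i : ℕ) ∧ (z i : ℕ) + w < o i + B := by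
  classical
  simp [Q_I]

theorem Q_room {w B : ℕ} {o : Fin d → ℕ} (ho : ∀ i, o i + B ≤ n) {z : Vtx n d}
    (hz : z ∈ Q_I n d w B o) : Room w z := by
  intro i
  have h1 := Q_mem_I.1 hz i
  have h2 := ho i
  omega

theorem Q_card_I {w B : ℕ} {o : Fin d → ℕ} (ho : ∀ i, o i + B ≤ n) :
    (B - 2 * w) ^ d ≤ (Q_I n d w B o).card := by
  classical
  let g : (Fin d → Fin (B - 2 * w)) → Vtx n d := fun f j => ⟨o j + w + f j, by
    have := ho j; have := (f j).2; omega⟩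
  have hcard : Fintype.card (Fin d → Fin (B - 2 * w)) = (B - 2 * w) ^ d := by
    simp
  rw [← hcard, ← Finset.card_univ]
  apply Finset.card_le_card_of_injOn g
  · intro f _
    rw [Finset.mem_coe, Q_mem_I]
    intro i
    have := (f i).2
    simp only [g]
    omega
  · intro f _ f' _ hff
    funext j
    have h1 := congrArg (fun x : Vtx n d => (x j : ℕ)) hff
    simp only [g] at h1
    apply Fin.ext
    omega

theorem Q_lev {M : ℕ} (hd : 1 ≤ d) : lev d (2 * ((M + 1) * d)) = 2 * M + 3 := by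
  unfold lev
  have : 2 * ((M + 1) * d) = (2 * M + 2) * d := by ring
  rw [this, Nat.mul_div_cancel _ hd]

theorem Q_event (M : ℕ) (s0 k1 : ℕ) (hs0 : 1 ≤ s0) (hd : 5 ≤ d) {B : ℕ} {o : Fin d → ℕ}
    {z : Vtx n d} (hz : z ∈ Q_I n d (2 * M + 6) B o)
    (A : Finset (Vtx n d)) (h : (rtree s0 k1 ((M + 1) * d) z).succ A) :
    ∃ R : BoxT n d, R.1 ≤ R.2 ∧ (∀ i, 2 * M + 3 ≤ sd R i) ∧ ∀ x, R.1 ≤ x → x ≤ R.2 →
        x ∈ bclosure 2 ((A : Set (Vtx n d)) ∩ nbox o (fun _ => B)) := by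
  obtain ⟨R, hR, hbal, hphi, hz1, hz2, hcl⟩ := rtree_succ_box s0 k1 _ hs0 hd z A h
  have hlev : lev d (phi R) = 2 * M + 3 := by rw [hphi]; exact Q_lev (by omega)
  have hsd : ∀ i, sd R i = 2 * M + 3 ∨ sd R i = 2 * M + 4 := by
    intro i
    have := hbal i
    rw [hlev] at this
    exact this
  refine ⟨R, hR, fun i => ?_, fun x hx1 hx2 => ?_⟩
  · rcases hsd i with h1 | h1 <;> omega
  · refine bclosure_mono 2 ?_ (hcl x hx1 hx2)
    rintro y ⟨hyA, hy1, hy2⟩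
    refine ⟨hyA, fun i => ?_⟩
    have h1 := Q_mem_I.1 hz i
    have h2 : sd R i ≤ 2 * M + 4 := by rcases hsd i with h1 | h1 <;> omega
    unfold sd at h2
    have h3 : (R.1 i : ℕ) ≤ z i := hz1 i
    have h4 : (z i : ℕ) ≤ R.2 i := hz2 i
    have h5 : (R.1 i : ℕ) ≤ y i := hy1 i
    have h6 : (y i : ℕ) ≤ R.2 i := hy2 i
    constructor
    · omega
    · change (y i : ℕ) < o i + B
      omega

theorem Q_moment (M : ℕ) (s0 k1 K : ℕ) (hs0 : 1 ≤ s0) (hd : 5 ≤ d) (hK : K ≤ (M + 1) * d)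
    {B : ℕ} {o : Fin d → ℕ} {p D : ℝ} (hp0 : 0 ≤ p) (hp1 : p ≤ 1)
    (hD : (B : ℝ) ^ d * (2 * d + 1) ^ (2 * K * (K + 1)) * p ^ (K + 1) +
        ((((M + 1) * d : ℕ) : ℝ) + 1) * (2 * d + 1) ^ (2 * K * (K + 2)) ≤ D) :
    ∑ z ∈ Q_I n d (2 * M + 6) B o, (rtree s0 k1 ((M + 1) * d) z).val p ≤
      D * Pr p (fun A : Finset (Vtx n d) =>
      ∃ R : BoxT n d, R.1 ≤ R.2 ∧ (∀ i, 2 * M + 3 ≤ sd R i) ∧ ∀ x, R.1 ≤ x → x ≤ R.2 →
        x ∈ bclosure 2 ((A : Set (Vtx n d)) ∩ nbox o (fun _ => B))) := by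
  classical
  have hD0 : 0 ≤ D := le_trans (by positivity) hD
  refine (second_moment hp0 hp1 (Q_I n d (2 * M + 6) B o)
    (fun z => rtree s0 k1 ((M + 1) * d) z) (seedJ K B o) (fun j => j.2) D
    (fun z _ => rtree_valid _ _ _ z) ?_ ?_).trans ?_
  · intro A
    have hch : ∀ z : Vtx n d, ∃ S : Finset (Vtx n d),
        (rtree s0 k1 ((M + 1) * d) z).succ A → S ⊆ A ∧ z ∈ S ∧ S.card = K + 1 ∧
        ∀ y ∈ S, ∑ i, (((y i : ℕ) - z i) + ((z i : ℕ) - y i)) ≤ 2 * K := by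
      intro z
      by_cases h : (rtree s0 k1 ((M + 1) * d) z).succ A
      · obtain ⟨S, hS⟩ := rtree_succ_seed s0 k1 _ K hK z A h
        exact ⟨S, fun _ => hS⟩
      · exact ⟨∅, fun h' => absurd h' h⟩
    choose S hS using hch
    apply Set.ncard_le_ncard_of_injOn (fun z => (z, S z))
    · rintro z ⟨hzI, hz⟩
      obtain ⟨h1, h2, h3, h4⟩ := hS z hz
      refine ⟨?_, h1⟩
      unfold seedJ
      rw [Finset.mem_filter]
      refine ⟨Finset.mem_univ _, ?_, h2, h3, h4⟩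
      intro i
      have := Q_mem_I.1 hzI i
      constructor
      · change o i ≤ (z i : ℕ)
        omega
      · change (z i : ℕ) < o i + B
        omega
    · intro z _ z' _ hzz
      exact (Prod.mk.inj hzz).1
  · intro z _ T hT
    have hcard := rtree_win_card s0 k1 _ z hT
    exact (seeds_sum_le K B o hp0 hp1 _ T hcard).trans hD
  · refine mul_le_mul_of_nonneg_left ?_ hD0
    apply Pr_mono hp0 hp1
    rintro A ⟨z, hz, hsucc⟩
    exact Q_event M s0 k1 hs0 hd hz A hsucc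


/-! ### numerical facts -/

open Filter in
theorem Q_ev_rpow (C s b : ℝ) (hb : 0 < b) : ∀ᶠ x : ℕ in atTop,
    C * (x : ℝ) ^ s ≤ Real.exp (b * x) := by
  have h1 := (isLittleO_rpow_exp_pos_mul_atTop s hb).comp_tendsto tendsto_natCast_atTop_atTop
  have h2 : (fun x : ℕ => C * (x : ℝ) ^ s) =o[atTop] (fun x : ℕ => Real.exp (b * x)) := by
    have := h1.const_mul_left C
    exact this
  filter_upwards [h2.bound one_pos] with x hx
  rw [Real.norm_eq_abs, Real.norm_eq_abs, abs_of_pos (Real.exp_pos _), one_mul] at hx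
  exact (le_abs_self _).trans hx

open Filter in
theorem Q_ev_D (M K : ℕ) {b : ℝ} (hb : 0 < b) : ∀ᶠ d : ℕ in atTop,
    1 * (2 * (d : ℝ) + 1) ^ (2 * K * (K + 1)) +
      ((((M + 1) * d : ℕ) : ℝ) + 1) * (2 * d + 1) ^ (2 * K * (K + 2)) ≤ Real.exp (b * d) := by
  set a := 2 * K * (K + 1) with ha
  set c := 2 * K * (K + 2) with hc
  filter_upwards [Q_ev_rpow (3 ^ a + (M + 2) * 3 ^ c) ((a + c + 1 : ℕ) : ℝ) b hb,
    eventually_ge_atTop 1] with d hd hd1
  refine le_trans ?_ hd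
  have hd1' : (1 : ℝ) ≤ d := by exact_mod_cast hd1
  rw [Real.rpow_natCast]
  have h1 : (2 * (d : ℝ) + 1) ^ a ≤ 3 ^ a * (d : ℝ) ^ (a + c + 1) := by
    calc (2 * (d : ℝ) + 1) ^ a ≤ (3 * d) ^ a := by gcongr; linarith
      _ = 3 ^ a * (d : ℝ) ^ a := by rw [mul_pow]
      _ ≤ 3 ^ a * (d : ℝ) ^ (a + c + 1) := by
          gcongr
          omega
  have h2 : ((((M + 1) * d : ℕ) : ℝ) + 1) * (2 * d + 1) ^ c ≤
      (M + 2) * 3 ^ c * (d : ℝ) ^ (a + c + 1) := by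
    calc ((((M + 1) * d : ℕ) : ℝ) + 1) * (2 * (d : ℝ) + 1) ^ c
        ≤ ((M + 2) * d) * (3 * d) ^ c := by
          gcongr
          · push_cast
            nlinarith
          · linarith
      _ = (M + 2) * 3 ^ c * (d : ℝ) ^ (c + 1) := by rw [mul_pow, pow_succ]; ring
      _ ≤ (M + 2) * 3 ^ c * (d : ℝ) ^ (a + c + 1) := by
          gcongr
          omega
  linarith

open Filter in
theorem Q_ev_layer (M : ℕ) (C₀ C₄ : ℝ) : ∀ᶠ d : ℕ in atTop,
    (2 * M + 3) * ((d : ℝ) ^ (C₀ + 1) * (Real.log d + (d + 1) * (C₄ * d) + 2)) ≤ 2 ^ d := by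
  filter_upwards [Q_ev_rpow ((2 * M + 3) * (3 + 2 * |C₄|)) (C₀ + 3) (Real.log 2)
    (Real.log_pos one_lt_two), eventually_ge_atTop 1] with d hd hd1
  have hd1' : (1 : ℝ) ≤ d := by exact_mod_cast hd1
  have hd0 : (0 : ℝ) < d := by linarith
  have e1 : Real.exp (Real.log 2 * d) = 2 ^ d := by
    rw [mul_comm, Real.exp_nat_mul, Real.exp_log two_pos]
  rw [e1] at hd
  refine le_trans ?_ hd
  have h1 : Real.log d + (d + 1) * (C₄ * d) + 2 ≤ (3 + 2 * |C₄|) * (d : ℝ) ^ 2 := by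
    have h2 : Real.log d ≤ d := (Real.log_le_sub_one_of_pos hd0).trans (by linarith)
    have h3 : (d : ℝ) ≤ d ^ 2 := by nlinarith
    have h4 : (d + 1) * (C₄ * d) ≤ 2 * |C₄| * (d : ℝ) ^ 2 := by
      have h5 : C₄ ≤ |C₄| := le_abs_self _
      have h6 : 0 ≤ |C₄| := abs_nonneg _
      calc ((d : ℝ) + 1) * (C₄ * d) ≤ (d + 1) * (|C₄| * d) := by gcongr
        _ ≤ (2 * d) * (|C₄| * d) := by gcongr; linarith
        _ = _ := by ring
    nlinarith
  have e2 : (d : ℝ) ^ (C₀ + 3) = (d : ℝ) ^ (C₀ + 1) * (d : ℝ) ^ 2 := by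
    rw [← Real.rpow_natCast, ← Real.rpow_add hd0]
    congr 1
    push_cast
    ring
  rw [e2]
  have h7 : 0 ≤ (d : ℝ) ^ (C₀ + 1) := by positivity
  calc (2 * M + 3) * ((d : ℝ) ^ (C₀ + 1) * (Real.log d + (d + 1) * (C₄ * d) + 2))
      ≤ (2 * M + 3) * ((d : ℝ) ^ (C₀ + 1) * ((3 + 2 * |C₄|) * (d : ℝ) ^ 2)) := by gcongr
    _ = _ := by ring

theorem Q_sfun_ge {c₃ : ℝ} {d k : ℕ} (hd : 1 ≤ d) (hk : c₃ * d ≤ k) :
    min 1 c₃ * Real.log 2 * d ≤ sfun d k := by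
  have hl2 : 0 < Real.log 2 := Real.log_pos one_lt_two
  have hd0 : (0 : ℝ) < d := by exact_mod_cast hd
  rcases le_total k d with h | h
  · rw [sfun_of_le d k hd h]
    have : min 1 c₃ * d ≤ k := (mul_le_mul_of_nonneg_right (min_le_right _ _) hd0.le).trans hk
    nlinarith
  · have h1 := sfun_mono d hd h
    rw [sfun_of_le d d hd le_rfl] at h1
    have : min 1 c₃ * d ≤ 1 * d := mul_le_mul_of_nonneg_right (min_le_left _ _) hd0.le
    nlinarith

theorem Q_sfun_le {M d k : ℕ} (hd : 1 ≤ d) (hk : k ≤ M * d) :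
    sfun d k ≤ d * Real.log (M + 1) := by
  have h1 := sfun_mono d hd hk
  rw [sfun_eq d (M * d) hd M le_rfl (by nlinarith)] at h1
  push_cast at h1
  simpa using h1


/-- success in one cell -/
theorem Q_box (M : ℕ) (s0 k1 K : ℕ) (hs0 : 1 ≤ s0) (hd : 5 ≤ d) (hK : K ≤ (M + 1) * d)
    {B : ℕ} {o : Fin d → ℕ} (ho : ∀ i, o i + B ≤ n) {p D V q : ℝ} (hp0 : 0 ≤ p) (hp1 : p ≤ 1)
    (hD0 : 0 < D) (hV : 0 ≤ V)
    (hD : (B : ℝ) ^ d * (2 * d + 1) ^ (2 * K * (K + 1)) * p ^ (K + 1) +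
        ((((M + 1) * d : ℕ) : ℝ) + 1) * (2 * d + 1) ^ (2 * K * (K + 2)) ≤ D)
    (hval : ∀ z : Vtx n d, Room (2 * M + 6) z → V ≤ (rtree s0 k1 ((M + 1) * d) z).val p)
    (hq : q = ((B - 2 * (2 * M + 6) : ℕ) : ℝ) ^ d * (V / D)) :
    q ≤ Pr p (fun A : Finset (Vtx n d) =>
      ∃ R : BoxT n d, R.1 ≤ R.2 ∧ (∀ i, 2 * M + 3 ≤ sd R i) ∧ ∀ x, R.1 ≤ x → x ≤ R.2 →
        x ∈ bclosure 2 ((A : Set (Vtx n d)) ∩ nbox o (fun _ => B))) := by
  have h1 := Q_moment (n := n) M s0 k1 K hs0 hd hK (B := B) (o := o)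
    (p := p) (D := D) hp0 hp1 hD
  have h2 : ((B - 2 * (2 * M + 6) : ℕ) : ℝ) ^ d * V ≤
      ∑ z ∈ Q_I n d (2 * M + 6) B o, (rtree s0 k1 ((M + 1) * d) z).val p := by
    calc ((B - 2 * (2 * M + 6) : ℕ) : ℝ) ^ d * V
        ≤ ((Q_I n d (2 * M + 6) B o).card : ℝ) * V := by
          gcongr
          exact_mod_cast Q_card_I ho
      _ = ∑ _z ∈ Q_I n d (2 * M + 6) B o, V := by
          rw [Finset.sum_const, nsmul_eq_mul]
      _ ≤ _ := Finset.sum_le_sum fun z hz => hval z (Q_room ho hz)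
  have h5 := h2.trans h1
  rw [hq, ← mul_div_assoc, div_le_iff₀ hD0]
  linarith

/-- failure of the layers -/
theorem Q_layer {M : ℕ} {C₀ C₄ : ℝ} {n d k : ℕ} {L : ℝ} (hd : 1 ≤ d)
    (hev : (2 * M + 3) * ((d : ℝ) ^ (C₀ + 1) * (Real.log d + (d + 1) * (C₄ * d) + 2)) ≤ 2 ^ d)
    (hn : 1 ≤ n) (hk : k ≤ M * d) (hlog : Real.log n ≤ C₄ * d)
    (hL : L ≤ sfun d k + (C₀ + 1) * Real.log d) (hL0 : 0 ≤ L) :
    d * (n : ℝ) ^ (d + 1) * (1 - Real.exp (-L)) ^ ((2 * M + 3) ^ (d - 1)) ≤ 1 / 4 := by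
  have hd0 : (0 : ℝ) < d := by exact_mod_cast hd
  have hn0 : (0 : ℝ) < n := by exact_mod_cast hn
  set N : ℕ := (2 * M + 3) ^ (d - 1) with hN
  have hp1 : 0 ≤ 1 - Real.exp (-L) := by
    have : Real.exp (-L) ≤ 1 := Real.exp_le_one_iff.mpr (by linarith)
    linarith
  have h1 : (1 - Real.exp (-L)) ^ N ≤ Real.exp (-(Real.exp (-L) * N)) := by
    have h2 : 1 - Real.exp (-L) ≤ Real.exp (-Real.exp (-L)) := by
      have := Real.add_one_le_exp (-Real.exp (-L))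
      linarith
    calc (1 - Real.exp (-L)) ^ N ≤ (Real.exp (-Real.exp (-L))) ^ N := by gcongr
      _ = Real.exp (-(Real.exp (-L) * N)) := by
          rw [← Real.exp_nat_mul]; congr 1; ring
  -- the exponent
  have h3 : Real.log d + (d + 1) * (C₄ * d) + 2 ≤ Real.exp (-L) * N := by
    have h4 : L ≤ d * Real.log (M + 1) + (C₀ + 1) * Real.log d := by
      have := Q_sfun_le hd hk
      linarith
    have h5 : Real.exp (-(d * Real.log (M + 1) + (C₀ + 1) * Real.log d)) ≤ Real.exp (-L) :=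
      Real.exp_le_exp.mpr (by linarith)
    have hM1 : (0 : ℝ) < M + 1 := by positivity
    have h6 : Real.exp (-(d * Real.log (M + 1) + (C₀ + 1) * Real.log d)) =
        (((M : ℝ) + 1) ^ d)⁻¹ * ((d : ℝ) ^ (C₀ + 1))⁻¹ := by
      rw [neg_add, Real.exp_add, Real.exp_neg, Real.exp_neg, Real.exp_nat_mul,
        Real.exp_log hM1, Real.rpow_def_of_pos hd0, mul_comm (C₀ + 1)]
    have h7 : (2 : ℝ) ^ d * ((M : ℝ) + 1) ^ d ≤ (2 * M + 3) * (N : ℝ) := by
      rw [← mul_pow, hN]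
      push_cast
      have h8 : (2 * (M : ℝ) + 3) * (2 * M + 3) ^ (d - 1) = (2 * M + 3) ^ d := by
        rw [← pow_succ']; congr 1; omega
      rw [h8]
      gcongr
      linarith
    have hE : 0 < (d : ℝ) ^ (C₀ + 1) := by positivity
    have hMd : 0 < ((M : ℝ) + 1) ^ d := by positivity
    have h9 : Real.log d + (d + 1) * (C₄ * d) + 2 ≤
        (((M : ℝ) + 1) ^ d)⁻¹ * ((d : ℝ) ^ (C₀ + 1))⁻¹ * N := by
      rw [← mul_inv, inv_mul_eq_div, le_div_iff₀ (by positivity)]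
      have h23 : (0 : ℝ) < 2 * M + 3 := by positivity
      have h10 := mul_le_mul_of_nonneg_right hev hMd.le
      have h11 := h10.trans h7
      have h12 : (2 * (M : ℝ) + 3) * ((Real.log d + (d + 1) * (C₄ * d) + 2) *
          (((M : ℝ) + 1) ^ d * (d : ℝ) ^ (C₀ + 1))) ≤ (2 * M + 3) * N := by
        refine le_trans (le_of_eq ?_) h11
        ring
      exact le_of_mul_le_mul_left h12 h23
    calc _ ≤ (((M : ℝ) + 1) ^ d)⁻¹ * ((d : ℝ) ^ (C₀ + 1))⁻¹ * N := h9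
      _ ≤ Real.exp (-L) * N := by rw [← h6]; gcongr
  have h13 : (d : ℝ) * (n : ℝ) ^ (d + 1) ≤ Real.exp (Real.log d + (d + 1) * (C₄ * d)) := by
    rw [Real.exp_add, Real.exp_log hd0]
    gcongr
    have : (n : ℝ) ^ (d + 1) = Real.exp ((d + 1) * Real.log n) := by
      rw [show ((d : ℝ) + 1) = ((d + 1 : ℕ) : ℝ) by push_cast; ring, Real.exp_nat_mul,
        Real.exp_log hn0]
    rw [this, Real.exp_le_exp]
    gcongr
  have h14 : Real.exp (-2) ≤ 1 / 4 := by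
    rw [Real.exp_neg, one_div]
    gcongr
    have := Real.add_one_le_exp (1 : ℝ)
    have h2 : Real.exp 2 = Real.exp 1 * Real.exp 1 := by rw [← Real.exp_add]; norm_num
    rw [h2]
    nlinarith
  calc d * (n : ℝ) ^ (d + 1) * (1 - Real.exp (-L)) ^ N
      ≤ Real.exp (Real.log d + (d + 1) * (C₄ * d)) * Real.exp (-(Real.exp (-L) * N)) := by
        gcongr
    _ = Real.exp (Real.log d + (d + 1) * (C₄ * d) + -(Real.exp (-L) * N)) := by
        rw [← Real.exp_add]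
    _ ≤ Real.exp (-2) := Real.exp_le_exp.mpr (by linarith)
    _ ≤ 1 / 4 := h14

/-- success in one of the cells -/
theorem Q_cells {n d B w : ℕ} {q X ε : ℝ} (hB0 : 1 ≤ B) (hBw : 4 * w ≤ B)
    (hBe : 4 * (w : ℝ) / B ≤ ε / 8) (hn : 2 * B * d ≤ n) (hBn : 2 * B ≤ n)
    (hq : q = ((B - 2 * w : ℕ) : ℝ) ^ d * X) (hq1 : q ≤ 1)
    (h : 1 ≤ d * Real.log n - ε / 8 * d - 1 + Real.log X) (hX' : 0 < X) :
    (1 - q) ^ ((n / B) ^ d) ≤ 1 / 4 := by
  have hB0' : (0 : ℝ) < B := by exact_mod_cast hB0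
  have hn0 : 0 < n := by omega
  have hn0' : (0 : ℝ) < n := by exact_mod_cast hn0
  have hexp : ∀ x : ℝ, 0 ≤ x → x ≤ 1 / 2 → Real.exp (-(2 * x)) ≤ 1 - x := by
    intro x h0 h1
    -- exp (-2x) ≤ 1 / (1 + 2 x) ≤ 1 - x
    have h2 := Real.add_one_le_exp (2 * x)
    rw [Real.exp_neg, inv_le_comm₀ (Real.exp_pos _) (by linarith)]
    refine le_trans ?_ h2
    rw [inv_le_comm₀ (by linarith) (by linarith)]
    rw [inv_le_iff_one_le_mul₀ (by linarith)]
    nlinarith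
  set Y : ℝ := ((B - 2 * w : ℕ) : ℝ) * ((n / B : ℕ) : ℝ) with hY
  have hwB : 2 * w ≤ B := by omega
  have hw1 : ((B - 2 * w : ℕ) : ℝ) = B * (1 - 2 * w / B) := by
    rw [Nat.cast_sub hwB]; push_cast; field_simp
  have hdiv : (n : ℝ) / B * (1 - B / n) ≤ ((n / B : ℕ) : ℝ) := by
    have h1 : (n : ℝ) / B < ((n / B : ℕ) : ℝ) + 1 := by
      rw [div_lt_iff₀ hB0']
      have := Nat.lt_mul_of_div_lt (Nat.lt_succ_self (n / B)) hB0
      have h2 : n < (n / B + 1) * B := this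
      exact_mod_cast h2
    have h2 : (n : ℝ) / B * (1 - B / n) = n / B - 1 := by field_simp
    linarith
  have ha : Real.exp (-(2 * (2 * w / B))) ≤ 1 - 2 * w / B := by
    apply hexp
    · positivity
    · rw [div_le_iff₀ hB0']
      have : (4 * (w : ℝ)) ≤ B := by exact_mod_cast hBw
      linarith
  have hb : Real.exp (-(2 * (B / n))) ≤ 1 - (B : ℝ) / n := by
    apply hexp
    · positivity
    · rw [div_le_iff₀ hn0']
      have : (2 * (B : ℝ)) ≤ n := by exact_mod_cast hBn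
      linarith
  have hYge : n * Real.exp (-(2 * (2 * w / B)) - 2 * (B / n)) ≤ Y := by
    have e : Real.exp (-(2 * (2 * (w : ℝ) / B)) - 2 * (B / n)) =
        Real.exp (-(2 * (2 * w / B))) * Real.exp (-(2 * (B / n))) := by
      rw [← Real.exp_add]; congr 1
    rw [hY, hw1, e]
    have h1 : (0:ℝ) < Real.exp (-(2 * (2 * w / B))) := Real.exp_pos _
    have h2 : (0:ℝ) < Real.exp (-(2 * (B / n))) := Real.exp_pos _
    calc (n : ℝ) * (Real.exp (-(2 * (2 * w / B))) * Real.exp (-(2 * (B / n))))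
        = (B * Real.exp (-(2 * (2 * w / B)))) * (n / B * Real.exp (-(2 * (B / n)))) := by
          field_simp
      _ ≤ (B * (1 - 2 * w / B)) * (n / B * (1 - B / n)) :=
          mul_le_mul (by gcongr) (by gcongr) (by positivity)
            (mul_nonneg hB0'.le (h1.le.trans ha))
      _ ≤ (B * (1 - 2 * w / B)) * ((n / B : ℕ) : ℝ) :=
          mul_le_mul_of_nonneg_left hdiv (mul_nonneg hB0'.le (h1.le.trans ha))
  have hd2 : 2 * ((B : ℝ) / n) * d ≤ 1 := by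
    have : 2 * (B : ℝ) * d ≤ n := by exact_mod_cast hn
    rw [show 2 * ((B : ℝ) / n) * d = (2 * B * d) / n by ring, div_le_one hn0']
    exact this
  have hYd : Real.exp (d * Real.log n - ε / 8 * d - 1) ≤ Y ^ d := by
    have h1 : (n * Real.exp (-(2 * (2 * w / B)) - 2 * (B / n))) ^ d ≤ Y ^ d := by gcongr
    refine le_trans ?_ h1
    rw [mul_pow, ← Real.exp_nat_mul]
    have h2 : (n : ℝ) ^ d = Real.exp (d * Real.log n) := by
      rw [Real.exp_nat_mul, Real.exp_log hn0']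
    rw [h2, ← Real.exp_add, Real.exp_le_exp]
    have h3 : (d : ℝ) * (2 * (2 * w / B)) ≤ ε / 8 * d := by
      have h4 : 2 * (2 * (w : ℝ) / B) = 4 * w / B := by ring
      rw [h4, mul_comm]
      gcongr
    have h5 : (d : ℝ) * (-(2 * (2 * w / B)) - 2 * (B / n)) =
        -(d * (2 * (2 * w / B))) - 2 * (B / n) * d := by ring
    rw [h5]
    linarith
  have hbig : 2 ≤ q * (((n / B) ^ d : ℕ) : ℝ) := by
    have h1 : q * (((n / B) ^ d : ℕ) : ℝ) = Y ^ d * X := by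
      rw [hq, hY]; push_cast; rw [mul_pow]; ring
    rw [h1]
    have h2 : Real.exp (d * Real.log n - ε / 8 * d - 1) * X ≤ Y ^ d * X := by gcongr
    refine le_trans ?_ h2
    have h3 : Real.exp (d * Real.log n - ε / 8 * d - 1) * X =
        Real.exp (d * Real.log n - ε / 8 * d - 1 + Real.log X) := by
      rw [Real.exp_add, Real.exp_log hX']
    rw [h3]
    have h4 := Real.add_one_le_exp (1 : ℝ)
    have h5 := Real.exp_le_exp.mpr h
    linarith
  have hq0 : 0 ≤ q := by rw [hq]; positivity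
  have h1q : 0 ≤ 1 - q := by linarith
  calc (1 - q) ^ ((n / B) ^ d) ≤ (Real.exp (-q)) ^ ((n / B) ^ d) := by
        gcongr
        have := Real.add_one_le_exp (-q)
        linarith
    _ = Real.exp (-(q * (((n / B) ^ d : ℕ) : ℝ))) := by
        rw [← Real.exp_nat_mul]; congr 1; ring
    _ ≤ Real.exp (-2) := Real.exp_le_exp.mpr (by linarith)
    _ ≤ 1 / 4 := by
        rw [Real.exp_neg, one_div]
        gcongr
        have := Real.add_one_le_exp (1 : ℝ)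
        have h2 : Real.exp 2 = Real.exp 1 * Real.exp 1 := by rw [← Real.exp_add]; norm_num
        rw [h2]
        nlinarith


open Filter in
theorem percProb_mid_ge (M : ℕ) (xs : ℕ → ℝ) (gs : ℕ → ℝ → ℝ) (ν ε c₃ C₀ C₄ : ℝ)
    (hadm : ∀ l, 1 ≤ l → l ≤ 2 * M + 3 → AdmL (yl l) (xs l) ν (gs l)) (hε : 0 < ε)
    (hc₃ : 0 < c₃) (hC₀ : 3 ≤ C₀) :
    ∃ D₀ : ℕ, ∀ n d k : ℕ, ∀ L : ℝ, D₀ ≤ d → c₃ * d ≤ k → k ≤ M * d → c₃ * d ≤ Real.log n →
      Real.log n ≤ C₄ * d → sfun d k + C₀ * Real.log d ≤ L →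
      L ≤ sfun d k + (C₀ + 1) * Real.log d →
      ((k : ℝ) / 2 + 1) * L + ε * d ≤ d * Real.log n + ∑ t ∈ Finset.range k, ax xs d t →
      1 / 2 ≤ percProb n d 2 (Real.exp (-L)) := by
  have hadm1 := hadm 1 le_rfl (by omega)
  have hν := hadm1.ν_pos
  have hν2 := hadm1.ν_le
  -- parameters
  set w : ℕ := 2 * M + 6 with hw
  have hw0 : (0 : ℝ) < w := by rw [hw]; positivity
  obtain ⟨B, hB⟩ := exists_nat_ge (32 * (w : ℝ) / ε + 4 * w + 2)
  have h32 : 0 ≤ 32 * (w : ℝ) / ε := by positivity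
  have hB1 : 4 * w + 2 ≤ B := by
    have : (4 * (w : ℝ) + 2) ≤ B := by linarith
    exact_mod_cast this
  have hB0 : 1 ≤ B := by omega
  have hB0' : (0 : ℝ) < B := by exact_mod_cast hB0
  have hBe : 4 * (w : ℝ) / B ≤ ε / 8 := by
    rw [div_le_iff₀ hB0']
    have h1 : 32 * (w : ℝ) / ε ≤ B := by linarith
    rw [div_le_iff₀ hε] at h1
    linarith
  set c₅ : ℝ := min 1 c₃ * Real.log 2 with hc₅
  have hc₅0 : 0 < c₅ := mul_pos (lt_min one_pos hc₃) (Real.log_pos one_lt_two)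
  obtain ⟨K, hK⟩ := exists_nat_ge (Real.log B / c₅)
  rw [div_le_iff₀ hc₅0] at hK
  set cF : ℝ := 1 / (((2 * M + 2 : ℕ) : ℝ) + 3) ^ 3 with hcF
  have hcF0 : 0 < cF := by positivity
  have hcF1 : cF ≤ 1 := by
    rw [hcF, div_le_one (by positivity)]
    have : (1 : ℝ) ≤ ((2 * M + 2 : ℕ) : ℝ) + 3 := by
      have : (0 : ℝ) ≤ ((2 * M + 2 : ℕ) : ℝ) := Nat.cast_nonneg _
      linarith
    exact one_le_pow₀ this
  obtain ⟨D₁, hD₁⟩ := value_ge (2 * M + 2) xs gs ν (fun l h1 h2 => hadm l h1 (by omega))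
  obtain ⟨D₂, hD₂⟩ := Wv_ge (2 * M + 2) xs ν cF (ε / 4) c₃ C₀
    (fun l h1 h2 => (hadm l h1 (by omega)).x_pos) hν (by linarith) hcF0 hcF1 (by positivity)
    hc₃ hC₀
  have hev : ∀ᶠ d : ℕ in atTop, (2 * (B : ℝ)) * (d : ℝ) ^ (1 : ℝ) ≤ Real.exp (c₃ * d) ∧
      (1 * (2 * (d : ℝ) + 1) ^ (2 * K * (K + 1)) +
      ((((M + 1) * d : ℕ) : ℝ) + 1) * (2 * d + 1) ^ (2 * K * (K + 2)) ≤
        Real.exp (ε / 8 * d)) ∧
      ((2 * M + 3) * ((d : ℝ) ^ (C₀ + 1) * (Real.log d + (d + 1) * (C₄ * d) + 2)) ≤ 2 ^ d) ∧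
      4 / ε ≤ d ∧ 5 ≤ d ∧ K ≤ d ∧ D₁ ≤ d ∧ D₂ ≤ d := by
    refine (Q_ev_rpow (2 * B) 1 c₃ hc₃).and ((Q_ev_D M K (by positivity)).and
      ((Q_ev_layer M C₀ C₄).and ?_))
    have h1 : ∀ᶠ d : ℕ in atTop, 4 / ε ≤ (d : ℝ) :=
      tendsto_natCast_atTop_atTop.eventually_ge_atTop _
    filter_upwards [h1, eventually_ge_atTop 5, eventually_ge_atTop K, eventually_ge_atTop D₁,
      eventually_ge_atTop D₂] with d a1 a2 a3 a4 a5
    exact ⟨a1, a2, a3, a4, a5⟩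
  obtain ⟨D₀, hD₀⟩ := eventually_atTop.1 hev
  refine ⟨D₀, fun n d k L hd hk1 hk2 hn1 hn2 hL1 hL2 hmain => ?_⟩
  obtain ⟨e1, e2, e3, e4, hd5, hKd, hdD₁, hdD₂⟩ := hD₀ d hd
  have hd1 : 1 ≤ d := by omega
  have hd0' : (0 : ℝ) < d := by exact_mod_cast hd1
  have hlogd : Real.log 2 ≤ Real.log d := Real.log_le_log two_pos (by
    have : 2 ≤ d := by omega
    exact_mod_cast this)
  have hl2 : 0 < Real.log 2 := Real.log_pos one_lt_two
  -- n is large
  have hn0 : 0 < n := by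
    rcases Nat.eq_zero_or_pos n with h | h
    · rw [h] at hn1
      simp only [CharP.cast_eq_zero, Real.log_zero] at hn1
      have : 0 < c₃ * d := by positivity
      linarith
    · exact h
  have hn0' : (0 : ℝ) < n := by exact_mod_cast hn0
  have hnB' : 2 * (B : ℝ) * d ≤ n := by
    rw [Real.rpow_one] at e1
    refine e1.trans ?_
    rw [← Real.exp_log hn0', Real.exp_le_exp]
    exact hn1
  have hnB : 2 * B * d ≤ n := by exact_mod_cast hnB'
  have hnB2 : 2 * B ≤ n := by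
    have : 2 * B * 1 ≤ 2 * B * d := Nat.mul_le_mul_left (2 * B) hd1
    omega
  -- L is large
  have hsf : c₅ * d ≤ sfun d k := Q_sfun_ge hd1 hk1
  have hsf0 : 0 ≤ sfun d k := le_trans (by positivity) hsf
  have hLc : c₅ * d ≤ L := by
    have : 0 ≤ C₀ * Real.log d := mul_nonneg (by linarith) (by linarith)
    linarith
  have hL2' : Real.log 2 ≤ L := by nlinarith
  have hL0 : 0 ≤ L := by linarith
  set p : ℝ := Real.exp (-L) with hp
  have hp0 : 0 < p := Real.exp_pos _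
  have hp2 : p ≤ 1 / 2 := by
    rw [hp, Real.exp_neg, one_div]
    gcongr
    rw [← Real.exp_log two_pos]
    exact Real.exp_le_exp.mpr hL2'
  -- the denominator
  set D : ℝ := 1 * (2 * (d : ℝ) + 1) ^ (2 * K * (K + 1)) +
      ((((M + 1) * d : ℕ) : ℝ) + 1) * (2 * d + 1) ^ (2 * K * (K + 2)) with hD
  have hDpos : 0 < D := by positivity
  have hBp : (B : ℝ) ^ d * p ^ (K + 1) ≤ 1 := by
    have h1 : (B : ℝ) ^ d = Real.exp (d * Real.log B) := by
      rw [Real.exp_nat_mul, Real.exp_log hB0']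
    have h2 : p ^ (K + 1) = Real.exp (-((K + 1 : ℕ) * L)) := by
      rw [hp, ← Real.exp_nat_mul]; congr 1; ring
    rw [h1, h2, ← Real.exp_add]
    apply Real.exp_le_one_iff.mpr
    have h3 : (K : ℝ) * (c₅ * d) ≤ K * L := by gcongr
    have h4 : (d : ℝ) * Real.log B ≤ d * (K * c₅) := by gcongr
    push_cast
    nlinarith
  have hDge : (B : ℝ) ^ d * (2 * d + 1) ^ (2 * K * (K + 1)) * p ^ (K + 1) +
        ((((M + 1) * d : ℕ) : ℝ) + 1) * (2 * d + 1) ^ (2 * K * (K + 2)) ≤ D := by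
    rw [hD]
    have : (B : ℝ) ^ d * (2 * d + 1) ^ (2 * K * (K + 1)) * p ^ (K + 1) ≤
        1 * (2 * (d : ℝ) + 1) ^ (2 * K * (K + 1)) := by
      calc _ = ((B : ℝ) ^ d * p ^ (K + 1)) * (2 * (d : ℝ) + 1) ^ (2 * K * (K + 1)) := by ring
        _ ≤ _ := by gcongr
    linarith
  -- the value of the strategy
  set m : ℕ := (M + 1) * d with hm
  set s0 : ℕ := Nat.sqrt d with hs0
  have hs01 : 1 ≤ s0 := by
    rw [hs0]; exact Nat.sqrt_pos.2 hd1
  set W : ℝ := Wv xs ν cF p d s0 k m 0 with hW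
  have h2m : 2 * m ≤ (2 * M + 2) * d := by rw [hm]; exact le_of_eq (by ring)
  have hMd : M * d ≤ (M + 1) * d := Nat.mul_le_mul_right d (by omega)
  have hk2m : k ≤ 2 * m := by omega
  have hWge := hD₂ d k m L hdD₂ hk1 hk2m h2m hL1 hL2
  rw [← hp, ← hs0, ← hW] at hWge
  have hWpos : 0 < W := (Real.exp_pos _).trans_le hWge
  set X : ℝ := p * W / D with hX
  have hXpos : 0 < X := by positivity
  set q : ℝ := ((B - 2 * w : ℕ) : ℝ) ^ d * X with hq
  have hq0 : 0 ≤ q := by positivity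
  have hk0 : 1 ≤ k := by
    have h1 : (0 : ℝ) < k := lt_of_lt_of_le (by positivity) hk1
    exact_mod_cast h1
  have hval : ∀ z : Vtx n d, Room (2 * M + 6) z →
      p * W ≤ (rtree s0 k ((M + 1) * d) z).val p :=
    fun z hz => hD₁ n d k ((M + 1) * d) p hk0 hdD₁ hp0.le hp2 h2m z hz
  have hKm : K ≤ (M + 1) * d := hKd.trans (by
    have : 1 * d ≤ (M + 1) * d := Nat.mul_le_mul_right d (by omega)
    omega)
  have hbox : ∀ o : Fin d → ℕ, (∀ i, o i + B ≤ n) → q ≤ Pr p (fun A : Finset (Vtx n d) =>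
      ∃ R : BoxT n d, R.1 ≤ R.2 ∧ (∀ i, 2 * M + 3 ≤ sd R i) ∧ ∀ x, R.1 ≤ x → x ≤ R.2 →
        x ∈ bclosure 2 ((A : Set (Vtx n d)) ∩ nbox o (fun _ => B))) := fun o ho =>
    Q_box M s0 k K hs01 hd5 hKm ho hp0.le (by linarith) hDpos (by positivity) hDge hval hq
  have hq1 : q ≤ 1 := by
    have h1 := hbox (fun _ => 0) (fun _ => by omega)
    refine h1.trans ?_
    rw [← Pr_true (p := p) (V := Vtx n d)]
    exact Pr_mono hp0.le (by linarith) fun _ _ => trivial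
  have hfin := percProb_ge_box n d hd1 p hp0.le (by linarith) (2 * M + 3) B (by omega)
    (by omega) (by omega) q hq0 hq1 hbox
  have hlayer := Q_layer (M := M) (C₀ := C₀) (C₄ := C₄) hd1 e3 hn0 hk2 hn2 hL2 hL0
  have hcells := Q_cells (n := n) (d := d) (B := B) (w := w) (q := q) (X := X) (ε := ε) hB0
    (by omega) hBe hnB hnB2 hq hq1 ?_ hXpos
  · rw [← hp] at hlayer
    linarith
  · -- the exponent
    have h1 : Real.log X = -L + Real.log W - Real.log D := by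
      rw [hX, Real.log_div (by positivity) hDpos.ne', Real.log_mul hp0.ne' hWpos.ne', hp,
        Real.log_exp]
    have h2 : Real.log D ≤ ε / 8 * d := by
      rw [← Real.log_exp (ε / 8 * d)]
      exact Real.log_le_log hDpos e2
    have h3 : (∑ t ∈ Finset.range k, (ax xs d t - L / 2)) - ε / 4 * d ≤ Real.log W := by
      rw [← Real.log_exp ((∑ t ∈ Finset.range k, (ax xs d t - L / 2)) - ε / 4 * d)]
      exact Real.log_le_log (Real.exp_pos _) hWge
    rw [Finset.sum_sub_distrib, Finset.sum_const, Finset.card_range, nsmul_eq_mul] at h3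
    have h4 : 4 ≤ ε * d := by
      rw [div_le_iff₀ hε] at e4
      linarith
    have h5 : ((k : ℝ) / 2 + 1) * L = k * (L / 2) + L := by ring
    rw [h5] at hmain
    rw [h1]
    linarith

end Pool.Agent.Lib.MP_8501c9_pr.Mid
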