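import Pool.Agent.Lib.MP_8501c9_pr.Mid.Defs3
import Pool.Agent.Lib.MP_8501c9_pr.Volume
import Pool.Agent.Lib.MP_8501c9_pr.Ell
import Pool.Agent.Lib.MP_8501c9_pr.Mid.Level

/-!
# Task R: exact sums and Stirling
-/

set_option autoImplicit false
open Set

namespace Pool.Agent.Lib.MP_8501c9_pr.Mid

open Pool.Agent.Lib.MP_8501c9_pr

section R

/-- the integral over one cell -/
theorem R_cell (d k : ℕ) (hd : 1 ≤ d) :
    (d : ℝ) ^ 2 * (∫ u in ((k : ℝ) / d)..(((k + 1 : ℕ) : ℝ) / d), vfun u) =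
      (sfun d k + sfun d (k + 1)) / 2 := by
  have hd' : (0 : ℝ) < d := by exact_mod_cast hd
  obtain ⟨q, hq⟩ : ∃ q, q = k / d := ⟨_, rfl⟩
  have h1 : q * d ≤ k := by rw [hq]; exact Nat.div_mul_le_self k d
  have h2 : k + 1 ≤ (q + 1) * d := by
    rw [hq]
    exact Nat.lt_mul_of_div_lt (Nat.lt_succ_self (k / d)) hd
  have h1' : (q : ℝ) * d ≤ k := by exact_mod_cast h1
  have h2' : ((k + 1 : ℕ) : ℝ) ≤ (q + 1) * d := by exact_mod_cast h2
  have hle : (k : ℝ) / d ≤ ((k + 1 : ℕ) : ℝ) / d := by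
    push_cast
    gcongr
    linarith
  have g1 : (q : ℝ) ≤ (k : ℝ) / d := by rw [le_div_iff₀ hd']; exact h1'
  have g2 : ((k + 1 : ℕ) : ℝ) / d ≤ q + 1 := by rw [div_le_iff₀ hd']; exact h2'
  have e1 : ∫ u in ((k : ℝ) / d)..(((k + 1 : ℕ) : ℝ) / d), vfun u =
      ∫ u in ((k : ℝ) / d)..(((k + 1 : ℕ) : ℝ) / d),
        ((Real.log (q + 1) - q * vslope q) + vslope q * u) := by
    apply intervalIntegral.integral_congr
    intro u hu
    rw [uIcc_of_le hle] at hu
    simp only
    rw [vfun_affine' q u (g1.trans hu.1) (hu.2.trans g2)]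
    ring
  have e2 : ∀ a b c₀ c₁ : ℝ, ∫ u in a..b, (c₀ + c₁ * u) =
      (b - a) * c₀ + c₁ * ((b ^ 2 - a ^ 2) / 2) := by
    intro a b c₀ c₁
    have hi : IntervalIntegrable (fun u : ℝ => c₁ * u) MeasureTheory.volume a b :=
      Continuous.intervalIntegrable (by fun_prop) _ _
    rw [intervalIntegral.integral_add intervalIntegrable_const hi,
      intervalIntegral.integral_const, intervalIntegral.integral_const_mul, integral_id,
      smul_eq_mul]
  rw [e1, e2, sfun_eq d k hd q h1 (by omega), sfun_eq d (k + 1) hd q (by omega) h2]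
  push_cast
  field_simp
  ring

theorem sum_sfun_eq (d k : ℕ) (hd : 1 ≤ d) : ∑ t ∈ Finset.range k, sfun d t =
    (d : ℝ) ^ 2 * (∫ u in (0 : ℝ)..((k : ℝ) / d), vfun u) - sfun d k / 2 := by
  induction k with
  | zero => simp [sfun_zero]
  | succ k ih =>
    rw [Finset.sum_range_succ, ih]
    have h6 := intervalIntegral.integral_add_adjacent_intervals (vfun_int 0 (k / d))
      (vfun_int (k / d) (((k + 1 : ℕ) : ℝ) / d))
    rw [← h6, mul_add, R_cell d k hd]
    ring

/-- sums over the levels -/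
theorem R_sum_lev (g : ℕ → ℝ) (d k : ℕ) (hd : 1 ≤ d) :
    ∑ t ∈ Finset.range k, g (t / d) =
      d * ∑ l ∈ Finset.range (k / d), g l + ((k % d : ℕ) : ℝ) * g (k / d) := by
  induction k with
  | zero => simp
  | succ k ih =>
    rw [Finset.sum_range_succ, ih]
    have h1 : k % d < d := Nat.mod_lt _ (by omega)
    have h2 : d * (k / d) + k % d = k := Nat.div_add_mod k d
    rcases Nat.lt_or_ge (k % d + 1) d with h | h
    · have h3 : (k + 1) / d = k / d := by
        rw [show k + 1 = (k % d + 1) + d * (k / d) by omega,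
          Nat.add_mul_div_left _ _ (by omega), Nat.div_eq_of_lt h, zero_add]
      have h4 : (k + 1) % d = k % d + 1 := by
        rw [show k + 1 = (k % d + 1) + d * (k / d) by omega, Nat.add_mul_mod_self_left,
          Nat.mod_eq_of_lt h]
      rw [h3, h4]
      push_cast
      ring
    · have h5 : k % d + 1 = d := by omega
      have h3 : (k + 1) / d = k / d + 1 := by
        rw [show k + 1 = d * (k / d + 1) by rw [Nat.mul_add, Nat.mul_one]; omega,
          Nat.mul_div_cancel_left _ (by omega)]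
      have h4 : (k + 1) % d = 0 := by
        rw [show k + 1 = d * (k / d + 1) by rw [Nat.mul_add, Nat.mul_one]; omega,
          Nat.mul_mod_right]
      have h6 : ((k % d : ℕ) : ℝ) = (d : ℝ) - 1 := by
        have : ((k % d + 1 : ℕ) : ℝ) = d := by rw [h5]
        push_cast at this
        linarith
      rw [h3, h4, Finset.sum_range_succ, h6]
      push_cast
      ring

theorem R_sum_rem (d k : ℕ) (hd : 1 ≤ d) :
    ∑ t ∈ Finset.range k, Real.log (rem d t) =
      ((k / d : ℕ) : ℝ) * Real.log (Nat.factorial d) +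
      (Real.log (Nat.factorial d) - Real.log (Nat.factorial (d - k % d))) := by
  induction k with
  | zero => simp
  | succ k ih =>
    rw [Finset.sum_range_succ, ih]
    unfold rem
    have h1 : k % d < d := Nat.mod_lt _ (by omega)
    have h2 : d * (k / d) + k % d = k := Nat.div_add_mod k d
    rcases Nat.lt_or_ge (k % d + 1) d with h | h
    · have h3 : (k + 1) / d = k / d := by
        rw [show k + 1 = (k % d + 1) + d * (k / d) by omega,
          Nat.add_mul_div_left _ _ (by omega), Nat.div_eq_of_lt h, zero_add]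
      have h4 : (k + 1) % d = k % d + 1 := by
        rw [show k + 1 = (k % d + 1) + d * (k / d) by omega, Nat.add_mul_mod_self_left,
          Nat.mod_eq_of_lt h]
      rw [h3, h4]
      obtain ⟨s, hs⟩ : ∃ s, d - k % d = s + 1 := ⟨d - k % d - 1, by omega⟩
      have h5 : d - (k % d + 1) = s := by omega
      rw [hs, h5, Nat.factorial_succ, Nat.cast_mul, Real.log_mul (by positivity)
        (by exact_mod_cast (Nat.factorial_pos s).ne')]
      ring
    · have h5 : k % d + 1 = d := by omega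
      have h3 : (k + 1) / d = k / d + 1 := by
        rw [show k + 1 = d * (k / d + 1) by rw [Nat.mul_add, Nat.mul_one]; omega,
          Nat.mul_div_cancel_left _ (by omega)]
      have h4 : (k + 1) % d = 0 := by
        rw [show k + 1 = d * (k / d + 1) by rw [Nat.mul_add, Nat.mul_one]; omega,
          Nat.mul_mod_right]
      have h6 : d - k % d = 1 := by omega
      rw [h3, h4, h6, Nat.sub_zero, Nat.factorial_one]
      push_cast
      rw [Real.log_one]
      ring

theorem R_floor (d k : ℕ) : ⌊(k : ℝ) / d⌋₊ = k / d := Nat.floor_div_eq_div k d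

theorem R_levsum (xs : ℕ → ℝ) (d k : ℕ) (hd : 1 ≤ d) :
    d * levsum xs ((k : ℝ) / d) =
      ∑ t ∈ Finset.range k, Real.log ((((t / d : ℕ) : ℝ) + 1) ^ 2 * xs (t / d + 1) / 2) := by
  have hd' : (0 : ℝ) < d := by exact_mod_cast hd
  rw [R_sum_lev (fun l => Real.log (((l : ℝ) + 1) ^ 2 * xs (l + 1) / 2)) d k hd]
  unfold levsum
  rw [R_floor]
  have h2 : d * (k / d) + k % d = k := Nat.div_add_mod k d
  have h3 : ((k % d : ℕ) : ℝ) = k - d * ((k / d : ℕ) : ℝ) := by
    have : ((d * (k / d) + k % d : ℕ) : ℝ) = k := by rw [h2]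
    push_cast at this
    linarith
  rw [h3]
  field_simp
  try ring

theorem sum_ax_eq (xs : ℕ → ℝ) (d k : ℕ) (hd : 1 ≤ d)
    (hxs : ∀ l, 1 ≤ l → l ≤ k / d + 1 → 0 < xs l) : ∑ t ∈ Finset.range k, ax xs d t =
    (d : ℝ) ^ 2 * (∫ u in (0 : ℝ)..((k : ℝ) / d), vfun u) / 2 - sfun d k / 2 +
      ((k / d : ℕ) : ℝ) * Real.log (Nat.factorial d) +
      (Real.log (Nat.factorial d) - Real.log (Nat.factorial (d - k % d))) -
      d * levsum xs ((k : ℝ) / d) / 2 := by
  have h1 : ∀ t ∈ Finset.range k, ax xs d t = sfun d t / 2 -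
      (sfun d (t + 1) - sfun d t) / 4 + Real.log (rem d t) -
        Real.log ((((t / d : ℕ) : ℝ) + 1) ^ 2 * xs (t / d + 1) / 2) / 2 := by
    intro t ht
    rw [Finset.mem_range] at ht
    have hx : 0 < xs (t / d + 1) := hxs _ (Nat.le_add_left 1 _)
      (Nat.succ_le_succ (Nat.div_le_div_right ht.le))
    have hl : (0 : ℝ) < ((t / d : ℕ) : ℝ) + 1 := by positivity
    have e1 : Real.log (2 / xs (t / d + 1)) = Real.log 2 - Real.log (xs (t / d + 1)) :=
      Real.log_div (by norm_num) hx.ne'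
    have e2 : Real.log ((((t / d : ℕ) : ℝ) + 1) ^ 2 * xs (t / d + 1) / 2) =
        2 * Real.log (((t / d : ℕ) : ℝ) + 1) + Real.log (xs (t / d + 1)) - Real.log 2 := by
      rw [Real.log_div (by positivity) (by norm_num), Real.log_mul (by positivity) hx.ne',
        Real.log_pow]
      push_cast
      ring
    have e3 : Real.log (((((t / d + 1 : ℕ)) : ℝ) + 1) / ((t / d + 1 : ℕ) : ℝ)) =
        sfun d (t + 1) - sfun d t := by
      rw [sfun_succ d t hd, Real.log_div (by positivity) (by positivity)]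
      push_cast
      ring_nf
    unfold ax lev
    rw [e1, e2, e3]
    push_cast
    ring
  have h2 : ∑ t ∈ Finset.range k, (sfun d (t + 1) - sfun d t) = sfun d k := by
    rw [Finset.sum_range_sub, sfun_zero, sub_zero]
  rw [Finset.sum_congr rfl h1, Finset.sum_sub_distrib, Finset.sum_add_distrib,
    Finset.sum_sub_distrib, ← Finset.sum_div, ← Finset.sum_div, ← Finset.sum_div, h2,
    sum_sfun_eq d k hd, R_sum_rem d k hd, ← R_levsum xs d k hd]
  ring

/-- Stirling, with an error of logarithmic size -/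
theorem R_stirling (q : ℕ) :
    0 ≤ Real.log ((q + 1).factorial) - ((q : ℝ) + 1) * Real.log (q + 1) + (q + 1) ∧
      Real.log ((q + 1).factorial) - ((q : ℝ) + 1) * Real.log (q + 1) + (q + 1) ≤
        1 + Real.log (q + 1) := by
  induction q with
  | zero => simp
  | succ q ih =>
    obtain ⟨h1, h2⟩ := ih
    have h3 := vslope_le q
    have h4 := vslope_ge q
    have hq1 : (0 : ℝ) < (q : ℝ) + 1 := by positivity
    have hq2 : (0 : ℝ) < (q : ℝ) + 2 := by positivity
    have h5 : ((q : ℝ) + 1) * vslope q ≤ 1 := by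
      rw [le_div_iff₀ hq1] at h3
      linarith
    have h6 : 1 ≤ ((q : ℝ) + 2) * vslope q := by
      rw [div_le_iff₀ hq2] at h4
      linarith
    unfold vslope at h5 h6
    rw [Nat.factorial_succ, Nat.cast_mul, Real.log_mul (by positivity)
      (by exact_mod_cast (Nat.factorial_pos (q + 1)).ne')]
    push_cast
    have e : (q : ℝ) + 1 + 1 = q + 2 := by ring
    rw [e]
    constructor
    · nlinarith
    · nlinarith

theorem R_stirling' {m : ℕ} (hm : 1 ≤ m) :
    0 ≤ Real.log (m.factorial) - (m : ℝ) * Real.log m + m ∧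
      Real.log (m.factorial) - (m : ℝ) * Real.log m + m ≤ 1 + Real.log m := by
  obtain ⟨q, rfl⟩ : ∃ q, m = q + 1 := ⟨m - 1, by omega⟩
  have := R_stirling q
  push_cast
  exact this

theorem sum_ax_asymp (M : ℕ) (xs : ℕ → ℝ) (hxs : ∀ l, 1 ≤ l → l ≤ M + 1 → 0 < xs l) :
    ∃ C : ℝ, ∀ d k : ℕ, 1 ≤ d → k ≤ M * d →
      |∑ t ∈ Finset.range k, ax xs d t - ((d : ℝ) ^ 2 *
        (∫ u in (0 : ℝ)..((k : ℝ) / d), vfun u) / 2 + k * Real.log d -
          d * brk xs ((k : ℝ) / d))| ≤ C * (Real.log d + 1) := by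
  refine ⟨M + 2, fun d k hd hk => ?_⟩
  have hd' : (0 : ℝ) < d := by exact_mod_cast hd
  have hqM : k / d ≤ M := Nat.div_le_of_le_mul (by rw [mul_comm]; exact hk)
  obtain ⟨q, hq⟩ : ∃ q, q = k / d := ⟨_, rfl⟩
  obtain ⟨j, hj⟩ : ∃ j, j = k % d := ⟨_, rfl⟩
  have hjd : j < d := by rw [hj]; exact Nat.mod_lt _ (by omega)
  have h2 : d * q + j = k := by rw [hq, hj]; exact Nat.div_add_mod k d
  have h2' : (k : ℝ) = d * q + j := by
    rw [← h2]
    push_cast
    ring
  rw [sum_ax_eq xs d k hd (fun l h1 h2 => hxs l h1 (h2.trans (Nat.succ_le_succ hqM)))]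
  unfold brk
  rw [R_floor, ← hq, ← hj]
  have hdj : ((d - j : ℕ) : ℝ) = (d : ℝ) - j := Nat.cast_sub hjd.le
  have hdjpos : (0 : ℝ) < (d : ℝ) - j := by
    rw [← hdj]
    exact_mod_cast Nat.sub_pos_of_lt hjd
  have e1 : 1 - ((k : ℝ) / d - q) = ((d : ℝ) - j) / d := by
    rw [h2']
    field_simp
    ring
  have e2 : d * vfun ((k : ℝ) / d) = sfun d k := rfl
  have e3 : (d : ℝ) * ((k : ℝ) / d) = k := by field_simp
  rw [e1, Real.log_div hdjpos.ne' hd'.ne']
  obtain ⟨a1, a2⟩ := R_stirling' (m := d) hd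
  obtain ⟨b1, b2⟩ := R_stirling' (m := d - j) (by omega)
  rw [hdj] at b1 b2
  have hlog : Real.log ((d : ℝ) - j) ≤ Real.log d :=
    Real.log_le_log hdjpos (by linarith [(Nat.cast_nonneg j : (0 : ℝ) ≤ j)])
  have hlogd : 0 ≤ Real.log d := Real.log_nonneg (by exact_mod_cast hd)
  obtain ⟨A, hA⟩ : ∃ A, A = Real.log (d.factorial) - (d : ℝ) * Real.log d + d := ⟨_, rfl⟩
  obtain ⟨B, hB⟩ : ∃ B, B = Real.log ((d - j).factorial) - ((d : ℝ) - j) * Real.log ((d : ℝ) - j) +
    ((d : ℝ) - j) := ⟨_, rfl⟩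
  rw [← hA] at a1 a2
  rw [← hB] at b1 b2
  have key : (d : ℝ) ^ 2 * (∫ u in (0 : ℝ)..((k : ℝ) / d), vfun u) / 2 - sfun d k / 2 +
      (q : ℝ) * Real.log (Nat.factorial d) +
      (Real.log (Nat.factorial d) - Real.log (Nat.factorial (d - j))) -
      d * levsum xs ((k : ℝ) / d) / 2 - ((d : ℝ) ^ 2 *
        (∫ u in (0 : ℝ)..((k : ℝ) / d), vfun u) / 2 + k * Real.log d -
          d * ((k : ℝ) / d + ((d : ℝ) - j) / d * (Real.log ((d : ℝ) - j) - Real.log d) +
            vfun ((k : ℝ) / d) / 2 + levsum xs ((k : ℝ) / d) / 2)) =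
      (q + 1) * A - B := by
    have e4 : d * ((k : ℝ) / d + ((d : ℝ) - j) / d * (Real.log ((d : ℝ) - j) - Real.log d) +
            vfun ((k : ℝ) / d) / 2 + levsum xs ((k : ℝ) / d) / 2) =
        k + ((d : ℝ) - j) * (Real.log ((d : ℝ) - j) - Real.log d) + sfun d k / 2 +
          d * levsum xs ((k : ℝ) / d) / 2 := by
      rw [← e2]
      field_simp
    rw [e4, hA, hB, h2']
    ring
  rw [key]
  have hqM' : (q : ℝ) ≤ M := by
    rw [hq]
    exact_mod_cast hqM
  have hq0 : (0 : ℝ) ≤ q := Nat.cast_nonneg q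
  have c1 : (q + 1) * A ≤ (M + 1) * (Real.log d + 1) := by
    refine mul_le_mul (by linarith) (by linarith) a1 (by positivity)
  have c2 : 0 ≤ (q + 1) * A := by positivity
  rw [abs_le]
  constructor
  · nlinarith
  · nlinarith

end R

end Pool.Agent.Lib.MP_8501c9_pr.Mid
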