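import Pool.Agent.Lib.MP_8501c9_pr.Ell
import Pool.Agent.Lib.MP_8501c9_pr.Mid.Defs3

/-!
# The minimiser in the definition of the rate function, and the bracket
-/

set_option autoImplicit false
open Set

namespace Pool.Agent.Lib.MP_8501c9_pr.Mid

open Pool.Agent.Lib.MP_8501c9_pr

section S

private theorem ao_vfun_lt {a b : ℝ} (h : a < b) : vfun a < vfun b := by
  have h1 := vfun_sub_le b a
  have h2 := vslope_ge ⌊b⌋₊
  have h3 : 0 < 1 / ((⌊b⌋₊ : ℝ) + 2) := by positivity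
  have h4 : 0 < (b - a) * vslope ⌊b⌋₊ := mul_pos (sub_pos.2 h) (by linarith)
  linarith

private theorem ao_eq {a b : ℝ} (ha : 0 < a)
    (hab : a * vfun a - ∫ u in (0 : ℝ)..a, vfun u = 2 * b) : aopt b = a := by
  unfold aopt
  apply le_antisymm
  · exact csInf_le ⟨0, fun x hx => hx.1.le⟩ ⟨ha, hab.ge⟩
  · refine le_csInf ⟨a, ha, hab.ge⟩ ?_
    rintro x ⟨hx, hx2⟩
    by_contra hlt
    push Not at hlt
    have h1 := vtheta_sub x a
    have h2 := integral_vfun_upper hlt.le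
    have h3 := ao_vfun_lt hlt
    unfold vtheta at h1
    have h4 : 0 < x * (vfun a - vfun x) := mul_pos hx (sub_pos.2 h3)
    nlinarith

theorem aopt_spec {b : ℝ} (hb : 0 < b) : 0 < aopt b ∧ ell b = vfun (aopt b) ∧
    aopt b * vfun (aopt b) - ∫ u in (0 : ℝ)..aopt b, vfun u = 2 * b ∧ 2 * b ≤ aopt b ∧
      aopt b ≤ 4 * b + 2 := by
  obtain ⟨a, h1, h2, h3, h4, h5⟩ := exists_minimiser hb
  rw [ao_eq h1 h3]
  exact ⟨h1, h2, h3, h4, h5⟩

private theorem ao_log_two : Real.log 2 ≤ 1 := by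
  have := Real.log_two_lt_d9
  linarith

private theorem ao_lip_le (x y : ℝ) (h : x ≤ y) :
    0 ≤ vfun y - vfun x ∧ vfun y - vfun x ≤ y - x := by
  refine ⟨sub_nonneg.2 (vfun_monotone h), ?_⟩
  have h3 := vfun_sub_le x y
  have h4 := mul_le_mul_of_nonneg_left ((vslope_le_log_two ⌊x⌋₊).trans ao_log_two) (sub_nonneg.2 h)
  linarith

private theorem ao_lip (x y : ℝ) : |vfun y - vfun x| ≤ |y - x| := by
  rcases le_total x y with h | h
  · obtain ⟨h1, h2⟩ := ao_lip_le x y h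
    rw [abs_of_nonneg h1, abs_of_nonneg (sub_nonneg.2 h)]
    exact h2
  · obtain ⟨h1, h2⟩ := ao_lip_le y x h
    rw [abs_sub_comm, abs_of_nonneg h1, abs_sub_comm, abs_of_nonneg (sub_nonneg.2 h)]
    exact h2

/-- quadratic upper bound away from the minimiser -/
theorem aopt_quad {b α : ℝ} (hb : 0 < b) (hα : 0 ≤ α) :
    |(2 * b + ∫ u in (0 : ℝ)..α, vfun u) - α * ell b| ≤ (α - aopt b) ^ 2 := by
  obtain ⟨h1, h2, h3, h4, h5⟩ := aopt_spec hb
  rw [h2]
  generalize aopt b = a at *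
  have h6 := intervalIntegral.integral_add_adjacent_intervals (vfun_int 0 a) (vfun_int a α)
  have h7 : (2 * b + ∫ u in (0 : ℝ)..α, vfun u) - α * vfun a =
      (∫ u in a..α, vfun u) - (α - a) * vfun a := by
    rw [← h6]
    linarith
  rw [h7]
  have h8 := integral_vfun_tangent a α
  have h9 := integral_vfun_tangent α a
  rw [intervalIntegral.integral_symm] at h9
  rw [abs_of_nonneg (by linarith)]
  have h10 : (∫ u in a..α, vfun u) - (α - a) * vfun a ≤ (α - a) * (vfun α - vfun a) := by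
    nlinarith
  refine h10.trans ?_
  refine (le_abs_self _).trans ?_
  rw [abs_mul, ← sq_abs (α - a), sq]
  exact mul_le_mul_of_nonneg_left (ao_lip a α) (abs_nonneg _)

/-- the modulus of continuity of `x log x` -/
private theorem ao_xlogx {x y h : ℝ} (hx : 0 ≤ x) (hxy : x ≤ y) (hy : y ≤ 1) (hd : y - x ≤ h)
    (h0 : 0 < h) (h4 : h ≤ 1 / 4) :
    |x * Real.log x - y * Real.log y| ≤ h * Real.log (1 / h) := by
  have hL : 1 ≤ Real.log (1 / h) := by
    have e1 : Real.log 4 ≤ Real.log (1 / h) := by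
      apply Real.log_le_log (by norm_num)
      rw [le_div_iff₀ h0]
      linarith
    have e2 : Real.log 4 = 2 * Real.log 2 := by
      rw [show (4 : ℝ) = 2 ^ 2 by norm_num, Real.log_pow]
      norm_num
    have := Real.log_two_gt_d9
    linarith
  obtain ⟨L, hLd⟩ : ∃ L, L = Real.log (1 / h) := ⟨_, rfl⟩
  rw [← hLd] at hL ⊢
  have hhL : h ≤ h * L := by nlinarith
  rcases eq_or_lt_of_le hxy with he | hlt
  · rw [he, sub_self, abs_zero]
    linarith
  have hy0 : 0 < y := lt_of_le_of_lt hx hlt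
  obtain ⟨d, hdd⟩ : ∃ d, d = y - x := ⟨_, rfl⟩
  have hd0 : 0 < d := by rw [hdd]; linarith
  have hdh : d ≤ h := by rw [hdd]; exact hd
  have hly : Real.log y ≤ 0 := Real.log_nonpos hy0.le hy
  -- the upper bound
  have hup : y * Real.log y - x * Real.log x ≤ d := by
    rcases eq_or_lt_of_le hx with he | hx0
    · rw [← he]
      have : y * Real.log y ≤ 0 := mul_nonpos_of_nonneg_of_nonpos hy0.le hly
      linarith
    · have e1 : Real.log (y / x) ≤ y / x - 1 := Real.log_le_sub_one_of_pos (by positivity)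
      rw [Real.log_div hy0.ne' hx0.ne'] at e1
      have e2 : x * (Real.log y - Real.log x) ≤ x * (y / x - 1) :=
        mul_le_mul_of_nonneg_left e1 hx
      have e3 : x * (y / x - 1) = d := by
        rw [hdd]
        field_simp
      have e4 : d * Real.log y ≤ 0 := mul_nonpos_of_nonneg_of_nonpos hd0.le hly
      have e5 : y = x + d := by rw [hdd]; ring
      have e6 : y * Real.log y - x * Real.log x = x * (Real.log y - Real.log x) +
          d * Real.log y := by
        rw [hdd]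
        ring
      linarith
  -- the lower bound
  have hlow : x * Real.log x + d * Real.log d ≤ y * Real.log y := by
    have e1 : x * Real.log x ≤ x * Real.log y := by
      rcases eq_or_lt_of_le hx with he | hx0
      · rw [← he]; simp
      · exact mul_le_mul_of_nonneg_left (Real.log_le_log hx0 hxy) hx
    have e2 : d * Real.log d ≤ d * Real.log y :=
      mul_le_mul_of_nonneg_left (Real.log_le_log hd0 (by rw [hdd]; linarith)) hd0.le
    have e6 : y * Real.log y = x * Real.log y + d * Real.log y := by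
      rw [hdd]
      ring
    linarith
  have hdl : -(d * Real.log d) ≤ h * L := by
    have e1 : Real.log (h / d) ≤ h / d - 1 := Real.log_le_sub_one_of_pos (by positivity)
    rw [Real.log_div h0.ne' hd0.ne'] at e1
    have e2 : Real.log h = -L := by
      rw [hLd, one_div, Real.log_inv]
      ring
    rw [e2] at e1
    have e3 : d * (-L - Real.log d) ≤ d * (h / d - 1) := mul_le_mul_of_nonneg_left e1 hd0.le
    have e4 : d * (h / d - 1) = h - d := by
      field_simp
    nlinarith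
  rw [abs_le]
  constructor
  · linarith
  · linarith

private theorem ao_xlogx' {x y h : ℝ} (hx : 0 ≤ x) (hx1 : x ≤ 1) (hy0 : 0 ≤ y) (hy : y ≤ 1)
    (hd : |x - y| ≤ h) (h0 : 0 < h) (h4 : h ≤ 1 / 4) :
    |x * Real.log x - y * Real.log y| ≤ h * Real.log (1 / h) := by
  rw [abs_le] at hd
  rcases le_total x y with hxy | hxy
  · exact ao_xlogx hx hxy hy (by linarith) h0 h4
  · rw [abs_sub_comm]
    exact ao_xlogx hy0 hxy hx1 (by linarith) h0 h4

/-- the coefficients -/
private noncomputable def ao_c (xs : ℕ → ℝ) (l : ℕ) : ℝ :=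
  Real.log (((l : ℝ) + 1) ^ 2 * xs (l + 1) / 2)

/-- the bracket on the interval `[q, q+1]` -/
private theorem ao_brk (xs : ℕ → ℝ) (q : ℕ) {a : ℝ} (h1 : (q : ℝ) ≤ a) (h2 : a ≤ q + 1) :
    brk xs a = a + (q + 1 - a) * Real.log (q + 1 - a) + vfun a / 2 +
      (∑ l ∈ Finset.range q, ao_c xs l + (a - q) * ao_c xs q) / 2 := by
  rcases eq_or_lt_of_le h2 with h | h
  · have hf : ⌊a⌋₊ = q + 1 := by
      rw [h]
      have := Nat.floor_natCast (R := ℝ) (q + 1)
      push_cast at this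
      exact this
    unfold brk levsum
    rw [hf]
    simp only [ao_c]
    rw [Finset.sum_range_succ]
    push_cast
    rw [h]
    simp
  · have hf : ⌊a⌋₊ = q := by
      rw [Nat.floor_eq_iff (le_trans (Nat.cast_nonneg q) h1)]
      exact ⟨h1, h⟩
    unfold brk levsum
    rw [hf]
    simp only [ao_c]
    have e : (1 : ℝ) - (a - q) = q + 1 - a := by ring
    rw [e]

/-- the bracket on one interval -/
private theorem ao_one (xs : ℕ → ℝ) (q : ℕ) {α β h : ℝ} (h1 : (q : ℝ) ≤ α) (h2 : α ≤ q + 1)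
    (h3 : (q : ℝ) ≤ β) (h4 : β ≤ q + 1) (hd : |α - β| ≤ h) (h0 : 0 < h) (hh : h ≤ 1 / 4) :
    |brk xs α - brk xs β| ≤ (3 + |ao_c xs q|) * h * Real.log (1 / h) := by
  rw [ao_brk xs q h1 h2, ao_brk xs q h3 h4]
  have hL : 1 ≤ Real.log (1 / h) := by
    have e1 : Real.log 4 ≤ Real.log (1 / h) := by
      apply Real.log_le_log (by norm_num)
      rw [le_div_iff₀ h0]
      linarith
    have e2 : Real.log 4 = 2 * Real.log 2 := by
      rw [show (4 : ℝ) = 2 ^ 2 by norm_num, Real.log_pow]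
      norm_num
    have := Real.log_two_gt_d9
    linarith
  have e1 := ao_xlogx' (x := q + 1 - α) (y := q + 1 - β) (h := h) (by linarith) (by linarith)
    (by linarith) (by linarith) (by
      have : (q : ℝ) + 1 - α - (q + 1 - β) = -(α - β) := by ring
      rw [this, abs_neg]
      exact hd) h0 hh
  have e2 := (ao_lip β α).trans hd
  obtain ⟨L, hLd⟩ : ∃ L, L = Real.log (1 / h) := ⟨_, rfl⟩
  rw [← hLd] at e1 hL ⊢
  obtain ⟨U, hU⟩ : ∃ U, U = ((q : ℝ) + 1 - α) * Real.log (q + 1 - α) -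
    ((q : ℝ) + 1 - β) * Real.log (q + 1 - β) := ⟨_, rfl⟩
  rw [← hU] at e1
  have e3 : |(α - β) * ao_c xs q| ≤ h * |ao_c xs q| := by
    rw [abs_mul]
    exact mul_le_mul_of_nonneg_right hd (abs_nonneg _)
  have e4 : α + (q + 1 - α) * Real.log (q + 1 - α) + vfun α / 2 +
      (∑ l ∈ Finset.range q, ao_c xs l + (α - q) * ao_c xs q) / 2 -
      (β + (q + 1 - β) * Real.log (q + 1 - β) + vfun β / 2 +
      (∑ l ∈ Finset.range q, ao_c xs l + (β - q) * ao_c xs q) / 2) =
      (α - β) + U + (vfun α - vfun β) / 2 + ((α - β) * ao_c xs q) / 2 := by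
    rw [hU]
    ring
  rw [e4]
  have hA := abs_nonneg (ao_c xs q)
  have hhL : h ≤ h * L := by nlinarith
  have hAL : h * |ao_c xs q| ≤ |ao_c xs q| * h * L := by
    have : 0 ≤ |ao_c xs q| * h := by positivity
    nlinarith
  rw [abs_le] at hd e1 e2 e3
  rw [abs_le]
  constructor <;> nlinarith

/-- continuity of the bracket, up to logarithms -/
theorem brk_sub_le (M : ℕ) (xs : ℕ → ℝ) (hxs : ∀ l, 1 ≤ l → l ≤ M + 1 → 0 < xs l) :
    ∃ C : ℝ, ∀ α β h : ℝ, 0 ≤ α → 0 ≤ β → α ≤ M → β ≤ M → |α - β| ≤ h → 0 < h → h ≤ 1 / 4 →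
      |brk xs α - brk xs β| ≤ C * h * Real.log (1 / h) := by
  obtain ⟨A, hA⟩ : ∃ A, A = ∑ q ∈ Finset.range (M + 1), |ao_c xs q| := ⟨_, rfl⟩
  have hA0 : 0 ≤ A := by
    rw [hA]
    exact Finset.sum_nonneg (fun _ _ => abs_nonneg _)
  have hAq : ∀ q, q ≤ M → |ao_c xs q| ≤ A := by
    intro q hq
    rw [hA]
    exact Finset.single_le_sum (f := fun q => |ao_c xs q|) (fun _ _ => abs_nonneg _)
      (Finset.mem_range.2 (by omega))
  refine ⟨2 * (3 + A), ?_⟩
  -- ordered case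
  have key : ∀ α β h : ℝ, 0 ≤ α → α ≤ β → β ≤ M → β - α ≤ h → 0 < h → h ≤ 1 / 4 →
      |brk xs α - brk xs β| ≤ 2 * (3 + A) * h * Real.log (1 / h) := by
    intro α β h hα hαβ hβ hd h0 hh
    have hL : 0 ≤ Real.log (1 / h) := by
      apply Real.log_nonneg
      rw [le_div_iff₀ h0]
      linarith
    have hP : 0 ≤ h * Real.log (1 / h) := mul_nonneg h0.le hL
    have hfl : (⌊α⌋₊ : ℝ) ≤ α := Nat.floor_le hα
    have hfl2 : α < ⌊α⌋₊ + 1 := Nat.lt_floor_add_one α
    have hq : ⌊α⌋₊ ≤ M := by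
      have : (⌊α⌋₊ : ℝ) ≤ M := by linarith
      exact_mod_cast this
    by_cases hc : β ≤ ⌊α⌋₊ + 1
    · have e := ao_one xs ⌊α⌋₊ (α := α) (β := β) (h := h) hfl hfl2.le (by linarith) hc
        (by rw [abs_sub_comm, abs_of_nonneg (by linarith)]; exact hd) h0 hh
      refine e.trans ?_
      have := hAq _ hq
      have e2 : (3 + |ao_c xs ⌊α⌋₊|) * (h * Real.log (1 / h)) ≤
          (2 * (3 + A)) * (h * Real.log (1 / h)) := by
        apply mul_le_mul_of_nonneg_right _ hP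
        linarith
      linarith
    · push Not at hc
      have hq1 : ⌊α⌋₊ + 1 ≤ M := by
        have : ((⌊α⌋₊ + 1 : ℕ) : ℝ) < M := by push_cast; linarith
        have h2 : ⌊α⌋₊ + 1 < M := by exact_mod_cast this
        omega
      have e := ao_one xs ⌊α⌋₊ (α := α) (β := ⌊α⌋₊ + 1) (h := h) hfl hfl2.le (by linarith) le_rfl
        (by rw [abs_sub_comm, abs_of_nonneg (by linarith)]; linarith) h0 hh
      have e' := ao_one xs (⌊α⌋₊ + 1) (α := ⌊α⌋₊ + 1) (β := β) (h := h) (by push_cast; exact le_rfl)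
        (by push_cast; linarith) (by push_cast; linarith) (by push_cast; linarith)
        (by rw [abs_sub_comm, abs_of_nonneg (by linarith)]; linarith) h0 hh
      have e2 := hAq _ hq
      have e3 := hAq _ hq1
      have e4 : (3 + |ao_c xs ⌊α⌋₊|) * (h * Real.log (1 / h)) ≤
          (3 + A) * (h * Real.log (1 / h)) := by
        apply mul_le_mul_of_nonneg_right _ hP
        linarith
      have e5 : (3 + |ao_c xs (⌊α⌋₊ + 1)|) * (h * Real.log (1 / h)) ≤
          (3 + A) * (h * Real.log (1 / h)) := by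
        apply mul_le_mul_of_nonneg_right _ hP
        linarith
      have e6 := abs_sub_le (brk xs α) (brk xs (⌊α⌋₊ + 1)) (brk xs β)
      linarith
  intro α β h hα hβ hαM hβM hd h0 hh
  rcases le_total α β with hle | hle
  · refine key α β h hα hle hβM ?_ h0 hh
    rw [abs_le] at hd
    linarith
  · rw [abs_sub_comm]
    refine key β α h hβ hle hαM ?_ h0 hh
    rw [abs_le] at hd
    linarith

theorem brk_scale (xs : ℕ → ℝ) (e a : ℝ) (he : 0 < e) (ha : 0 ≤ a)
    (hxs : ∀ l, 1 ≤ l → 0 < xs l) :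
    brk (fun l => e * xs l) a = brk xs a + a * Real.log e / 2 := by
  have hc : ∀ l : ℕ, Real.log (((l : ℝ) + 1) ^ 2 * (e * xs (l + 1)) / 2) =
      Real.log (((l : ℝ) + 1) ^ 2 * xs (l + 1) / 2) + Real.log e := by
    intro l
    have h1 := hxs (l + 1) (by omega)
    have h2 : (0 : ℝ) < ((l : ℝ) + 1) ^ 2 * xs (l + 1) / 2 := by positivity
    rw [← Real.log_mul h2.ne' he.ne']
    congr 1
    ring
  unfold brk levsum
  simp only [hc, Finset.sum_add_distrib, Finset.sum_const, Finset.card_range, nsmul_eq_mul]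
  ring

theorem brk_bound (M : ℕ) (xs : ℕ → ℝ) (hxs : ∀ l, 1 ≤ l → l ≤ M + 1 → 0 < xs l) :
    ∃ C : ℝ, ∀ a : ℝ, 0 ≤ a → a ≤ M → |brk xs a| ≤ C := by
  obtain ⟨A, hA⟩ : ∃ A, A = ∑ q ∈ Finset.range (M + 1), |ao_c xs q| := ⟨_, rfl⟩
  refine ⟨2 * M + 1 + A, ?_⟩
  intro a ha haM
  have hfl : (⌊a⌋₊ : ℝ) ≤ a := Nat.floor_le ha
  have hfl2 : a < ⌊a⌋₊ + 1 := Nat.lt_floor_add_one a
  have hq : ⌊a⌋₊ ≤ M := by
    have : (⌊a⌋₊ : ℝ) ≤ M := by linarith
    exact_mod_cast this
  rw [ao_brk xs ⌊a⌋₊ hfl hfl2.le]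
  generalize ⌊a⌋₊ = q at *
  have h1 : |((q : ℝ) + 1 - a) * Real.log (q + 1 - a)| ≤ 1 := by
    have e0 : (0 : ℝ) < q + 1 - a := by linarith
    have e1 := Real.log_nonpos e0.le (by linarith)
    have e2 : Real.log (((q : ℝ) + 1 - a)⁻¹) ≤ ((q : ℝ) + 1 - a)⁻¹ - 1 :=
      Real.log_le_sub_one_of_pos (by positivity)
    rw [Real.log_inv] at e2
    have e3 : ((q : ℝ) + 1 - a) * (-Real.log (q + 1 - a)) ≤
        (q + 1 - a) * (((q : ℝ) + 1 - a)⁻¹ - 1) := mul_le_mul_of_nonneg_left e2 e0.le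
    have e4 : ((q : ℝ) + 1 - a) * (((q : ℝ) + 1 - a)⁻¹ - 1) = 1 - (q + 1 - a) := by
      field_simp
    have e5 : ((q : ℝ) + 1 - a) * Real.log (q + 1 - a) ≤ 0 :=
      mul_nonpos_of_nonneg_of_nonpos e0.le e1
    rw [abs_le]
    constructor <;> linarith
  have h2 : 0 ≤ vfun a ∧ vfun a ≤ a := by
    refine ⟨vfun_nonneg ha, ?_⟩
    have := ao_lip_le 0 a ha
    rw [vfun_zero] at this
    linarith [this.2]
  have h3 : |∑ l ∈ Finset.range q, ao_c xs l + (a - q) * ao_c xs q| ≤ A := by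
    have e1 : |∑ l ∈ Finset.range q, ao_c xs l| ≤ ∑ l ∈ Finset.range q, |ao_c xs l| :=
      Finset.abs_sum_le_sum_abs _ _
    have e2 : |(a - q) * ao_c xs q| ≤ |ao_c xs q| := by
      rw [abs_mul, abs_of_nonneg (by linarith)]
      exact mul_le_of_le_one_left (abs_nonneg _) (by linarith)
    have e3 : ∑ l ∈ Finset.range q, |ao_c xs l| + |ao_c xs q| ≤ A := by
      rw [hA, ← Finset.sum_range_succ]
      exact Finset.sum_le_sum_of_subset_of_nonneg
        (Finset.range_subset_range.2 (by omega)) (fun _ _ _ => abs_nonneg _)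
    exact (abs_add_le _ _).trans (by linarith)
  rw [abs_le] at h1 h3
  obtain ⟨h4, h5⟩ := h2
  rw [abs_le]
  constructor <;> linarith [h1.1, h1.2, h3.1, h3.2]

end S

end Pool.Agent.Lib.MP_8501c9_pr.Mid
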