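import Pool.Agent.Lib.MP_8501c9_pr.Mid.Sums
import Pool.Agent.Lib.MP_8501c9_pr.Mid.Aopt

/-!
# Task T: the exponent of the first moment at the critical size
-/

set_option autoImplicit false
open Set

namespace Pool.Agent.Lib.MP_8501c9_pr.Mid

open Pool.Agent.Lib.MP_8501c9_pr

theorem t_large (A B ε : ℝ) (hε : 0 < ε) : ∃ D₀ : ℕ, 3 ≤ D₀ ∧ ∀ d : ℕ, D₀ ≤ d →
    A * Real.log d ^ 2 ≤ ε * d ∧ B * Real.log d / d ≤ 1 / 4 := by
  have h1 : Filter.Tendsto (fun x : ℝ => A * Real.log x ^ 2 / x) Filter.atTop (nhds 0) := by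
    have h := (Real.isLittleO_pow_log_id_atTop (n := 2)).tendsto_div_nhds_zero.const_mul A
    simp only [mul_zero, id] at h
    refine h.congr fun x => ?_
    ring
  have h2 : Filter.Tendsto (fun x : ℝ => B * Real.log x / x) Filter.atTop (nhds 0) := by
    have h := (Real.isLittleO_pow_log_id_atTop (n := 1)).tendsto_div_nhds_zero.const_mul B
    simp only [mul_zero, id, pow_one] at h
    refine h.congr fun x => ?_
    ring
  have e1 := (h1.comp (tendsto_natCast_atTop_atTop (R := ℝ))).eventually (Iic_mem_nhds hε)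
  have e2 := (h2.comp (tendsto_natCast_atTop_atTop (R := ℝ))).eventually
    (Iic_mem_nhds (by norm_num : (0 : ℝ) < 1 / 4))
  obtain ⟨D, hD⟩ := Filter.eventually_atTop.1 (e1.and e2)
  refine ⟨max D 3, le_max_right _ _, fun d hd => ?_⟩
  obtain ⟨a1, a2⟩ := hD d ((le_max_left _ _).trans hd)
  have hd0 : (0 : ℝ) < d := by
    have : 0 < d := lt_of_lt_of_le (by norm_num) ((le_max_right D 3).trans hd)
    exact_mod_cast this
  refine ⟨?_, a2⟩
  have a3 : A * Real.log d ^ 2 / d ≤ ε := a1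
  rwa [div_le_iff₀ hd0] at a3

theorem Fex_asymp (c₀ C K ε : ℝ) (hc₀ : 0 < c₀) (hε : 0 < ε) (xs : ℕ → ℝ)
    (hxs : ∀ l, 1 ≤ l → 0 < xs l) :
    ∃ D₀ : ℕ, ∀ n d k : ℕ, D₀ ≤ d → c₀ * d ≤ Real.log n → Real.log n ≤ C * d →
      |(k : ℝ) - aopt (Real.log n / d) * d| ≤ K * Real.log d →
      |Fex xs n d k - ((k : ℝ) / 2 + 1) * (d * ell (Real.log n / d) + 2 * Real.log d -
        (2 * brk xs (aopt (Real.log n / d)) + 2 * vfun (aopt (Real.log n / d))) /
          aopt (Real.log n / d))| ≤ ε * d := by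
  obtain ⟨M, hM⟩ := exists_nat_ge (4 * C + 3)
  obtain ⟨C1, hC1⟩ := sum_ax_asymp M xs (fun l hl _ => hxs l hl)
  obtain ⟨C2, hC2⟩ := brk_sub_le M xs (fun l hl _ => hxs l hl)
  obtain ⟨C3, hC3⟩ := brk_bound M xs (fun l hl _ => hxs l hl)
  set K' : ℝ := max K 1 with hK'
  have hK1 : 1 ≤ K' := le_max_right _ _
  have hKK : K ≤ K' := le_max_left _ _
  set V : ℝ := vfun M with hV
  have hV0 : 0 ≤ V := vfun_nonneg (Nat.cast_nonneg M)
  set A : ℝ := 2 * |C1| + K' ^ 2 + |C2| * K' + K' / (2 * c₀) * (|C3| + V) +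
    (2 * |C3| + 2 * V) / (2 * c₀) + 2 with hA
  obtain ⟨D₀, hD3, hD₀⟩ := t_large A K' ε hε
  refine ⟨D₀, fun n d k hd h1 h2 h3 => ?_⟩
  obtain ⟨hL1, hL2⟩ := hD₀ d hd
  have hd3 : 3 ≤ d := hD3.trans hd
  have hd0 : (0 : ℝ) < d := by
    have : 0 < d := by omega
    exact_mod_cast this
  have hΛ1 : 1 ≤ Real.log d := by
    rw [Real.le_log_iff_exp_le hd0]
    have h3 : (3 : ℝ) ≤ d := by exact_mod_cast hd3
    linarith [Real.exp_one_lt_d9]
  set Λ := Real.log d with hΛ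
  set b := Real.log n / d with hb
  have hbc : c₀ ≤ b := by rw [hb, le_div_iff₀ hd0]; exact h1
  have hbC : b ≤ C := by rw [hb, div_le_iff₀ hd0]; exact h2
  have hb0 : 0 < b := hc₀.trans_le hbc
  obtain ⟨ha0, hell, -, ha1, ha2⟩ := aopt_spec hb0
  set a := aopt b with ha
  set α : ℝ := (k : ℝ) / d with hα
  have hk : (k : ℝ) = α * d := by rw [hα]; field_simp
  have hlogn : Real.log n = b * d := by rw [hb]; field_simp
  have hα0 : 0 ≤ α := by positivity
  have hac : 2 * c₀ ≤ a := by linarith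
  have haM : a ≤ M := by linarith
  set h : ℝ := K' * Λ / d with hh
  have hh0 : 0 < h := by positivity
  have hh4 : h ≤ 1 / 4 := hL2
  have hdiff : |(k : ℝ) - a * d| ≤ K' * Λ := h3.trans
    (mul_le_mul_of_nonneg_right hKK (by linarith))
  have hαa : |α - a| ≤ h := by
    rw [hh, le_div_iff₀ hd0]
    calc |α - a| * d = |(α - a) * d| := by rw [abs_mul, abs_of_pos hd0]
      _ = |(k : ℝ) - a * d| := by rw [sub_mul, ← hk]
      _ ≤ K' * Λ := hdiff
  have hαM : α ≤ M := by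
    have := (abs_le.1 hαa).2
    linarith
  have hkM : k ≤ M * d := by
    have : (k : ℝ) ≤ M * d := by rw [hk]; exact mul_le_mul_of_nonneg_right hαM hd0.le
    exact_mod_cast this
  -- the four estimates
  have q1 := hC1 d k (by omega) hkM
  have q2 := aopt_quad hb0 hα0
  have q3 := hC2 α a h hα0 ha0.le hαM haM hαa hh0 hh4
  have q4 := hC3 a ha0.le haM
  have q5 : |vfun a| ≤ V := by
    rw [abs_of_nonneg (vfun_nonneg ha0.le)]
    exact vfun_monotone haM
  rw [hell] at q2 ⊢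
  set S := ∑ t ∈ Finset.range k, ax xs d t with hS
  set J := ∫ u in (0 : ℝ)..α, vfun u with hJ
  set β := brk xs α with hβ
  set β' := brk xs a with hβ'
  set v := vfun a with hv
  have hlogh : Real.log (1 / h) ≤ Λ := by
    rw [hh, hΛ]
    apply Real.log_le_log (by positivity)
    rw [one_div, inv_div, div_le_iff₀ (by positivity)]
    exact le_mul_of_one_le_right hd0.le (one_le_mul_of_one_le_of_one_le hK1 hΛ1)
  have hlogh0 : 0 ≤ Real.log (1 / h) := by
    apply Real.log_nonneg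
    rw [one_div, one_le_inv₀ hh0]
    linarith
  have hΛ2 : Λ ≤ Λ ^ 2 := by
    rw [sq]
    exact le_mul_of_one_le_right (by linarith) hΛ1
  have hΛ21 : 1 ≤ Λ ^ 2 := one_le_pow₀ hΛ1
  -- remainder terms
  have r1 : |S - ((d : ℝ) ^ 2 * J / 2 + k * Λ - d * β)| ≤ 2 * |C1| * Λ ^ 2 := by
    refine q1.trans ?_
    calc C1 * (Λ + 1) ≤ |C1| * (Λ + 1) := mul_le_mul_of_nonneg_right (le_abs_self _) (by linarith)
      _ ≤ |C1| * (2 * Λ ^ 2) := mul_le_mul_of_nonneg_left (by linarith) (abs_nonneg _)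
      _ = 2 * |C1| * Λ ^ 2 := by ring
  have r2 : |(d : ℝ) ^ 2 / 2 * ((2 * b + J) - α * v)| ≤ K' ^ 2 * Λ ^ 2 := by
    rw [abs_mul, abs_of_pos (by positivity)]
    have e1 : (α - a) ^ 2 ≤ h ^ 2 := by
      rw [← sq_abs (α - a)]
      exact pow_le_pow_left₀ (abs_nonneg _) hαa 2
    calc (d : ℝ) ^ 2 / 2 * |(2 * b + J) - α * v| ≤ (d : ℝ) ^ 2 / 2 * h ^ 2 :=
          mul_le_mul_of_nonneg_left (q2.trans e1) (by positivity)
      _ = K' ^ 2 * Λ ^ 2 / 2 := by rw [hh]; field_simp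
      _ ≤ K' ^ 2 * Λ ^ 2 := by
        have : 0 ≤ K' ^ 2 * Λ ^ 2 := by positivity
        linarith
  have r3 : |(d : ℝ) * (β - β')| ≤ |C2| * K' * Λ ^ 2 := by
    rw [abs_mul, abs_of_pos hd0]
    calc (d : ℝ) * |β - β'| ≤ d * (|C2| * h * Λ) := by
          apply mul_le_mul_of_nonneg_left _ hd0.le
          refine q3.trans ?_
          calc C2 * h * Real.log (1 / h) ≤ |C2| * h * Real.log (1 / h) := by
                apply mul_le_mul_of_nonneg_right _ hlogh0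
                exact mul_le_mul_of_nonneg_right (le_abs_self _) hh0.le
            _ ≤ |C2| * h * Λ := mul_le_mul_of_nonneg_left hlogh (by positivity)
      _ = |C2| * K' * Λ ^ 2 := by rw [hh]; field_simp
  have hC3' : |β'| ≤ |C3| := q4.trans (le_abs_self _)
  have r4 : |((k : ℝ) - a * d) / a * (β' + v)| ≤ K' / (2 * c₀) * (|C3| + V) * Λ ^ 2 := by
    rw [abs_mul, abs_div, abs_of_pos ha0]
    have e1 : |β' + v| ≤ |C3| + V := (abs_add_le _ _).trans (add_le_add hC3' q5)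
    have e2 : |(k : ℝ) - a * d| / a ≤ K' * Λ / (2 * c₀) :=
      div_le_div₀ (by positivity) hdiff (by positivity) hac
    calc |(k : ℝ) - a * d| / a * |β' + v| ≤ K' * Λ / (2 * c₀) * (|C3| + V) :=
          mul_le_mul e2 e1 (abs_nonneg _) (by positivity)
      _ = K' / (2 * c₀) * (|C3| + V) * Λ := by ring
      _ ≤ K' / (2 * c₀) * (|C3| + V) * Λ ^ 2 :=
          mul_le_mul_of_nonneg_left hΛ2 (by positivity)
  have r5 : |(2 * β' + 2 * v) / a| ≤ (2 * |C3| + 2 * V) / (2 * c₀) * Λ ^ 2 := by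
    rw [abs_div, abs_of_pos ha0]
    have e1 : |2 * β' + 2 * v| ≤ 2 * |C3| + 2 * V := by
      refine (abs_add_le _ _).trans ?_
      rw [abs_mul, abs_mul, abs_two]
      linarith
    calc |2 * β' + 2 * v| / a ≤ (2 * |C3| + 2 * V) / (2 * c₀) :=
          div_le_div₀ (by positivity) e1 (by positivity) hac
      _ = (2 * |C3| + 2 * V) / (2 * c₀) * 1 := by ring
      _ ≤ (2 * |C3| + 2 * V) / (2 * c₀) * Λ ^ 2 :=
          mul_le_mul_of_nonneg_left hΛ21 (by positivity)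
  have r6 : |2 * Λ| ≤ 2 * Λ ^ 2 := by
    rw [abs_of_nonneg (by linarith)]
    linarith
  have key : Fex xs n d k - ((k : ℝ) / 2 + 1) * (d * v + 2 * Λ - (2 * β' + 2 * v) / a) =
      (S - ((d : ℝ) ^ 2 * J / 2 + k * Λ - d * β)) + (d : ℝ) ^ 2 / 2 * ((2 * b + J) - α * v) -
        d * (β - β') + ((k : ℝ) - a * d) / a * (β' + v) + (2 * β' + 2 * v) / a - 2 * Λ := by
    unfold Fex
    rw [← hS, hlogn, hk]
    field_simp
    ring
  rw [key]
  have hfin : |(S - ((d : ℝ) ^ 2 * J / 2 + k * Λ - d * β)) +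
      (d : ℝ) ^ 2 / 2 * ((2 * b + J) - α * v) - d * (β - β') +
        ((k : ℝ) - a * d) / a * (β' + v) + (2 * β' + 2 * v) / a - 2 * Λ| ≤ A * Λ ^ 2 := by
    have t1 := abs_le.1 r1
    have t2 := abs_le.1 r2
    have t3 := abs_le.1 r3
    have t4 := abs_le.1 r4
    have t5 := abs_le.1 r5
    have t6 := abs_le.1 r6
    have hAe : A * Λ ^ 2 = 2 * |C1| * Λ ^ 2 + K' ^ 2 * Λ ^ 2 + |C2| * K' * Λ ^ 2 +
        K' / (2 * c₀) * (|C3| + V) * Λ ^ 2 + (2 * |C3| + 2 * V) / (2 * c₀) * Λ ^ 2 +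
          2 * Λ ^ 2 := by
      rw [hA]
      ring
    rw [hAe, abs_le]
    constructor
    · linarith [t1.1, t2.1, t3.2, t4.1, t5.1, t6.2]
    · linarith [t1.2, t2.2, t3.1, t4.2, t5.2, t6.1]
  exact hfin.trans hL1

end Pool.Agent.Lib.MP_8501c9_pr.Mid
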