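import Pool.Agent.Lib.MP_8501c9_pr.Mid.Defs
import Pool.Agent.Lib.MP_8501c9_pr.Weight
import Pool.Agent.Lib.MP_8501c9_pr.Decomp

/-!
# The recursive functional bound for the spanning sets (Task C)
-/

set_option autoImplicit false
open Set

namespace Pool.Agent.Lib.MP_8501c9_pr.Mid

open Pool.Agent.Lib.MP_8501c9_pr

variable {n d : ℕ}

theorem cHull_le {Q P : BoxT n d} (hP : P.1 ≤ P.2) : (hull Q P).1 ≤ (hull Q P).2 := by
  change Q.1 ⊓ P.1 ≤ Q.2 ⊔ P.2
  exact (inf_le_right.trans hP).trans le_sup_right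

theorem cExt2_le {Q R : BoxT n d} {T : Finset (Vtx n d)} (h : Ext2 Q T R) (hQ : Q.1 ≤ Q.2) :
    R.1 ≤ R.2 ∧ phi Q ≤ phi R := by
  induction h with
  | nil => exact ⟨hQ, le_rfl⟩
  | @cons T B h x hx ih =>
    refine ⟨cHull_le (P := (x, x)) le_rfl, ?_⟩
    rw [hx]
    exact ih.2.trans (Nat.le_add_right _ _)

/-- first alternative: a single point extended by single points -/
def CAltA (W : Finset (Vtx n d)) (R : BoxT n d) : Prop :=
  ∃ (x : Vtx n d) (T : Finset (Vtx n d)), Ext2 (x, x) T R ∧ x ∉ T ∧ insert x T = W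

/-- second alternative: a side merger extended by single points -/
def CAltB (W : Finset (Vtx n d)) (R : BoxT n d) : Prop :=
  ∃ (Q P : BoxT n d) (W₁ W₂ T : Finset (Vtx n d)), Span W₁ Q ∧ Span W₂ P ∧ Side Q P ∧
    Ext2 (hull Q P) T R ∧ Disjoint W₁ W₂ ∧ Disjoint (W₁ ∪ W₂) T ∧ (W₁ ∪ W₂) ∪ T = W

theorem cAlt_step {W₁ W₂ : Finset (Vtx n d)} {R₁ R₂ : BoxT n d}
    (h₁ : Span W₁ R₁) (h₂ : Span W₂ R₂) (hd : Disjoint W₁ W₂) (hn : Near R₁ R₂)
    (hne₁ : hull R₁ R₂ ≠ R₁) (hne₂ : hull R₁ R₂ ≠ R₂) (hle : phi R₂ ≤ phi R₁)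
    (ih : CAltA W₁ R₁ ∨ CAltB W₁ R₁) :
    CAltA (W₁ ∪ W₂) (hull R₁ R₂) ∨ CAltB (W₁ ∪ W₂) (hull R₁ R₂) := by
  by_cases hc : phi R₂ = 0 ∧ phi (hull R₁ R₂) = phi R₁ + 2
  · obtain ⟨h0, h2⟩ := hc
    obtain ⟨x, y⟩ := R₂
    obtain rfl : x = y := eq_of_phi_zero h₂.le h0
    have hW₂ : W₂ = {x} := span_point h₂
    subst hW₂
    have hx : x ∉ W₁ := Finset.disjoint_singleton_right.mp hd
    rcases ih with ⟨z, T, h3, h4, h5⟩ | ⟨Q, P, V₁, V₂, T, h3, h4, h5, h6, h7, h8, h9⟩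
    · left
      refine ⟨z, insert x T, Ext2.cons h3 x h2, ?_, ?_⟩
      · rw [Finset.mem_insert, not_or]
        refine ⟨?_, h4⟩
        rintro rfl
        exact hx (h5 ▸ Finset.mem_insert_self _ _)
      · rw [← h5]
        ext w
        simp only [Finset.mem_union, Finset.mem_insert, Finset.mem_singleton]
        tauto
    · right
      have hxV : x ∉ V₁ ∪ V₂ := fun h => hx (by rw [← h9]; exact Finset.mem_union_left _ h)
      refine ⟨Q, P, V₁, V₂, insert x T, h3, h4, h5, Ext2.cons h6 x h2, h7, ?_, ?_⟩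
      · rw [Finset.disjoint_insert_right]
        exact ⟨hxV, h8⟩
      · rw [← h9]
        ext w
        simp only [Finset.mem_union, Finset.mem_insert, Finset.mem_singleton]
        tauto
  · right
    exact ⟨R₁, R₂, W₁, W₂, ∅, h₁, h₂, ⟨h₂.le, hn, hne₁, hne₂, hle, hc⟩, Ext2.nil, hd,
      Finset.disjoint_empty_right _, Finset.union_empty _⟩

theorem cAlt_of_span {W : Finset (Vtx n d)} {R : BoxT n d} (h : Span W R) :
    CAltA W R ∨ CAltB W R := by
  induction h with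
  | single x =>
    left
    exact ⟨x, ∅, Ext2.nil, Finset.notMem_empty x, by simp⟩
  | @merge W₁ W₂ R₁ R₂ h₁ h₂ hd hn hne₁ hne₂ ih₁ ih₂ =>
    rcases le_total (phi R₂) (phi R₁) with hle | hle
    · exact cAlt_step h₁ h₂ hd hn hne₁ hne₂ hle ih₁
    · rw [hull_comm', Finset.union_comm]
      rw [hull_comm'] at hne₁ hne₂
      exact cAlt_step h₂ h₁ hd.symm (near_comm' hn) hne₂ hne₁ hle ih₂

open Classical in
theorem wt_func_le {p : ℝ} (hp : 0 ≤ p) {g : BoxT n d → ℝ} (hg : ∀ R, 0 ≤ g R) :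
    ∑ R : BoxT n d, wt p R * g R ≤ p * ∑ x : Vtx n d, Fz p g ∅ (x, x) +
      ∑ Q : BoxT n d with Q.1 ≤ Q.2, wt p Q *
        ∑ P : BoxT n d with Side Q P, wt p P * Fz p g ∅ (hull Q P) := by
  set S : Finset ((_ : BoxT n d) × Finset (Vtx n d)) :=
    (Finset.univ : Finset (BoxT n d)).sigma (fun R => Finset.univ.filter (fun W => Span W R))
    with hS
  have h0 : ∑ R : BoxT n d, wt p R * g R = ∑ t ∈ S, p ^ t.2.card * g t.1 := by
    rw [hS, Finset.sum_sigma]
    refine Finset.sum_congr rfl fun R _ => ?_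
    unfold wt
    rw [Finset.sum_mul]
  rw [h0, ← Finset.sum_filter_add_sum_filter_not S (fun t => CAltA t.2 t.1)]
  apply add_le_add
  · have hex : ∀ t : (_ : BoxT n d) × Finset (Vtx n d), CAltA t.2 t.1 →
        ∃ u : (_ : Vtx n d) × ((_ : Finset (Vtx n d)) × BoxT n d),
          Ext2 (u.1, u.1) u.2.1 u.2.2 ∧ u.1 ∉ u.2.1 ∧ insert u.1 u.2.1 = t.2 ∧ u.2.2 = t.1 := by
      rintro ⟨R, W⟩ ⟨x, T, h1, h2, h3⟩
      exact ⟨⟨x, ⟨T, R⟩⟩, h1, h2, h3, rfl⟩
    rcases (Finset.univ : Finset (Vtx n d)).eq_empty_or_nonempty with hemp | ⟨x₀, _⟩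
    · -- no vertices
      have : S.filter (fun t => CAltA t.2 t.1) = ∅ := by
        rw [Finset.filter_eq_empty_iff]
        rintro t _ ⟨x, _⟩
        exact absurd (Finset.mem_univ x) (by rw [hemp]; exact Finset.notMem_empty x)
      rw [this, Finset.sum_empty, hemp, Finset.sum_empty, mul_zero]
    have hinh : Nonempty ((_ : Vtx n d) × ((_ : Finset (Vtx n d)) × BoxT n d)) :=
      ⟨⟨x₀, ⟨∅, (x₀, x₀)⟩⟩⟩
    choose! φ hφ using hex
    set T : Finset ((_ : Vtx n d) × ((_ : Finset (Vtx n d)) × BoxT n d)) :=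
      (Finset.univ : Finset (Vtx n d)).sigma (fun x =>
        (Finset.univ.filter (fun T : Finset (Vtx n d) => Disjoint T ∅)).sigma (fun T =>
          Finset.univ.filter (fun R : BoxT n d => Ext2 (x, x) T R))) with hT
    have h1 : p * ∑ x : Vtx n d, Fz p g ∅ (x, x) =
        ∑ u ∈ T, p * (p ^ u.2.1.card * g u.2.2) := by
      rw [hT, Finset.sum_sigma, Finset.mul_sum]
      refine Finset.sum_congr rfl fun x _ => ?_
      rw [Finset.sum_sigma]
      unfold Fz
      rw [Finset.mul_sum]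
      refine Finset.sum_congr rfl fun T _ => ?_
      rw [Finset.mul_sum]
    rw [h1]
    apply sum_le_of_inj _ T _ (fun u => p * (p ^ u.2.1.card * g u.2.2)) φ
    · intro t ht
      obtain ⟨a1, a2, a3, a4⟩ := hφ t (Finset.mem_filter.mp ht).2
      rw [hT, Finset.mem_sigma, Finset.mem_sigma, Finset.mem_filter, Finset.mem_filter]
      exact ⟨Finset.mem_univ _, ⟨Finset.mem_univ _, Finset.disjoint_empty_right _⟩,
        Finset.mem_univ _, a1⟩
    · intro t ht t' ht' he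
      obtain ⟨a1, a2, a3, a4⟩ := hφ t (Finset.mem_filter.mp (Finset.mem_coe.mp ht)).2
      obtain ⟨b1, b2, b3, b4⟩ := hφ t' (Finset.mem_filter.mp (Finset.mem_coe.mp ht')).2
      have e1 : t.1 = t'.1 := by rw [← a4, ← b4, he]
      have e2 : t.2 = t'.2 := by rw [← a3, ← b3, he]
      exact Sigma.ext e1 (heq_of_eq e2)
    · intro t ht
      obtain ⟨a1, a2, a3, a4⟩ := hφ t (Finset.mem_filter.mp ht).2
      rw [← a3, ← a4, Finset.card_insert_of_notMem a2, pow_succ]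
      ring
    · intro u _
      have := hg u.2.2
      positivity
  · have hB : ∀ t ∈ S.filter (fun t => ¬ CAltA t.2 t.1), CAltB t.2 t.1 := by
      intro t ht
      rw [Finset.mem_filter] at ht
      have h1 : Span t.2 t.1 := by
        have := (Finset.mem_sigma.1 ht.1).2
        exact (Finset.mem_filter.1 this).2
      exact (cAlt_of_span h1).resolve_left ht.2
    have hex : ∀ t : (_ : BoxT n d) × Finset (Vtx n d), CAltB t.2 t.1 →
        ∃ u : (_ : BoxT n d) × ((_ : Finset (Vtx n d)) × ((_ : BoxT n d) ×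
          ((_ : Finset (Vtx n d)) × ((_ : Finset (Vtx n d)) × BoxT n d)))),
          Span u.2.1 u.1 ∧ Span u.2.2.2.1 u.2.2.1 ∧ Side u.1 u.2.2.1 ∧
          Ext2 (hull u.1 u.2.2.1) u.2.2.2.2.1 u.2.2.2.2.2 ∧ Disjoint u.2.1 u.2.2.2.1 ∧
          Disjoint (u.2.1 ∪ u.2.2.2.1) u.2.2.2.2.1 ∧
          (u.2.1 ∪ u.2.2.2.1) ∪ u.2.2.2.2.1 = t.2 ∧ u.2.2.2.2.2 = t.1 := by
      rintro ⟨R, W⟩ ⟨Q, P, W₁, W₂, T, h1, h2, h3, h4, h5, h6, h7⟩
      exact ⟨⟨Q, ⟨W₁, ⟨P, ⟨W₂, ⟨T, R⟩⟩⟩⟩⟩, h1, h2, h3, h4, h5, h6, h7, rfl⟩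
    rcases (S.filter (fun t => ¬ CAltA t.2 t.1)).eq_empty_or_nonempty with hemp | ⟨t₀, ht₀⟩
    · rw [hemp, Finset.sum_empty]
      refine Finset.sum_nonneg fun Q _ => mul_nonneg (wt_nonneg hp Q)
        (Finset.sum_nonneg fun P _ => mul_nonneg (wt_nonneg hp P) ?_)
      unfold Fz
      refine Finset.sum_nonneg fun T _ => Finset.sum_nonneg fun R _ => ?_
      have := hg R
      positivity
    have hinh : Nonempty ((_ : BoxT n d) × ((_ : Finset (Vtx n d)) × ((_ : BoxT n d) ×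
          ((_ : Finset (Vtx n d)) × ((_ : Finset (Vtx n d)) × BoxT n d))))) := by
      obtain ⟨u, _⟩ := hex t₀ (hB t₀ ht₀)
      exact ⟨u⟩
    choose! φ hφ using hex
    set T : Finset ((_ : BoxT n d) × ((_ : Finset (Vtx n d)) × ((_ : BoxT n d) ×
          ((_ : Finset (Vtx n d)) × ((_ : Finset (Vtx n d)) × BoxT n d))))) :=
      (Finset.univ.filter (fun Q : BoxT n d => Q.1 ≤ Q.2)).sigma (fun Q =>
        (Finset.univ.filter (fun W => Span W Q)).sigma (fun _ =>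
          (Finset.univ.filter (fun P : BoxT n d => Side Q P)).sigma (fun P =>
            (Finset.univ.filter (fun W => Span W P)).sigma (fun _ =>
              (Finset.univ.filter (fun T : Finset (Vtx n d) => Disjoint T ∅)).sigma (fun T =>
                Finset.univ.filter (fun R : BoxT n d => Ext2 (hull Q P) T R)))))) with hT
    have h1 : ∑ Q : BoxT n d with Q.1 ≤ Q.2, wt p Q *
        ∑ P : BoxT n d with Side Q P, wt p P * Fz p g ∅ (hull Q P) =
        ∑ u ∈ T, p ^ u.2.1.card * (p ^ u.2.2.2.1.card * (p ^ u.2.2.2.2.1.card *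
          g u.2.2.2.2.2)) := by
      rw [hT, Finset.sum_sigma]
      refine Finset.sum_congr rfl fun Q _ => ?_
      rw [Finset.sum_sigma]
      unfold wt
      rw [Finset.sum_mul]
      refine Finset.sum_congr rfl fun W _ => ?_
      rw [Finset.sum_sigma, Finset.mul_sum]
      refine Finset.sum_congr rfl fun P _ => ?_
      rw [Finset.sum_sigma, Finset.sum_mul, Finset.mul_sum]
      refine Finset.sum_congr rfl fun W' _ => ?_
      rw [Finset.sum_sigma]
      unfold Fz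
      rw [Finset.mul_sum, Finset.mul_sum]
      refine Finset.sum_congr rfl fun T _ => ?_
      rw [Finset.mul_sum, Finset.mul_sum]
    rw [h1]
    apply sum_le_of_inj _ T _
      (fun u => p ^ u.2.1.card * (p ^ u.2.2.2.1.card * (p ^ u.2.2.2.2.1.card *
          g u.2.2.2.2.2))) φ
    · intro t ht
      obtain ⟨a1, a2, a3, a4, a5, a6, a7, a8⟩ := hφ t (hB t ht)
      rw [hT]
      simp only [Finset.mem_sigma, Finset.mem_filter, Finset.mem_univ, true_and]
      exact ⟨a1.le, a1, a3, a2, Finset.disjoint_empty_right _, a4⟩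
    · intro t ht t' ht' he
      obtain ⟨a1, a2, a3, a4, a5, a6, a7, a8⟩ := hφ t (hB t (Finset.mem_coe.mp ht))
      obtain ⟨b1, b2, b3, b4, b5, b6, b7, b8⟩ := hφ t' (hB t' (Finset.mem_coe.mp ht'))
      have e1 : t.1 = t'.1 := by rw [← a8, ← b8, he]
      have e2 : t.2 = t'.2 := by rw [← a7, ← b7, he]
      exact Sigma.ext e1 (heq_of_eq e2)
    · intro t ht
      obtain ⟨a1, a2, a3, a4, a5, a6, a7, a8⟩ := hφ t (hB t ht)
      rw [← a7, ← a8, Finset.card_union_of_disjoint a6, Finset.card_union_of_disjoint a5,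
        pow_add, pow_add]
      ring
    · intro u _
      have := hg u.2.2.2.2.2
      positivity

theorem cFz_nonneg {p : ℝ} (hp : 0 ≤ p) {g : BoxT n d → ℝ} (hg : ∀ R, 0 ≤ g R)
    (Z : Finset (Vtx n d)) (Q : BoxT n d) : 0 ≤ Fz p g Z Q := by
  unfold Fz
  refine Finset.sum_nonneg fun T _ => Finset.sum_nonneg fun R _ => ?_
  have := hg R
  positivity

theorem cFz_mono {p : ℝ} (hp : 0 ≤ p) {g g' : BoxT n d → ℝ} (Z : Finset (Vtx n d))
    {Q : BoxT n d} (hQ : Q.1 ≤ Q.2) (h : ∀ R : BoxT n d, R.1 ≤ R.2 → phi Q ≤ phi R → g R ≤ g' R) :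
    Fz p g Z Q ≤ Fz p g' Z Q := by
  classical
  unfold Fz
  refine Finset.sum_le_sum fun T _ => Finset.sum_le_sum fun R hR => ?_
  have h1 := cExt2_le (Finset.mem_filter.1 hR).2 hQ
  exact mul_le_mul_of_nonneg_left (h R h1.1 h1.2) (by positivity)

theorem cFz_congr {p : ℝ} (hp : 0 ≤ p) {g g' : BoxT n d → ℝ} (Z : Finset (Vtx n d))
    {Q : BoxT n d} (hQ : Q.1 ≤ Q.2) (h : ∀ R : BoxT n d, R.1 ≤ R.2 → phi Q ≤ phi R → g R = g' R) :
    Fz p g Z Q = Fz p g' Z Q :=
  le_antisymm (cFz_mono hp Z hQ fun R h1 h2 => (h R h1 h2).le)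
    (cFz_mono hp Z hQ fun R h1 h2 => (h R h1 h2).ge)

theorem cSide_phi {Q P : BoxT n d} (hQ : Q.1 ≤ Q.2) (h : Side Q P) : phi Q < phi (hull Q P) := by
  obtain ⟨h1, h2, h3, h4, h5, h6⟩ := h
  exact PairOK.phi_lt (R := hull Q P) (P := (Q, P)) ⟨hQ, h1, h2, rfl, Ne.symm h3, Ne.symm h4⟩

/-- iterates of the functional -/
noncomputable def cIt (p : ℝ) (k : ℕ) : ℕ → BoxT n d → ℝ
  | 0 => fun _ => 0
  | j + 1 => Fz p (fun R => if phi R < k then TT p k R + XG p k (cIt p k j) R else 0) ∅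

theorem cTT_nonneg {p : ℝ} (hp : 0 ≤ p) (k : ℕ) (Q : BoxT n d) : 0 ≤ TT p k Q := by
  classical
  unfold TT
  exact Finset.sum_nonneg fun P _ => wt_nonneg hp P

theorem cXG_nonneg {p : ℝ} (hp : 0 ≤ p) (k : ℕ) {G : BoxT n d → ℝ} (hG : ∀ R, 0 ≤ G R)
    (Q : BoxT n d) : 0 ≤ XG p k G Q := by
  classical
  unfold XG
  exact Finset.sum_nonneg fun P _ => mul_nonneg (wt_nonneg hp P) (hG _)

theorem cIt_nonneg {p : ℝ} (hp : 0 ≤ p) (k j : ℕ) (Q : BoxT n d) : 0 ≤ cIt p k j Q := by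
  induction j generalizing Q with
  | zero => exact le_rfl
  | succ j ih =>
    unfold cIt
    refine cFz_nonneg hp (fun R => ?_) _ _
    split_ifs
    · exact add_nonneg (cTT_nonneg hp k R) (cXG_nonneg hp k (fun R => ih R) R)
    · exact le_rfl

theorem cXG_mono {p : ℝ} (hp : 0 ≤ p) (k : ℕ) {G G' : BoxT n d → ℝ} {Q : BoxT n d}
    (hQ : Q.1 ≤ Q.2) (h : ∀ R : BoxT n d, R.1 ≤ R.2 → phi Q < phi R → phi R < k → G R ≤ G' R) :
    XG p k G Q ≤ XG p k G' Q := by
  classical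
  unfold XG
  refine Finset.sum_le_sum fun P hP => ?_
  obtain ⟨h1, h2⟩ := (Finset.mem_filter.1 hP).2
  exact mul_le_mul_of_nonneg_left (h _ (cHull_le h1.1) (cSide_phi hQ h1) h2) (wt_nonneg hp P)

theorem cIt_le {p : ℝ} (hp : 0 ≤ p) (k : ℕ) (G : BoxT n d → ℝ) (hG0 : ∀ R, 0 ≤ G R)
    (hG : ∀ Q : BoxT n d, Q.1 ≤ Q.2 → phi Q < k →
      Fz p (fun R => if phi R < k then TT p k R + XG p k G R else 0) ∅ Q ≤ G Q) (j : ℕ)
    (Q : BoxT n d) (hQ : Q.1 ≤ Q.2) (hQk : phi Q < k) : cIt p k j Q ≤ G Q := by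
  induction j generalizing Q with
  | zero => exact hG0 Q
  | succ j ih =>
    refine le_trans ?_ (hG Q hQ hQk)
    unfold cIt
    refine cFz_mono hp _ hQ fun R hR _ => ?_
    split_ifs
    · have := cXG_mono hp k hR (fun R' h1 _ h3 => ih R' h1 h3)
      linarith
    · exact le_rfl

theorem cIt_stable {p : ℝ} (hp : 0 ≤ p) (k j : ℕ)
    (Q : BoxT n d) (hQ : Q.1 ≤ Q.2) (hQk : k ≤ phi Q + j) : cIt p k (j + 1) Q = cIt p k j Q := by
  induction j generalizing Q with
  | zero =>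
    have h1 : Fz p (fun R => if phi R < k then TT p k R + XG p k (cIt p k 0) R else 0) ∅ Q =
        Fz p (fun _ : BoxT n d => (0 : ℝ)) ∅ Q := by
      refine cFz_congr hp _ hQ fun R hR h2 => ?_
      rw [if_neg (by omega)]
    change Fz p (fun R => if phi R < k then TT p k R + XG p k (cIt p k 0) R else 0) ∅ Q = 0
    rw [h1]
    unfold Fz
    simp
  | succ j ih =>
    change Fz p (fun R => if phi R < k then TT p k R + XG p k (cIt p k (j + 1)) R else 0) ∅ Q =
      Fz p (fun R => if phi R < k then TT p k R + XG p k (cIt p k j) R else 0) ∅ Q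
    refine cFz_congr hp _ hQ fun R hR h2 => ?_
    split_ifs
    · congr 1
      exact le_antisymm (cXG_mono hp k hR fun R' h3 h4 _ => (ih R' h3 (by omega)).le)
        (cXG_mono hp k hR fun R' h3 h4 _ => (ih R' h3 (by omega)).ge)
    · rfl

theorem cWt_zero {p : ℝ} {R : BoxT n d} (h : ¬ R.1 ≤ R.2) : wt p R = 0 := by
  classical
  unfold wt
  rw [Finset.sum_eq_zero]
  intro W hW
  exact absurd (Finset.mem_filter.1 hW).2.le h

open Classical in
theorem wt_func_bound {p : ℝ} (hp : 0 ≤ p) (k : ℕ) (G : BoxT n d → ℝ) (hG0 : ∀ R, 0 ≤ G R)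
    (hG : ∀ Q : BoxT n d, Q.1 ≤ Q.2 → phi Q < k →
      Fz p (fun R => if phi R < k then TT p k R + XG p k G R else 0) ∅ Q ≤ G Q) :
    ∑ Q : BoxT n d with (Q.1 ≤ Q.2 ∧ phi Q < k), wt p Q * TT p k Q ≤
      p * ∑ x : Vtx n d, G (x, x) := by
  rcases Nat.eq_zero_or_pos k with hk | hk
  · subst hk
    have h1 : (Finset.univ.filter (fun Q : BoxT n d => Q.1 ≤ Q.2 ∧ phi Q < 0)) = ∅ := by
      rw [Finset.filter_eq_empty_iff]
      intro Q _ h
      omega
    rw [h1, Finset.sum_empty]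
    exact mul_nonneg hp (Finset.sum_nonneg fun x _ => hG0 _)
  set H : BoxT n d → ℝ := cIt p k k with hH
  have hH0 : ∀ R, 0 ≤ H R := fun R => cIt_nonneg hp k k R
  set g : BoxT n d → ℝ := fun R => if phi R < k then TT p k R + XG p k H R else 0 with hg
  have hg0 : ∀ R, 0 ≤ g R := by
    intro R
    simp only [hg]
    split_ifs
    · exact add_nonneg (cTT_nonneg hp k R) (cXG_nonneg hp k hH0 R)
    · exact le_rfl
  have hstab : ∀ Q : BoxT n d, Q.1 ≤ Q.2 → Fz p g ∅ Q = H Q := fun Q hQ =>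
    cIt_stable hp k k Q hQ (by omega)
  have hmain := wt_func_le hp hg0
  -- the left side
  have hL : ∑ R : BoxT n d, wt p R * g R =
      ∑ R : BoxT n d, wt p R * (if phi R < k then TT p k R else 0) +
      ∑ R : BoxT n d, wt p R * (if phi R < k then XG p k H R else 0) := by
    rw [← Finset.sum_add_distrib]
    refine Finset.sum_congr rfl fun R _ => ?_
    simp only [hg]
    split_ifs <;> ring
  have hR1 : ∑ x : Vtx n d, Fz p g ∅ (x, x) ≤ ∑ x : Vtx n d, G (x, x) := by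
    refine Finset.sum_le_sum fun x _ => ?_
    have hphi : phi ((x, x) : BoxT n d) < k := by
      simpa [phi] using hk
    rw [hstab (x, x) le_rfl]
    exact cIt_le hp k G hG0 hG k (x, x) le_rfl hphi
  have hR2 : ∑ Q : BoxT n d with Q.1 ≤ Q.2, wt p Q *
        ∑ P : BoxT n d with Side Q P, wt p P * Fz p g ∅ (hull Q P) ≤
      ∑ R : BoxT n d, wt p R * (if phi R < k then XG p k H R else 0) := by
    have e1 : ∑ Q : BoxT n d with Q.1 ≤ Q.2, wt p Q *
        ∑ P : BoxT n d with Side Q P, wt p P * Fz p g ∅ (hull Q P) =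
        ∑ Q : BoxT n d with Q.1 ≤ Q.2, wt p Q * (if phi Q < k then XG p k H Q else 0) := by
      refine Finset.sum_congr rfl fun Q hQ => ?_
      have hQ1 : Q.1 ≤ Q.2 := (Finset.mem_filter.1 hQ).2
      congr 1
      have hz : ∀ P : BoxT n d, Side Q P → ¬ phi (hull Q P) < k → Fz p g ∅ (hull Q P) = 0 := by
        intro P hP hk2
        rw [cFz_congr hp ∅ (cHull_le hP.1) (g' := fun _ => 0)]
        · unfold Fz
          simp
        · intro R _ h2
          simp only [hg]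
          rw [if_neg (by omega)]
      have e2 : ∑ P : BoxT n d with Side Q P, wt p P * Fz p g ∅ (hull Q P) = XG p k H Q := by
        unfold XG
        rw [← Finset.sum_filter_add_sum_filter_not _ (fun P => phi (hull Q P) < k),
          Finset.filter_filter, Finset.filter_filter]
        have e3 : ∑ P : BoxT n d with (Side Q P ∧ ¬ phi (hull Q P) < k),
            wt p P * Fz p g ∅ (hull Q P) = 0 := by
          refine Finset.sum_eq_zero fun P hP => ?_
          obtain ⟨h1, h2⟩ := (Finset.mem_filter.1 hP).2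
          rw [hz P h1 h2, mul_zero]
        rw [e3, add_zero]
        refine Finset.sum_congr rfl fun P hP => ?_
        obtain ⟨h1, h2⟩ := (Finset.mem_filter.1 hP).2
        rw [hstab _ (cHull_le h1.1)]
      rw [e2]
      split_ifs with hlt
      · rfl
      · unfold XG
        refine Finset.sum_eq_zero fun P hP => ?_
        obtain ⟨h1, h2⟩ := (Finset.mem_filter.1 hP).2
        have := cSide_phi hQ1 h1
        omega
    rw [e1]
    refine Finset.sum_le_sum_of_subset_of_nonneg (Finset.filter_subset _ _) fun Q _ _ => ?_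
    refine mul_nonneg (wt_nonneg hp Q) ?_
    split_ifs
    · exact cXG_nonneg hp k hH0 Q
    · exact le_rfl
  have hL2 : ∑ Q : BoxT n d with (Q.1 ≤ Q.2 ∧ phi Q < k), wt p Q * TT p k Q ≤
      ∑ R : BoxT n d, wt p R * (if phi R < k then TT p k R else 0) := by
    have e1 : ∑ Q : BoxT n d with (Q.1 ≤ Q.2 ∧ phi Q < k), wt p Q * TT p k Q =
        ∑ Q : BoxT n d with (Q.1 ≤ Q.2 ∧ phi Q < k),
          wt p Q * (if phi Q < k then TT p k Q else 0) := by
      refine Finset.sum_congr rfl fun Q hQ => ?_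
      rw [if_pos (Finset.mem_filter.1 hQ).2.2]
    rw [e1]
    refine Finset.sum_le_sum_of_subset_of_nonneg (Finset.filter_subset _ _) fun Q _ _ => ?_
    refine mul_nonneg (wt_nonneg hp Q) ?_
    split_ifs
    · exact cTT_nonneg hp k Q
    · exact le_rfl
  have := mul_le_mul_of_nonneg_left hR1 hp
  rw [hL] at hmain
  linarith

open Classical in
theorem percProb_le_TT (hd : 1 ≤ d) (p : ℝ) (hp0 : 0 ≤ p) (hp1 : p ≤ 1) (k : ℕ) (hk : 1 ≤ k)
    (hkn : k ≤ d * (n - 1)) :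
    percProb n d 2 p ≤ 2 * ∑ Q : BoxT n d with (Q.1 ≤ Q.2 ∧ phi Q < k), wt p Q * TT p k Q := by
  refine (percProb_le_sum hd p hp0 hp1 k hk hkn).trans ?_
  set I : Finset (BoxT n d × BoxT n d) := Finset.univ.filter (fun P => P.1.1 ≤ P.1.2 ∧
    P.2.1 ≤ P.2.2 ∧ Near P.1 P.2 ∧ phi P.1 < k ∧ phi P.2 < k ∧ k ≤ phi (hull P.1 P.2)) with hI
  set J : Finset (BoxT n d × BoxT n d) := Finset.univ.filter (fun P => (P.1.1 ≤ P.1.2 ∧
    phi P.1 < k) ∧ Cross k P.1 P.2) with hJ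
  have hJs : ∑ Q : BoxT n d with (Q.1 ≤ Q.2 ∧ phi Q < k), wt p Q * TT p k Q =
      ∑ P ∈ J, wt p P.1 * wt p P.2 := by
    have hJ2 : J = (Finset.univ ×ˢ Finset.univ).filter (fun P : BoxT n d × BoxT n d =>
        (P.1.1 ≤ P.1.2 ∧ phi P.1 < k) ∧ Cross k P.1 P.2) := by
      rw [hJ, Finset.univ_product_univ]
    rw [hJ2, Finset.sum_filter, Finset.sum_filter, Finset.sum_product]
    refine Finset.sum_congr rfl fun Q _ => ?_
    by_cases hQ : Q.1 ≤ Q.2 ∧ phi Q < k
    · rw [if_pos hQ]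
      unfold TT
      rw [Finset.sum_filter, Finset.mul_sum]
      refine Finset.sum_congr rfl fun P _ => ?_
      by_cases hP : Cross k Q P
      · rw [if_pos hP, if_pos ⟨hQ, hP⟩]
      · rw [if_neg hP, if_neg (fun h => hP h.2), mul_zero]
    · rw [if_neg hQ, Finset.sum_eq_zero]
      intro P _
      rw [if_neg (fun h => hQ h.1)]
  rw [hJs, ← Finset.sum_filter_add_sum_filter_not I (fun P => phi P.2 ≤ phi P.1), two_mul]
  have hnn : ∀ P : BoxT n d × BoxT n d, 0 ≤ wt p P.1 * wt p P.2 := fun P =>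
    mul_nonneg (wt_nonneg hp0 _) (wt_nonneg hp0 _)
  apply add_le_add
  · refine Finset.sum_le_sum_of_subset_of_nonneg ?_ fun P _ _ => hnn P
    intro P hP
    simp only [hI, hJ, Finset.mem_filter, Finset.mem_univ, true_and] at hP ⊢
    obtain ⟨⟨h1, h2, h3, h4, h5, h6⟩, h7⟩ := hP
    exact ⟨⟨h1, h4⟩, h2, h3, h7, h6⟩
  · have h1 : ∑ P ∈ I with ¬ phi P.2 ≤ phi P.1, wt p P.1 * wt p P.2 =
        ∑ P ∈ (I.filter (fun P => ¬ phi P.2 ≤ phi P.1)).image Prod.swap,
          wt p P.1 * wt p P.2 := by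
      rw [Finset.sum_image (fun a _ b _ h => Prod.swap_injective h)]
      refine Finset.sum_congr rfl fun P _ => ?_
      simp only [Prod.fst_swap, Prod.snd_swap]
      ring
    rw [h1]
    refine Finset.sum_le_sum_of_subset_of_nonneg ?_ fun P _ _ => hnn P
    intro P hP
    simp only [hI, hJ, Finset.mem_image, Finset.mem_filter, Finset.mem_univ, true_and] at hP ⊢
    obtain ⟨Q, ⟨⟨h1, h2, h3, h4, h5, h6⟩, h7⟩, rfl⟩ := hP
    refine ⟨⟨h2, h5⟩, h1, near_symm h3, ?_, ?_⟩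
    · simp only [Prod.fst_swap, Prod.snd_swap]
      omega
    · rw [hull_symm]
      exact h6

end Pool.Agent.Lib.MP_8501c9_pr.Mid
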