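import Pool.Agent.Lib.MP_8501c9_pr.Mid.Defs
import Pool.Agent.Lib.MP_8501c9_pr.Basic
import Pool.Agent.Lib.MP_8501c9_pr.Volume
import Pool.Agent.Lib.MP_8501c9_pr.Weight
import Pool.Agent.Lib.MP_8501c9_pr.Label
import Pool.Agent.Lib.MP_8501c9_pr.Mid.Ext2
import Pool.Agent.Lib.MP_8501c9_pr.Mid.Counts
import Pool.Agent.Lib.MP_8501c9_pr.Mid.Level

/-!
# Task G: side boxes and the crossing are negligible against the potential
-/

set_option autoImplicit false
open Set

namespace Pool.Agent.Lib.MP_8501c9_pr.Mid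

open Pool.Agent.Lib.MP_8501c9_pr

variable {n d : ℕ}

/-! ### counting the partners -/

open Classical in
/-- partners of `Q` of size `h` increasing the size by `c` -/
noncomputable def gCl (Q : BoxT n d) (h c : ℕ) : Finset (BoxT n d) :=
  Finset.univ.filter (fun P => P.1 ≤ P.2 ∧ Near Q P ∧ hull Q P ≠ Q ∧ hull Q P ≠ P ∧ phi P = h ∧
    phi (hull Q P) = phi Q + c)

open Classical in
/-- boxes containing `Q` with size larger by `c` -/
noncomputable def gSup (Q : BoxT n d) (c : ℕ) : Finset (BoxT n d) :=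
  Finset.univ.filter (fun R => R.1 ≤ Q.1 ∧ Q.2 ≤ R.2 ∧ phi R = phi Q + c)

theorem g_card_sup {Q : BoxT n d} (hQ : Q.1 ≤ Q.2) (c : ℕ) : (gSup Q c).card ≤ (2 * d) ^ c := by
  classical
  have h1 : (gSup Q c : Set (BoxT n d)).ncard ≤ {x : Fin d ⊕ Fin d → ℕ | ∑ i, x i = c}.ncard := by
    refine Set.ncard_le_ncard_of_injOn
      (fun R => Sum.elim (fun i => (Q.1 i : ℕ) - R.1 i) (fun i => (R.2 i : ℕ) - Q.2 i)) ?_ ?_
      (shapes_finite _ _)
    · intro R hR
      rw [Finset.mem_coe, gSup, Finset.mem_filter] at hR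
      obtain ⟨-, h1, h2, h3⟩ := hR
      change ∑ i, _ = c
      rw [Fintype.sum_sum_type]
      simp only [Sum.elim_inl, Sum.elim_inr]
      have h4 : phi Q + (∑ i, ((Q.1 i : ℕ) - R.1 i) + ∑ i, ((R.2 i : ℕ) - Q.2 i)) = phi R := by
        unfold phi
        rw [← Finset.sum_add_distrib, ← Finset.sum_add_distrib]
        refine Finset.sum_congr rfl fun i _ => ?_
        have e1 : (Q.1 i : ℕ) ≤ Q.2 i := Fin.le_def.1 (hQ i)
        have e2 : (R.1 i : ℕ) ≤ Q.1 i := Fin.le_def.1 (h1 i)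
        have e3 : (Q.2 i : ℕ) ≤ R.2 i := Fin.le_def.1 (h2 i)
        omega
      omega
    · intro S hS S' hS' h
      rw [Finset.mem_coe, gSup, Finset.mem_filter] at hS hS'
      obtain ⟨-, h1, h2, h3⟩ := hS
      obtain ⟨-, h1', h2', h3'⟩ := hS'
      have e1 : ∀ i, (Q.1 i : ℕ) - S.1 i = (Q.1 i : ℕ) - S'.1 i := fun i => congrFun h (Sum.inl i)
      have e2 : ∀ i, (S.2 i : ℕ) - Q.2 i = (S'.2 i : ℕ) - Q.2 i := fun i => congrFun h (Sum.inr i)
      refine Prod.ext (funext fun i => Fin.ext ?_) (funext fun i => Fin.ext ?_)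
      · have := e1 i
        have e3 : (S.1 i : ℕ) ≤ Q.1 i := Fin.le_def.1 (h1 i)
        have e4 : (S'.1 i : ℕ) ≤ Q.1 i := Fin.le_def.1 (h1' i)
        omega
      · have := e2 i
        have e3 : (Q.2 i : ℕ) ≤ S.2 i := Fin.le_def.1 (h2 i)
        have e4 : (Q.2 i : ℕ) ≤ S'.2 i := Fin.le_def.1 (h2' i)
        omega
  rw [Set.ncard_coe_finset] at h1
  refine h1.trans ((card_shapes (Fin d ⊕ Fin d) c).trans_eq ?_)
  rw [Fintype.card_sum, Fintype.card_fin, two_mul]

theorem g_card_cl (hd : 2 ≤ d) {Q : BoxT n d} (hQ : Q.1 ≤ Q.2) (h c : ℕ) :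
    ((gCl Q h c).card : ℝ) ≤ (2 * d) ^ c * d ^ h * Real.exp (sfun (d - 1) (phi Q + c)) := by
  classical
  set B : ℝ := d ^ h * Real.exp (sfun (d - 1) (phi Q + c)) with hB
  have hB0 : 0 ≤ B := by positivity
  have hmaps : ∀ P ∈ gCl Q h c, hull Q P ∈ gSup Q c := by
    intro P hP
    rw [gCl, Finset.mem_filter] at hP
    rw [gSup, Finset.mem_filter]
    exact ⟨Finset.mem_univ _, inf_le_left, le_sup_left, hP.2.2.2.2.2.2⟩
  have h1 : ((gCl Q h c).card : ℝ) =
      ∑ R ∈ gSup Q c, (((gCl Q h c).filter (fun P => hull Q P = R)).card : ℝ) := by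
    exact_mod_cast Finset.card_eq_sum_card_fiberwise hmaps
  have h2 : ∀ R ∈ gSup Q c, (((gCl Q h c).filter (fun P => hull Q P = R)).card : ℝ) ≤ B := by
    intro R hR
    rw [gSup, Finset.mem_filter] at hR
    obtain ⟨-, r1, r2, r3⟩ := hR
    have hRR : R.1 ≤ R.2 := r1.trans (hQ.trans r2)
    have h3 := card_second hd R hRR Q h
    rw [r3, ← hB] at h3
    refine le_trans ?_ h3
    rw [← Set.ncard_coe_finset]
    have : (((gCl Q h c).filter (fun P => hull Q P = R) : Finset (BoxT n d)) : Set (BoxT n d)).ncard ≤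
        {P : BoxT n d × BoxT n d | PairOK R P ∧ P.1 = Q ∧ phi P.2 = h}.ncard := by
      refine Set.ncard_le_ncard_of_injOn (fun P => (Q, P)) ?_ ?_ (Set.toFinite _)
      · intro P hP
        rw [Finset.mem_coe, Finset.mem_filter, gCl, Finset.mem_filter] at hP
        obtain ⟨⟨-, a1, a2, a3, a4, a5, a6⟩, a7⟩ := hP
        refine ⟨⟨hQ, a1, a2, a7, ?_, ?_⟩, rfl, a5⟩
        · intro h; exact a3 (a7.trans h.symm)
        · intro h; exact a4 (a7.trans h.symm)
      · intro P _ P' _ he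
        exact (Prod.mk.inj he).2
    exact_mod_cast this
  rw [h1]
  calc ∑ R ∈ gSup Q c, (((gCl Q h c).filter (fun P => hull Q P = R)).card : ℝ)
      ≤ (gSup Q c).card • B := Finset.sum_le_card_nsmul _ _ _ h2
    _ ≤ ((2 * d) ^ c : ℝ) * B := by
        rw [nsmul_eq_mul]
        apply mul_le_mul_of_nonneg_right _ hB0
        exact_mod_cast g_card_sup hQ c
    _ = _ := by rw [hB]; ring

theorem g_one_le_d_of_phi {Q : BoxT n d} (h : 1 ≤ phi Q) : 1 ≤ d := by
  rcases Nat.eq_zero_or_pos d with h0 | h0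
  · subst h0
    simp [phi] at h
  · exact h0

/-- points adding one to the size -/
theorem g_card_N1 {Q : BoxT n d} (hQ : Q.1 ≤ Q.2) (X : Finset (Vtx n d))
    (hX : ∀ x ∈ X, phi (ext Q x) = phi Q + 1) : (X.card : ℝ) ≤ 2 * d * vol Q := by
  classical
  have hout : ∀ x ∈ X, ∃ i, out Q x i = 1 ∧ ∀ j, j ≠ i → out Q x j = 0 := by
    intro x hx
    have h1 := hX x hx
    rw [phi_ext hQ] at h1
    have h2 : ∑ i, out Q x i = 1 := by omega
    have h3 : ∃ i, out Q x i ≠ 0 := by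
      by_contra hno
      push Not at hno
      rw [Finset.sum_eq_zero fun i _ => hno i] at h2
      omega
    obtain ⟨i, hi⟩ := h3
    have h4 := Finset.add_sum_erase Finset.univ (fun i => out Q x i) (Finset.mem_univ i)
    rw [h2] at h4
    refine ⟨i, by omega, fun j hj => ?_⟩
    have h5 : out Q x j ≤ ∑ j ∈ Finset.univ.erase i, out Q x j :=
      Finset.single_le_sum (f := fun j => out Q x j) (fun _ _ => Nat.zero_le _)
        (Finset.mem_erase.2 ⟨hj, Finset.mem_univ _⟩)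
    omega
  -- cover
  let F : Fin d → ℕ → Finset (Vtx n d) := fun i c =>
    Fintype.piFinset (fun j => if j = i then slice n c else Finset.Icc (Q.1 j) (Q.2 j))
  have hcard : ∀ i c, ((F i c).card : ℝ) ≤ vol Q := by
    intro i c
    have h1 : (F i c).card ≤ ∏ j ∈ Finset.univ.erase i, sd Q j := by
      change (Fintype.piFinset _).card ≤ _
      rw [Fintype.card_piFinset, ← Finset.mul_prod_erase _ _ (Finset.mem_univ i), if_pos rfl]
      have h2 : ∏ j ∈ Finset.univ.erase i, (if j = i then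
          slice n c
          else (Finset.Icc (Q.1 j) (Q.2 j) : Finset (Fin n))).card =
            ∏ j ∈ Finset.univ.erase i, sd Q j := by
        refine Finset.prod_congr rfl fun j hj => ?_
        rw [if_neg (Finset.ne_of_mem_erase hj), card_Icc_sd Q hQ]
      rw [h2]
      calc _ ≤ 1 * ∏ j ∈ Finset.univ.erase i, sd Q j :=
            Nat.mul_le_mul_right _ (card_slice_le c)
        _ = _ := one_mul _
    have h3 : ∏ j ∈ Finset.univ.erase i, sd Q j ≤ ∏ j, sd Q j := by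
      rw [← Finset.mul_prod_erase _ _ (Finset.mem_univ i)]
      apply Nat.le_mul_of_pos_left
      unfold sd; omega
    unfold vol
    exact_mod_cast h1.trans h3
  have hsub : X ⊆ Finset.univ.biUnion (fun i => F i ((Q.1 i : ℕ) - 1) ∪ F i ((Q.2 i : ℕ) + 1)) := by
    intro x hx
    obtain ⟨i, hi, hj⟩ := hout x hx
    have hin : ∀ j, j ≠ i → x j ∈ Finset.Icc (Q.1 j) (Q.2 j) := by
      intro j hji
      have := hj j hji
      unfold out at this
      rw [Finset.mem_Icc, Fin.le_def, Fin.le_def]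
      omega
    rw [Finset.mem_biUnion]
    refine ⟨i, Finset.mem_univ _, ?_⟩
    rw [Finset.mem_union]
    unfold out at hi
    rcases Nat.lt_or_ge (x i : ℕ) (Q.1 i) with h | h
    · left
      rw [Fintype.mem_piFinset]
      intro j
      split_ifs with hji
      · subst hji
        rw [mem_slice]
        omega
      · exact hin j hji
    · right
      rw [Fintype.mem_piFinset]
      intro j
      split_ifs with hji
      · subst hji
        rw [mem_slice]
        omega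
      · exact hin j hji
  have h4 : X.card ≤ ∑ i : Fin d, ((F i ((Q.1 i : ℕ) - 1)).card + (F i ((Q.2 i : ℕ) + 1)).card) :=
    (Finset.card_le_card hsub).trans (Finset.card_biUnion_le.trans
      (Finset.sum_le_sum fun i _ => Finset.card_union_le _ _))
  calc (X.card : ℝ) ≤ ∑ i : Fin d, (((F i ((Q.1 i : ℕ) - 1)).card : ℝ) +
        ((F i ((Q.2 i : ℕ) + 1)).card : ℝ)) := by exact_mod_cast h4
    _ ≤ ∑ i : Fin d, (vol Q + vol Q) :=
        Finset.sum_le_sum fun i _ => add_le_add (hcard i _) (hcard i _)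
    _ = _ := by
        rw [Finset.sum_const, Finset.card_univ, Fintype.card_fin, nsmul_eq_mul]; ring

/-- partners which are single points -/
theorem g_card_pt (hd : 1 ≤ d) {Q : BoxT n d} (hQ : Q.1 ≤ Q.2) (c : ℕ) (hc : c = 1 ∨ c = 2) :
    ((gCl Q 0 c).card : ℝ) ≤ 2 * (d : ℝ) ^ 2 * vol Q := by
  classical
  set X : Finset (Vtx n d) := (gCl Q 0 c).image Prod.fst with hX
  have hpt : ∀ P ∈ gCl Q 0 c, P = (P.1, P.1) := by
    intro P hP
    rw [gCl, Finset.mem_filter] at hP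
    have := phi_eq_zero hP.2.1 hP.2.2.2.2.2.1
    exact Prod.ext rfl this.symm
  have hcard : (gCl Q 0 c).card = X.card := by
    rw [hX, Finset.card_image_of_injOn]
    intro P hP P' hP' he
    have he' : P.1 = P'.1 := he
    rw [hpt P hP, hpt P' hP', he']
  have hphi : ∀ x ∈ X, phi (ext Q x) = phi Q + c := by
    intro x hx
    rw [hX, Finset.mem_image] at hx
    obtain ⟨P, hP, rfl⟩ := hx
    have h1 := hpt P hP
    rw [gCl, Finset.mem_filter] at hP
    unfold ext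
    rw [← h1]
    exact hP.2.2.2.2.2.2
  have hvol : 0 < vol Q := vol_pos Q
  have hd1 : (1 : ℝ) ≤ d := by exact_mod_cast hd
  rw [hcard]
  rcases hc with hc | hc
  · subst hc
    refine (g_card_N1 hQ X hphi).trans ?_
    apply mul_le_mul_of_nonneg_right _ hvol.le
    nlinarith
  · subst hc
    refine le_trans ?_ (card_N2_le hQ)
    have : X ⊆ N2 Q := by
      intro x hx
      rw [N2, Finset.mem_filter]
      exact ⟨Finset.mem_univ _, hphi x hx⟩
    exact_mod_cast Finset.card_le_card this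

/-! ### the growth of the volume -/

/-- slope of `sfun` -/
theorem g_slope (M : ℕ) (hd : 1 ≤ d) {a b : ℕ} (hab : a ≤ b) (hb : b ≤ M * d) :
    ((b : ℝ) - a) / (M + 2) ≤ sfun d b - sfun d a := by
  obtain ⟨r, rfl⟩ := Nat.exists_eq_add_of_le hab
  have h1 := le_sfun_add d a r hd
  have hd0 : (0 : ℝ) < d := by exact_mod_cast hd
  have hb' : (a : ℝ) + r ≤ M * d := by exact_mod_cast hb
  have h2 : 1 / ((M : ℝ) + 2) ≤ (d : ℝ) / (a + r + 2 * d) := by
    rw [div_le_div_iff₀ (by positivity) (by positivity)]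
    nlinarith
  have h3 : (r : ℝ) * (1 / ((M : ℝ) + 2)) ≤ r * ((d : ℝ) / (a + r + 2 * d)) :=
    mul_le_mul_of_nonneg_left h2 (Nat.cast_nonneg r)
  push_cast
  have h4 : ((a : ℝ) + r - a) / (M + 2) = (r : ℝ) * (1 / ((M : ℝ) + 2)) := by ring
  rw [h4]
  linarith

theorem g_gain (M : ℕ) (hd : 1 ≤ d) {m k h : ℕ} (hmk : m < k) (hk : k ≤ M * d) (hh : h ≤ m) :
    (h : ℝ) * ((m : ℝ) - 1) / (2 * (M + 2)) ≤
      ∑ j ∈ Finset.range h, (sfun d (min (m + j + 2) k) - sfun d (j + 2)) := by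
  have h1 : ∀ j ∈ Finset.range h, ((m : ℝ) - 1 - j) / (M + 2) ≤
      sfun d (min (m + j + 2) k) - sfun d (j + 2) := by
    intro j hj
    rw [Finset.mem_range] at hj
    have h2 : sfun d (m + 1) ≤ sfun d (min (m + j + 2) k) := sfun_mono d hd (by omega)
    have h3 := g_slope M hd (by omega : j + 2 ≤ m + 1) (by omega)
    have h4 : (((m + 1 : ℕ) : ℝ) - ((j + 2 : ℕ) : ℝ)) = (m : ℝ) - 1 - j := by push_cast; ring
    rw [h4] at h3
    linarith
  refine le_trans ?_ (Finset.sum_le_sum h1)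
  have h5 : ∀ h : ℕ, ∑ j ∈ Finset.range h, ((m : ℝ) - 1 - j) / (M + 2) =
      ((h : ℝ) * ((m : ℝ) - 1) - h * (h - 1) / 2) / (M + 2) := by
    intro h
    induction h with
    | zero => simp
    | succ h ih =>
      rw [Finset.sum_range_succ, ih]
      push_cast
      ring
  rw [h5]
  have h6 : (h : ℝ) ≤ m := by exact_mod_cast hh
  have h7 : (0 : ℝ) ≤ h := Nat.cast_nonneg h
  rw [div_le_div_iff₀ (by positivity) (by positivity)]
  nlinarith [mul_nonneg h7 (sub_nonneg.2 h6), mul_nonneg (mul_nonneg h7 (sub_nonneg.2 h6))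
    (by positivity : (0 : ℝ) ≤ (M : ℝ) + 2)]

theorem g_gain_nonneg (hd : 1 ≤ d) {m k h : ℕ} (hmk : m < k) (hh : h ≤ m) :
    0 ≤ ∑ j ∈ Finset.range h, (sfun d (min (m + j + 2) k) - sfun d (j + 2)) := by
  refine Finset.sum_nonneg fun j hj => ?_
  rw [Finset.mem_range] at hj
  have h2 : sfun d (j + 2) ≤ sfun d (min (m + j + 2) k) := sfun_mono d hd (by omega)
  linarith

/-- the remaining factors `p` compensate the volumes -/
theorem g_key (hd : 1 ≤ d) {m k h cb : ℕ} {L a : ℝ} (hmk : m < k) (hcb : cb ≤ k - m)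
    (hch : cb ≤ h + 2) (hL : sfun d k + a ≤ L) :
    sfun d m + sfun d (m + 1) + ∑ j ∈ Finset.range h, sfun d (min (m + j + 2) k) +
        a * ((h : ℝ) + 2 - cb) ≤
      L * ((h : ℝ) + 2 - cb) + ∑ j ∈ Finset.range cb, sfun d (m + j) := by
  have h1 : ∑ j ∈ Finset.range (h + 2), sfun d (min (m + j) k) =
      sfun d m + sfun d (m + 1) + ∑ j ∈ Finset.range h, sfun d (min (m + j + 2) k) := by
    rw [Finset.sum_range_succ' _ (h + 1), Finset.sum_range_succ' _ h]
    have e1 : min (m + (0 + 1)) k = m + 1 := by omega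
    have e2 : min (m + 0) k = m := by omega
    rw [e1, e2]
    have e3 : ∀ j ∈ Finset.range h, sfun d (min (m + (j + 1 + 1)) k) =
        sfun d (min (m + j + 2) k) := by
      intro j _
      rfl
    rw [Finset.sum_congr rfl e3]
    ring
  rw [← h1]
  obtain ⟨r, hr⟩ := Nat.exists_eq_add_of_le hch
  rw [hr, Finset.sum_range_add]
  have h2 : ∑ j ∈ Finset.range cb, sfun d (min (m + j) k) =
      ∑ j ∈ Finset.range cb, sfun d (m + j) := by
    refine Finset.sum_congr rfl fun j hj => ?_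
    rw [Finset.mem_range] at hj
    rw [min_eq_left (by omega)]
  have h3 : ∑ j ∈ Finset.range r, sfun d (min (m + (cb + j)) k) ≤ r * (L - a) := by
    have h4 : ∀ j ∈ Finset.range r, sfun d (min (m + (cb + j)) k) ≤ L - a := by
      intro j _
      have := sfun_mono d hd (min_le_right (m + (cb + j)) k)
      linarith
    have := Finset.sum_le_card_nsmul _ _ _ h4
    rwa [Finset.card_range, nsmul_eq_mul] at this
  have h5 : (h : ℝ) + 2 - cb = r := by
    have : ((h + 2 : ℕ) : ℝ) = ((cb + r : ℕ) : ℝ) := by rw [hr]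
    push_cast at this
    linarith
  rw [h5, h2]
  linarith

/-- the weights of the partners -/
theorem g_wt {m0 k : ℕ} {L l : ℝ} (hd2 : 2 ≤ d) (hm0 : 80 * Real.log (4 * d) + 1 ≤ m0)
    (hd : m0 + 2 ≤ d) (hM : cost d m0 k ≤ L / 2) (hl : ((m0 : ℝ) + 3) * Real.log 2 ≤ 2 * l)
    (P : BoxT n d) (hP : P.1 ≤ P.2) (hk : phi P ≤ k) :
    wt (Real.exp (-L)) P ≤ Real.exp (-(L * (1 + (phi P : ℝ) / 2)) +
      (∑ j ∈ Finset.range (phi P), sfun d (j + 2)) / 2 + l * phi P) := by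
  refine (wt_bound n d m0 k L hm0 hd hM P hP hk).trans (Real.exp_le_exp.2 ?_)
  unfold Gfun
  have h1 : ∀ t ∈ Finset.range (phi P), L / 2 - (sfun d (t + 2) / 2 + l) ≤
      L / 2 - cost d m0 (t + 1) := by
    intro t _
    unfold cost
    have h2 : sfun (d - 1) (t + 1 + 1) ≤ sfun d (t + 2) := by
      have := sfun_le_sfun_succ (d - 1) (t + 2) (by omega)
      rwa [Nat.sub_add_cancel (by omega)] at this
    have h3 : ((min (t + 1) m0 + 3 : ℕ) : ℝ) ≤ (m0 : ℝ) + 3 := by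
      have : min (t + 1) m0 + 3 ≤ m0 + 3 := by omega
      exact_mod_cast this
    have h4 : ((min (t + 1) m0 + 3 : ℕ) : ℝ) * Real.log 2 ≤ ((m0 : ℝ) + 3) * Real.log 2 :=
      mul_le_mul_of_nonneg_right h3 (Real.log_nonneg (by norm_num))
    linarith
  have h5 := Finset.sum_le_sum h1
  have h6 : ∑ t ∈ Finset.range (phi P), (L / 2 - (sfun d (t + 2) / 2 + l)) =
      (phi P : ℝ) * (L / 2 - l) - (∑ t ∈ Finset.range (phi P), sfun d (t + 2)) / 2 := by
    rw [Finset.sum_div, ← nsmul_eq_mul, ← Finset.card_range (phi P), ← Finset.sum_const,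
      Finset.card_range, ← Finset.sum_sub_distrib]
    refine Finset.sum_congr rfl fun t _ => ?_
    ring
  rw [h6] at h5
  linarith

/-! ### the potential -/

theorem g_nbad_le (d k r0 m1 t e : ℕ) : nbad d k r0 m1 (t + e) ≤ nbad d k r0 m1 t := by
  unfold nbad
  apply Finset.card_le_card
  apply Finset.filter_subset_filter
  apply Finset.Ico_subset_Ico_left
  omega

theorem g_nbad_eq (d k r0 m1 t e : ℕ) (he : e ≤ k - t) (htk : t ≤ k)
    (h : ∀ s, t ≤ s → s < t + e → Bad d k r0 m1 s) :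
    nbad d k r0 m1 t = nbad d k r0 m1 (t + e) + e := by
  induction e with
  | zero => simp
  | succ e ih =>
    have h1 := ih (by omega) (fun s hs hs' => h s hs (by omega))
    have h2 := nbad_succ d k r0 m1 (t + e) (by omega)
    rw [if_pos (h (t + e) (by omega) (by omega))] at h2
    rw [h1, h2]
    have : t + (e + 1) = t + e + 1 := by omega
    rw [this]
    omega

theorem g_psi {xs : ℕ → ℝ} {M k r0 m1 m e : ℕ} {L ε Λ Ca : ℝ} (hε : 0 ≤ ε)
    (hax : ∀ t, t ≤ M * d → sfun d t / 2 - Ca ≤ ax xs d t) (hk : k ≤ M * d) (he : e ≤ k - m)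
    (hmk : m ≤ k) :
    psi xs d k r0 m1 L ε Λ (m + e) ≤ psi xs d k r0 m1 L ε Λ m + (e * (L / 2 + Ca) -
      (∑ j ∈ Finset.range e, sfun d (m + j)) / 2 -
        Λ * ((nbad d k r0 m1 m : ℝ) - nbad d k r0 m1 (m + e))) := by
  unfold psi
  have h1 := Finset.sum_Ico_consecutive (fun s => ax xs d s - L / 2 + ε)
    (Nat.le_add_right m e) (by omega : m + e ≤ k)
  have h2 : ∑ j ∈ Finset.range e, (sfun d (m + j) / 2 - (L / 2 + Ca)) ≤
      ∑ s ∈ Finset.Ico m (m + e), (ax xs d s - L / 2 + ε) := by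
    rw [Finset.sum_Ico_eq_sum_range, Nat.add_sub_cancel_left]
    refine Finset.sum_le_sum fun j hj => ?_
    rw [Finset.mem_range] at hj
    have := hax (m + j) (by omega)
    linarith
  rw [Finset.sum_sub_distrib, Finset.sum_const, Finset.card_range, nsmul_eq_mul,
    ← Finset.sum_div] at h2
  rw [← h1]
  linarith

theorem g_pot {xs : ℕ → ℝ} (hd : 1 ≤ d) {M k r0 m1 e : ℕ} {L ε Λ c Ca : ℝ} (hε : 0 ≤ ε)
    (hc : 0 ≤ c) (hr0 : 1 ≤ r0)
    (hax : ∀ t, t ≤ M * d → sfun d t / 2 - Ca ≤ ax xs d t) (hk : k ≤ M * d) {Q P : BoxT n d}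
    (hQ : Q.1 ≤ Q.2) (hek : e < k - phi Q) (he : phi (hull Q P) = phi Q + e) :
    GG xs k r0 m1 L ε Λ c (hull Q P) ≤ GG xs k r0 m1 L ε Λ c Q *
      Real.exp (e * (L / 2 + Ca) - (∑ j ∈ Finset.range e, sfun d (phi Q + j)) / 2 -
        Λ * ((nbad d k r0 m1 (phi Q) : ℝ) - nbad d k r0 m1 (phi Q + e)) +
          c * e * Exc (lev d (phi Q)) Q) := by
  unfold GG
  rw [if_pos (by omega), if_pos (by omega), ← Real.exp_add, he]
  apply Real.exp_le_exp.2
  have h1 := g_psi (xs := xs) (r0 := r0) (m1 := m1) (L := L) (Λ := Λ) hε hax hk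
    (by omega : e ≤ k - phi Q) (by omega)
  have h2 : c * (th d k r0 (phi Q) : ℝ) * (Exc (lev d (phi Q)) Q : ℝ) ≤
      c * (th d k r0 (phi Q + e) : ℝ) * (Exc (lev d (phi Q + e)) (hull Q P) : ℝ) +
        c * e * (Exc (lev d (phi Q)) Q : ℝ) := by
    rcases Nat.lt_or_ge e (rem d (phi Q)) with h | h
    · have h3 := th_sub hd k r0 (phi Q) e h hr0
      rw [(lev_add hd h).1]
      have h4 := Exc_le_hull (Q := Q) (P := P) hQ (lev d (phi Q))
      have h3' : (th d k r0 (phi Q) : ℝ) ≤ th d k r0 (phi Q + e) + e := by exact_mod_cast h3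
      have h4' : (Exc (lev d (phi Q)) Q : ℝ) ≤ Exc (lev d (phi Q)) (hull Q P) := by
        exact_mod_cast h4
      have h5 : c * (th d k r0 (phi Q) : ℝ) * (Exc (lev d (phi Q)) Q : ℝ) ≤
          c * (th d k r0 (phi Q + e) + e) * (Exc (lev d (phi Q)) Q : ℝ) :=
        mul_le_mul_of_nonneg_right (mul_le_mul_of_nonneg_left h3' hc) (Nat.cast_nonneg _)
      have h6 : c * (th d k r0 (phi Q + e) : ℝ) * (Exc (lev d (phi Q)) Q : ℝ) ≤
          c * (th d k r0 (phi Q + e) : ℝ) * (Exc (lev d (phi Q)) (hull Q P) : ℝ) :=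
        mul_le_mul_of_nonneg_left h4' (by positivity)
      linarith
    · have h3 := th_le_of_rem_le (d := d) k r0 (phi Q) e (Or.inl h)
      have h3' : (th d k r0 (phi Q) : ℝ) ≤ e := by exact_mod_cast h3
      have h5 : c * (th d k r0 (phi Q) : ℝ) * (Exc (lev d (phi Q)) Q : ℝ) ≤
          c * e * (Exc (lev d (phi Q)) Q : ℝ) :=
        mul_le_mul_of_nonneg_right (mul_le_mul_of_nonneg_left h3' hc) (Nat.cast_nonneg _)
      have h6 : 0 ≤ c * (th d k r0 (phi Q + e) : ℝ) *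
          (Exc (lev d (phi Q + e)) (hull Q P) : ℝ) := by positivity
      linarith
  linarith

theorem g_pot' {xs : ℕ → ℝ} {M k r0 m1 : ℕ} {L ε Λ c Ca : ℝ} (hε : 0 ≤ ε)
    (hc : 0 ≤ c)
    (hax : ∀ t, t ≤ M * d → sfun d t / 2 - Ca ≤ ax xs d t) (hk : k ≤ M * d) {Q : BoxT n d}
    (hQk : phi Q < k) :
    1 ≤ GG xs k r0 m1 L ε Λ c Q *
      Real.exp ((k - phi Q : ℕ) * (L / 2 + Ca) -
        (∑ j ∈ Finset.range (k - phi Q), sfun d (phi Q + j)) / 2 -
        Λ * ((nbad d k r0 m1 (phi Q) : ℝ) - nbad d k r0 m1 (phi Q + (k - phi Q))) +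
          c * (k - phi Q : ℕ) * Exc (lev d (phi Q)) Q) := by
  unfold GG
  rw [if_pos hQk, ← Real.exp_add]
  apply Real.one_le_exp
  have h1 := g_psi (xs := xs) (r0 := r0) (m1 := m1) (L := L) (Λ := Λ) hε hax hk
    (le_refl (k - phi Q)) (by omega)
  have h0 : psi xs d k r0 m1 L ε Λ (phi Q + (k - phi Q)) = 0 := by
    rw [Nat.add_sub_cancel' hQk.le]
    unfold psi nbad
    simp
  have h3 := th_le_of_rem_le (d := d) k r0 (phi Q) (k - phi Q) (Or.inr (by omega))
  have h3' : (th d k r0 (phi Q) : ℝ) ≤ (k - phi Q : ℕ) := by exact_mod_cast h3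
  have h5 : c * (th d k r0 (phi Q) : ℝ) * (Exc (lev d (phi Q)) Q : ℝ) ≤
      c * (k - phi Q : ℕ) * (Exc (lev d (phi Q)) Q : ℝ) :=
    mul_le_mul_of_nonneg_right (mul_le_mul_of_nonneg_left h3' hc) (Nat.cast_nonneg _)
  rw [h0] at h1
  linarith

/-! ### one class of partners -/

/-- the exponent of one class -/
noncomputable def gX (d k r0 m1 m h c cb E : ℕ) (L Λ cp Ca l : ℝ) : ℝ :=
  c * Real.log (2 * d) + h * Real.log d + sfun (d - 1) (m + c) +
    (-(L * (1 + (h : ℝ) / 2)) + (∑ j ∈ Finset.range h, sfun d (j + 2)) / 2 + l * h) +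
    (cb * (L / 2 + Ca) - (∑ j ∈ Finset.range cb, sfun d (m + j)) / 2 -
        Λ * ((nbad d k r0 m1 m : ℝ) - nbad d k r0 m1 (m + cb)) + cp * cb * E)

theorem g_exp {k r0 m1 m h c cb E : ℕ} {L Λ cp Ca l : ℝ} (hd : 2 ≤ d) (hl : Real.log d = l)
    (hl1 : 1 ≤ l) (hCa : Ca ≤ l) (hmk : m < k) (hcb : cb ≤ k - m) (hcbc : cb ≤ c)
    (hch : c ≤ h + 2) (hL : sfun d k + 300 * l ≤ L) :
    gX d k r0 m1 m h c cb E L Λ cp Ca (100 * l) ≤ (105 * h + 8) * l -
      (∑ j ∈ Finset.range h, (sfun d (min (m + j + 2) k) - sfun d (j + 2))) / 2 -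
      150 * l * ((h : ℝ) + 2 - cb) -
      Λ * ((nbad d k r0 m1 m : ℝ) - nbad d k r0 m1 (m + cb)) + cp * cb * E := by
  have h1 := g_key (by omega : 1 ≤ d) hmk hcb (by omega : cb ≤ h + 2) hL
  have hd0 : (0 : ℝ) < d := by
    have : 0 < d := by omega
    exact_mod_cast this
  have hl2 : Real.log 2 ≤ l := by
    have := Real.log_two_lt_d9
    linarith
  have hl20 : 0 ≤ Real.log 2 := Real.log_nonneg (by norm_num)
  have h2 : Real.log (2 * d) ≤ 2 * l := by
    rw [Real.log_mul (by norm_num) hd0.ne', hl]; linarith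
  have hc' : (c : ℝ) ≤ h + 2 := by exact_mod_cast hch
  have hcb' : (cb : ℝ) ≤ h + 2 := by
    have : cb ≤ h + 2 := by omega
    exact_mod_cast this
  have hh0 : (0 : ℝ) ≤ h := Nat.cast_nonneg h
  have h3 : (c : ℝ) * Real.log (2 * d) ≤ (h + 2) * (2 * l) := by
    apply mul_le_mul hc' h2 _ (by positivity)
    apply Real.log_nonneg
    have : (2 : ℝ) ≤ d := by exact_mod_cast hd
    linarith
  have h4 : sfun (d - 1) (m + c) ≤ sfun d m + c * Real.log 2 := by
    have e1 := sfun_le_sfun_succ (d - 1) (m + c) (by omega)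
    rw [Nat.sub_add_cancel (by omega)] at e1
    have e2 := sfun_add_le d m c (by omega)
    linarith
  have h5 : (c : ℝ) * Real.log 2 ≤ (h + 2) * l := mul_le_mul hc' hl2 hl20 (by positivity)
  have h6 : sfun d m ≤ sfun d (m + 1) := sfun_mono d (by omega) (Nat.le_succ m)
  have h7 : (cb : ℝ) * Ca ≤ (h + 2) * l := by
    calc (cb : ℝ) * Ca ≤ cb * l := mul_le_mul_of_nonneg_left hCa (Nat.cast_nonneg _)
      _ ≤ (h + 2) * l := mul_le_mul_of_nonneg_right hcb' (by linarith)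
  unfold gX
  rw [Finset.sum_sub_distrib, hl]
  linarith

theorem g_caseA (M : ℕ) {k r0 m1 m h c cb E : ℕ} {L Λ cp Ca l : ℝ} (hd : 2 ≤ d)
    (hl : Real.log d = l) (hl1 : 1 ≤ l) (hCa : Ca ≤ l) (hmk : m < k) (hk : k ≤ M * d)
    (hcb : cb ≤ k - m) (hcbc : cb ≤ c) (hch : c ≤ h + 2) (hL : sfun d k + 300 * l ≤ L)
    (hΛ : 0 ≤ Λ) (hcp : cp ≤ 1 / (48 * ((M : ℝ) + 2))) (hE : E ≤ m)
    (hh1 : 1 ≤ h) (hhm : h ≤ m) (hm : 920 * ((M : ℝ) + 2) * l ≤ m) :
    gX d k r0 m1 m h c cb E L Λ cp Ca (100 * l) ≤ -(2 * (h : ℝ) * l) := by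
  refine (g_exp hd hl hl1 hCa hmk hcb hcbc hch hL).trans ?_
  have h1 := g_gain M (by omega : 1 ≤ d) hmk hk hhm
  have hM0 : (0 : ℝ) < (M : ℝ) + 2 := by positivity
  have hh : (1 : ℝ) ≤ h := by exact_mod_cast hh1
  have hcb' : (cb : ℝ) ≤ h + 2 := by
    have : cb ≤ h + 2 := by omega
    exact_mod_cast this
  have h2 : 0 ≤ Λ * ((nbad d k r0 m1 m : ℝ) - nbad d k r0 m1 (m + cb)) := by
    apply mul_nonneg hΛ
    have : (nbad d k r0 m1 (m + cb) : ℝ) ≤ nbad d k r0 m1 m := by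
      exact_mod_cast g_nbad_le d k r0 m1 m cb
    linarith
  have h3 : 0 ≤ 150 * l * ((h : ℝ) + 2 - cb) := by
    apply mul_nonneg (by linarith); linarith
  have hE' : (E : ℝ) ≤ m := by exact_mod_cast hE
  have hm0 : (0 : ℝ) ≤ m := Nat.cast_nonneg m
  have h4 : cp * cb * E ≤ 1 / (48 * ((M : ℝ) + 2)) * (3 * h) * m := by
    apply mul_le_mul _ hE' (Nat.cast_nonneg _) (by positivity)
    apply mul_le_mul hcp _ (Nat.cast_nonneg _) (by positivity)
    linarith
  have h5 : (105 * (h : ℝ) + 8) * l ≤ 113 * h * l := by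
    apply mul_le_mul_of_nonneg_right _ (by linarith)
    linarith
  have hm4 : (4 : ℝ) ≤ m := by
    have : (1 : ℝ) * 1 ≤ ((M : ℝ) + 2) * l := by
      apply mul_le_mul _ hl1 (by norm_num) hM0.le
      have : (0 : ℝ) ≤ M := Nat.cast_nonneg M
      linarith
    linarith
  -- the gain beats everything
  have h6 : 115 * l ≤ ((m : ℝ) - 1) / (4 * (M + 2)) - m / (16 * (M + 2)) := by
    have e1 : ((m : ℝ) - 1) / (4 * (M + 2)) - m / (16 * (M + 2)) =
        (4 * ((m : ℝ) - 1) - m) / (16 * (M + 2)) := by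
      field_simp
      ring
    rw [e1, le_div_iff₀ (by positivity)]
    linarith
  have h7 := mul_le_mul_of_nonneg_left h6 (by linarith : (0 : ℝ) ≤ h)
  have e2 : (h : ℝ) * ((m : ℝ) - 1) / (2 * (M + 2)) = 2 * (h * (((m : ℝ) - 1) / (4 * (M + 2)))) := by
    field_simp
    ring
  have e3 : 1 / (48 * ((M : ℝ) + 2)) * (3 * h) * m = h * (m / (16 * (M + 2))) := by
    field_simp
    ring
  rw [e2] at h1
  rw [e3] at h4
  linarith

theorem g_caseC (M : ℕ) {k r0 m1 m h c cb E : ℕ} {L Λ cp Ca l : ℝ} (hd : 2 ≤ d)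
    (hl : Real.log d = l) (hl1 : 1 ≤ l) (hCa : Ca ≤ l) (hmk : m < k)
    (hcb : cb ≤ k - m) (hcbc : cb ≤ c) (hch : c ≤ h + 2) (hL : sfun d k + 300 * l ≤ L)
    (hΛ : Λ = 200 * l) (hcp : cp ≤ 1 / (48 * ((M : ℝ) + 2))) (hE : E ≤ m)
    (hhm : h ≤ m) (hm : (m : ℝ) ≤ 920 * ((M : ℝ) + 2) * l) (hm1 : m + cb ≤ m1) :
    gX d k r0 m1 m h c cb E L Λ cp Ca (100 * l) ≤ -(2 * ((h : ℝ) + 2) * l) := by
  refine (g_exp hd hl hl1 hCa hmk hcb hcbc hch hL).trans ?_
  have h1 := g_gain_nonneg (by omega : 1 ≤ d) hmk hhm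
  have hM0 : (0 : ℝ) < (M : ℝ) + 2 := by positivity
  have hcb' : (cb : ℝ) ≤ h + 2 := by
    have : cb ≤ h + 2 := by omega
    exact_mod_cast this
  have h2 : nbad d k r0 m1 m = nbad d k r0 m1 (m + cb) + cb :=
    g_nbad_eq d k r0 m1 m cb hcb hmk.le (fun s _ hs' => Or.inl (by omega))
  rw [h2]
  push_cast
  have hE' : (E : ℝ) ≤ m := by exact_mod_cast hE
  have hcb0 : (0 : ℝ) ≤ cb := Nat.cast_nonneg _
  have h4 : cp * E ≤ 20 * l := by
    calc cp * E ≤ 1 / (48 * ((M : ℝ) + 2)) * (920 * ((M : ℝ) + 2) * l) :=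
          mul_le_mul hcp (hE'.trans hm) (Nat.cast_nonneg _) (by positivity)
      _ = 920 / 48 * l := by field_simp
      _ ≤ 20 * l := by
          apply mul_le_mul_of_nonneg_right (by norm_num) (by linarith)
  have h5 : cp * cb * E ≤ 20 * l * cb := by
    have := mul_le_mul_of_nonneg_right h4 hcb0
    linarith
  have h6 : Λ * ((nbad d k r0 m1 (m + cb) : ℝ) + cb - nbad d k r0 m1 (m + cb)) = 200 * l * cb := by
    rw [hΛ]; ring
  rw [h6]
  have h7 : 0 ≤ l * ((h : ℝ) + 2 - cb) := mul_nonneg (by linarith) (by linarith)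
  have h8 : 0 ≤ l * (cb : ℝ) := mul_nonneg (by linarith) hcb0
  have h9 : 0 ≤ l := by linarith
  nlinarith

/-- everything about one class -/
theorem g_class (M : ℕ) {k r0 m1 h c : ℕ} {L Λ cp Ca l : ℝ} (hd : 2 ≤ d)
    (hl : Real.log d = l) (hl1 : 1 ≤ l) (hCa : Ca ≤ l) (hk : k ≤ M * d)
    (hL : sfun d k + 300 * l ≤ L) (hΛ : Λ = 200 * l) (hcp0 : 0 ≤ cp)
    (hcp : cp ≤ 1 / (48 * ((M : ℝ) + 2)))
    (hcp2 : 2 * cp ≤ Real.log (1 + 1 / (((M : ℝ) + 1) * ((M : ℝ) + 3))))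
    (hm1 : 3 * (920 * ((M : ℝ) + 2)) * l ≤ m1) (hr0 : 2 ≤ r0) {Q : BoxT n d}
    (hQ : Q.1 ≤ Q.2) (hmk : phi Q < k) (hc1 : 1 ≤ c) (hch : c ≤ h + 2) (hhm : h ≤ phi Q)
    (cb : ℕ) (hcb : cb = min c (k - phi Q)) (hex : ¬ (h = 0 ∧ c = 2 ∧ c < k - phi Q)) :
    ((gCl Q h c).card : ℝ) * Real.exp (-(L * (1 + (h : ℝ) / 2)) +
      (∑ j ∈ Finset.range h, sfun d (j + 2)) / 2 + 100 * l * h) *
      Real.exp (cb * (L / 2 + Ca) - (∑ j ∈ Finset.range cb, sfun d (phi Q + j)) / 2 -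
        Λ * ((nbad d k r0 m1 (phi Q) : ℝ) - nbad d k r0 m1 (phi Q + cb)) +
          cp * cb * Exc (lev d (phi Q)) Q) ≤ Real.exp (-(2 * (max h 1 : ℕ) * l)) := by
  have hd0 : (0 : ℝ) < d := by
    have : 0 < d := by omega
    exact_mod_cast this
  have hM0 : (0 : ℝ) < (M : ℝ) + 2 := by positivity
  have hE := Exc_le_phi Q (lev d (phi Q))
  have hcb1 : cb ≤ k - phi Q := by omega
  have hcb2 : cb ≤ c := by omega
  by_cases hcase : h = 0 ∧ 920 * ((M : ℝ) + 2) * l ≤ phi Q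
  · -- a single point
    obtain ⟨h0, hm⟩ := hcase
    subst h0
    have hc12 : c = 1 ∨ c = 2 := by omega
    have hcard := g_card_pt (by omega : 1 ≤ d) hQ c hc12
    have hvol := vol_pos Q
    have hlv := log_vol_le (by omega : 1 ≤ d) hQ (lev d (phi Q)) rfl
    have e1 : 2 * (d : ℝ) ^ 2 * vol Q =
        Real.exp (Real.log 2 + 2 * Real.log d + Real.log (vol Q)) := by
      rw [Real.exp_add, Real.exp_add, Real.exp_log hvol, Real.exp_log (by norm_num),
        show 2 * Real.log (d : ℝ) = ((2 : ℕ) : ℝ) * Real.log d by norm_num, Real.exp_nat_mul,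
        Real.exp_log hd0]
    rw [e1] at hcard
    refine (mul_le_mul_of_nonneg_right (mul_le_mul_of_nonneg_right hcard (Real.exp_pos _).le)
      (Real.exp_pos _).le).trans ?_
    rw [← Real.exp_add, ← Real.exp_add]
    apply Real.exp_le_exp.2
    -- the gap of the logarithm
    have hlev : lev d (phi Q) ≤ M := by
      unfold lev
      have : phi Q / d < M :=
        Nat.div_lt_of_lt_mul (lt_of_lt_of_le hmk (hk.trans_eq (mul_comm _ _)))
      omega
    have hlev1 : 1 ≤ lev d (phi Q) := Nat.le_add_left 1 _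
    have hdl : Real.log (1 + 1 / (((M : ℝ) + 1) * ((M : ℝ) + 3))) ≤
        Real.log (1 + 1 / ((lev d (phi Q) : ℝ) * ((lev d (phi Q) : ℝ) + 2))) := by
      have a1 : (lev d (phi Q) : ℝ) ≤ M := by exact_mod_cast hlev
      have a2 : (1 : ℝ) ≤ lev d (phi Q) := by exact_mod_cast hlev1
      apply Real.log_le_log (by positivity)
      have a3 : (lev d (phi Q) : ℝ) * ((lev d (phi Q) : ℝ) + 2) ≤
          ((M : ℝ) + 1) * ((M : ℝ) + 3) := by
        apply mul_le_mul <;> linarith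
      have a4 : 1 / (((M : ℝ) + 1) * ((M : ℝ) + 3)) ≤
          1 / ((lev d (phi Q) : ℝ) * ((lev d (phi Q) : ℝ) + 2)) :=
        one_div_le_one_div_of_le (by positivity) a3
      linarith
    set E := Exc (lev d (phi Q)) Q with hEdef
    have hE0 : (0 : ℝ) ≤ E := Nat.cast_nonneg _
    have hLag0 : (0 : ℝ) ≤ Lag (lev d (phi Q)) Q := Nat.cast_nonneg _
    have hlv' : Real.log (vol Q) ≤ sfun d (phi Q) - 2 * cp * E := by
      have a1 : 2 * cp * E ≤ Real.log (1 + 1 / ((lev d (phi Q) : ℝ) *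
          ((lev d (phi Q) : ℝ) + 2))) * ((E : ℝ) + Lag (lev d (phi Q)) Q) := by
        apply mul_le_mul (hcp2.trans hdl) _ hE0 ((by positivity : (0 : ℝ) ≤ 2 * cp).trans
          (hcp2.trans hdl))
        linarith
      linarith
    have hl2 : Real.log 2 ≤ l := by
      have := Real.log_two_lt_d9
      linarith
    have hcpE : 0 ≤ cp * E := by positivity
    have hSk : sfun d (phi Q) ≤ sfun d k := sfun_mono d (by omega) hmk.le
    have hS1 : sfun d (phi Q) ≤ sfun d (phi Q + 1) := sfun_mono d (by omega) (by omega)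
    have hNB : Λ * ((nbad d k r0 m1 (phi Q) : ℝ) - nbad d k r0 m1 (phi Q + cb)) ≥ 0 := by
      apply mul_nonneg (by rw [hΛ]; linarith)
      have : (nbad d k r0 m1 (phi Q + cb) : ℝ) ≤ nbad d k r0 m1 (phi Q) := by
        exact_mod_cast g_nbad_le d k r0 m1 (phi Q) cb
      linarith
    simp only [Finset.range_zero, Finset.sum_empty, Nat.cast_zero, zero_div, add_zero, mul_one,
      mul_zero]
    have hmax : ((max 0 1 : ℕ) : ℝ) = 1 := by norm_num
    rw [hmax, hl]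
    rcases Nat.lt_or_ge c (k - phi Q) with hlt | hge
    · -- not crossing: `c = 1`
      have hc : c = 1 := by omega
      have hcb' : cb = 1 := by omega
      rw [hcb'] at hNB ⊢
      simp only [Finset.range_one, Finset.sum_singleton, Nat.cast_one, add_zero, one_mul, mul_one]
      linarith
    · have hcb' : cb = k - phi Q := by omega
      have hbad : nbad d k r0 m1 (phi Q) = nbad d k r0 m1 (phi Q + cb) + cb :=
        g_nbad_eq d k r0 m1 (phi Q) cb hcb1 hmk.le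
          (fun s hs hs' => Or.inr (Or.inr (by omega)))
      have hbad' : Λ * ((nbad d k r0 m1 (phi Q) : ℝ) - nbad d k r0 m1 (phi Q + cb)) =
          200 * l * cb := by
        rw [hbad, hΛ]; push_cast; ring
      rw [hbad']
      have hcb12 : cb = 1 ∨ cb = 2 := by omega
      rcases hcb12 with hc | hc
      · rw [hc]
        simp only [Finset.range_one, Finset.sum_singleton, Nat.cast_one, add_zero, one_mul,
          mul_one]
        linarith
      · rw [hc]
        simp only [Finset.sum_range_succ, Finset.range_zero, Finset.sum_empty, add_zero,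
          zero_add, Nat.cast_ofNat]
        linarith
  · -- the generic case
    have hcard := g_card_cl hd hQ h c
    have e1 : (2 * d : ℝ) ^ c * d ^ h * Real.exp (sfun (d - 1) (phi Q + c)) =
        Real.exp (c * Real.log (2 * d) + h * Real.log d + sfun (d - 1) (phi Q + c)) := by
      rw [Real.exp_add, Real.exp_add, Real.exp_nat_mul, Real.exp_log (by positivity),
        Real.exp_nat_mul, Real.exp_log hd0]
    rw [e1] at hcard
    refine (mul_le_mul_of_nonneg_right (mul_le_mul_of_nonneg_right hcard (Real.exp_pos _).le)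
      (Real.exp_pos _).le).trans ?_
    rw [← Real.exp_add, ← Real.exp_add]
    apply Real.exp_le_exp.2
    have hgX : gX d k r0 m1 (phi Q) h c cb (Exc (lev d (phi Q)) Q) L Λ cp Ca (100 * l) ≤
        -(2 * (max h 1 : ℕ) * l) := by
      rcases le_total (920 * ((M : ℝ) + 2) * l) (phi Q) with hm | hm
      · have hh1 : 1 ≤ h := by
          by_contra hno
          exact hcase ⟨by omega, hm⟩
        have := g_caseA (r0 := r0) (m1 := m1) (c := c) M hd hl hl1 hCa hmk hk hcb1 hcb2 hch hL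
          (by rw [hΛ]; linarith : 0 ≤ Λ) hcp hE hh1 hhm hm
        rwa [max_eq_left hh1]
      · have hmm1 : phi Q + cb ≤ m1 := by
          have a1 : ((phi Q + cb : ℕ) : ℝ) ≤ m1 := by
            have a2 : cb ≤ phi Q + 2 := by omega
            have a3 : (cb : ℝ) ≤ phi Q + 2 := by exact_mod_cast a2
            have a4 : (1 : ℝ) * 1 ≤ ((M : ℝ) + 2) * l := by
              apply mul_le_mul _ hl1 (by norm_num) hM0.le
              have : (0 : ℝ) ≤ M := Nat.cast_nonneg M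
              linarith
            push_cast
            linarith
          exact_mod_cast a1
        have := g_caseC (r0 := r0) (m1 := m1) (c := c) M hd hl hl1 hCa hmk hcb1 hcb2 hch hL
          hΛ hcp hE hhm hm hmm1
        refine this.trans ?_
        have a1 : ((max h 1 : ℕ) : ℝ) ≤ (h : ℝ) + 2 := by
          have : max h 1 ≤ h + 2 := by omega
          exact_mod_cast this
        have a2 : 2 * ((max h 1 : ℕ) : ℝ) * l ≤ 2 * ((h : ℝ) + 2) * l := by
          apply mul_le_mul_of_nonneg_right _ (by linarith)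
          linarith
        linarith
    unfold gX at hgX
    linarith

/-! ### summing over the classes -/

theorem g_geom (m : ℕ) : ∑ c ∈ Finset.Icc 1 m, ((1 : ℝ) / 2) ^ c ≤ 1 := by
  have h : ∀ m : ℕ, ∑ c ∈ Finset.Icc 1 m, ((1 : ℝ) / 2) ^ c = 1 - (1 / 2) ^ m := by
    intro m
    induction m with
    | zero => simp
    | succ m ih =>
      rw [Finset.sum_Icc_succ_top (by omega), ih]
      ring
  rw [h]
  have : (0 : ℝ) ≤ (1 / 2) ^ m := by positivity
  linarith

theorem g_geom' (m : ℕ) : ∑ c ∈ Finset.range m, ((1 : ℝ) / 2) ^ c ≤ 2 := by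
  have h : ∀ m : ℕ, ∑ c ∈ Finset.range m, ((1 : ℝ) / 2) ^ c = 2 - 2 * (1 / 2) ^ m := by
    intro m
    induction m with
    | zero => simp
    | succ m ih =>
      rw [Finset.sum_range_succ, ih]
      ring
  rw [h]
  have : (0 : ℝ) ≤ (1 / 2) ^ m := by positivity
  linarith

theorem g_small (hd : 4 ≤ d) {h c : ℕ} (hch : c ≤ h + 2) :
    Real.exp (-(2 * (max h 1 : ℕ) * Real.log d)) ≤ 4 / d * ((1 / 2) ^ h * (1 / 2) ^ c) := by
  have hd4 : (4 : ℝ) ≤ d := by exact_mod_cast hd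
  have hd0 : (0 : ℝ) < d := by linarith
  have e1 : Real.exp (-(2 * (max h 1 : ℕ) * Real.log d)) = (1 / (d : ℝ)) ^ (2 * max h 1) := by
    rw [one_div, inv_pow, Real.exp_neg]
    congr 1
    rw [← Real.exp_log (pow_pos hd0 _), Real.log_pow]
    push_cast
    ring_nf
  rw [e1]
  have hx0 : 0 ≤ 1 / (d : ℝ) := by positivity
  have hx1 : 1 / (d : ℝ) ≤ 1 := by rw [div_le_one hd0]; linarith
  have hx4 : 1 / (d : ℝ) ≤ 1 / 4 := one_div_le_one_div_of_le (by norm_num) hd4
  have h1 : (1 / (d : ℝ)) ^ (2 * max h 1) ≤ (1 / (d : ℝ)) ^ (h + 1) :=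
    pow_le_pow_of_le_one hx0 hx1 (by omega)
  have h2 : (1 / (d : ℝ)) ^ (h + 1) ≤ 1 / d * (1 / 4) ^ h := by
    rw [pow_succ, mul_comm]
    exact mul_le_mul_of_nonneg_left (pow_le_pow_left₀ hx0 hx4 h) hx0
  have h3 : (1 / 2 : ℝ) ^ h ≤ 4 * (1 / 2) ^ c := by
    have a1 : (1 / 2 : ℝ) ^ (h + 2) ≤ (1 / 2) ^ c :=
      pow_le_pow_of_le_one (by norm_num) (by norm_num) hch
    rw [pow_add] at a1
    linarith
  have h4 : (1 / 4 : ℝ) ^ h = (1 / 2) ^ h * (1 / 2) ^ h := by
    rw [← mul_pow]; norm_num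
  calc (1 / (d : ℝ)) ^ (2 * max h 1) ≤ 1 / d * (1 / 4) ^ h := h1.trans h2
    _ = 1 / d * ((1 / 2) ^ h * (1 / 2) ^ h) := by rw [h4]
    _ ≤ 1 / d * ((1 / 2) ^ h * (4 * (1 / 2) ^ c)) := by
        apply mul_le_mul_of_nonneg_left _ hx0
        exact mul_le_mul_of_nonneg_left h3 (by positivity)
    _ = _ := by ring

open Classical in
theorem g_sum (hd : 4 ≤ d) {Q : BoxT n d} (hQ : Q.1 ≤ Q.2) (T : Finset (BoxT n d))
    (f : BoxT n d → ℝ) (B : ℝ) (hB : 0 ≤ B)
    (hT : ∀ P ∈ T, P.1 ≤ P.2 ∧ Near Q P ∧ hull Q P ≠ Q ∧ hull Q P ≠ P ∧ phi P ≤ phi Q)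
    (hcl : ∀ h c, 1 ≤ c → c ≤ h + 2 → h ≤ phi Q →
      (T.filter (fun P => (phi P, phi (hull Q P) - phi Q) = (h, c))).Nonempty →
      ∑ P ∈ T with (phi P, phi (hull Q P) - phi Q) = (h, c), f P ≤
        B * Real.exp (-(2 * (max h 1 : ℕ) * Real.log d))) :
    ∑ P ∈ T, f P ≤ B * (8 / d) := by
  have hfacts : ∀ P ∈ T, phi Q < phi (hull Q P) ∧ phi (hull Q P) ≤ phi Q + phi P + 2 := by
    intro P hP
    obtain ⟨a1, a2, a3, a4, a5⟩ := hT P hP
    have hok : PairOK (hull Q P) (Q, P) := ⟨hQ, a1, a2, rfl, Ne.symm a3, Ne.symm a4⟩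
    exact ⟨hok.phi_lt, phi_hull_le hQ a1 a2⟩
  have hmaps : ∀ P ∈ T, (phi P, phi (hull Q P) - phi Q) ∈
      Finset.range (phi Q + 1) ×ˢ Finset.Icc 1 (phi Q + 2) := by
    intro P hP
    obtain ⟨b1, b2⟩ := hfacts P hP
    have b3 := (hT P hP).2.2.2.2
    rw [Finset.mem_product, Finset.mem_range, Finset.mem_Icc]
    refine ⟨?_, ?_, ?_⟩
    · show phi P < phi Q + 1
      omega
    · show 1 ≤ phi (hull Q P) - phi Q
      omega
    · show phi (hull Q P) - phi Q ≤ phi Q + 2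
      omega
  rw [← Finset.sum_fiberwise_of_maps_to hmaps]
  have hclass : ∀ q ∈ Finset.range (phi Q + 1) ×ˢ Finset.Icc 1 (phi Q + 2),
      ∑ P ∈ T with (phi P, phi (hull Q P) - phi Q) = q, f P ≤
        B * (4 / d) * ((1 / 2) ^ q.1 * (1 / 2) ^ q.2) := by
    rintro ⟨h, c⟩ hq
    rw [Finset.mem_product, Finset.mem_range, Finset.mem_Icc] at hq
    obtain ⟨hh, hc1, hc2⟩ := hq
    simp only at hh hc1 hc2
    rcases (T.filter (fun P => (phi P, phi (hull Q P) - phi Q) = (h, c))).eq_empty_or_nonempty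
      with he | hne
    · rw [he, Finset.sum_empty]
      positivity
    · obtain ⟨P, hP⟩ := hne
      have hP' := hP
      rw [Finset.mem_filter] at hP
      obtain ⟨hPT, hPe⟩ := hP
      have e1 : phi P = h := (Prod.mk.inj hPe).1
      have e2 : phi (hull Q P) - phi Q = c := (Prod.mk.inj hPe).2
      obtain ⟨b1, b2⟩ := hfacts P hPT
      have hch : c ≤ h + 2 := by omega
      refine (hcl h c hc1 hch (by omega) ⟨P, hP'⟩).trans ?_
      exact (mul_le_mul_of_nonneg_left (g_small hd hch) hB).trans_eq (mul_assoc _ _ _).symm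
  refine (Finset.sum_le_sum hclass).trans ?_
  rw [← Finset.mul_sum, Finset.sum_product]
  have h1 : ∑ x ∈ Finset.range (phi Q + 1), ∑ y ∈ Finset.Icc 1 (phi Q + 2),
      ((1 / 2 : ℝ) ^ x * (1 / 2) ^ y) ≤ 2 := by
    rw [← Finset.sum_mul_sum]
    have g1 := g_geom' (phi Q + 1)
    have g2 := g_geom (phi Q + 2)
    have g3 : (0 : ℝ) ≤ ∑ c ∈ Finset.Icc 1 (phi Q + 2), (1 / 2) ^ c :=
      Finset.sum_nonneg fun _ _ => by positivity
    nlinarith
  calc B * (4 / d) * ∑ x ∈ Finset.range (phi Q + 1), ∑ y ∈ Finset.Icc 1 (phi Q + 2),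
      ((1 / 2 : ℝ) ^ x * (1 / 2) ^ y) ≤ B * (4 / d) * 2 :=
        mul_le_mul_of_nonneg_left h1 (by positivity)
    _ = B * (8 / d) := by ring

/-- the sum over one class -/
theorem g_class_sum {Q : BoxT n d} {h c : ℕ} (T : Finset (BoxT n d)) (hT : T ⊆ gCl Q h c)
    (f : BoxT n d → ℝ) {W V B r : ℝ} (hB : 0 ≤ B)
    (hf : ∀ P ∈ T, f P ≤ Real.exp W * (B * Real.exp V))
    (hcl : ((gCl Q h c).card : ℝ) * Real.exp W * Real.exp V ≤ r) : ∑ P ∈ T, f P ≤ B * r := by
  have h1 := Finset.sum_le_card_nsmul T _ _ hf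
  rw [nsmul_eq_mul] at h1
  have h2 : (T.card : ℝ) ≤ (gCl Q h c).card := by exact_mod_cast Finset.card_le_card hT
  calc ∑ P ∈ T, f P ≤ T.card * (Real.exp W * (B * Real.exp V)) := h1
    _ ≤ (gCl Q h c).card * (Real.exp W * (B * Real.exp V)) :=
        mul_le_mul_of_nonneg_right h2 (by positivity)
    _ = B * ((gCl Q h c).card * Real.exp W * Real.exp V) := by ring
    _ ≤ B * r := mul_le_mul_of_nonneg_left hcl hB

/-! ### the main statement -/

theorem merge_ineq (M : ℕ) (xs : ℕ → ℝ) (hxs : ∀ l, 1 ≤ l → l ≤ M + 1 → 0 < xs l) (ε κ c₃ : ℝ)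
    (hε0 : 0 < ε) (hε1 : ε ≤ 1) (hκ : 0 < κ) (hc₃ : 0 < c₃) :
    ∃ c₀ : ℝ, 0 < c₀ ∧ ∀ c, 0 < c → c ≤ c₀ → ∃ C₀ C₁ C₂ : ℝ, 3 ≤ C₁ ∧ 0 ≤ C₀ ∧ 0 ≤ C₂ ∧
    ∃ D₀ : ℕ, ∀ n d k : ℕ, ∀ L : ℝ, D₀ ≤ d → c₃ * d ≤ k → k ≤ M * d →
      sfun d k + C₀ * Real.log d ≤ L → ∀ Q : BoxT n d, Q.1 ≤ Q.2 → phi Q < k →
      TT (Real.exp (-L)) k Q + XG (Real.exp (-L)) k
        (GG xs k (Nat.sqrt d + 1) ⌈C₂ * Real.log d⌉₊ L ε (C₁ * Real.log d) c) Q ≤
      κ * GG xs k (Nat.sqrt d + 1) ⌈C₂ * Real.log d⌉₊ L ε (C₁ * Real.log d) c Q := by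
  classical
  obtain ⟨Cx, hCx⟩ := le_ax M xs hxs
  obtain ⟨D₁, hD₁⟩ := exists_log_le 80 10 1 one_pos
  have hM0 : (0 : ℝ) < (M : ℝ) + 2 := by positivity
  have hlog : 0 < Real.log (1 + 1 / (((M : ℝ) + 1) * ((M : ℝ) + 3))) := by
    apply Real.log_pos
    have : 0 < 1 / (((M : ℝ) + 1) * ((M : ℝ) + 3)) := by positivity
    linarith
  refine ⟨min (1 / (48 * ((M : ℝ) + 2))) (Real.log (1 + 1 / (((M : ℝ) + 1) * ((M : ℝ) + 3))) / 2),
    lt_min (by positivity) (by positivity), ?_⟩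
  intro cp hcp0 hcp
  have hcp1 := hcp.trans (min_le_left _ _)
  have hcp2 := hcp.trans (min_le_right _ _)
  refine ⟨300, 200, 3 * (920 * ((M : ℝ) + 2)), by norm_num, by norm_num, by positivity,
    ⌈D₁⌉₊ + ⌈Real.exp (|Cx| + 1)⌉₊ + ⌈16 / κ⌉₊ + 4, ?_⟩
  intro n d k L hdD _ hk hL Q hQ hQk
  have hd4 : 4 ≤ d := by omega
  have hd0 : (0 : ℝ) < d := by
    have : 0 < d := by omega
    exact_mod_cast this
  have hdD1 : D₁ ≤ d := (Nat.le_ceil D₁).trans (by
    have : ⌈D₁⌉₊ ≤ d := by omega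
    exact_mod_cast this)
  have hdD2 : Real.exp (|Cx| + 1) ≤ d := (Nat.le_ceil _).trans (by
    have : ⌈Real.exp (|Cx| + 1)⌉₊ ≤ d := by omega
    exact_mod_cast this)
  have hdD3 : 16 / κ ≤ d := (Nat.le_ceil _).trans (by
    have : ⌈16 / κ⌉₊ ≤ d := by omega
    exact_mod_cast this)
  set l := Real.log d with hl
  have hlC : |Cx| + 1 ≤ l := by
    rw [hl, Real.le_log_iff_exp_le hd0]; exact hdD2
  have hl1 : 1 ≤ l := by linarith [abs_nonneg Cx]
  have hCx1 : Cx ≤ l := by linarith [le_abs_self Cx]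
  have hax : ∀ t, t ≤ M * d → sfun d t / 2 - Cx ≤ ax xs d t :=
    fun t ht => hCx d t (by omega) ht
  set m0 : ℕ := ⌈80 * Real.log (4 * d) + 1⌉₊ with hm0
  have hm0a : 80 * Real.log (4 * d) + 1 ≤ m0 := Nat.le_ceil _
  have hlog4 : 0 ≤ Real.log (4 * d) := by
    apply Real.log_nonneg
    have : (4 : ℝ) ≤ d := by exact_mod_cast hd4
    linarith
  have hm0b : (m0 : ℝ) < 80 * Real.log (4 * d) + 1 + 1 := Nat.ceil_lt_add_one (by positivity)
  have hm0d : m0 + 2 ≤ d := by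
    have h1 := hD₁ d hdD1
    have h2 : (m0 : ℝ) + 2 ≤ d := by linarith
    exact_mod_cast h2
  have hm0l : ((m0 : ℝ) + 3) * Real.log 2 ≤ 2 * (100 * l) := by
    have h1 := log_four_mul_le (by omega : 2 ≤ d)
    have h2 : (m0 : ℝ) + 3 ≤ 245 * l := by linarith
    have h3 := Real.log_two_lt_d9
    have h4 : 0 ≤ Real.log 2 := Real.log_nonneg (by norm_num)
    calc ((m0 : ℝ) + 3) * Real.log 2 ≤ 245 * l * 0.7 := by
          apply mul_le_mul h2 (by linarith) h4 (by positivity)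
      _ ≤ _ := by linarith
  have hcost : cost d m0 k ≤ L / 2 := by
    unfold cost
    have h1 := sfun_le_sfun_succ (d - 1) (k + 1) (by omega)
    rw [Nat.sub_add_cancel (by omega)] at h1
    have h2 := sfun_add_le d k 1 (by omega)
    have h3 : ((min k m0 + 3 : ℕ) : ℝ) ≤ (m0 : ℝ) + 3 := by
      have : min k m0 + 3 ≤ m0 + 3 := by omega
      exact_mod_cast this
    have h4 : 0 ≤ Real.log 2 := Real.log_nonneg (by norm_num)
    have h5 := mul_le_mul_of_nonneg_right h3 h4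
    have h6 := Real.log_two_lt_d9
    push_cast at h2
    linarith
  have hsq : 2 ≤ Nat.sqrt d + 1 := by
    have : 1 ≤ Nat.sqrt d := Nat.le_sqrt.2 (by omega)
    omega
  set r0 := Nat.sqrt d + 1 with hr0
  set m1 := ⌈3 * (920 * ((M : ℝ) + 2)) * l⌉₊ with hm1
  have hm1a : 3 * (920 * ((M : ℝ) + 2)) * l ≤ m1 := Nat.le_ceil _
  set B := GG xs k r0 m1 L ε (200 * l) cp Q with hB
  have hB0 : 0 ≤ B := by
    rw [hB]; unfold GG
    rw [if_pos hQk]
    exact (Real.exp_pos _).le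
  have hclass : ∀ h c, 1 ≤ c → c ≤ h + 2 → h ≤ phi Q →
      ¬ (h = 0 ∧ c = 2 ∧ c < k - phi Q) → _ :=
    fun h c hc1 hch hhm hex =>
      g_class (r0 := r0) (Λ := 200 * l) (Ca := Cx) M (by omega : 2 ≤ d) hl.symm hl1 hCx1 hk hL rfl
        hcp0.le hcp1 (by linarith) hm1a hsq hQ hQk hc1 hch hhm (min c (k - phi Q)) rfl hex
  have hwt : ∀ P : BoxT n d, P.1 ≤ P.2 → phi P ≤ phi Q →
      wt (Real.exp (-L)) P ≤ Real.exp (-(L * (1 + (phi P : ℝ) / 2)) +
      (∑ j ∈ Finset.range (phi P), sfun d (j + 2)) / 2 + 100 * l * phi P) :=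
    fun P hP hPQ => g_wt (by omega : 2 ≤ d) hm0a hm0d hcost hm0l P hP (by omega)
  -- the crossing
  have hTT : TT (Real.exp (-L)) k Q ≤ B * (8 / d) := by
    unfold TT
    refine g_sum hd4 hQ _ _ B hB0 ?_ ?_
    · intro P hP
      rw [Finset.mem_filter] at hP
      obtain ⟨-, a1, a2, a3, a4⟩ := hP
      refine ⟨a1, a2, ?_, ?_, a3⟩
      · intro h; rw [h] at a4; omega
      · intro h; rw [h] at a4; omega
    · intro h c hc1 hch hhm hne
      obtain ⟨P₀, hP₀⟩ := hne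
      have hmem : ∀ P ∈ ((Finset.univ.filter (fun P => Cross k Q P)).filter
          (fun P => (phi P, phi (hull Q P) - phi Q) = (h, c))), P ∈ gCl Q h c ∧
          phi P = h ∧ k ≤ phi Q + c ∧ P.1 ≤ P.2 ∧ phi P ≤ phi Q := by
        intro P hP
        rw [Finset.mem_filter, Finset.mem_filter] at hP
        obtain ⟨⟨-, a1, a2, a3, a4⟩, hPe⟩ := hP
        have e1 : phi P = h := (Prod.mk.inj hPe).1
        have e2 : phi (hull Q P) - phi Q = c := (Prod.mk.inj hPe).2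
        refine ⟨?_, e1, by omega, a1, a3⟩
        rw [gCl, Finset.mem_filter]
        refine ⟨Finset.mem_univ _, a1, a2, ?_, ?_, e1, by omega⟩
        · intro h; rw [h] at a4; omega
        · intro h; rw [h] at a4; omega
      have hkc := (hmem P₀ hP₀).2.2.1
      have hmin : min c (k - phi Q) = k - phi Q := by omega
      have hc' := hclass h c hc1 hch hhm (by omega)
      rw [hmin] at hc'
      refine g_class_sum _ (fun P hP => (hmem P hP).1) _ hB0 ?_ hc'
      intro P hP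
      obtain ⟨b1, b2, b3, b4, b5⟩ := hmem P hP
      have w1 := hwt P b4 b5
      rw [b2] at w1
      have w2 := g_pot' (xs := xs) (r0 := r0) (m1 := m1) (L := L) (Λ := 200 * l) hε0.le hcp0.le
        hax hk hQk
      exact (w1.trans_eq (mul_one _).symm).trans (mul_le_mul_of_nonneg_left w2 (Real.exp_pos _).le)
  -- the side boxes
  have hXG : XG (Real.exp (-L)) k (GG xs k r0 m1 L ε (200 * l) cp) Q ≤ B * (8 / d) := by
    unfold XG
    refine g_sum hd4 hQ _ _ B hB0 ?_ ?_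
    · intro P hP
      rw [Finset.mem_filter] at hP
      obtain ⟨-, ⟨a1, a2, a3, a4, a5, -⟩, -⟩ := hP
      exact ⟨a1, a2, a3, a4, a5⟩
    · intro h c hc1 hch hhm hne
      obtain ⟨P₀, hP₀⟩ := hne
      have hmem : ∀ P ∈ ((Finset.univ.filter (fun P => Side Q P ∧ phi (hull Q P) < k)).filter
          (fun P => (phi P, phi (hull Q P) - phi Q) = (h, c))), P ∈ gCl Q h c ∧
          phi P = h ∧ phi (hull Q P) = phi Q + c ∧ phi Q + c < k ∧ P.1 ≤ P.2 ∧ phi P ≤ phi Q ∧
            ¬ (phi P = 0 ∧ phi (hull Q P) = phi Q + 2) := by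
        intro P hP
        rw [Finset.mem_filter, Finset.mem_filter] at hP
        obtain ⟨⟨-, ⟨a1, a2, a3, a4, a5, a6⟩, a7⟩, hPe⟩ := hP
        have e1 : phi P = h := (Prod.mk.inj hPe).1
        have e2 : phi (hull Q P) - phi Q = c := (Prod.mk.inj hPe).2
        refine ⟨?_, e1, by omega, by omega, a1, a5, a6⟩
        rw [gCl, Finset.mem_filter]
        exact ⟨Finset.mem_univ _, a1, a2, a3, a4, e1, by omega⟩
      obtain ⟨-, q1, q2, q3, -, -, q4⟩ := hmem P₀ hP₀
      have hmin : min c (k - phi Q) = c := by omega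
      have hc' := hclass h c hc1 hch hhm (by
        rintro ⟨z1, z2, -⟩
        exact q4 ⟨q1.trans z1, by rw [q2, z2]⟩)
      rw [hmin] at hc'
      refine g_class_sum _ (fun P hP => (hmem P hP).1) _ hB0 ?_ hc'
      intro P hP
      obtain ⟨b1, b2, b3, b4, b5, b6, b7⟩ := hmem P hP
      have w1 := hwt P b5 b6
      rw [b2] at w1
      have w2 := g_pot (xs := xs) (m1 := m1) (L := L) (Λ := 200 * l) (by omega : 1 ≤ d) hε0.le
        hcp0.le (by omega : 1 ≤ r0) hax hk hQ (by omega : c < k - phi Q) b3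
      have w3 : 0 ≤ GG xs k r0 m1 L ε (200 * l) cp (hull Q P) := by
        unfold GG
        split_ifs
        · exact (Real.exp_pos _).le
        · exact le_rfl
      exact mul_le_mul w1 w2 w3 (Real.exp_pos _).le
  have hfin : 8 / (d : ℝ) + 8 / d ≤ κ := by
    rw [div_le_iff₀ hκ] at hdD3
    rw [← add_div, div_le_iff₀ hd0]
    linarith
  calc _ ≤ B * (8 / d) + B * (8 / d) := add_le_add hTT hXG
    _ = B * (8 / d + 8 / d) := by ring
    _ ≤ B * κ := mul_le_mul_of_nonneg_left hfin hB0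
    _ = κ * B := mul_comm _ _

end Pool.Agent.Lib.MP_8501c9_pr.Mid
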