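import Pool.Agent.Lib.MP_8501c9_pr.Mid.Ext2
import Pool.Agent.Lib.MP_8501c9_pr.Mid.Counts
import Pool.Agent.Lib.MP_8501c9_pr.Mid.Level
import Pool.Agent.Lib.MP_8501c9_pr.Basic

/-!
# Task F: the one-step inequality of the potential
-/

set_option autoImplicit false
open Set

namespace Pool.Agent.Lib.MP_8501c9_pr.Mid

open Pool.Agent.Lib.MP_8501c9_pr

section F
variable {n d : ℕ}

open Classical in
theorem f_sum_rank {α : Type*} (S : Finset α) (g : α → ℕ) (hg : Function.Injective g)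
    (F : ℕ → ℝ) :
    ∑ x ∈ S, F ((S.filter (fun z => g z ≤ g x)).card) = ∑ i ∈ Finset.range S.card, F (i + 1) := by
  induction S using Finset.induction_on_max_value g with
  | empty => simp
  | insert a s ha hmax ih =>
    rw [Finset.sum_insert ha, Finset.card_insert_of_notMem ha, Finset.sum_range_succ, ← ih,
      add_comm]
    congr 1
    · refine Finset.sum_congr rfl fun x hx => ?_
      have h1 : ¬ g a ≤ g x := by
        have h2 := hmax x hx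
        have h3 : g x ≠ g a := fun h => ha (hg h ▸ hx)
        omega
      rw [Finset.filter_insert, if_neg h1]
    · have h1 : (insert a s).filter (fun z => g z ≤ g a) = insert a s := by
        refine Finset.filter_true_of_mem ?_
        intro x hx
        rcases Finset.mem_insert.1 hx with h | h
        · rw [h]
        · exact hmax x h
      rw [h1, Finset.card_insert_of_notMem ha]

theorem f_rk_inj : Function.Injective (rk : Vtx n d → ℕ) := by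
  intro x y h
  unfold rk at h
  exact (Fintype.equivFin (Vtx n d)).injective (Fin.val_injective h)

theorem f_nst_nonneg (l : ℕ) (Q : BoxT n d) : 0 ≤ nst l Q := by
  unfold nst
  have h1 := (vol_pos Q).le
  rcases Nat.eq_zero_or_pos (rr l Q) with h | h
  · rw [h]; simp
  · have h2 : (1:ℝ) ≤ rr l Q := by exact_mod_cast h
    have h3 : (0:ℝ) ≤ (rr l Q : ℝ) - 1 := by linarith
    positivity

theorem f_rho_nonneg (l : ℕ) (Z : Finset (Vtx n d)) (Q : BoxT n d) : 0 ≤ rho l Z Q := by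
  unfold rho
  exact div_nonneg (Nat.cast_nonneg _) (f_nst_nonneg l Q)

theorem f_rho_le_one {l : ℕ} (hl : 1 ≤ l) (Z : Finset (Vtx n d)) {Q : BoxT n d}
    (hQ : Q.1 ≤ Q.2) : rho l Z Q ≤ 1 := by
  unfold rho
  refine div_le_one_of_le₀ ?_ (f_nst_nonneg l Q)
  refine le_trans ?_ (card_Nreg_le hQ hl)
  exact_mod_cast Finset.card_le_card Finset.inter_subset_left

theorem f_h_le_one {y x K : ℝ} {h : ℝ → ℝ} (H : AdmU y x K h) {ρ : ℝ} (h0 : 0 ≤ ρ)
    (h1 : ρ ≤ 1) : h ρ ≤ 1 := by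
  have := H.anti (left_mem_Icc.2 zero_le_one) ⟨h0, h1⟩ h0
  rwa [H.zero] at this

theorem f_h_nonneg {y x K : ℝ} {h : ℝ → ℝ} (H : AdmU y x K h) {ρ : ℝ} (h0 : 0 ≤ ρ)
    (h1 : ρ ≤ 1) : 0 ≤ h ρ := (Real.exp_pos _).le.trans (H.lower ρ h0 h1)

theorem f_lev {t k M : ℕ} (ht : t < k) (hk : k ≤ M * d) :
    1 ≤ lev d t ∧ lev d t ≤ M := by
  unfold lev
  refine ⟨Nat.le_add_left _ _, ?_⟩
  have h1 : t < d * M := by rw [mul_comm]; omega
  exact Nat.succ_le_of_lt (Nat.div_lt_of_lt_mul h1)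

theorem f_GG_nonneg (xs : ℕ → ℝ) (k r0 m1 : ℕ) (L ε Λ c : ℝ) (Q : BoxT n d) :
    0 ≤ GG xs k r0 m1 L ε Λ c Q := by
  unfold GG
  split_ifs
  · exact (Real.exp_pos _).le
  · exact le_rfl

theorem f_GG_zero (xs : ℕ → ℝ) (k r0 m1 : ℕ) (L ε Λ c : ℝ) (Q : BoxT n d) (h : k ≤ phi Q) :
    GG xs k r0 m1 L ε Λ c Q = 0 := by
  unfold GG
  rw [if_neg (by omega)]

theorem f_UU_zero (xs : ℕ → ℝ) (hs : ℕ → ℝ → ℝ) (k r0 m1 : ℕ) (L ε Λ c κ : ℝ)
    (Z : Finset (Vtx n d)) (Q : BoxT n d) (h : k ≤ phi Q) :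
    UU xs hs k r0 m1 L ε Λ c κ Z Q = 0 := by
  unfold UU
  rw [f_GG_zero xs k r0 m1 L ε Λ c Q h]
  simp

theorem f_UU_le (M : ℕ) (xs : ℕ → ℝ) (hs : ℕ → ℝ → ℝ) (K : ℝ)
    (hadm : ∀ l, 1 ≤ l → l ≤ M + 1 → AdmU (yl l) (xs l) K (hs l)) (k r0 m1 : ℕ)
    (L ε Λ c κ : ℝ) (hκ : 2 ≤ κ⁻¹) (hk : k ≤ M * d) (Z : Finset (Vtx n d)) {Q : BoxT n d}
    (hQ : Q.1 ≤ Q.2) :
    UU xs hs k r0 m1 L ε Λ c κ Z Q ≤ κ⁻¹ * GG xs k r0 m1 L ε Λ c Q := by
  rcases lt_or_ge (phi Q) k with h | h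
  · obtain ⟨hl1, hl2⟩ := f_lev (d := d) h hk
    have h0 := f_GG_nonneg xs k r0 m1 L ε Λ c Q
    unfold UU
    split_ifs
    · exact mul_le_mul_of_nonneg_right hκ h0
    · have h1 := f_h_le_one (hadm _ hl1 (by omega)) (f_rho_nonneg (lev d (phi Q)) Z Q)
        (f_rho_le_one hl1 Z hQ)
      have h2 : (0:ℝ) ≤ κ⁻¹ := by linarith
      refine mul_le_mul_of_nonneg_right ?_ h0
      calc _ ≤ κ⁻¹ * 1 := mul_le_mul_of_nonneg_left h1 h2
        _ = κ⁻¹ := mul_one _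
  · rw [f_UU_zero _ _ _ _ _ _ _ _ _ _ _ _ h, f_GG_zero _ _ _ _ _ _ _ _ _ h]
    simp

theorem f_UU_nonneg (M : ℕ) (xs : ℕ → ℝ) (hs : ℕ → ℝ → ℝ) (K : ℝ)
    (hadm : ∀ l, 1 ≤ l → l ≤ M + 1 → AdmU (yl l) (xs l) K (hs l)) (k r0 m1 : ℕ)
    (L ε Λ c κ : ℝ) (hκ : 2 ≤ κ⁻¹) (hk : k ≤ M * d) (Z : Finset (Vtx n d)) {Q : BoxT n d}
    (hQ : Q.1 ≤ Q.2) :
    0 ≤ UU xs hs k r0 m1 L ε Λ c κ Z Q := by
  rcases lt_or_ge (phi Q) k with h | h
  · obtain ⟨hl1, hl2⟩ := f_lev (d := d) h hk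
    have h0 := f_GG_nonneg xs k r0 m1 L ε Λ c Q
    unfold UU
    split_ifs
    · positivity
    · have h1 := f_h_nonneg (hadm _ hl1 (by omega)) (f_rho_nonneg (lev d (phi Q)) Z Q)
        (f_rho_le_one hl1 Z hQ)
      have h2 : (0:ℝ) ≤ κ⁻¹ := by linarith
      positivity
  · rw [f_UU_zero _ _ _ _ _ _ _ _ _ _ _ _ h]

/-- the penalty cannot drop by more than twice the excess -/
theorem f_pen (hd : 1 ≤ d) (k r0 : ℕ) (hr0 : 1 ≤ r0) {Q : BoxT n d} (hQ : Q.1 ≤ Q.2)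
    (x : Vtx n d) :
    (th d k r0 (phi Q) : ℝ) * Exc (lev d (phi Q)) Q -
      th d k r0 (phi Q + 2) * Exc (lev d (phi Q + 2)) (ext Q x) ≤
      2 * Exc (lev d (phi Q)) Q := by
  rcases lt_or_ge 2 (rem d (phi Q)) with h | h
  · obtain ⟨h1, _⟩ := lev_add (d := d) (t := phi Q) (i := 2) hd h
    rw [h1]
    have h2 : Exc (lev d (phi Q)) Q ≤ Exc (lev d (phi Q)) (ext Q x) := Exc_le_hull hQ _
    have h3 := th_sub (d := d) hd k r0 (phi Q) 2 h hr0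
    have h2' : (Exc (lev d (phi Q)) Q : ℝ) ≤ Exc (lev d (phi Q)) (ext Q x) := by
      exact_mod_cast h2
    have h3' : (th d k r0 (phi Q) : ℝ) ≤ th d k r0 (phi Q + 2) + 2 := by exact_mod_cast h3
    have h4 : (0:ℝ) ≤ Exc (lev d (phi Q)) Q := Nat.cast_nonneg _
    have h5 : (0:ℝ) ≤ th d k r0 (phi Q + 2) := Nat.cast_nonneg _
    nlinarith [mul_le_mul_of_nonneg_right h3' h4, mul_le_mul_of_nonneg_left h2' h5]
  · have h3 := th_le_of_rem_le (d := d) k r0 (phi Q) 2 (Or.inl h)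
    have h3' : (th d k r0 (phi Q) : ℝ) ≤ 2 := by exact_mod_cast h3
    have h4 : (0:ℝ) ≤ Exc (lev d (phi Q)) Q := Nat.cast_nonneg _
    have h5 : (0:ℝ) ≤ (th d k r0 (phi Q + 2) : ℝ) * Exc (lev d (phi Q + 2)) (ext Q x) := by
      positivity
    nlinarith [mul_le_mul_of_nonneg_right h3' h4]

theorem f_nbad_two (d k r0 m1 t : ℕ) (ht : t + 2 < k) :
    nbad d k r0 m1 (t + 2) + (if Bad d k r0 m1 t then 1 else 0) ≤ nbad d k r0 m1 t := by
  have h1 := nbad_succ d k r0 m1 t (by omega)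
  have h2 := nbad_succ d k r0 m1 (t + 1) (by omega)
  rw [h1, h2]
  have : t + 1 + 1 = t + 2 := rfl
  rw [this]
  omega

theorem f_N2_phi {Q : BoxT n d} {x : Vtx n d} (hx : x ∈ N2 Q) : phi (ext Q x) = phi Q + 2 := by
  unfold N2 at hx
  exact (Finset.mem_filter.1 hx).2

/-- the potential of the enlarged box -/
theorem f_term (xs : ℕ → ℝ) (k r0 m1 : ℕ) (L ε Λ c : ℝ) (hΛ : 0 ≤ Λ)
    (hc : 0 ≤ c) {Q : BoxT n d} (hk : phi Q + 2 < k) {x : Vtx n d}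
    (hx : x ∈ N2 Q) (w : ℝ) (hw : (th d k r0 (phi Q) : ℝ) * Exc (lev d (phi Q)) Q -
      th d k r0 (phi Q + 2) * Exc (lev d (phi Q + 2)) (ext Q x) ≤ w) :
    Real.exp (-L) * GG xs k r0 m1 L ε Λ c (ext Q x) ≤ GG xs k r0 m1 L ε Λ c Q *
      Real.exp (-(ax xs d (phi Q) + ax xs d (phi Q + 1)) - 2 * ε -
        Λ * (if Bad d k r0 m1 (phi Q) then 1 else 0) + c * w) := by
  have h1 := f_N2_phi hx
  rw [GG_ratio xs k r0 m1 L ε Λ c Q (ext Q x) h1 (by omega), mul_comm (Real.exp (-L)), mul_assoc,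
    ← Real.exp_add]
  refine mul_le_mul_of_nonneg_left ?_ (f_GG_nonneg _ _ _ _ _ _ _ _ _)
  refine Real.exp_le_exp.2 ?_
  have h2 := f_nbad_two d k r0 m1 (phi Q) hk
  have h2' : (nbad d k r0 m1 (phi Q + 2) : ℝ) +
      (if Bad d k r0 m1 (phi Q) then (1:ℝ) else 0) ≤ nbad d k r0 m1 (phi Q) := by
    split_ifs at h2 ⊢
    · exact_mod_cast h2
    · exact_mod_cast h2
  have h3 := mul_le_mul_of_nonneg_left h2' hΛ
  have h4 := mul_le_mul_of_nonneg_left hw hc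
  nlinarith


/-- the gain in the volume per unit of excess -/
noncomputable def f_dl (M : ℕ) : ℝ := Real.log (1 + 1 / (((M : ℝ) + 1) * (M + 3)))

theorem f_dl_pos (M : ℕ) : 0 < f_dl M := by
  unfold f_dl
  refine Real.log_pos ?_
  have : (0:ℝ) < 1 / (((M : ℝ) + 1) * (M + 3)) := by positivity
  linarith

theorem f_dl_le {M l : ℕ} (hl : 1 ≤ l) (h : l ≤ M + 1) :
    f_dl M ≤ Real.log (1 + 1 / ((l : ℝ) * (l + 2))) := by
  unfold f_dl
  have h1 : (1:ℝ) ≤ l := by exact_mod_cast hl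
  have h2 : (l:ℝ) ≤ M + 1 := by exact_mod_cast h
  refine Real.log_le_log (by positivity) ?_
  have h3 : (l:ℝ) * (l + 2) ≤ ((M : ℝ) + 1) * (M + 3) := by nlinarith
  have h4 : 1 / (((M : ℝ) + 1) * (M + 3)) ≤ 1 / ((l:ℝ) * (l + 2)) :=
    one_div_le_one_div_of_le (by positivity) h3
  linarith

theorem f_vol0 (hd : 1 ≤ d) {Q : BoxT n d} (hQ : Q.1 ≤ Q.2) {M : ℕ}
    (hl1 : 1 ≤ lev d (phi Q)) (hl : lev d (phi Q) ≤ M) :
    vol Q ≤ Real.exp (sfun d (phi Q) - f_dl M * ((Exc (lev d (phi Q)) Q : ℝ) +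
      Lag (lev d (phi Q)) Q)) := by
  have h1 := log_vol_le hd hQ _ rfl
  have h2 := f_dl_le (M := M) hl1 (by omega)
  have h3 : (0:ℝ) ≤ (Exc (lev d (phi Q)) Q : ℝ) + Lag (lev d (phi Q)) Q := by positivity
  rw [← Real.exp_log (vol_pos Q)]
  refine Real.exp_le_exp.2 (h1.trans ?_)
  have := mul_le_mul_of_nonneg_right h2 h3
  linarith

theorem f_vol (hd : 1 ≤ d) {Q : BoxT n d} (hQ : Q.1 ≤ Q.2) {M : ℕ}
    (hl1 : 1 ≤ lev d (phi Q)) (hl : lev d (phi Q) ≤ M) {c : ℝ} (hc : c ≤ f_dl M / 8) :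
    vol Q * Real.exp (c * (2 * Exc (lev d (phi Q)) Q)) ≤
      Real.exp (sfun d (phi Q) - 3 / 4 * f_dl M * ((Exc (lev d (phi Q)) Q : ℝ) +
      Lag (lev d (phi Q)) Q)) := by
  have h1 := f_vol0 hd hQ hl1 hl
  refine (mul_le_mul_of_nonneg_right h1 (Real.exp_pos _).le).trans ?_
  rw [← Real.exp_add]
  refine Real.exp_le_exp.2 ?_
  have h3 : (0:ℝ) ≤ Exc (lev d (phi Q)) Q := Nat.cast_nonneg _
  have h4 : (0:ℝ) ≤ Lag (lev d (phi Q)) Q := Nat.cast_nonneg _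
  have h5 := f_dl_pos M
  have h6 := mul_le_mul_of_nonneg_right hc h3
  nlinarith [mul_nonneg h5.le h4]

/-- crude bound for a sum over neighbours -/
theorem f_crude (M : ℕ) (xs : ℕ → ℝ) (hs : ℕ → ℝ → ℝ) (K : ℝ)
    (hadm : ∀ l, 1 ≤ l → l ≤ M + 1 → AdmU (yl l) (xs l) K (hs l)) (k r0 m1 : ℕ)
    (L ε Λ c κ : ℝ) (hκ : 2 ≤ κ⁻¹) (hk : k ≤ M * d) (hΛ : 0 ≤ Λ)
    (hc : 0 ≤ c) (Z : Finset (Vtx n d)) {Q : BoxT n d} (hQ : Q.1 ≤ Q.2) (hkt : phi Q + 2 < k)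
    (S : Finset (Vtx n d)) (hS : S ⊆ N2 Q) (w : ℝ)
    (hw : ∀ x ∈ S, (th d k r0 (phi Q) : ℝ) * Exc (lev d (phi Q)) Q -
      th d k r0 (phi Q + 2) * Exc (lev d (phi Q + 2)) (ext Q x) ≤ w) :
    ∑ x ∈ S, Real.exp (-L) * UU xs hs k r0 m1 L ε Λ c κ (Znext Q Z x) (ext Q x) ≤
      (S.card : ℝ) * (κ⁻¹ * (GG xs k r0 m1 L ε Λ c Q *
        Real.exp (-(ax xs d (phi Q) + ax xs d (phi Q + 1)) - 2 * ε -
        Λ * (if Bad d k r0 m1 (phi Q) then 1 else 0) + c * w))) := by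
  rw [← nsmul_eq_mul]
  refine Finset.sum_le_card_nsmul _ _ _ ?_
  intro x hx
  have h1 := f_UU_le M xs hs K hadm k r0 m1 L ε Λ c κ hκ hk (Znext Q Z x) (ext_le hQ x)
  have h2 := f_term xs k r0 m1 L ε Λ c hΛ hc hkt (hS hx) w (hw x hx)
  have h3 : (0:ℝ) ≤ κ⁻¹ := by linarith
  calc Real.exp (-L) * UU xs hs k r0 m1 L ε Λ c κ (Znext Q Z x) (ext Q x)
      ≤ Real.exp (-L) * (κ⁻¹ * GG xs k r0 m1 L ε Λ c (ext Q x)) :=
        mul_le_mul_of_nonneg_left h1 (Real.exp_pos _).le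
    _ = κ⁻¹ * (Real.exp (-L) * GG xs k r0 m1 L ε Λ c (ext Q x)) := by ring
    _ ≤ _ := mul_le_mul_of_nonneg_left h2 h3

/-- the sum vanishes if the next size is too large -/
theorem f_sum_zero (xs : ℕ → ℝ) (hs : ℕ → ℝ → ℝ) (k r0 m1 : ℕ) (L ε Λ c κ : ℝ)
    (Z : Finset (Vtx n d)) (Q : BoxT n d) (h : k ≤ phi Q + 2) :
    ∑ x ∈ N2 Q \ Z, Real.exp (-L) * UU xs hs k r0 m1 L ε Λ c κ (Znext Q Z x) (ext Q x) = 0 := by
  refine Finset.sum_eq_zero ?_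
  intro x hx
  have h1 := f_N2_phi (Finset.mem_sdiff.1 hx).1
  rw [f_UU_zero _ _ _ _ _ _ _ _ _ _ _ _ (by omega), mul_zero]

theorem f_case_bad (hd : 1 ≤ d) (M : ℕ) (xs : ℕ → ℝ) (hs : ℕ → ℝ → ℝ) (K : ℝ)
    (hadm : ∀ l, 1 ≤ l → l ≤ M + 1 → AdmU (yl l) (xs l) K (hs l)) (k r0 m1 : ℕ)
    (hr0 : 1 ≤ r0)
    (L ε c κ C₁ C : ℝ) (hε : 0 ≤ ε) (hκ : 2 ≤ κ⁻¹) (hk : k ≤ M * d)
    (hc : 0 ≤ c) (hc2 : c ≤ f_dl M / 8) (hC₁ : 3 ≤ C₁)
    (hC : ∀ d t : ℕ, 1 ≤ d → t ≤ M * d → sfun d t / 2 - C ≤ ax xs d t)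
    (hD : 2 * Real.exp (2 * C) * κ⁻¹ ≤ d)
    (Z : Finset (Vtx n d)) {Q : BoxT n d} (hQ : Q.1 ≤ Q.2) (hkt : phi Q < k)
    (hB : Bad d k r0 m1 (phi Q)) :
    GG xs k r0 m1 L ε (C₁ * Real.log d) c Q +
      ∑ x ∈ N2 Q \ Z, Real.exp (-L) *
        UU xs hs k r0 m1 L ε (C₁ * Real.log d) c κ (Znext Q Z x) (ext Q x) ≤
      UU xs hs k r0 m1 L ε (C₁ * Real.log d) c κ Z Q := by
  have hd1 : (1:ℝ) ≤ d := by exact_mod_cast hd
  have hlog : 0 ≤ Real.log d := Real.log_nonneg hd1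
  have hG := f_GG_nonneg xs k r0 m1 L ε (C₁ * Real.log d) c Q
  have hUU : UU xs hs k r0 m1 L ε (C₁ * Real.log d) c κ Z Q =
      2 * GG xs k r0 m1 L ε (C₁ * Real.log d) c Q := by
    unfold UU
    rw [if_pos hB]
  rw [hUU]
  rcases lt_or_ge (phi Q + 2) k with h2 | h2
  swap
  · rw [f_sum_zero _ _ _ _ _ _ _ _ _ _ _ _ h2]
    linarith
  have hΛ : 0 ≤ C₁ * Real.log d := by positivity
  obtain ⟨hl1, hlM⟩ := f_lev (d := d) hkt hk
  have hsum := f_crude M xs hs K hadm k r0 m1 L ε (C₁ * Real.log d) c κ hκ hk hΛ hc Z hQ h2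
    (N2 Q \ Z) Finset.sdiff_subset _ (fun x _ => f_pen hd k r0 hr0 hQ x)
  set G := GG xs k r0 m1 L ε (C₁ * Real.log d) c Q with hGdef
  have hcard : ((N2 Q \ Z).card : ℝ) ≤ 2 * (d:ℝ) ^ 2 * vol Q := by
    refine le_trans ?_ (card_N2_le hQ)
    exact_mod_cast Finset.card_le_card Finset.sdiff_subset
  have hv := f_vol hd hQ hl1 hlM hc2
  rw [if_pos hB, mul_one] at hsum
  have ha1 := hC d (phi Q) hd (by omega)
  have ha2 := hC d (phi Q + 1) hd (by omega)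
  have hm := sfun_mono d hd (Nat.le_succ (phi Q))
  have hκ0 : (0:ℝ) ≤ κ⁻¹ := by linarith
  have hexp : Real.exp (-(ax xs d (phi Q) + ax xs d (phi Q + 1)) - 2 * ε -
        C₁ * Real.log d + c * (2 * Exc (lev d (phi Q)) Q)) ≤
      Real.exp (-sfun d (phi Q)) * Real.exp (2 * C) * Real.exp (-(3 * Real.log d)) *
        Real.exp (c * (2 * Exc (lev d (phi Q)) Q)) := by
    rw [← Real.exp_add, ← Real.exp_add, ← Real.exp_add]
    refine Real.exp_le_exp.2 ?_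
    have := mul_le_mul_of_nonneg_right hC₁ hlog
    simp only [Nat.succ_eq_add_one] at hm
    linarith
  have hlogd : Real.exp (-(3 * Real.log d)) = ((d:ℝ) ^ 3)⁻¹ := by
    rw [Real.exp_neg, ← Real.log_rpow (by linarith), Real.exp_log (by positivity)]
    norm_num
  have hv2 : vol Q * Real.exp (c * (2 * Exc (lev d (phi Q)) Q)) * Real.exp (-sfun d (phi Q)) ≤
      1 := by
    refine (mul_le_mul_of_nonneg_right hv (Real.exp_pos _).le).trans ?_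
    rw [← Real.exp_add]
    refine Real.exp_le_one_iff.2 ?_
    have h3 : (0:ℝ) ≤ (Exc (lev d (phi Q)) Q : ℝ) + Lag (lev d (phi Q)) Q := by positivity
    have h4 := f_dl_pos M
    nlinarith [mul_nonneg h4.le h3]
  have hfin : ((N2 Q \ Z).card : ℝ) * (κ⁻¹ * (G * Real.exp (-(ax xs d (phi Q) +
      ax xs d (phi Q + 1)) - 2 * ε - C₁ * Real.log d + c * (2 * Exc (lev d (phi Q)) Q)))) ≤ G := by
    have h5 : (0:ℝ) ≤ 2 * (d:ℝ) ^ 2 * vol Q := by
      have := (vol_pos Q).le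
      positivity
    calc _ ≤ (2 * (d:ℝ) ^ 2 * vol Q) * (κ⁻¹ * (G * (Real.exp (-sfun d (phi Q)) *
          Real.exp (2 * C) * Real.exp (-(3 * Real.log d)) *
          Real.exp (c * (2 * Exc (lev d (phi Q)) Q))))) := by
          refine mul_le_mul hcard ?_ (by positivity) h5
          exact mul_le_mul_of_nonneg_left (mul_le_mul_of_nonneg_left hexp hG) hκ0
      _ = (vol Q * Real.exp (c * (2 * Exc (lev d (phi Q)) Q)) * Real.exp (-sfun d (phi Q))) *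
          (G * (2 * Real.exp (2 * C) * κ⁻¹ * ((d:ℝ) ^ 2 * Real.exp (-(3 * Real.log d))))) := by
          ring
      _ ≤ 1 * (G * (2 * Real.exp (2 * C) * κ⁻¹ * ((d:ℝ) ^ 2 * Real.exp (-(3 * Real.log d))))) :=
          mul_le_mul_of_nonneg_right hv2 (by positivity)
      _ = G * ((2 * Real.exp (2 * C) * κ⁻¹) * (d:ℝ)⁻¹) := by
          rw [hlogd]
          have : (d:ℝ) ^ 2 * ((d:ℝ) ^ 3)⁻¹ = (d:ℝ)⁻¹ := by
            field_simp
          rw [this, one_mul]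
      _ ≤ G * ((d:ℝ) * (d:ℝ)⁻¹) :=
          mul_le_mul_of_nonneg_left (mul_le_mul_of_nonneg_right hD (by positivity)) hG
      _ = G := by
          rw [mul_inv_cancel₀ (by linarith), mul_one]
  linarith


theorem f_A (xs : ℕ → ℝ) (hd : 1 ≤ d) (t : ℕ) (hl : 1 ≤ lev d t) (hxs : 0 < xs (lev d t))
    (h : 2 ≤ rem d t) :
    Real.exp (-(ax xs d t + ax xs d (t + 1))) = (lev d t : ℝ) ^ 2 * xs (lev d t) /
      (2 * (rem d t : ℝ) * ((rem d t : ℝ) - 1)) * Real.exp (-sfun d t) := by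
  have h1 : (2:ℝ) ≤ rem d t := by exact_mod_cast h
  have h2 : (0:ℝ) < (rem d t : ℝ) - 1 := by linarith
  have h3 : (1:ℝ) ≤ lev d t := by exact_mod_cast hl
  rw [ax_add xs hd t hxs h, Real.exp_neg, Real.exp_log (by positivity), Real.exp_neg]
  field_simp

/-- the relative number of neighbours -/
theorem f_A_vol (hd : 1 ≤ d) (xs : ℕ → ℝ) {Q : BoxT n d} (hQ : Q.1 ≤ Q.2) {M : ℕ} {X : ℝ}
    (hl1 : 1 ≤ lev d (phi Q)) (hl : lev d (phi Q) ≤ M) {c : ℝ} (hc : c ≤ f_dl M / 8)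
    (hxs : 0 < xs (lev d (phi Q))) (hX : xs (lev d (phi Q)) ≤ X)
    (h : 2 ≤ rem d (phi Q)) :
    vol Q * (Real.exp (-(ax xs d (phi Q) + ax xs d (phi Q + 1))) *
      Real.exp (c * (2 * Exc (lev d (phi Q)) Q))) ≤
      (M : ℝ) ^ 2 * X / (2 * (rem d (phi Q) : ℝ) * ((rem d (phi Q) : ℝ) - 1)) *
      Real.exp (- (3 / 4 * f_dl M * ((Exc (lev d (phi Q)) Q : ℝ) + Lag (lev d (phi Q)) Q))) := by
  have h1 : (2:ℝ) ≤ rem d (phi Q) := by exact_mod_cast h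
  have h2 : (0:ℝ) < (rem d (phi Q) : ℝ) - 1 := by linarith
  have h3 : (1:ℝ) ≤ lev d (phi Q) := by exact_mod_cast hl1
  have h4 : (lev d (phi Q) : ℝ) ≤ M := by exact_mod_cast hl
  rw [f_A xs hd (phi Q) hl1 hxs h]
  have hv := f_vol hd hQ hl1 hl hc
  have h5 : (lev d (phi Q) : ℝ) ^ 2 * xs (lev d (phi Q)) ≤ (M:ℝ) ^ 2 * X := by
    have : (lev d (phi Q) : ℝ) ^ 2 ≤ (M:ℝ) ^ 2 := by gcongr
    exact mul_le_mul this hX hxs.le (by positivity)
  calc vol Q * ((lev d (phi Q) : ℝ) ^ 2 * xs (lev d (phi Q)) /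
      (2 * (rem d (phi Q) : ℝ) * ((rem d (phi Q) : ℝ) - 1)) * Real.exp (-sfun d (phi Q)) *
      Real.exp (c * (2 * Exc (lev d (phi Q)) Q)))
      = (lev d (phi Q) : ℝ) ^ 2 * xs (lev d (phi Q)) /
      (2 * (rem d (phi Q) : ℝ) * ((rem d (phi Q) : ℝ) - 1)) *
        (vol Q * Real.exp (c * (2 * Exc (lev d (phi Q)) Q)) * Real.exp (-sfun d (phi Q))) := by
        ring
    _ ≤ (M:ℝ) ^ 2 * X / (2 * (rem d (phi Q) : ℝ) * ((rem d (phi Q) : ℝ) - 1)) *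
        (Real.exp (sfun d (phi Q) - 3 / 4 * f_dl M * ((Exc (lev d (phi Q)) Q : ℝ) +
          Lag (lev d (phi Q)) Q)) * Real.exp (-sfun d (phi Q))) := by
        refine mul_le_mul ?_ ?_ ?_ ?_
        · exact div_le_div_of_nonneg_right h5 (by positivity)
        · exact mul_le_mul_of_nonneg_right hv (Real.exp_pos _).le
        · have := (vol_pos Q).le
          positivity
        · exact div_nonneg (le_trans (by positivity) h5) (by positivity)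
    _ = _ := by
        rw [← Real.exp_add]
        congr 2
        ring

theorem f_case_far (hd : 1 ≤ d) (M : ℕ) (xs : ℕ → ℝ) (hs : ℕ → ℝ → ℝ) (K : ℝ)
    (hadm : ∀ l, 1 ≤ l → l ≤ M + 1 → AdmU (yl l) (xs l) K (hs l)) (k r0 m1 : ℕ)
    (hr0 : 2 ≤ r0) (X : ℝ) (hX : ∀ l, 1 ≤ l → l ≤ M + 1 → xs l ≤ X)
    (L ε c κ Λ : ℝ) (hε : 0 < ε) (hε1 : ε ≤ 1) (hκe : κ = Real.exp (-K) * ε / 8)
    (hκ : 2 ≤ κ⁻¹) (hk : k ≤ M * d)
    (hc : 0 ≤ c) (hc2 : c ≤ f_dl M / 8) (hΛ : 0 ≤ Λ)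
    (hD : (M:ℝ) ^ 2 * X ≤ d * κ)
    (Z : Finset (Vtx n d)) {Q : BoxT n d} (hQ : Q.1 ≤ Q.2) (hkt : phi Q < k)
    (hB : ¬ Bad d k r0 m1 (phi Q))
    (hfar : 4 / f_dl M * Real.log d ≤ (Exc (lev d (phi Q)) Q : ℝ) + Lag (lev d (phi Q)) Q) :
    GG xs k r0 m1 L ε Λ c Q +
      ∑ x ∈ N2 Q \ Z, Real.exp (-L) *
        UU xs hs k r0 m1 L ε Λ c κ (Znext Q Z x) (ext Q x) ≤
      UU xs hs k r0 m1 L ε Λ c κ Z Q := by
  have hd1 : (1:ℝ) ≤ d := by exact_mod_cast hd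
  have hlog : 0 ≤ Real.log d := Real.log_nonneg hd1
  obtain ⟨hl1, hlM⟩ := f_lev (d := d) hkt hk
  have hadm' := hadm _ hl1 (by omega)
  have hB' : m1 ≤ phi Q ∧ 2 * r0 ≤ rem d (phi Q) ∧ phi Q + 2 * r0 ≤ k := by
    unfold Bad at hB
    omega
  obtain ⟨hB1, hB2, hB3⟩ := hB'
  have hG := f_GG_nonneg xs k r0 m1 L ε Λ c Q
  have hsum := f_crude M xs hs K hadm k r0 m1 L ε Λ c κ hκ hk hΛ hc Z hQ (by omega)
    (N2 Q \ Z) Finset.sdiff_subset _ (fun x _ => f_pen hd k r0 (by omega) hQ x)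
  have hUU : UU xs hs k r0 m1 L ε Λ c κ Z Q = κ⁻¹ * hs (lev d (phi Q))
      (rho (lev d (phi Q)) Z Q) * GG xs k r0 m1 L ε Λ c Q := by
    unfold UU
    rw [if_neg hB]
  rw [hUU]
  rw [if_neg hB, mul_zero, sub_zero] at hsum
  set G := GG xs k r0 m1 L ε Λ c Q with hGdef
  have hcard : ((N2 Q \ Z).card : ℝ) ≤ 2 * (d:ℝ) ^ 2 * vol Q := by
    refine le_trans ?_ (card_N2_le hQ)
    exact_mod_cast Finset.card_le_card Finset.sdiff_subset
  have hAv := f_A_vol hd xs hQ hl1 hlM hc2 hadm'.x_pos (hX _ hl1 (by omega)) (by omega)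
  have hr : (2:ℝ) ≤ rem d (phi Q) := by exact_mod_cast (by omega : 2 ≤ rem d (phi Q))
  have hX0 : 0 < X := lt_of_lt_of_le hadm'.x_pos (hX _ hl1 (by omega))
  have hκ0 : (0:ℝ) ≤ κ⁻¹ := by linarith
  have hκ1 : 0 < κ := by rw [hκe]; positivity
  have hlow := hadm'.lower _ (f_rho_nonneg (lev d (phi Q)) Z Q) (f_rho_le_one hl1 Z hQ)
  have hfar2 : Real.exp (-(3 / 4 * f_dl M * ((Exc (lev d (phi Q)) Q : ℝ) +
      Lag (lev d (phi Q)) Q))) ≤ ((d:ℝ) ^ 3)⁻¹ := by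
    have h1 : Real.exp (-(3 * Real.log d)) = ((d:ℝ) ^ 3)⁻¹ := by
      rw [Real.exp_neg, ← Real.log_rpow (by linarith), Real.exp_log (by positivity)]
      norm_num
    rw [← h1]
    refine Real.exp_le_exp.2 ?_
    have h2 := f_dl_pos M
    have h3 := mul_le_mul_of_nonneg_left hfar h2.le
    have h4 : f_dl M * (4 / f_dl M * Real.log d) = 4 * Real.log d := by
      field_simp
    rw [h4] at h3
    linarith
  have hexp : Real.exp (-(ax xs d (phi Q) + ax xs d (phi Q + 1)) - 2 * ε +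
      c * (2 * Exc (lev d (phi Q)) Q)) ≤
      Real.exp (-(ax xs d (phi Q) + ax xs d (phi Q + 1))) *
        Real.exp (c * (2 * Exc (lev d (phi Q)) Q)) := by
    rw [← Real.exp_add]
    refine Real.exp_le_exp.2 ?_
    linarith
  have hden : (1:ℝ) ≤ (rem d (phi Q) : ℝ) * ((rem d (phi Q) : ℝ) - 1) := by nlinarith
  have hfin : ((N2 Q \ Z).card : ℝ) * (κ⁻¹ * (G * Real.exp (-(ax xs d (phi Q) +
      ax xs d (phi Q + 1)) - 2 * ε + c * (2 * Exc (lev d (phi Q)) Q)))) ≤ κ⁻¹ * κ * G := by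
    have h5 : (0:ℝ) ≤ 2 * (d:ℝ) ^ 2 * vol Q := by
      have := (vol_pos Q).le
      positivity
    calc _ ≤ (2 * (d:ℝ) ^ 2 * vol Q) * (κ⁻¹ * (G * (Real.exp (-(ax xs d (phi Q) +
          ax xs d (phi Q + 1))) * Real.exp (c * (2 * Exc (lev d (phi Q)) Q))))) := by
          refine mul_le_mul hcard ?_ (by positivity) h5
          exact mul_le_mul_of_nonneg_left (mul_le_mul_of_nonneg_left hexp hG) hκ0
      _ = 2 * (d:ℝ) ^ 2 * κ⁻¹ * G * (vol Q * (Real.exp (-(ax xs d (phi Q) +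
          ax xs d (phi Q + 1))) * Real.exp (c * (2 * Exc (lev d (phi Q)) Q)))) := by
          ring
      _ ≤ 2 * (d:ℝ) ^ 2 * κ⁻¹ * G * ((M : ℝ) ^ 2 * X / (2 * (rem d (phi Q) : ℝ) *
          ((rem d (phi Q) : ℝ) - 1)) * ((d:ℝ) ^ 3)⁻¹) := by
          refine mul_le_mul_of_nonneg_left (hAv.trans ?_) (by positivity)
          refine mul_le_mul_of_nonneg_left hfar2 ?_
          have : (0:ℝ) ≤ (rem d (phi Q) : ℝ) - 1 := by linarith
          positivity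
      _ ≤ 2 * (d:ℝ) ^ 2 * κ⁻¹ * G * ((M : ℝ) ^ 2 * X / 2 * ((d:ℝ) ^ 3)⁻¹) := by
          refine mul_le_mul_of_nonneg_left ?_ (by positivity)
          refine mul_le_mul_of_nonneg_right ?_ (by positivity)
          refine div_le_div_of_nonneg_left (by positivity) (by norm_num) ?_
          linarith
      _ = κ⁻¹ * G * (((M : ℝ) ^ 2 * X) * (d:ℝ)⁻¹) := by
          field_simp
      _ ≤ κ⁻¹ * G * ((d * κ) * (d:ℝ)⁻¹) := by
          refine mul_le_mul_of_nonneg_left ?_ (by positivity)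
          exact mul_le_mul_of_nonneg_right hD (by positivity)
      _ = κ⁻¹ * κ * G := by
          field_simp
  have h6 : κ⁻¹ * κ = 1 := inv_mul_cancel₀ hκ1.ne'
  calc _ ≤ κ⁻¹ * κ * G + κ⁻¹ * κ * G := by
        rw [h6] at hfin ⊢
        linarith
    _ = κ⁻¹ * (2 * κ) * G := by ring
    _ ≤ κ⁻¹ * hs (lev d (phi Q)) (rho (lev d (phi Q)) Z Q) * G := by
        refine mul_le_mul_of_nonneg_right (mul_le_mul_of_nonneg_left ?_ hκ0) hG
        refine le_trans ?_ hlow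
        rw [hκe]
        have := Real.exp_pos (-K)
        nlinarith

/-- irregular neighbours which do not increase the excess -/
theorem f_irr1 (hd : 1 ≤ d) (M : ℕ) (xs : ℕ → ℝ) (hs : ℕ → ℝ → ℝ) (K : ℝ)
    (hadm : ∀ l, 1 ≤ l → l ≤ M + 1 → AdmU (yl l) (xs l) K (hs l)) (k r0 m1 : ℕ)
    (hr0 : 2 ≤ r0) (hr1 : Real.sqrt d ≤ r0) (X : ℝ) (hX : ∀ l, 1 ≤ l → l ≤ M + 1 → xs l ≤ X)
    (L ε c κ Λ K' : ℝ) (hε : 0 < ε)
    (hκ : 2 ≤ κ⁻¹) (hk : k ≤ M * d)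
    (hc : 0 ≤ c) (hc2 : c ≤ f_dl M / 8) (hΛ : 0 ≤ Λ)
    (hD1 : K' * Real.log d + 1 ≤ Real.sqrt d)
    (hD2 : 4 * ((M:ℝ) ^ 2 * X) * (K' * Real.log d) ≤ κ / 2 * Real.sqrt d)
    (Z : Finset (Vtx n d)) {Q : BoxT n d} (hQ : Q.1 ≤ Q.2) (hkt : phi Q < k)
    (hB : ¬ Bad d k r0 m1 (phi Q))
    (hnear : (Exc (lev d (phi Q)) Q : ℝ) + Lag (lev d (phi Q)) Q ≤ K' * Real.log d)
    (S : Finset (Vtx n d)) (hS : S ⊆ N2 Q) (hS2 : ∀ x ∈ S, x ∉ Nreg (lev d (phi Q)) Q ∧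
      Exc (lev d (phi Q)) (ext Q x) = Exc (lev d (phi Q)) Q) :
    ∑ x ∈ S, Real.exp (-L) *
        UU xs hs k r0 m1 L ε Λ c κ (Znext Q Z x) (ext Q x) ≤
      κ⁻¹ * GG xs k r0 m1 L ε Λ c Q * (κ / 2) := by
  have hd1 : (1:ℝ) ≤ d := by exact_mod_cast hd
  obtain ⟨hl1, hlM⟩ := f_lev (d := d) hkt hk
  have hadm' := hadm _ hl1 (by omega)
  have hB' : m1 ≤ phi Q ∧ 2 * r0 ≤ rem d (phi Q) ∧ phi Q + 2 * r0 ≤ k := by
    unfold Bad at hB
    omega
  obtain ⟨hB1, hB2, hB3⟩ := hB'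
  have hG := f_GG_nonneg xs k r0 m1 L ε Λ c Q
  have hsum := f_crude M xs hs K hadm k r0 m1 L ε Λ c κ hκ hk hΛ hc Z hQ (by omega)
    S hS _ (fun x _ => f_pen hd k r0 (by omega) hQ x)
  rw [if_neg hB, mul_zero, sub_zero] at hsum
  set G := GG xs k r0 m1 L ε Λ c Q with hGdef
  set E : ℝ := (Exc (lev d (phi Q)) Q : ℝ) with hE
  set lag : ℝ := (Lag (lev d (phi Q)) Q : ℝ) with hlag
  set r : ℝ := (rem d (phi Q) : ℝ) with hrdef
  have hE0 : 0 ≤ E := Nat.cast_nonneg _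
  have hlag0 : 0 ≤ lag := Nat.cast_nonneg _
  have hnle : (nle (lev d (phi Q)) Q : ℝ) ≤ r + E := by
    rw [hrdef, hE]
    exact_mod_cast nle_le hd hQ _ rfl
  have hcard : (S.card : ℝ) ≤ 4 * vol Q * lag * (nle (lev d (phi Q)) Q + 1) := by
    refine le_trans ?_ (card_lag_le hQ hl1)
    refine Nat.cast_le.2 (Finset.card_le_card ?_)
    intro x hx
    exact Finset.mem_filter.2 ⟨hS hx, hS2 x hx⟩
  have hAv := f_A_vol hd xs hQ hl1 hlM hc2 hadm'.x_pos (hX _ hl1 (by omega)) (by omega)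
  rw [← hE, ← hlag, ← hrdef] at hAv
  have hr2 : 2 * (r0:ℝ) ≤ r := by
    rw [hrdef]
    exact_mod_cast hB2
  have hr0' : (2:ℝ) ≤ r0 := by exact_mod_cast hr0
  have hr : (2:ℝ) ≤ r := by linarith
  have hX0 : 0 < X := lt_of_lt_of_le hadm'.x_pos (hX _ hl1 (by omega))
  have hκ0 : (0:ℝ) ≤ κ⁻¹ := by linarith
  have hdl := f_dl_pos M
  have hone : Real.exp (-(3 / 4 * f_dl M * (E + lag))) ≤ 1 := by
    refine Real.exp_le_one_iff.2 ?_
    have : 0 ≤ 3 / 4 * f_dl M * (E + lag) := by positivity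
    linarith
  have hexp : Real.exp (-(ax xs d (phi Q) + ax xs d (phi Q + 1)) - 2 * ε + c * (2 * E)) ≤
      Real.exp (-(ax xs d (phi Q) + ax xs d (phi Q + 1))) * Real.exp (c * (2 * E)) := by
    rw [← Real.exp_add]
    refine Real.exp_le_exp.2 ?_
    linarith
  refine hsum.trans ?_
  have hsq : 0 < Real.sqrt d := Real.sqrt_pos.2 (by linarith)
  have hrm : Real.sqrt d ≤ r - 1 := by linarith
  have hv0 := (vol_pos Q).le
  have hnl : (nle (lev d (phi Q)) Q : ℝ) + 1 ≤ 2 * r := by linarith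
  have hlagK : lag ≤ K' * Real.log d := by linarith
  calc (S.card : ℝ) * (κ⁻¹ * (G * Real.exp (-(ax xs d (phi Q) +
      ax xs d (phi Q + 1)) - 2 * ε + c * (2 * E))))
      ≤ (4 * vol Q * lag * (2 * r)) * (κ⁻¹ * (G * (Real.exp (-(ax xs d (phi Q) +
          ax xs d (phi Q + 1))) * Real.exp (c * (2 * E))))) := by
        refine mul_le_mul (hcard.trans ?_) ?_ (by positivity) (by positivity)
        · exact mul_le_mul_of_nonneg_left hnl (by positivity)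
        · exact mul_le_mul_of_nonneg_left (mul_le_mul_of_nonneg_left hexp hG) hκ0
    _ = κ⁻¹ * G * (8 * lag * r) * (vol Q * (Real.exp (-(ax xs d (phi Q) +
          ax xs d (phi Q + 1))) * Real.exp (c * (2 * E)))) := by ring
    _ ≤ κ⁻¹ * G * (8 * lag * r) * ((M : ℝ) ^ 2 * X / (2 * r * (r - 1)) * 1) := by
        refine mul_le_mul_of_nonneg_left (hAv.trans ?_) (by positivity)
        refine mul_le_mul_of_nonneg_left hone ?_
        have : (0:ℝ) ≤ r - 1 := by linarith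
        positivity
    _ = κ⁻¹ * G * (4 * ((M : ℝ) ^ 2 * X) * lag / (r - 1)) := by
        have : r - 1 ≠ 0 := by linarith
        field_simp
        ring
    _ ≤ κ⁻¹ * G * (κ / 2) := by
        refine mul_le_mul_of_nonneg_left ?_ (by positivity)
        rw [div_le_iff₀ (by linarith)]
        have hκp : 0 < κ := by
          by_contra hcon
          push Not at hcon
          have : κ⁻¹ ≤ 0 := inv_nonpos.2 hcon
          linarith
        calc 4 * ((M : ℝ) ^ 2 * X) * lag ≤ 4 * ((M : ℝ) ^ 2 * X) * (K' * Real.log d) :=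
              mul_le_mul_of_nonneg_left hlagK (by positivity)
          _ ≤ κ / 2 * Real.sqrt d := hD2
          _ ≤ κ / 2 * (r - 1) := mul_le_mul_of_nonneg_left hrm (by positivity)

theorem f_pen2 (hd : 1 ≤ d) (k r0 : ℕ) (hr0 : 2 ≤ r0) {Q : BoxT n d} (hQ : Q.1 ≤ Q.2)
    (h1 : 2 * r0 ≤ rem d (phi Q)) (h2 : phi Q + 2 * r0 ≤ k)
    (x : Vtx n d) (hx : Exc (lev d (phi Q)) (ext Q x) ≠ Exc (lev d (phi Q)) Q) :
    (th d k r0 (phi Q) : ℝ) * Exc (lev d (phi Q)) Q -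
      th d k r0 (phi Q + 2) * Exc (lev d (phi Q + 2)) (ext Q x) ≤
      2 * Exc (lev d (phi Q)) Q - ((r0 : ℝ) - 2) := by
  obtain ⟨h3, h4⟩ := lev_add (d := d) (t := phi Q) (i := 2) hd (by omega)
  rw [h3]
  have h5 : Exc (lev d (phi Q)) Q ≤ Exc (lev d (phi Q)) (ext Q x) := Exc_le_hull hQ _
  have h5' : (Exc (lev d (phi Q)) Q : ℝ) + 1 ≤ Exc (lev d (phi Q)) (ext Q x) := by
    exact_mod_cast (by omega : Exc (lev d (phi Q)) Q + 1 ≤ Exc (lev d (phi Q)) (ext Q x))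
  have h6 := th_sub (d := d) hd k r0 (phi Q) 2 (by omega) (by omega)
  have h6' : (th d k r0 (phi Q) : ℝ) ≤ th d k r0 (phi Q + 2) + 2 := by exact_mod_cast h6
  have h7 : r0 ≤ th d k r0 (phi Q + 2) + 2 := by
    unfold th
    rw [h4]
    omega
  have h7' : (r0 : ℝ) ≤ th d k r0 (phi Q + 2) + 2 := by exact_mod_cast h7
  have h8 : (0:ℝ) ≤ Exc (lev d (phi Q)) Q := Nat.cast_nonneg _
  have h9 : (0:ℝ) ≤ th d k r0 (phi Q + 2) := Nat.cast_nonneg _
  nlinarith [mul_le_mul_of_nonneg_right h6' h8, mul_le_mul_of_nonneg_left h5' h9]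

/-- neighbours which increase the excess -/
theorem f_irr2 (hd : 1 ≤ d) (M : ℕ) (xs : ℕ → ℝ) (hs : ℕ → ℝ → ℝ) (K : ℝ)
    (hadm : ∀ l, 1 ≤ l → l ≤ M + 1 → AdmU (yl l) (xs l) K (hs l)) (k r0 m1 : ℕ)
    (hr0 : 2 ≤ r0) (hr1 : Real.sqrt d ≤ r0) (X : ℝ) (hX : ∀ l, 1 ≤ l → l ≤ M + 1 → xs l ≤ X)
    (L ε c κ Λ : ℝ) (hε : 0 < ε)
    (hκ : 2 ≤ κ⁻¹) (hk : k ≤ M * d)
    (hc : 0 ≤ c) (hc2 : c ≤ f_dl M / 8) (hΛ : 0 ≤ Λ)
    (hD : (d:ℝ) ^ 2 * ((M:ℝ) ^ 2 * X) * Real.exp (-(c * (Real.sqrt d - 2))) ≤ κ / 2)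
    (Z : Finset (Vtx n d)) {Q : BoxT n d} (hQ : Q.1 ≤ Q.2) (hkt : phi Q < k)
    (hB : ¬ Bad d k r0 m1 (phi Q))
    (S : Finset (Vtx n d)) (hS : S ⊆ N2 Q) (hS2 : ∀ x ∈ S,
      Exc (lev d (phi Q)) (ext Q x) ≠ Exc (lev d (phi Q)) Q) :
    ∑ x ∈ S, Real.exp (-L) *
        UU xs hs k r0 m1 L ε Λ c κ (Znext Q Z x) (ext Q x) ≤
      κ⁻¹ * GG xs k r0 m1 L ε Λ c Q * (κ / 2) := by
  have hd1 : (1:ℝ) ≤ d := by exact_mod_cast hd
  obtain ⟨hl1, hlM⟩ := f_lev (d := d) hkt hk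
  have hadm' := hadm _ hl1 (by omega)
  have hB' : m1 ≤ phi Q ∧ 2 * r0 ≤ rem d (phi Q) ∧ phi Q + 2 * r0 ≤ k := by
    unfold Bad at hB
    omega
  obtain ⟨hB1, hB2, hB3⟩ := hB'
  have hG := f_GG_nonneg xs k r0 m1 L ε Λ c Q
  have hsum := f_crude M xs hs K hadm k r0 m1 L ε Λ c κ hκ hk hΛ hc Z hQ (by omega)
    S hS _ (fun x hx => f_pen2 hd k r0 hr0 hQ hB2 hB3 x (hS2 x hx))
  rw [if_neg hB, mul_zero, sub_zero] at hsum
  set G := GG xs k r0 m1 L ε Λ c Q with hGdef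
  set E : ℝ := (Exc (lev d (phi Q)) Q : ℝ) with hE
  set lag : ℝ := (Lag (lev d (phi Q)) Q : ℝ) with hlag
  set r : ℝ := (rem d (phi Q) : ℝ) with hrdef
  have hE0 : 0 ≤ E := Nat.cast_nonneg _
  have hlag0 : 0 ≤ lag := Nat.cast_nonneg _
  have hcard : (S.card : ℝ) ≤ 2 * (d:ℝ) ^ 2 * vol Q := by
    refine le_trans ?_ (card_N2_le hQ)
    exact_mod_cast Finset.card_le_card hS
  have hAv := f_A_vol hd xs hQ hl1 hlM hc2 hadm'.x_pos (hX _ hl1 (by omega)) (by omega)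
  rw [← hE, ← hlag, ← hrdef] at hAv
  have hr2 : 2 * (r0:ℝ) ≤ r := by
    rw [hrdef]
    exact_mod_cast hB2
  have hr0' : (2:ℝ) ≤ r0 := by exact_mod_cast hr0
  have hr : (2:ℝ) ≤ r := by linarith
  have hX0 : 0 < X := lt_of_lt_of_le hadm'.x_pos (hX _ hl1 (by omega))
  have hκ0 : (0:ℝ) ≤ κ⁻¹ := by linarith
  have hdl := f_dl_pos M
  have hone : Real.exp (-(3 / 4 * f_dl M * (E + lag))) ≤ 1 := by
    refine Real.exp_le_one_iff.2 ?_
    have : 0 ≤ 3 / 4 * f_dl M * (E + lag) := by positivity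
    linarith
  have hexp : Real.exp (-(ax xs d (phi Q) + ax xs d (phi Q + 1)) - 2 * ε +
      c * (2 * E - ((r0:ℝ) - 2))) ≤
      Real.exp (-(c * (Real.sqrt d - 2))) *
      (Real.exp (-(ax xs d (phi Q) + ax xs d (phi Q + 1))) * Real.exp (c * (2 * E))) := by
    rw [← Real.exp_add, ← Real.exp_add]
    refine Real.exp_le_exp.2 ?_
    have := mul_le_mul_of_nonneg_left hr1 hc
    linarith
  refine hsum.trans ?_
  have hv0 := (vol_pos Q).le
  have hden : (1:ℝ) ≤ r * (r - 1) := by nlinarith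
  calc (S.card : ℝ) * (κ⁻¹ * (G * Real.exp (-(ax xs d (phi Q) +
      ax xs d (phi Q + 1)) - 2 * ε + c * (2 * E - ((r0:ℝ) - 2)))))
      ≤ (2 * (d:ℝ) ^ 2 * vol Q) * (κ⁻¹ * (G * (Real.exp (-(c * (Real.sqrt d - 2))) *
          (Real.exp (-(ax xs d (phi Q) +
          ax xs d (phi Q + 1))) * Real.exp (c * (2 * E)))))) := by
        refine mul_le_mul hcard ?_ (by positivity) (by positivity)
        exact mul_le_mul_of_nonneg_left (mul_le_mul_of_nonneg_left hexp hG) hκ0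
    _ = κ⁻¹ * G * (2 * (d:ℝ) ^ 2 * Real.exp (-(c * (Real.sqrt d - 2)))) *
        (vol Q * (Real.exp (-(ax xs d (phi Q) +
          ax xs d (phi Q + 1))) * Real.exp (c * (2 * E)))) := by ring
    _ ≤ κ⁻¹ * G * (2 * (d:ℝ) ^ 2 * Real.exp (-(c * (Real.sqrt d - 2)))) *
        ((M : ℝ) ^ 2 * X / (2 * r * (r - 1)) * 1) := by
        refine mul_le_mul_of_nonneg_left (hAv.trans ?_) (by positivity)
        refine mul_le_mul_of_nonneg_left hone ?_
        have : (0:ℝ) ≤ r - 1 := by linarith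
        positivity
    _ ≤ κ⁻¹ * G * (2 * (d:ℝ) ^ 2 * Real.exp (-(c * (Real.sqrt d - 2)))) *
        ((M : ℝ) ^ 2 * X / 2 * 1) := by
        refine mul_le_mul_of_nonneg_left ?_ (by positivity)
        refine mul_le_mul_of_nonneg_right ?_ (by positivity)
        refine div_le_div_of_nonneg_left (by positivity) (by norm_num) ?_
        linarith
    _ = κ⁻¹ * G * ((d:ℝ) ^ 2 * ((M:ℝ) ^ 2 * X) * Real.exp (-(c * (Real.sqrt d - 2)))) := by
        ring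
    _ ≤ κ⁻¹ * G * (κ / 2) := mul_le_mul_of_nonneg_left hD (by positivity)


/-! ### regular neighbours -/

open Classical in
theorem f_dirs {l : ℕ} {Q : BoxT n d} {x : Vtx n d} (hx : x ∈ Nreg l Q) :
    (Finset.univ.filter (fun i => out Q x i = 1)).card = 2 := by
  unfold Nreg at hx
  obtain ⟨_, h1, h2⟩ := Finset.mem_filter.1 hx
  rw [Finset.card_filter, ← h2]
  refine Finset.sum_congr rfl fun i _ => ?_
  have := (h1 i).1
  split_ifs with h <;> omega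

open Classical in
/-- the forbidden regular points of the enlarged box -/
theorem f_count {Q : BoxT n d} (hQ : Q.1 ≤ Q.2) {l : ℕ} (hl : 1 ≤ l) (Z : Finset (Vtx n d))
    {x : Vtx n d} (hx : x ∈ Nreg l Q) :
    ((Nreg l Q ∩ Z).card : ℝ) + ((Nreg l Q \ Z).filter (fun z => rk z ≤ rk x)).card -
      8 * ((rr l Q : ℝ) - 1) * vol Q / (l : ℝ) ^ 2 ≤
      ((Nreg l (ext Q x) ∩ Znext Q Z x).card : ℝ) := by
  set W := (Nreg l Q).filter (fun z => z ∈ Z ∨ rk z ≤ rk x) with hW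
  set D := Finset.univ.filter (fun i => out Q x i = 1) with hD
  have h1 : (Nreg l Q ∩ Z).card + ((Nreg l Q \ Z).filter (fun z => rk z ≤ rk x)).card ≤
      W.card := by
    rw [← Finset.card_union_of_disjoint]
    · refine Finset.card_le_card ?_
      intro z hz
      rw [Finset.mem_union, Finset.mem_inter, Finset.mem_filter, Finset.mem_sdiff] at hz
      rw [hW, Finset.mem_filter]
      rcases hz with ⟨h, h'⟩ | ⟨⟨h, _⟩, h'⟩
      · exact ⟨h, Or.inl h'⟩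
      · exact ⟨h, Or.inr h'⟩
    · rw [Finset.disjoint_left]
      intro z hz hz'
      rw [Finset.mem_inter] at hz
      rw [Finset.mem_filter, Finset.mem_sdiff] at hz'
      exact hz'.1.2 hz.2
  have h2 : W ⊆ (Nreg l (ext Q x) ∩ Znext Q Z x) ∪
      D.biUnion (fun i => (Nreg l Q).filter (fun z => out Q z i = 1)) := by
    intro z hz
    rw [hW, Finset.mem_filter] at hz
    obtain ⟨hz1, hz2⟩ := hz
    rw [Finset.mem_union]
    by_cases hc : ∃ i, out Q x i = 1 ∧ out Q z i = 1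
    · right
      obtain ⟨i, hi1, hi2⟩ := hc
      rw [Finset.mem_biUnion]
      exact ⟨i, by rw [hD]; simp [hi1], Finset.mem_filter.2 ⟨hz1, hi2⟩⟩
    · left
      push Not at hc
      rw [Finset.mem_inter]
      constructor
      · refine Nreg_ext hQ hx hz1 ?_
        intro i hi
        have h3 := hc i hi
        unfold Nreg at hz1
        have h4 := ((Finset.mem_filter.1 hz1).2.1 i).1
        omega
      · unfold Znext
        rw [Finset.mem_union, Finset.mem_filter]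
        rcases hz2 with h | h
        · exact Or.inl h
        · exact Or.inr ⟨Nreg_subset hQ l hz1, h⟩
  have h3 : W.card ≤ (Nreg l (ext Q x) ∩ Znext Q Z x).card +
      ∑ i ∈ D, ((Nreg l Q).filter (fun z => out Q z i = 1)).card :=
    (Finset.card_le_card h2).trans ((Finset.card_union_le _ _).trans
      (Nat.add_le_add_left Finset.card_biUnion_le _))
  have h4 : ∑ i ∈ D, (((Nreg l Q).filter (fun z => out Q z i = 1)).card : ℝ) ≤
      8 * ((rr l Q : ℝ) - 1) * vol Q / (l : ℝ) ^ 2 := by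
    calc _ ≤ D.card • (4 * ((rr l Q : ℝ) - 1) * vol Q / (l : ℝ) ^ 2) := by
          refine Finset.sum_le_card_nsmul _ _ _ ?_
          intro i hi
          refine card_Nreg_dir hQ hl i ?_
          unfold Nreg at hx
          exact ((Finset.mem_filter.1 hx).2.1 i).2 (by
            rw [hD] at hi
            exact (Finset.mem_filter.1 hi).2)
      _ = _ := by
          rw [f_dirs hx, nsmul_eq_mul]
          push_cast
          ring
  have h5 : ((Nreg l Q ∩ Z).card : ℝ) +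
      ((Nreg l Q \ Z).filter (fun z => rk z ≤ rk x)).card ≤
      ((Nreg l (ext Q x) ∩ Znext Q Z x).card : ℝ) +
      ∑ i ∈ D, (((Nreg l Q).filter (fun z => out Q z i = 1)).card : ℝ) := by
    exact_mod_cast h1.trans h3
  linarith

theorem f_yl_pos {l : ℕ} (hl : 1 ≤ l) : 0 < yl l := by
  unfold yl
  have : (1:ℝ) ≤ l := by exact_mod_cast hl
  positivity

theorem f_yl_le_one (l : ℕ) : yl l ≤ 1 := by
  unfold yl
  have h1 : (l:ℝ) / (l + 1) ≤ 1 := by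
    rw [div_le_one (by positivity)]
    linarith
  have h0 : (0:ℝ) ≤ (l:ℝ) / (l + 1) := by positivity
  exact pow_le_one₀ h0 h1

/-- the number of regular points of the enlarged box -/
theorem f_nst_ext {Q : BoxT n d} (hQ : Q.1 ≤ Q.2) {l : ℕ} (hl : 1 ≤ l)
    {x : Vtx n d} (hx : x ∈ Nreg l Q) (hr : 4 ≤ rr l Q) :
    0 < nst l (ext Q x) ∧ nst l (ext Q x) * yl l ≤ nst l Q := by
  have h1 := rr_ext hQ hx
  have h2 : (rr l (ext Q x) : ℝ) = rr l Q - 2 := by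
    have : (rr l (ext Q x) : ℝ) + 2 = rr l Q := by exact_mod_cast h1
    linarith
  have h3 := vol_ext hQ hl hx
  have hl' : (1:ℝ) ≤ l := by exact_mod_cast hl
  have hr' : (4:ℝ) ≤ rr l Q := by exact_mod_cast hr
  have hv := vol_pos Q
  have e1 : nst l (ext Q x) = 2 * ((rr l Q : ℝ) - 2) * ((rr l Q : ℝ) - 3) *
      (vol Q * (((l : ℝ) + 1) / l) ^ 2) / (l:ℝ) ^ 2 := by
    unfold nst
    rw [h2, h3]
    ring
  have h4 : (0:ℝ) < (rr l Q : ℝ) - 2 := by linarith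
  have h5 : (0:ℝ) < (rr l Q : ℝ) - 3 := by linarith
  constructor
  · rw [e1]
    positivity
  · have e2 : nst l (ext Q x) * yl l = 2 * ((rr l Q : ℝ) - 2) * ((rr l Q : ℝ) - 3) * vol Q /
        (l:ℝ) ^ 2 := by
      rw [e1]
      unfold yl
      field_simp
    rw [e2]
    unfold nst
    refine div_le_div_of_nonneg_right ?_ (by positivity)
    refine mul_le_mul_of_nonneg_right ?_ hv.le
    nlinarith

/-- the fraction of forbidden regular points of the enlarged box -/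
theorem f_rho_ext {Q : BoxT n d} (hQ : Q.1 ≤ Q.2) {l : ℕ} (hl : 1 ≤ l) (Z : Finset (Vtx n d))
    {x : Vtx n d} (hx : x ∈ Nreg l Q) (hr : 4 ≤ rr l Q) :
    yl l * (rho l Z Q + (((Nreg l Q \ Z).filter (fun z => rk z ≤ rk x)).card : ℝ) / nst l Q -
      4 / rr l Q) ≤ rho l (Znext Q Z x) (ext Q x) := by
  obtain ⟨h1, h2⟩ := f_nst_ext hQ hl hx hr
  have hy := f_yl_pos hl
  have hr' : (4:ℝ) ≤ rr l Q := by exact_mod_cast hr
  have hl' : (1:ℝ) ≤ l := by exact_mod_cast hl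
  have hv := vol_pos Q
  have hN : 0 < nst l Q := lt_of_lt_of_le (mul_pos h1 hy) h2
  have hc := f_count hQ hl Z hx
  set s := rho l Z Q + (((Nreg l Q \ Z).filter (fun z => rk z ≤ rk x)).card : ℝ) / nst l Q -
      4 / rr l Q with hs
  rcases le_or_gt s 0 with h | h
  · exact le_trans (mul_nonpos_of_nonneg_of_nonpos hy.le h) (f_rho_nonneg _ _ _)
  have e1 : nst l Q * s = ((Nreg l Q ∩ Z).card : ℝ) +
      ((Nreg l Q \ Z).filter (fun z => rk z ≤ rk x)).card -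
      8 * ((rr l Q : ℝ) - 1) * vol Q / (l : ℝ) ^ 2 := by
    have e2 : nst l Q * (4 / rr l Q) = 8 * ((rr l Q : ℝ) - 1) * vol Q / (l : ℝ) ^ 2 := by
      unfold nst
      field_simp
      ring
    rw [hs, mul_sub, mul_add, e2]
    unfold rho
    rw [mul_div_cancel₀ _ hN.ne', mul_div_cancel₀ _ hN.ne']
  unfold rho
  rw [le_div_iff₀ h1]
  calc yl l * s * nst l (ext Q x) = (nst l (ext Q x) * yl l) * s := by ring
    _ ≤ nst l Q * s := mul_le_mul_of_nonneg_right h2 h.le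
    _ ≤ _ := by rw [e1]; exact hc

/-- comparison of the values of the function -/
theorem f_h_ext {y x K : ℝ} {h : ℝ → ℝ} (H : AdmU y x K h) {s ρ' a : ℝ} (hs0 : 0 ≤ s)
    (hs1 : s ≤ 1) (h0 : 0 ≤ ρ') (h1 : ρ' ≤ 1) (ha : 0 ≤ a) (hle : s - a ≤ ρ') :
    h ρ' ≤ h s * Real.exp (K * a) := by
  have hK := H.K_nonneg
  have hδ0 : 0 ≤ min a s := le_min ha hs0
  have h2 : h ρ' ≤ h (s - min a s) := by
    refine H.anti ⟨by linarith [min_le_right a s], by linarith⟩ ⟨h0, h1⟩ ?_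
    rcases le_total a s with h | h
    · rw [min_eq_left h]; exact hle
    · rw [min_eq_right h]; linarith
  have h3 := H.lip s (min a s) hδ0 (min_le_right a s) hs1
  refine h2.trans (h3.trans ?_)
  refine mul_le_mul_of_nonneg_left ?_ (f_h_nonneg H hs0 hs1)
  exact Real.exp_le_exp.2 (mul_le_mul_of_nonneg_left (min_le_left a s) hK)


/-- ratio of the number of regular points and the number expected for a balanced box -/
theorem f_ratio (hd : 1 ≤ d) (xs : ℕ → ℝ) {Q : BoxT n d} (hQ : Q.1 ≤ Q.2) {M : ℕ}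
    (hl1 : 1 ≤ lev d (phi Q)) (hl : lev d (phi Q) ≤ M)
    (hxs : 0 < xs (lev d (phi Q))) (h : 2 ≤ rem d (phi Q)) (hr' : 1 ≤ rr (lev d (phi Q)) Q) :
    Real.exp (-(ax xs d (phi Q) + ax xs d (phi Q + 1))) *
      (nst (lev d (phi Q)) Q / xs (lev d (phi Q))) ≤
      Real.exp (2 * ((Exc (lev d (phi Q)) Q : ℝ) / ((rem d (phi Q) : ℝ) - 1)) -
        f_dl M * Exc (lev d (phi Q)) Q) := by
  have hv := f_vol0 hd hQ hl1 hl
  have hrr : (rr (lev d (phi Q)) Q : ℝ) ≤ rem d (phi Q) + Exc (lev d (phi Q)) Q := by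
    exact_mod_cast rr_le hd hQ _ rfl
  have hr1 : (1:ℝ) ≤ rr (lev d (phi Q)) Q := by exact_mod_cast hr'
  have hr : (2:ℝ) ≤ rem d (phi Q) := by exact_mod_cast h
  have hl' : (1:ℝ) ≤ lev d (phi Q) := by exact_mod_cast hl1
  have hE0 : (0:ℝ) ≤ Exc (lev d (phi Q)) Q := Nat.cast_nonneg _
  have hlag0 : (0:ℝ) ≤ Lag (lev d (phi Q)) Q := Nat.cast_nonneg _
  rw [f_A xs hd (phi Q) hl1 hxs h]
  set E : ℝ := (Exc (lev d (phi Q)) Q : ℝ) with hE
  set lag : ℝ := (Lag (lev d (phi Q)) Q : ℝ) with hlag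
  set r : ℝ := (rem d (phi Q) : ℝ) with hrdef
  set r' : ℝ := (rr (lev d (phi Q)) Q : ℝ) with hr'def
  have hdl := f_dl_pos M
  have hrm : 0 < r - 1 := by linarith
  have hvv : vol Q * Real.exp (-sfun d (phi Q)) ≤ Real.exp (-(f_dl M * E)) := by
    refine (mul_le_mul_of_nonneg_right hv (Real.exp_pos _).le).trans ?_
    rw [← Real.exp_add]
    refine Real.exp_le_exp.2 ?_
    nlinarith [mul_nonneg hdl.le hlag0]
  have hu : 1 + E / (r - 1) ≤ Real.exp (E / (r - 1)) := by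
    have := Real.add_one_le_exp (E / (r - 1))
    linarith
  have hu0 : 0 ≤ E / (r - 1) := by positivity
  have h1 : r' * (r' - 1) ≤ r * (r - 1) * (Real.exp (E / (r - 1)) * Real.exp (E / (r - 1))) := by
    have h2 : r' ≤ r * (1 + E / (r - 1)) := by
      have : E ≤ r * (E / (r - 1)) := by
        rw [mul_div_assoc', le_div_iff₀ hrm]
        nlinarith
      linarith
    have h3 : r' - 1 ≤ (r - 1) * (1 + E / (r - 1)) := by
      have : (r - 1) * (E / (r - 1)) = E := mul_div_cancel₀ _ hrm.ne'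
      rw [mul_add, mul_one, this]
      linarith
    have h4 : r' ≤ r * Real.exp (E / (r - 1)) :=
      h2.trans (mul_le_mul_of_nonneg_left hu (by linarith))
    have h5 : r' - 1 ≤ (r - 1) * Real.exp (E / (r - 1)) :=
      h3.trans (mul_le_mul_of_nonneg_left hu hrm.le)
    calc r' * (r' - 1) ≤ (r * Real.exp (E / (r - 1))) * ((r - 1) * Real.exp (E / (r - 1))) :=
          mul_le_mul h4 h5 (by linarith) (by positivity)
      _ = _ := by ring
  have e1 : (lev d (phi Q) : ℝ) ^ 2 * xs (lev d (phi Q)) / (2 * r * (r - 1)) *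
      Real.exp (-sfun d (phi Q)) * (nst (lev d (phi Q)) Q / xs (lev d (phi Q))) =
      r' * (r' - 1) / (r * (r - 1)) * (vol Q * Real.exp (-sfun d (phi Q))) := by
    unfold nst
    rw [← hr'def]
    field_simp
  rw [e1]
  calc r' * (r' - 1) / (r * (r - 1)) * (vol Q * Real.exp (-sfun d (phi Q)))
      ≤ (Real.exp (E / (r - 1)) * Real.exp (E / (r - 1))) * Real.exp (-(f_dl M * E)) := by
        refine mul_le_mul ?_ hvv ?_ (by positivity)
        · rw [div_le_iff₀ (by positivity)]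
          linarith
        · have := (vol_pos Q).le
          positivity
    _ = _ := by
        rw [← Real.exp_add, ← Real.exp_add]
        congr 1
        ring

open Classical in
/-- the sum over the regular neighbours -/
theorem f_reg (hd : 1 ≤ d) (M : ℕ) (xs : ℕ → ℝ) (hs : ℕ → ℝ → ℝ) (K : ℝ)
    (hadm : ∀ l, 1 ≤ l → l ≤ M + 1 → AdmU (yl l) (xs l) K (hs l)) (k r0 m1 : ℕ)
    (hr0 : 2 ≤ r0)
    (L ε c κ Λ : ℝ) (hε : 0 < ε)
    (hκ : 2 ≤ κ⁻¹) (hκ2 : 2 ≤ κ⁻¹ * Real.exp (-K)) (hk : k ≤ M * d)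
    (hc : 0 ≤ c) (hc2 : c ≤ f_dl M / 8) (hΛ : 0 ≤ Λ)
    (Z : Finset (Vtx n d)) {Q : BoxT n d} (hQ : Q.1 ≤ Q.2) (hkt : phi Q < k)
    (hB : ¬ Bad d k r0 m1 (phi Q)) (hr4 : 4 ≤ rr (lev d (phi Q)) Q)
    (hD1 : 4 * K ≤ ε / 2 * rr (lev d (phi Q)) Q)
    (hD2 : 4 ≤ f_dl M * ((rem d (phi Q) : ℝ) - 1)) :
    ∑ x ∈ Nreg (lev d (phi Q)) Q \ Z, Real.exp (-L) *
        UU xs hs k r0 m1 L ε Λ c κ (Znext Q Z x) (ext Q x) ≤
      κ⁻¹ * GG xs k r0 m1 L ε Λ c Q * (hs (lev d (phi Q)) (rho (lev d (phi Q)) Z Q) *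
        Real.exp (-(3 / 2 * ε))) := by
  obtain ⟨hl1, hlM⟩ := f_lev (d := d) hkt hk
  have hadm' := hadm _ hl1 (by omega)
  have hB' : m1 ≤ phi Q ∧ 2 * r0 ≤ rem d (phi Q) ∧ phi Q + 2 * r0 ≤ k := by
    unfold Bad at hB
    omega
  obtain ⟨hB1, hB2, hB3⟩ := hB'
  have hG := f_GG_nonneg xs k r0 m1 L ε Λ c Q
  have hratio := f_ratio hd xs hQ hl1 hlM hadm'.x_pos (by omega) (by omega)
  have hlevt := (lev_add (d := d) (t := phi Q) (i := 2) hd (by omega)).1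
  set G := GG xs k r0 m1 L ε Λ c Q with hGdef
  set l := lev d (phi Q) with hl
  set N := nst l Q with hN
  set y := yl l with hy
  set x0 := xs l with hx0
  set h := hs l with hh
  set ρ := rho l Z Q with hρ
  set S := Nreg l Q \ Z with hS
  have hy0 : 0 < y := f_yl_pos hl1
  have hy1 : y ≤ 1 := f_yl_le_one l
  have hr4' : (4:ℝ) ≤ rr l Q := by exact_mod_cast hr4
  have hl' : (1:ℝ) ≤ l := by exact_mod_cast hl1
  have hx0p : 0 < x0 := hadm'.x_pos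
  have hNpos : 0 < N := by
    rw [hN]
    unfold nst
    have := vol_pos Q
    have h5 : (0:ℝ) < (rr l Q : ℝ) - 1 := by linarith
    positivity
  have hρ0 : 0 ≤ ρ := f_rho_nonneg l Z Q
  have hρ1 : ρ ≤ 1 := f_rho_le_one hl1 Z hQ
  have hκ0 : (0:ℝ) ≤ κ⁻¹ := by linarith
  have hK := hadm'.K_nonneg
  have hcardS : ρ + (S.card : ℝ) / N ≤ 1 := by
    have h1 : (Nreg l Q ∩ Z).card + S.card = (Nreg l Q).card := by
      rw [hS]
      exact Finset.card_inter_add_card_sdiff _ _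
    have h2 := card_Nreg_le hQ hl1
    rw [hρ]
    unfold rho
    rw [← add_div, div_le_one hNpos]
    have h3 : ((Nreg l Q ∩ Z).card : ℝ) + (S.card : ℝ) = ((Nreg l Q).card : ℝ) := by
      exact_mod_cast h1
    rw [h3]
    exact h2
  set F : ℕ → ℝ := fun j => x0 / N * h (y * (ρ + (j : ℝ) / N)) with hF
  have hFsum : ∑ x ∈ S, F ((S.filter (fun z => rk z ≤ rk x)).card) ≤ h ρ := by
    rw [f_sum_rank S rk f_rk_inj F]
    have h1 := hadm'.sum N ρ S.card hNpos hρ0 hcardS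
    refine le_trans (le_of_eq ?_) h1
    refine Finset.sum_congr rfl fun i _ => ?_
    simp only [hF]
    push_cast
    rfl
  set E : ℝ := (Exc l Q : ℝ) with hE
  set r : ℝ := (rem d (phi Q) : ℝ) with hrdef
  set A := Real.exp (-(ax xs d (phi Q) + ax xs d (phi Q + 1))) with hA
  set B := κ⁻¹ * G * ((A * (N / x0)) * Real.exp (-2 * ε + c * (2 * E) + K * (4 / rr l Q)))
    with hBdef
  have hE0 : 0 ≤ E := Nat.cast_nonneg _
  have hB0 : 0 ≤ B := by rw [hBdef]; positivity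
  have hterm : ∀ x ∈ S, Real.exp (-L) *
      UU xs hs k r0 m1 L ε Λ c κ (Znext Q Z x) (ext Q x) ≤
      B * F ((S.filter (fun z => rk z ≤ rk x)).card) := by
    intro x hx
    have hxN : x ∈ Nreg l Q := (Finset.mem_sdiff.1 hx).1
    have hxN2 : x ∈ N2 Q := Nreg_subset hQ l hxN
    have hphi := f_N2_phi hxN2
    have ht := f_term xs k r0 m1 L ε Λ c hΛ hc (by omega) hxN2 _ (f_pen hd k r0 (by omega) hQ x)
    rw [if_neg hB, mul_zero, sub_zero, ← hGdef, ← hl, ← hE] at ht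
    set i := (S.filter (fun z => rk z ≤ rk x)).card with hi
    have hi1 : i ≤ S.card := Finset.card_le_card (Finset.filter_subset _ _)
    have hi2 : (i:ℝ) / N ≤ (S.card:ℝ) / N := by
      refine div_le_div_of_nonneg_right ?_ hNpos.le
      exact_mod_cast hi1
    have hi3 : (0:ℝ) ≤ (i:ℝ) / N := by positivity
    have hσ0 : 0 ≤ ρ + (i:ℝ) / N := by linarith
    have hσ1 : ρ + (i:ℝ) / N ≤ 1 := by linarith
    have hs0 : 0 ≤ y * (ρ + (i:ℝ) / N) := by positivity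
    have hs1 : y * (ρ + (i:ℝ) / N) ≤ 1 := by nlinarith
    have hhs : 0 ≤ h (y * (ρ + (i:ℝ) / N)) := f_h_nonneg hadm' hs0 hs1
    have hUU : UU xs hs k r0 m1 L ε Λ c κ (Znext Q Z x) (ext Q x) ≤
        κ⁻¹ * (h (y * (ρ + (i:ℝ) / N)) * Real.exp (K * (4 / rr l Q))) *
          GG xs k r0 m1 L ε Λ c (ext Q x) := by
      have hGx := f_GG_nonneg xs k r0 m1 L ε Λ c (ext Q x)
      have hKe : 1 ≤ Real.exp (K * (4 / rr l Q)) := by
        refine Real.one_le_exp ?_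
        positivity
      unfold UU
      split_ifs with hb
      · refine mul_le_mul_of_nonneg_right ?_ hGx
        have hlow : Real.exp (-K) ≤ h (y * (ρ + (i:ℝ) / N)) := hadm'.lower _ hs0 hs1
        calc (2:ℝ) ≤ κ⁻¹ * Real.exp (-K) := hκ2
          _ ≤ κ⁻¹ * (h (y * (ρ + (i:ℝ) / N)) * 1) := by
              rw [mul_one]
              exact mul_le_mul_of_nonneg_left hlow hκ0
          _ ≤ _ := mul_le_mul_of_nonneg_left (mul_le_mul_of_nonneg_left hKe hhs) hκ0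
      · refine mul_le_mul_of_nonneg_right (mul_le_mul_of_nonneg_left ?_ hκ0) hGx
        rw [hphi, hlevt, ← hh]
        have h1 := f_rho_ext hQ hl1 Z hxN hr4
        refine f_h_ext hadm' hs0 hs1 (f_rho_nonneg _ _ _)
          (f_rho_le_one hl1 _ (ext_le hQ x)) (by positivity) ?_
        refine le_trans ?_ h1
        rw [← hS, ← hi, ← hρ, ← hN, ← hy, mul_sub]
        have h2 : y * (4 / (rr l Q : ℝ)) ≤ 1 * (4 / (rr l Q : ℝ)) :=
          mul_le_mul_of_nonneg_right hy1 (by positivity)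
        linarith
    calc Real.exp (-L) * UU xs hs k r0 m1 L ε Λ c κ (Znext Q Z x) (ext Q x)
        ≤ Real.exp (-L) * (κ⁻¹ * (h (y * (ρ + (i:ℝ) / N)) * Real.exp (K * (4 / rr l Q))) *
          GG xs k r0 m1 L ε Λ c (ext Q x)) :=
          mul_le_mul_of_nonneg_left hUU (Real.exp_pos _).le
      _ = κ⁻¹ * (h (y * (ρ + (i:ℝ) / N)) * Real.exp (K * (4 / rr l Q))) *
          (Real.exp (-L) * GG xs k r0 m1 L ε Λ c (ext Q x)) := by ring
      _ ≤ κ⁻¹ * (h (y * (ρ + (i:ℝ) / N)) * Real.exp (K * (4 / rr l Q))) *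
          (G * Real.exp (-(ax xs d (phi Q) + ax xs d (phi Q + 1)) - 2 * ε +
            c * (2 * E))) := mul_le_mul_of_nonneg_left ht (by positivity)
      _ = κ⁻¹ * G * h (y * (ρ + (i:ℝ) / N)) * (A * Real.exp (-2 * ε + c * (2 * E) +
            K * (4 / rr l Q))) := by
          have e1 : Real.exp (-(ax xs d (phi Q) + ax xs d (phi Q + 1)) - 2 * ε + c * (2 * E)) *
              Real.exp (K * (4 / rr l Q)) = A * Real.exp (-2 * ε + c * (2 * E) +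
              K * (4 / rr l Q)) := by
            rw [hA, ← Real.exp_add, ← Real.exp_add]
            congr 1
            ring
          rw [← e1]
          ring
      _ = B * F i := by
          rw [hBdef, hF]
          field_simp
  calc ∑ x ∈ S, Real.exp (-L) * UU xs hs k r0 m1 L ε Λ c κ (Znext Q Z x) (ext Q x)
      ≤ ∑ x ∈ S, B * F ((S.filter (fun z => rk z ≤ rk x)).card) := Finset.sum_le_sum hterm
    _ = B * ∑ x ∈ S, F ((S.filter (fun z => rk z ≤ rk x)).card) := by rw [Finset.mul_sum]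
    _ ≤ B * h ρ := mul_le_mul_of_nonneg_left hFsum hB0
    _ ≤ κ⁻¹ * G * (h ρ * Real.exp (-(3 / 2 * ε))) := by
        have hhρ : 0 ≤ h ρ := f_h_nonneg hadm' hρ0 hρ1
        have hBle : (A * (N / x0)) * Real.exp (-2 * ε + c * (2 * E) + K * (4 / rr l Q)) ≤
            Real.exp (-(3 / 2 * ε)) := by
          refine (mul_le_mul_of_nonneg_right hratio (Real.exp_pos _).le).trans ?_
          rw [← Real.exp_add]
          refine Real.exp_le_exp.2 ?_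
          have hrm : 0 < r - 1 := by
            have : (2:ℝ) ≤ r := by
              rw [hrdef]
              exact_mod_cast (by omega : 2 ≤ rem d (phi Q))
            linarith
          have h1 : K * (4 / rr l Q) ≤ ε / 2 := by
            rw [mul_div_assoc', div_le_iff₀ (by linarith)]
            linarith
          have h2 : 2 * (E / (r - 1)) ≤ f_dl M / 2 * E := by
            rw [mul_div_assoc', div_le_iff₀ hrm]
            nlinarith
          have h3 : c * (2 * E) ≤ f_dl M / 4 * E := by nlinarith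
          have h4 := mul_nonneg (f_dl_pos M).le hE0
          nlinarith
        rw [hBdef]
        calc κ⁻¹ * G * ((A * (N / x0)) * Real.exp (-2 * ε + c * (2 * E) + K * (4 / rr l Q))) *
            h ρ = κ⁻¹ * G * (h ρ * ((A * (N / x0)) * Real.exp (-2 * ε + c * (2 * E) +
              K * (4 / rr l Q)))) := by ring
          _ ≤ _ := mul_le_mul_of_nonneg_left (mul_le_mul_of_nonneg_left hBle hhρ)
              (by positivity)


open Classical in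
theorem f_case_near (hd : 1 ≤ d) (M : ℕ) (xs : ℕ → ℝ) (hs : ℕ → ℝ → ℝ) (K : ℝ)
    (hadm : ∀ l, 1 ≤ l → l ≤ M + 1 → AdmU (yl l) (xs l) K (hs l)) (k r0 m1 : ℕ)
    (hr0 : 4 ≤ r0) (hr1 : Real.sqrt d ≤ r0) (X : ℝ) (hX : ∀ l, 1 ≤ l → l ≤ M + 1 → xs l ≤ X)
    (L ε c κ Λ K' : ℝ) (hε : 0 < ε) (hε1 : ε ≤ 1) (hκe : κ = Real.exp (-K) * ε / 8)
    (hκ : 2 ≤ κ⁻¹) (hκ2 : 2 ≤ κ⁻¹ * Real.exp (-K)) (hk : k ≤ M * d)
    (hc : 0 ≤ c) (hc2 : c ≤ f_dl M / 8) (hΛ : 0 ≤ Λ)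
    (hD1 : K' * Real.log d + 1 ≤ Real.sqrt d)
    (hD2 : 4 * ((M:ℝ) ^ 2 * X) * (K' * Real.log d) ≤ κ / 2 * Real.sqrt d)
    (hD3 : (d:ℝ) ^ 2 * ((M:ℝ) ^ 2 * X) * Real.exp (-(c * (Real.sqrt d - 2))) ≤ κ / 2)
    (hD4 : 2 * K' * Real.log d ≤ Real.sqrt d)
    (hD5 : 4 * K ≤ ε / 2 * Real.sqrt d)
    (hD6 : 4 ≤ f_dl M * Real.sqrt d)
    (Z : Finset (Vtx n d)) {Q : BoxT n d} (hQ : Q.1 ≤ Q.2) (hkt : phi Q < k)
    (hB : ¬ Bad d k r0 m1 (phi Q))
    (hnear : (Exc (lev d (phi Q)) Q : ℝ) + Lag (lev d (phi Q)) Q ≤ K' * Real.log d) :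
    GG xs k r0 m1 L ε Λ c Q +
      ∑ x ∈ N2 Q \ Z, Real.exp (-L) *
        UU xs hs k r0 m1 L ε Λ c κ (Znext Q Z x) (ext Q x) ≤
      UU xs hs k r0 m1 L ε Λ c κ Z Q := by
  obtain ⟨hl1, hlM⟩ := f_lev (d := d) hkt hk
  have hadm' := hadm _ hl1 (by omega)
  have hB' : m1 ≤ phi Q ∧ 2 * r0 ≤ rem d (phi Q) ∧ phi Q + 2 * r0 ≤ k := by
    unfold Bad at hB
    omega
  obtain ⟨hB1, hB2, hB3⟩ := hB'
  have hG := f_GG_nonneg xs k r0 m1 L ε Λ c Q
  have hUU : UU xs hs k r0 m1 L ε Λ c κ Z Q = κ⁻¹ * hs (lev d (phi Q))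
      (rho (lev d (phi Q)) Z Q) * GG xs k r0 m1 L ε Λ c Q := by
    unfold UU
    rw [if_neg hB]
  have hlow := hadm'.lower _ (f_rho_nonneg (lev d (phi Q)) Z Q) (f_rho_le_one hl1 Z hQ)
  have hE0 : (0:ℝ) ≤ Exc (lev d (phi Q)) Q := Nat.cast_nonneg _
  have hlag0 : (0:ℝ) ≤ Lag (lev d (phi Q)) Q := Nat.cast_nonneg _
  have hr2 : 2 * (r0:ℝ) ≤ rem d (phi Q) := by exact_mod_cast hB2
  have hr0' : (4:ℝ) ≤ r0 := by exact_mod_cast hr0
  have hrr : (rem d (phi Q) : ℝ) + Exc (lev d (phi Q)) Q ≤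
      rr (lev d (phi Q)) Q + 2 * Lag (lev d (phi Q)) Q := by
    exact_mod_cast le_rr hd hQ _ rfl
  have hr' : (r0:ℝ) ≤ rr (lev d (phi Q)) Q := by linarith
  have hr4 : 4 ≤ rr (lev d (phi Q)) Q := by
    have : (4:ℝ) ≤ rr (lev d (phi Q)) Q := by linarith
    exact_mod_cast this
  have hdl := f_dl_pos M
  have h1 := f_reg hd M xs hs K hadm k r0 m1 (by omega) L ε c κ Λ hε hκ hκ2 hk hc hc2 hΛ Z hQ
    hkt hB hr4 (hD5.trans (mul_le_mul_of_nonneg_left (hr1.trans hr') (by positivity)))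
    (hD6.trans (mul_le_mul_of_nonneg_left (by linarith) hdl.le))
  set f : Vtx n d → ℝ := fun x => Real.exp (-L) *
        UU xs hs k r0 m1 L ε Λ c κ (Znext Q Z x) (ext Q x) with hf
  set I := (N2 Q \ Z).filter (fun x => x ∉ Nreg (lev d (phi Q)) Q) with hI
  have h2 := f_irr1 hd M xs hs K hadm k r0 m1 (by omega) hr1 X hX L ε c κ Λ K' hε hκ hk hc hc2
    hΛ hD1 hD2 Z hQ hkt hB hnear
    (I.filter (fun x => Exc (lev d (phi Q)) (ext Q x) = Exc (lev d (phi Q)) Q))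
    ((Finset.filter_subset _ _).trans ((Finset.filter_subset _ _).trans Finset.sdiff_subset))
    (by
      intro x hx
      rw [Finset.mem_filter, hI, Finset.mem_filter] at hx
      exact ⟨hx.1.2, hx.2⟩)
  have h3 := f_irr2 hd M xs hs K hadm k r0 m1 (by omega) hr1 X hX L ε c κ Λ hε hκ hk hc hc2
    hΛ hD3 Z hQ hkt hB
    (I.filter (fun x => ¬ Exc (lev d (phi Q)) (ext Q x) = Exc (lev d (phi Q)) Q))
    ((Finset.filter_subset _ _).trans ((Finset.filter_subset _ _).trans Finset.sdiff_subset))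
    (by
      intro x hx
      rw [Finset.mem_filter] at hx
      exact hx.2)
  have h4 : ∑ x ∈ N2 Q \ Z, f x = ∑ x ∈ Nreg (lev d (phi Q)) Q \ Z, f x +
      (∑ x ∈ I.filter (fun x => Exc (lev d (phi Q)) (ext Q x) = Exc (lev d (phi Q)) Q), f x +
      ∑ x ∈ I.filter (fun x => ¬ Exc (lev d (phi Q)) (ext Q x) = Exc (lev d (phi Q)) Q),
        f x) := by
    rw [Finset.sum_filter_add_sum_filter_not, hI,
      ← Finset.sum_filter_add_sum_filter_not (N2 Q \ Z) (fun x => x ∈ Nreg (lev d (phi Q)) Q)]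
    congr 2
    ext x
    rw [Finset.mem_filter, Finset.mem_sdiff, Finset.mem_sdiff]
    constructor
    · rintro ⟨⟨_, h⟩, h'⟩
      exact ⟨h', h⟩
    · rintro ⟨h, h'⟩
      exact ⟨⟨Nreg_subset hQ _ h, h'⟩, h⟩
  rw [hUU, h4]
  have hκ1 : 0 < κ := by rw [hκe]; positivity
  have hκ0 : (0:ℝ) ≤ κ⁻¹ := by linarith
  have h6 : κ⁻¹ * κ = 1 := inv_mul_cancel₀ hκ1.ne'
  set G := GG xs k r0 m1 L ε Λ c Q with hGdef
  set hh := hs (lev d (phi Q)) (rho (lev d (phi Q)) Z Q) with hhh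
  have hexp : Real.exp (-(3 / 2 * ε)) ≤ 1 - ε / 4 := by
    have h7 := Real.add_one_le_exp (3 / 2 * ε)
    rw [Real.exp_neg, inv_le_comm₀ (Real.exp_pos _) (by linarith)]
    refine le_trans ?_ h7
    rw [inv_le_iff_one_le_mul₀ (by linarith)]
    nlinarith
  have hhh0 : 0 ≤ hh := (Real.exp_pos _).le.trans hlow
  calc G + (∑ x ∈ Nreg (lev d (phi Q)) Q \ Z, f x +
      (∑ x ∈ I.filter (fun x => Exc (lev d (phi Q)) (ext Q x) = Exc (lev d (phi Q)) Q), f x +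
      ∑ x ∈ I.filter (fun x => ¬ Exc (lev d (phi Q)) (ext Q x) = Exc (lev d (phi Q)) Q),
        f x))
      ≤ κ⁻¹ * κ * G + (κ⁻¹ * G * (hh * Real.exp (-(3 / 2 * ε))) +
        (κ⁻¹ * G * (κ / 2) + κ⁻¹ * G * (κ / 2))) := by
        rw [h6, one_mul]
        linarith
    _ = κ⁻¹ * (2 * κ + hh * Real.exp (-(3 / 2 * ε))) * G := by ring
    _ ≤ κ⁻¹ * hh * G := by
        refine mul_le_mul_of_nonneg_right (mul_le_mul_of_nonneg_left ?_ hκ0) hG
        have h8 : 2 * κ ≤ ε / 4 * hh := by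
          rw [hκe]
          have := mul_le_mul_of_nonneg_left hlow (by positivity : (0:ℝ) ≤ ε / 4)
          linarith
        have h9 := mul_le_mul_of_nonneg_left hexp hhh0
        linarith

theorem f_ev (A B c' : ℝ) (hc : 0 < c') (hA : 0 ≤ A) :
    ∀ᶠ d : ℕ in Filter.atTop, A * Real.log d + B ≤ c' * Real.sqrt d := by
  obtain ⟨D, hD⟩ := exists_log_le (2 * A) B c' hc
  have h1 : Filter.Tendsto (fun d : ℕ => Real.sqrt d) Filter.atTop Filter.atTop :=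
    Real.tendsto_sqrt_atTop.comp tendsto_natCast_atTop_atTop
  filter_upwards [h1.eventually_ge_atTop D, h1.eventually_ge_atTop 1] with d h2 h3
  have h4 := hD _ h2
  have h5 : Real.log d = 2 * Real.log (Real.sqrt d) := by
    rw [Real.log_sqrt (Nat.cast_nonneg d)]
    ring
  have h6 : Real.log (Real.sqrt d) ≤ Real.log (4 * Real.sqrt d) :=
    Real.log_le_log (by linarith) (by linarith)
  rw [h5]
  have h7 := mul_le_mul_of_nonneg_left h6 hA
  linarith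

theorem f_sqrt_le {d : ℕ} : Real.sqrt d ≤ ((Nat.sqrt d + 1 : ℕ) : ℝ) := by
  push_cast
  exact Real.real_sqrt_le_nat_sqrt_succ

theorem step_ineq (M : ℕ) (xs : ℕ → ℝ) (hs : ℕ → ℝ → ℝ) (K ε : ℝ)
    (hadm : ∀ l, 1 ≤ l → l ≤ M + 1 → AdmU (yl l) (xs l) K (hs l)) (hε0 : 0 < ε) (hε1 : ε ≤ 1) :
    ∃ c₀ : ℝ, 0 < c₀ ∧ ∀ c, 0 < c → c ≤ c₀ → ∀ C₁ : ℝ, 3 ≤ C₁ → ∃ D₀ : ℕ,
    ∀ n d k m1 : ℕ, ∀ L : ℝ, D₀ ≤ d → k ≤ M * d → ∀ (Z : Finset (Vtx n d)) (Q : BoxT n d),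
    Q.1 ≤ Q.2 → phi Q < k →
      GG xs k (Nat.sqrt d + 1) m1 L ε (C₁ * Real.log d) c Q +
        ∑ x ∈ N2 Q \ Z, Real.exp (-L) *
          UU xs hs k (Nat.sqrt d + 1) m1 L ε (C₁ * Real.log d) c (Real.exp (-K) * ε / 8)
            (Znext Q Z x) (ext Q x) ≤
      UU xs hs k (Nat.sqrt d + 1) m1 L ε (C₁ * Real.log d) c (Real.exp (-K) * ε / 8) Z Q := by
  have hdl := f_dl_pos M
  refine ⟨f_dl M / 8, by positivity, ?_⟩
  intro c hc0 hc1 C₁ hC₁
  obtain ⟨C, hC⟩ := le_ax M xs (fun l h1 h2 => (hadm l h1 h2).x_pos)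
  have hK : 0 ≤ K := (hadm 1 le_rfl (by omega)).K_nonneg
  set κ := Real.exp (-K) * ε / 8 with hκe
  have hκ1 : 0 < κ := by rw [hκe]; positivity
  have hexpK : Real.exp (-K) ≤ 1 := Real.exp_le_one_iff.2 (by linarith)
  have hκ8 : κ ≤ 1 / 8 := by
    rw [hκe]
    have := mul_le_mul hexpK hε1 hε0.le zero_le_one
    linarith
  have hκ : 2 ≤ κ⁻¹ := by
    rw [le_inv_comm₀ (by norm_num) hκ1]
    linarith
  have hκ2 : 2 ≤ κ⁻¹ * Real.exp (-K) := by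
    rw [inv_mul_eq_div, le_div_iff₀ hκ1, hκe]
    have := mul_le_mul_of_nonneg_left hε1 (Real.exp_pos (-K)).le
    have := Real.exp_pos (-K)
    linarith
  obtain ⟨X, hX0, hX⟩ : ∃ X : ℝ, 0 ≤ X ∧ ∀ l, 1 ≤ l → l ≤ M + 1 → xs l ≤ X := by
    refine ⟨∑ l ∈ Finset.range (M + 2), |xs l|, Finset.sum_nonneg fun _ _ => abs_nonneg _, ?_⟩
    intro l _ hl
    refine (le_abs_self _).trans ?_
    exact Finset.single_le_sum (f := fun l => |xs l|) (fun _ _ => abs_nonneg _)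
      (Finset.mem_range.2 (by omega))
  have hK'0 : 0 ≤ 4 / f_dl M := by positivity
  have ev : ∀ᶠ d : ℕ in Filter.atTop,
      (1 ≤ d ∧ 2 * Real.exp (2 * C) * κ⁻¹ ≤ d ∧ (M:ℝ) ^ 2 * X ≤ d * κ) ∧
      (4 / f_dl M * Real.log d + 1 ≤ Real.sqrt d ∧
      4 * ((M:ℝ) ^ 2 * X) * (4 / f_dl M * Real.log d) ≤ κ / 2 * Real.sqrt d ∧
      (d:ℝ) ^ 2 * ((M:ℝ) ^ 2 * X) * Real.exp (-(c * (Real.sqrt d - 2))) ≤ κ / 2) ∧
      (2 * (4 / f_dl M) * Real.log d ≤ Real.sqrt d ∧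
      4 * K ≤ ε / 2 * Real.sqrt d ∧
      4 ≤ f_dl M * Real.sqrt d ∧ 4 ≤ Real.sqrt d) := by
    filter_upwards [Filter.eventually_ge_atTop 1, f_ev 0 (2 * Real.exp (2 * C) * κ⁻¹) 1
      one_pos le_rfl, f_ev 0 ((M:ℝ) ^ 2 * X) κ hκ1 le_rfl,
      f_ev (4 / f_dl M) 1 1 one_pos hK'0,
      f_ev (4 * ((M:ℝ) ^ 2 * X) * (4 / f_dl M)) 0 (κ / 2) (by positivity) (by positivity),
      f_ev 2 (Real.log (2 * ((M:ℝ) ^ 2 * X + 1) / κ) + 2 * c) c hc0 (by norm_num),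
      f_ev (2 * (4 / f_dl M)) 0 1 one_pos (by positivity),
      f_ev 0 (4 * K) (ε / 2) (by positivity) le_rfl,
      f_ev 0 4 (f_dl M) hdl le_rfl, f_ev 0 4 1 one_pos le_rfl] with d e1 e2 e3 e4 e5 e6 e7 e8 e9
      e10
    have hd1 : (1:ℝ) ≤ d := by exact_mod_cast e1
    have hsd : Real.sqrt d ≤ d := by
      rw [Real.sqrt_le_left (by linarith)]
      nlinarith
    refine ⟨⟨e1, by linarith, ?_⟩, ⟨by linarith, by linarith, ?_⟩, ⟨by linarith, by linarith,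
      by linarith, by linarith⟩⟩
    · have := mul_le_mul_of_nonneg_right hsd hκ1.le
      linarith
    · have h1 : (0:ℝ) < 2 * ((M:ℝ) ^ 2 * X + 1) / κ := by positivity
      have h2 : (0:ℝ) < d := by linarith
      have h3 : (d:ℝ) ^ 2 = Real.exp (2 * Real.log d) := by
        rw [two_mul, Real.exp_add, Real.exp_log h2]
        ring
      calc (d:ℝ) ^ 2 * ((M:ℝ) ^ 2 * X) * Real.exp (-(c * (Real.sqrt d - 2)))
          ≤ (d:ℝ) ^ 2 * ((M:ℝ) ^ 2 * X + 1) * Real.exp (-(c * (Real.sqrt d - 2))) := by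
            refine mul_le_mul_of_nonneg_right (mul_le_mul_of_nonneg_left ?_ (by positivity))
              (Real.exp_pos _).le
            linarith
        _ = κ / 2 * (Real.exp (2 * Real.log d) *
              Real.exp (Real.log (2 * ((M:ℝ) ^ 2 * X + 1) / κ)) *
              Real.exp (-(c * (Real.sqrt d - 2)))) := by
            rw [Real.exp_log h1, h3]
            field_simp
        _ ≤ κ / 2 * 1 := by
            refine mul_le_mul_of_nonneg_left ?_ (by positivity)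
            rw [← Real.exp_add, ← Real.exp_add]
            refine Real.exp_le_one_iff.2 ?_
            linarith
        _ = κ / 2 := mul_one _
  obtain ⟨D₀, hD₀⟩ := Filter.eventually_atTop.1 ev
  refine ⟨D₀, ?_⟩
  intro n d k m1 L hd hk Z Q hQ hkt
  obtain ⟨⟨a1, a2, a3⟩, ⟨a4, a5, a6⟩, a7, a8, a9, a10⟩ := hD₀ d hd
  have hr1 := f_sqrt_le (d := d)
  have hr0 : 4 ≤ Nat.sqrt d + 1 := by
    have : (4:ℝ) ≤ ((Nat.sqrt d + 1 : ℕ) : ℝ) := a10.trans hr1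
    exact_mod_cast this
  have hd1 : (1:ℝ) ≤ d := by exact_mod_cast a1
  have hΛ : 0 ≤ C₁ * Real.log d := mul_nonneg (by linarith) (Real.log_nonneg hd1)
  by_cases hB : Bad d k (Nat.sqrt d + 1) m1 (phi Q)
  · exact f_case_bad a1 M xs hs K hadm k _ m1 (by omega) L ε c κ C₁ C hε0.le hκ hk hc0.le hc1
      hC₁ hC a2 Z hQ hkt hB
  · rcases le_total (4 / f_dl M * Real.log d) ((Exc (lev d (phi Q)) Q : ℝ) +
      Lag (lev d (phi Q)) Q) with h | h
    · exact f_case_far a1 M xs hs K hadm k _ m1 (by omega) X hX L ε c κ _ hε0 hε1 hκe hκ hk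
        hc0.le hc1 hΛ a3 Z hQ hkt hB h
    · exact f_case_near a1 M xs hs K hadm k _ m1 hr0 hr1 X hX L ε c κ _ _ hε0 hε1 hκe hκ hκ2
        hk hc0.le hc1 hΛ a4 a5 a6 a7 a8 a9 Z hQ hkt hB h

/-- consequence: the generating function of the point sets is bounded by the potential -/
theorem stretch (M : ℕ) (xs : ℕ → ℝ) (hs : ℕ → ℝ → ℝ) (K ε : ℝ)
    (hadm : ∀ l, 1 ≤ l → l ≤ M + 1 → AdmU (yl l) (xs l) K (hs l)) (hε0 : 0 < ε) (hε1 : ε ≤ 1) :
    ∃ c₀ : ℝ, 0 < c₀ ∧ ∀ c, 0 < c → c ≤ c₀ → ∀ C₁ : ℝ, 3 ≤ C₁ → ∃ D₀ : ℕ,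
    ∀ n d k m1 : ℕ, ∀ L : ℝ, D₀ ≤ d → k ≤ M * d → ∀ Q : BoxT n d,
    Q.1 ≤ Q.2 → phi Q < k →
      Fz (Real.exp (-L)) (GG xs k (Nat.sqrt d + 1) m1 L ε (C₁ * Real.log d) c) ∅ Q ≤
        (Real.exp (-K) * ε / 8)⁻¹ * GG xs k (Nat.sqrt d + 1) m1 L ε (C₁ * Real.log d) c Q := by
  obtain ⟨c₀, hc₀, H⟩ := step_ineq M xs hs K ε hadm hε0 hε1
  refine ⟨c₀, hc₀, ?_⟩
  intro c hc0 hc1 C₁ hC₁
  obtain ⟨D₀, HD⟩ := H c hc0 hc1 C₁ hC₁
  refine ⟨D₀, ?_⟩
  intro n d k m1 L hd hk Q hQ hkt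
  have hK : 0 ≤ K := (hadm 1 le_rfl (by omega)).K_nonneg
  set κ := Real.exp (-K) * ε / 8 with hκe
  have hκ1 : 0 < κ := by rw [hκe]; positivity
  have hexpK : Real.exp (-K) ≤ 1 := Real.exp_le_one_iff.2 (by linarith)
  have hκ8 : κ ≤ 1 / 8 := by
    rw [hκe]
    have := mul_le_mul hexpK hε1 hε0.le zero_le_one
    linarith
  have hκ : 2 ≤ κ⁻¹ := by
    rw [le_inv_comm₀ (by norm_num) hκ1]
    linarith
  have hp : 0 ≤ Real.exp (-L) := (Real.exp_pos _).le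
  have hg := f_GG_nonneg (n := n) (d := d) xs k (Nat.sqrt d + 1) m1 L ε (C₁ * Real.log d) c
  have key : ∀ (j : ℕ) (Z : Finset (Vtx n d)) (R : BoxT n d), R.1 ≤ R.2 → k - phi R ≤ j →
      Fz (Real.exp (-L)) (GG xs k (Nat.sqrt d + 1) m1 L ε (C₁ * Real.log d) c) Z R ≤
      UU xs hs k (Nat.sqrt d + 1) m1 L ε (C₁ * Real.log d) c κ Z R := by
    intro j
    induction j with
    | zero =>
      intro Z R hR hj
      have hkR : k ≤ phi R := by omega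
      rw [f_UU_zero _ _ _ _ _ _ _ _ _ _ _ _ hkR]
      calc _ ≤ Fz (Real.exp (-L)) (fun S => 0 *
            GG xs k (Nat.sqrt d + 1) m1 L ε (C₁ * Real.log d) c S) Z R := by
            refine Fz_mono hp Z hR ?_
            intro S _ hS
            rw [f_GG_zero _ _ _ _ _ _ _ _ _ (hkR.trans hS), mul_zero]
        _ = 0 := by rw [Fz_smul, zero_mul]
    | succ j ih =>
      intro Z R hR hj
      rcases lt_or_ge (phi R) k with h | h
      · refine (Fz_le hp hg Z hR).trans (le_trans ?_ (HD n d k m1 L hd hk Z R hR h))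
        refine add_le_add le_rfl (Finset.sum_le_sum fun x hx => ?_)
        refine mul_le_mul_of_nonneg_left ?_ hp
        refine ih (Znext R Z x) (ext R x) (ext_le hR x) ?_
        have := f_N2_phi (Finset.mem_sdiff.1 hx).1
        omega
      · exact ih Z R hR (by omega)
  exact (key _ ∅ Q hQ le_rfl).trans (f_UU_le M xs hs K hadm k _ m1 L ε _ c κ hκ hk ∅ hQ)

end F

end Pool.Agent.Lib.MP_8501c9_pr.Mid

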