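import Pool.Agent.Lib.MP_8501c9_pr.Mid.Ext2
import Pool.Agent.Lib.MP_8501c9_pr.Mid.Func
import Pool.Agent.Lib.MP_8501c9_pr.Mid.Level
import Pool.Agent.Lib.MP_8501c9_pr.Mid.Step
import Pool.Agent.Lib.MP_8501c9_pr.Mid.MergeMid

/-!
# Upper bound for the percolation probability when `d` is of order `log n`
-/

set_option autoImplicit false
open Set

namespace Pool.Agent.Lib.MP_8501c9_pr.Mid

open Pool.Agent.Lib.MP_8501c9_pr

theorem h_GG_nonneg {n d : ℕ} (xs : ℕ → ℝ) (k r0 m1 : ℕ) (L ε Λ c : ℝ) (Q : BoxT n d) :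
    0 ≤ GG xs k r0 m1 L ε Λ c Q := by
  unfold GG
  split_ifs
  · exact (Real.exp_pos _).le
  · exact le_rfl

/-- the lower order terms are negligible -/
theorem h_small (C₁ C₂ a : ℝ) (M : ℕ) (hC₁ : 0 ≤ C₁) (hC₂ : 0 ≤ C₂) (ha : 0 < a) :
    ∃ D₀ : ℕ, ∀ d : ℕ, D₀ ≤ d →
      C₁ * Real.log d * ((⌈C₂ * Real.log d⌉₊ : ℝ) + 2 * ((Nat.sqrt d : ℝ) + 1) * (M + 2)) +
        2 < a * d := by
  set B : ℝ := C₁ * 4 * (4 * C₂ + 1 + 4 * (M + 2)) + 2 with hB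
  have hB0 : 0 < B := by positivity
  have hT : Filter.Tendsto (fun d : ℕ => (d : ℝ) ^ (1 / 4 : ℝ)) Filter.atTop Filter.atTop :=
    (tendsto_rpow_atTop (by norm_num)).comp tendsto_natCast_atTop_atTop
  obtain ⟨D, hD⟩ := Filter.eventually_atTop.1
    ((hT.eventually_gt_atTop (B / a)).and (Filter.eventually_ge_atTop 1))
  refine ⟨D, fun d hd => ?_⟩
  obtain ⟨h1, h2⟩ := hD d hd
  have hd1 : (1 : ℝ) ≤ d := by exact_mod_cast h2
  set u : ℝ := (d : ℝ) ^ (1 / 4 : ℝ) with hu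
  have hu1 : 1 ≤ u := Real.one_le_rpow hd1 (by norm_num)
  have hu4 : u ^ 4 = d := by
    rw [hu, ← Real.rpow_natCast, ← Real.rpow_mul (by linarith)]
    norm_num
  have hu2 : (Nat.sqrt d : ℝ) ≤ u ^ 2 := by
    have h3 : (Nat.sqrt d : ℝ) ≤ Real.sqrt d := Real.nat_sqrt_le_real_sqrt
    have h4 : Real.sqrt d = u ^ 2 := by
      rw [← hu4, show u ^ 4 = (u ^ 2) ^ 2 by ring, Real.sqrt_sq (by positivity)]
    rw [← h4]
    exact h3
  have hlog : Real.log d ≤ 4 * u := by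
    have h3 := Real.log_le_rpow_div (show (0 : ℝ) ≤ d by linarith)
      (show (0 : ℝ) < 1 / 4 by norm_num)
    rw [← hu] at h3
    linarith
  have hlog0 : 0 ≤ Real.log d := Real.log_nonneg hd1
  have hceil : (⌈C₂ * Real.log d⌉₊ : ℝ) ≤ 4 * C₂ * u ^ 2 + u ^ 2 := by
    have h3 := (Nat.ceil_lt_add_one (mul_nonneg hC₂ hlog0)).le
    have h4 : C₂ * Real.log d ≤ C₂ * (4 * u) := mul_le_mul_of_nonneg_left hlog hC₂
    have h5 : u ≤ u ^ 2 := by nlinarith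
    have h6 : C₂ * u ≤ C₂ * u ^ 2 := mul_le_mul_of_nonneg_left h5 hC₂
    nlinarith
  have hsq : 2 * ((Nat.sqrt d : ℝ) + 1) * (M + 2) ≤ 4 * (M + 2) * u ^ 2 := by
    have h3 : (Nat.sqrt d : ℝ) + 1 ≤ 2 * u ^ 2 := by nlinarith
    have h4 : (0 : ℝ) ≤ (M : ℝ) + 2 := by positivity
    nlinarith
  have hmain : C₁ * Real.log d * ((⌈C₂ * Real.log d⌉₊ : ℝ) +
      2 * ((Nat.sqrt d : ℝ) + 1) * (M + 2)) ≤
      C₁ * (4 * u) * ((4 * C₂ + 1 + 4 * (M + 2)) * u ^ 2) := by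
    refine mul_le_mul (mul_le_mul_of_nonneg_left hlog hC₁) ?_ (by positivity) (by positivity)
    nlinarith
  have h7 : (2 : ℝ) ≤ 2 * u ^ 3 := by
    have : 1 ≤ u ^ 3 := one_le_pow₀ hu1
    linarith
  have h8 : C₁ * (4 * u) * ((4 * C₂ + 1 + 4 * (M + 2)) * u ^ 2) + 2 ≤ B * u ^ 3 := by
    have : C₁ * (4 * u) * ((4 * C₂ + 1 + 4 * (M + 2)) * u ^ 2) + 2 * u ^ 3 = B * u ^ 3 := by
      rw [hB]; ring
    linarith
  have h9 : B < a * u := by
    rw [div_lt_iff₀ ha] at h1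
    linarith
  have h10 : B * u ^ 3 < a * u * u ^ 3 := mul_lt_mul_of_pos_right h9 (by positivity)
  have h11 : a * u * u ^ 3 = a * d := by rw [← hu4]; ring
  linarith

theorem percProb_mid_lt (M : ℕ) (xs : ℕ → ℝ) (hs : ℕ → ℝ → ℝ) (K ε c₃ : ℝ)
    (hadm : ∀ l, 1 ≤ l → l ≤ M + 1 → AdmU (yl l) (xs l) K (hs l)) (hε0 : 0 < ε) (hε1 : ε ≤ 1)
    (hc₃ : 0 < c₃) :
    ∃ C₀ : ℝ, ∃ D₀ : ℕ, ∀ n d k : ℕ, ∀ L : ℝ, D₀ ≤ d → c₃ * d ≤ k → k ≤ M * d →
      k ≤ d * (n - 1) → sfun d k + C₀ * Real.log d ≤ L →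
      d * Real.log n + ∑ t ∈ Finset.range k, ax xs d t + 2 * ε * k ≤ ((k : ℝ) / 2 + 1) * L →
      percProb n d 2 (Real.exp (-L)) < 1 / 2 := by
  classical
  set κ : ℝ := Real.exp (-K) * ε / 8 with hκ
  have hκ0 : 0 < κ := by positivity
  have hxs : ∀ l, 1 ≤ l → l ≤ M + 1 → 0 < xs l := fun l h1 h2 => (hadm l h1 h2).x_pos
  obtain ⟨cF, hcF0, hF⟩ := stretch M xs hs K ε hadm hε0 hε1
  obtain ⟨cG, hcG0, hG⟩ := merge_ineq M xs hxs ε κ c₃ hε0 hε1 hκ0 hc₃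
  set c : ℝ := min cF cG with hc
  have hc0 : 0 < c := lt_min hcF0 hcG0
  obtain ⟨C₀, C₁, C₂, hC₁, hC₀, hC₂, DG, hG⟩ := hG c hc0 (min_le_right _ _)
  obtain ⟨DF, hF⟩ := hF c hc0 (min_le_left _ _) C₁ hC₁
  obtain ⟨DS, hS⟩ := h_small C₁ C₂ (ε * c₃) M (by linarith) hC₂ (by positivity)
  refine ⟨C₀, DG + DF + DS + 1, fun n d k L hd hck hkM hkn hL hmain => ?_⟩
  have hd1 : 1 ≤ d := by omega
  have hd1' : (1 : ℝ) ≤ d := by exact_mod_cast hd1
  have hk1 : 1 ≤ k := by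
    by_contra hcon
    have hk0 : k = 0 := by omega
    rw [hk0] at hck
    have : 0 < c₃ * d := by positivity
    norm_num at hck
    linarith
  have hn2 : 2 ≤ n := by
    by_contra hcon
    have : n - 1 = 0 := by omega
    rw [this] at hkn
    omega
  have hn0 : (0 : ℝ) < n := by exact_mod_cast (by omega : 0 < n)
  have hlogd : 0 ≤ Real.log d := Real.log_nonneg hd1'
  have hL0 : 0 ≤ L := by
    have h1 : 0 ≤ sfun d k := by
      rw [← sfun_zero d]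
      exact sfun_mono d hd1 (Nat.zero_le k)
    have h2 : 0 ≤ C₀ * Real.log d := mul_nonneg hC₀ hlogd
    linarith
  set p : ℝ := Real.exp (-L) with hp
  have hp0 : 0 ≤ p := (Real.exp_pos _).le
  have hp1 : p ≤ 1 := Real.exp_le_one_iff.2 (by linarith)
  set m1 : ℕ := ⌈C₂ * Real.log d⌉₊ with hm1
  set r0 : ℕ := Nat.sqrt d + 1 with hr0
  set Λ : ℝ := C₁ * Real.log d with hΛ
  have hΛ0 : 0 ≤ Λ := mul_nonneg (by linarith) hlogd
  set G : BoxT n d → ℝ := GG xs k r0 m1 L ε Λ c with hGdef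
  have hG0 : ∀ R, 0 ≤ G R := fun R => h_GG_nonneg _ _ _ _ _ _ _ _ _
  have hkey : ∀ Q : BoxT n d, Q.1 ≤ Q.2 → phi Q < k →
      Fz p (fun R => if phi R < k then TT p k R + XG p k G R else 0) ∅ Q ≤ G Q := by
    intro Q hQ hQk
    have h1 : Fz p (fun R => if phi R < k then TT p k R + XG p k G R else 0) ∅ Q ≤
        Fz p (fun R => κ * G R) ∅ Q := by
      refine Fz_mono hp0 ∅ hQ fun R hR _ => ?_
      by_cases hRk : phi R < k
      · rw [if_pos hRk]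
        exact hG n d k L (by omega) hck hkM hL R hR hRk
      · rw [if_neg hRk]
        exact mul_nonneg hκ0.le (hG0 R)
    have h2 := hF n d k m1 L (by omega) hkM Q hQ hQk
    rw [Fz_smul] at h1
    refine h1.trans ?_
    calc κ * Fz p G ∅ Q ≤ κ * (κ⁻¹ * G Q) := mul_le_mul_of_nonneg_left h2 hκ0.le
      _ = G Q := by rw [← mul_assoc, mul_inv_cancel₀ hκ0.ne', one_mul]
  have h1 := percProb_le_TT hd1 p hp0 hp1 k hk1 hkn
  have h2 := wt_func_bound hp0 k G hG0 hkey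
  -- value at the points
  have h3 : ∀ x : Vtx n d, G (x, x) ≤ Real.exp (psi xs d k r0 m1 L ε Λ 0) := by
    intro x
    have hphi : phi ((x, x) : BoxT n d) = 0 := by simp [phi]
    rw [hGdef]
    unfold GG
    rw [hphi, if_pos (by omega)]
    refine Real.exp_le_exp.2 ?_
    have : 0 ≤ c * (th d k r0 0 : ℝ) * (Exc (lev d 0) ((x, x) : BoxT n d) : ℝ) := by positivity
    linarith
  have h4 : ∑ x : Vtx n d, G (x, x) ≤ (n : ℝ) ^ d * Real.exp (psi xs d k r0 m1 L ε Λ 0) := by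
    calc ∑ x : Vtx n d, G (x, x) ≤ ∑ _x : Vtx n d, Real.exp (psi xs d k r0 m1 L ε Λ 0) :=
          Finset.sum_le_sum fun x _ => h3 x
      _ = (n : ℝ) ^ d * Real.exp (psi xs d k r0 m1 L ε Λ 0) := by
          rw [Finset.sum_const, Finset.card_univ, Fintype.card_fun, Fintype.card_fin,
            Fintype.card_fin, nsmul_eq_mul]
          push_cast
          ring
  have h5 : (n : ℝ) ^ d = Real.exp (d * Real.log n) := by
    rw [mul_comm, Real.exp_mul, Real.exp_log hn0, Real.rpow_natCast]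
  have h6 : psi xs d k r0 m1 L ε Λ 0 ≤ ∑ t ∈ Finset.range k, ax xs d t - (k : ℝ) * (L / 2) +
      (k : ℝ) * ε + Λ * (m1 + 2 * r0 * (M + 2)) := by
    unfold psi
    have e1 : ∑ s ∈ Finset.Ico 0 k, (ax xs d s - L / 2 + ε) =
        ∑ t ∈ Finset.range k, ax xs d t - (k : ℝ) * (L / 2) + (k : ℝ) * ε := by
      rw [← Finset.range_eq_Ico, Finset.sum_add_distrib, Finset.sum_sub_distrib,
        Finset.sum_const, Finset.sum_const, Finset.card_range, nsmul_eq_mul, nsmul_eq_mul]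
    rw [e1]
    have e2 : (nbad d k r0 m1 0 : ℝ) ≤ (m1 : ℝ) + 2 * r0 * (M + 2) := by
      exact_mod_cast nbad_zero_le d k r0 m1 M hd1 hkM
    have e3 := mul_le_mul_of_nonneg_left e2 hΛ0
    linarith
  have h7 : percProb n d 2 p ≤ 2 * Real.exp (-L + (d * Real.log n +
      psi xs d k r0 m1 L ε Λ 0)) := by
    calc percProb n d 2 p ≤ 2 * ∑ Q : BoxT n d with (Q.1 ≤ Q.2 ∧ phi Q < k),
          wt p Q * TT p k Q := h1
      _ ≤ 2 * (p * ∑ x : Vtx n d, G (x, x)) := by linarith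
      _ ≤ 2 * (p * ((n : ℝ) ^ d * Real.exp (psi xs d k r0 m1 L ε Λ 0))) := by
          have := mul_le_mul_of_nonneg_left h4 hp0
          linarith
      _ = 2 * Real.exp (-L + (d * Real.log n + psi xs d k r0 m1 L ε Λ 0)) := by
          rw [Real.exp_add, Real.exp_add, ← h5, hp]
  have hsmall := hS d (by omega)
  have h8 : -L + (d * Real.log n + psi xs d k r0 m1 L ε Λ 0) < -2 := by
    have e1 : Λ * ((m1 : ℝ) + 2 * r0 * (M + 2)) =
        C₁ * Real.log d * ((⌈C₂ * Real.log d⌉₊ : ℝ) + 2 * ((Nat.sqrt d : ℝ) + 1) * (M + 2)) := by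
      rw [hΛ, hm1, hr0]
      push_cast
      ring
    have e2 : ε * c₃ * d ≤ ε * k := by
      have := mul_le_mul_of_nonneg_left hck hε0.le
      linarith
    nlinarith
  have h9 : Real.exp (-L + (d * Real.log n + psi xs d k r0 m1 L ε Λ 0)) < Real.exp (-2) :=
    Real.exp_lt_exp.2 h8
  have h10 : Real.exp (-2 : ℝ) ≤ 1 / 4 := by
    have e1 : (2 : ℝ) ≤ Real.exp 1 := by
      have := Real.add_one_le_exp (1 : ℝ)
      linarith
    have e2 : Real.exp (-2 : ℝ) = (Real.exp 1 * Real.exp 1)⁻¹ := by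
      rw [← Real.exp_add, ← Real.exp_neg]
      norm_num
    rw [e2]
    rw [one_div]
    exact inv_anti₀ (by norm_num) (by nlinarith)
  linarith

end Pool.Agent.Lib.MP_8501c9_pr.Mid
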