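import Pool.Agent.Lib.MP_8501c9_pr.Mid.Panto
import Pool.Agent.Lib.MP_8501c9_pr.Mid.LowerMid
import Pool.Agent.Lib.MP_8501c9_pr.Mid.UpperMid
import Pool.Agent.Lib.MP_8501c9_pr.Mid.Aopt
import Pool.Agent.Lib.MP_8501c9_pr.Mid.Asym

/-!
# The critical probability up to a factor `1 + o(1)` when `d` is of order `log n`
-/

set_option autoImplicit false
open Set

namespace Pool.Agent.Lib.MP_8501c9_pr.Mid

open Pool.Agent.Lib.MP_8501c9_pr

theorem AdmL.mono_nu {y x ν ν' : ℝ} {g : ℝ → ℝ} (H : AdmL y x ν g) (h0 : 0 < ν') (h : ν' ≤ ν) :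
    AdmL y x ν' g where
  x_pos := H.x_pos
  ν_pos := h0
  ν_le := h.trans H.ν_le
  zero := H.zero
  anti := H.anti
  lip := H.lip
  y_le := by
    rcases le_or_gt 0 y with hy | hy
    · exact (mul_le_mul_of_nonneg_left (by linarith) hy).trans H.y_le
    · nlinarith
  y_nonneg := fun s hs0 hs => by
    rcases le_or_gt 0 y with hy | hy
    · exact H.y_nonneg s hs0 (hs.trans (mul_le_mul_of_nonneg_left (by linarith) hy))
    · exfalso
      nlinarith
  top := fun s hs hs1 => H.top s (by linarith) hs1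
  sum := fun N ρ M hN hρ hρ1 h1 h2 => by
    have := H.sum N ρ M hN hρ hρ1 h1 (by linarith)
    linarith

/-! ### auxiliary facts -/

theorem u_percProb_zero {n d : ℕ} (hn : 1 ≤ n) : percProb n d 2 0 = 0 := by
  classical
  unfold percProb Pr
  refine Finset.sum_eq_zero fun A hA => ?_
  have hA2 := (Finset.mem_filter.1 hA).2
  by_cases hA0 : A = ∅
  · exfalso
    subst hA0
    have h1 : bclosure 2 (((∅ : Finset (Vtx n d)) : Set (Vtx n d))) = univ := hA2
    have h2 : step 2 (∅ : Set (Vtx n d)) = ∅ := by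
      unfold step
      ext v
      simp
    have h3 : bclosure 2 (((∅ : Finset (Vtx n d)) : Set (Vtx n d))) = ∅ := by
      unfold bclosure
      rw [Finset.coe_empty]
      have : ∀ t : ℕ, (step 2)^[t] (∅ : Set (Vtx n d)) = ∅ := fun t =>
        Function.iterate_fixed h2 t
      simp [this]
    rw [h3] at h1
    have h4 : (fun _ => ⟨0, hn⟩ : Vtx n d) ∈ (∅ : Set (Vtx n d)) := by
      rw [h1]; trivial
    exact h4
  · have h1 : A.card ≠ 0 := fun h => hA0 (Finset.card_eq_zero.1 h)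
    rw [zero_pow h1, zero_mul]

theorem u_large (A B c : ℝ) (hc : 0 < c) : ∃ D : ℕ, ∀ d : ℕ, D ≤ d →
    A ≤ Real.log d ∧ B * Real.log d ≤ c * d ∧ 2 ≤ d := by
  have h1 : Filter.Tendsto (fun d : ℕ => Real.log d) Filter.atTop Filter.atTop :=
    Real.tendsto_log_atTop.comp tendsto_natCast_atTop_atTop
  have h2 : ∀ᶠ d : ℕ in Filter.atTop, B * Real.log d ≤ c * d := by
    have h3 : (fun x : ℝ => B * Real.log x) =o[Filter.atTop] (fun x : ℝ => x) :=
      Real.isLittleO_log_id_atTop.const_mul_left B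
    have h4 := (h3.bound hc).and (Filter.eventually_ge_atTop (0 : ℝ))
    have h5 := tendsto_natCast_atTop_atTop.eventually h4
    filter_upwards [h5] with d hd
    have h6 := hd.1
    rw [Real.norm_eq_abs, Real.norm_eq_abs, abs_of_nonneg hd.2] at h6
    exact (le_abs_self _).trans h6
  obtain ⟨D, hD⟩ := Filter.eventually_atTop.1
    (((h1.eventually_ge_atTop A).and h2).and (Filter.eventually_ge_atTop 2))
  exact ⟨D, fun d hd => ⟨(hD d hd).1.1, (hD d hd).1.2, (hD d hd).2⟩⟩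

theorem u_min (f : ℕ → ℝ) (N : ℕ) (hf : ∀ l, 1 ≤ l → 0 < f l) :
    ∃ e : ℝ, 0 < e ∧ ∀ l, 1 ≤ l → l ≤ N → e ≤ f l := by
  induction N with
  | zero => exact ⟨1, one_pos, fun l h1 h2 => by omega⟩
  | succ N ih =>
    obtain ⟨e, he, h⟩ := ih
    refine ⟨min e (f (N + 1)), lt_min he (hf _ (by omega)), fun l h1 h2 => ?_⟩
    rcases Nat.lt_or_ge N l with h3 | h3
    · have : l = N + 1 := by omega
      rw [this]
      exact min_le_right _ _
    · exact (min_le_left _ _).trans (h l h1 h3)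

theorem u_max (f : ℕ → ℝ) (N : ℕ) : ∃ e : ℝ, ∀ l, l ≤ N → f l ≤ e := by
  induction N with
  | zero => exact ⟨f 0, fun l h2 => by rw [Nat.le_zero.1 h2]⟩
  | succ N ih =>
    obtain ⟨e, h⟩ := ih
    refine ⟨max e (f (N + 1)), fun l h2 => ?_⟩
    rcases Nat.lt_or_ge N l with h3 | h3
    · have : l = N + 1 := by omega
      rw [this]
      exact le_max_right _ _
    · exact (h l h3).trans (le_max_left _ _)

theorem u_vslope_pos (M : ℕ) : 0 < vslope M :=
  lt_of_lt_of_le (by positivity) (vslope_ge M)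

/-- increments of the volume exponent -/
theorem u_slope (M : ℕ) {u w : ℝ} (hw : w ≤ M) (huw : u ≤ w) :
    (w - u) * vslope M ≤ vfun w - vfun u := by
  have h1 := vfun_sub_le w u
  have h2 : ⌊w⌋₊ ≤ M := by
    have := Nat.floor_le_floor hw
    rwa [Nat.floor_natCast] at this
  have h3 := mul_le_mul_of_nonneg_left (vslope_anti h2) (sub_nonneg.2 huw)
  linarith

theorem u_slope_abs (M : ℕ) {u w : ℝ} (hu : u ≤ M) (hw : w ≤ M) :
    vslope M * |u - w| ≤ |vfun u - vfun w| := by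
  rcases le_total u w with h | h
  · have h1 := u_slope M hw h
    rw [abs_sub_comm u w, abs_sub_comm (vfun u), abs_of_nonneg (sub_nonneg.2 h)]
    refine le_trans ?_ (le_abs_self _)
    linarith
  · have h1 := u_slope M hu h
    rw [abs_of_nonneg (sub_nonneg.2 h)]
    refine le_trans ?_ (le_abs_self _)
    linarith

theorem u_brk (xs : ℕ → ℝ) (e : ℝ) (he : 0 < e) (hxs : ∀ l, 1 ≤ l → 0 < xs l) {a : ℝ}
    (ha : 0 < a) : (2 * brk (fun l => e * xs l) a + 2 * vfun a) / a =
      (2 * brk xs a + 2 * vfun a) / a + Real.log e := by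
  rw [brk_scale xs e a he ha.le hxs]
  field_simp
  ring

/-- the data at a pair `n, d` -/
theorem u_data (c₀ C : ℝ) (hc₀ : 0 < c₀) (M : ℕ) (hM : 4 * C + 3 ≤ M) {n d : ℕ} (hd : 1 ≤ d)
    (h1 : c₀ * d ≤ Real.log n) (h2 : Real.log n ≤ C * d) :
    0 < Real.log n / d ∧ 2 * c₀ ≤ aopt (Real.log n / d) ∧ aopt (Real.log n / d) + 1 ≤ M ∧
      ell (Real.log n / d) = vfun (aopt (Real.log n / d)) := by
  have hd0 : (0 : ℝ) < d := by exact_mod_cast hd
  have hb1 : c₀ ≤ Real.log n / d := by rw [le_div_iff₀ hd0]; exact h1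
  have hb2 : Real.log n / d ≤ C := by rw [div_le_iff₀ hd0]; exact h2
  have hb0 : 0 < Real.log n / d := by linarith
  obtain ⟨ha0, hell, _, ha2, ha4⟩ := aopt_spec hb0
  exact ⟨hb0, by linarith, by linarith, hell⟩

theorem u_cexp (c₀ : ℝ) (hc₀ : 0 < c₀) (M : ℕ) : ∃ Cc : ℝ, 0 ≤ Cc ∧ ∀ b : ℝ, 2 * c₀ ≤ aopt b →
    aopt b ≤ M → |cexp b| ≤ Cc := by
  obtain ⟨Cb, hCb⟩ := brk_bound M lam (fun l hl _ => lam_pos l hl)
  refine ⟨(2 * |Cb| + 2 * M) / (2 * c₀), by positivity, fun b h1 h2 => ?_⟩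
  have ha0 : 0 < aopt b := by linarith
  have h3 := (hCb (aopt b) ha0.le h2).trans (le_abs_self Cb)
  have h4 : vfun (aopt b) ≤ M := by
    have h5 := vfun_le_log ha0.le
    have h6 := Real.log_le_sub_one_of_pos (show (0 : ℝ) < 1 + aopt b by linarith)
    linarith
  have h5 := vfun_nonneg ha0.le
  unfold cexp
  rw [abs_div, abs_of_pos ha0]
  have h6 : |2 * brk lam (aopt b) + 2 * vfun (aopt b)| ≤ 2 * |Cb| + 2 * M := by
    refine (abs_add_le _ _).trans ?_
    rw [abs_mul, abs_mul, abs_of_nonneg h5]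
    norm_num
    linarith
  refine (div_le_div_of_nonneg_right h6 ha0.le).trans ?_
  exact div_le_div_of_nonneg_left (by positivity) (by positivity) h1

/-! ### the lower bound -/

theorem pc_mid_lower (c₀ C ε : ℝ) (hc₀ : 0 < c₀) (hε : 0 < ε) : ∃ D₀ : ℕ, ∀ n d : ℕ, D₀ ≤ d →
    c₀ * d ≤ Real.log n → Real.log n ≤ C * d →
    Real.exp (-(d * ell (Real.log n / d) + 2 * Real.log d - cexp (Real.log n / d) + ε)) ≤
      pc n d 2 := by
  obtain ⟨M, hM⟩ := exists_nat_ge (4 * C + 3)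
  set s : ℝ := Real.exp (-(ε / 2)) with hs
  have hs0 : 0 < s := Real.exp_pos _
  have hs1 : s < 1 := by
    have := Real.exp_lt_exp.2 (show -(ε / 2) < 0 by linarith)
    rwa [Real.exp_zero] at this
  have hlogs : Real.log s = -(ε / 2) := Real.log_exp _
  set xs : ℕ → ℝ := fun l => s * lam l with hxs
  have hxs0 : ∀ l, 1 ≤ l → 0 < xs l := fun l hl => mul_pos hs0 (lam_pos l hl)
  set hh : ℕ → ℝ → ℝ := fun l ρ => Phi (yl l) (s * lam l * ρ) with hhh
  have hK1 : ∀ l, ∃ K, 1 ≤ l → AdmU (yl l) (xs l) K (hh l) := by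
    intro l
    rcases Nat.lt_or_ge l 1 with hl | hl
    · exact ⟨0, fun h => by omega⟩
    · obtain ⟨K, hK⟩ := adm_upper l hl (1 - s) (by linarith) (by linarith)
      rw [show (1 : ℝ) - (1 - s) = s by ring] at hK
      exact ⟨K, fun _ => hK⟩
  choose Kf hKf using hK1
  obtain ⟨K, hK⟩ := u_max Kf (M + 1)
  have hadm : ∀ l, 1 ≤ l → l ≤ M + 1 → AdmU (yl l) (xs l) K (hh l) := fun l h1 h2 =>
    (hKf l h1).mono_K (hK l h2)
  set e' : ℝ := min 1 (ε / 16) with he'
  have he'0 : 0 < e' := lt_min one_pos (by positivity)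
  have he'1 : e' ≤ ε / 16 := min_le_right _ _
  obtain ⟨C₀, D1, hD1⟩ := percProb_mid_lt M xs hh K e' c₀ hadm he'0 (min_le_left _ _) hc₀
  set σ : ℝ := vslope M with hσ
  have hσ0 : 0 < σ := u_vslope_pos M
  set C' : ℝ := |C₀| / σ with hC'
  have hC'0 : 0 ≤ C' := by positivity
  obtain ⟨D2, hD2⟩ := Fex_asymp c₀ C (C' + 2) (c₀ * ε / 8) hc₀ (by positivity) xs hxs0
  obtain ⟨Cc, hCc0, hCc⟩ := u_cexp c₀ hc₀ M
  obtain ⟨D3, hD3⟩ := u_large (1 + Cc + Real.log (M + 1) / c₀) (C' + 2) c₀ hc₀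
  refine ⟨D1 + D2 + D3, fun n d hd hn1 hn2 => ?_⟩
  obtain ⟨hl1, hl2, hd2⟩ := hD3 d (by omega)
  have hd0 : (0 : ℝ) < d := by exact_mod_cast (by omega : 0 < d)
  have hdd : Real.log d ≤ d := by
    have := Real.log_le_sub_one_of_pos hd0
    linarith
  have hlM : 0 ≤ Real.log ((M : ℝ) + 1) / c₀ :=
    div_nonneg (Real.log_nonneg (by linarith [(Nat.cast_nonneg M : (0 : ℝ) ≤ M)])) hc₀.le
  have hlog1 : 1 ≤ Real.log d := by linarith
  have hlog0 : 0 ≤ Real.log d := by linarith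
  obtain ⟨hb0, ha1, ha2, hell⟩ := u_data c₀ C hc₀ M hM (by omega) hn1 hn2
  set b := Real.log n / d with hb
  set a := aopt b with ha
  have ha0 : 0 < a := by linarith
  have hcc := hCc b ha1 (by linarith)
  have hcc1 := (abs_le.1 hcc).2
  -- `n` is large
  have hnM : M + 1 ≤ n := by
    have h1 : Real.log ((M : ℝ) + 1) ≤ Real.log n := by
      have h2 : Real.log ((M : ℝ) + 1) / c₀ ≤ d := by linarith
      rw [div_le_iff₀ hc₀] at h2
      linarith
    have hn0 : (0 : ℝ) < n := by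
      by_contra hcon
      have : (n : ℝ) = 0 := le_antisymm (not_lt.1 hcon) (Nat.cast_nonneg n)
      rw [this, Real.log_zero] at hn1
      have : 0 < c₀ * d := by positivity
      linarith
    have h2 := (Real.log_le_log_iff (by positivity) hn0).1 h1
    exact_mod_cast h2
  -- the critical size
  set kk : ℕ := ⌊a * d⌋₊ with hkk
  set r : ℕ := ⌈C' * Real.log d⌉₊ with hr
  have hkk1 : (kk : ℝ) ≤ a * d := Nat.floor_le (by positivity)
  have hkk2 : a * d < kk + 1 := Nat.lt_floor_add_one _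
  have hr1 : C' * Real.log d ≤ r := Nat.le_ceil _
  have hr2 : (r : ℝ) < C' * Real.log d + 1 := Nat.ceil_lt_add_one (by positivity)
  have had : 2 * c₀ * d ≤ a * d := mul_le_mul_of_nonneg_right ha1 hd0.le
  have hrk : r ≤ kk := by
    have h1 : (r : ℝ) < kk + 1 := by
      have : 0 < c₀ * d := by positivity
      nlinarith
    have h2 : r < kk + 1 := by exact_mod_cast h1
    omega
  set k : ℕ := kk - r with hk
  have hkr : (k : ℝ) = kk - r := by rw [hk, Nat.cast_sub hrk]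
  have hk1 : (k : ℝ) ≤ a * d - C' * Real.log d := by rw [hkr]; linarith
  have hk2 : a * d - (C' + 2) * Real.log d ≤ k := by rw [hkr]; nlinarith
  have hck : c₀ * d ≤ k := by linarith
  have hkM' : (k : ℝ) ≤ M * d := by
    have h1 : a * d ≤ M * d := mul_le_mul_of_nonneg_right (by linarith) hd0.le
    have h2 : 0 ≤ C' * Real.log d := by positivity
    linarith
  have hkM : k ≤ M * d := by exact_mod_cast hkM'
  have hkn : k ≤ d * (n - 1) := by
    refine hkM.trans ?_
    rw [mul_comm]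
    exact Nat.mul_le_mul_left d (by omega)
  -- the volume at the critical size
  have hsf : sfun d k + C₀ * Real.log d ≤ d * ell b := by
    have hkd : (k : ℝ) / d ≤ a := by
      rw [div_le_iff₀ hd0]
      have h2 : 0 ≤ C' * Real.log d := by positivity
      linarith
    have h1 := u_slope M (u := (k : ℝ) / d) (w := a) (by linarith) hkd
    have h2 : sfun d k = d * vfun ((k : ℝ) / d) := rfl
    have h3 : d * ((a - (k : ℝ) / d) * σ) = (a * d - k) * σ := by
      field_simp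
    have h4 := mul_le_mul_of_nonneg_left h1 hd0.le
    rw [← hσ, h3] at h4
    have h5 : C' * Real.log d * σ ≤ (a * d - k) * σ :=
      mul_le_mul_of_nonneg_right (by linarith) hσ0.le
    have h6 : C' * Real.log d * σ = |C₀| * Real.log d := by
      rw [hC']
      field_simp
    have h7 : C₀ * Real.log d ≤ |C₀| * Real.log d :=
      mul_le_mul_of_nonneg_right (le_abs_self _) hlog0
    rw [h2, hell]
    linarith
  -- the exponent
  set L' : ℝ := d * ell b + 2 * Real.log d - cexp b + ε with hL'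
  have hL'1 : d * ell b ≤ L' := by rw [hL']; linarith
  have hF := hD2 n d k (by omega) hn1 hn2 (by
    rw [abs_le]
    constructor
    · linarith
    · have h2 : 0 ≤ C' * Real.log d := by positivity
      have h3 : 0 ≤ (C' + 2) * Real.log d := by positivity
      linarith)
  rw [← hb, ← ha] at hF
  have hbrk : (2 * brk xs a + 2 * vfun a) / a = cexp b - ε / 2 := by
    rw [hxs, u_brk lam s hs0 lam_pos ha0, hlogs]
    rw [show cexp b = (2 * brk lam a + 2 * vfun a) / a from rfl]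
    ring
  rw [hbrk] at hF
  have hF1 := (abs_le.1 hF).2
  have hmainL : Fex xs n d k + 2 * e' * k ≤ ((k : ℝ) / 2 + 1) * L' := by
    have h1 : d * ell b + 2 * Real.log d - (cexp b - ε / 2) = L' - ε / 2 := by rw [hL']; ring
    rw [h1] at hF1
    have h2 := mul_le_mul_of_nonneg_right hck (show (0 : ℝ) ≤ ε / 8 by linarith)
    have h3 := mul_le_mul_of_nonneg_right he'1 (Nat.cast_nonneg k : (0 : ℝ) ≤ k)
    have h4 : ((k : ℝ) / 2 + 1) * (L' - ε / 2) = ((k : ℝ) / 2 + 1) * L' - k * ε / 4 - ε / 2 := by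
      ring
    rw [h4] at hF1
    clear_value L'
    linarith
  refine le_pc_of n d _ fun p hp0 hp1 => ?_
  rcases hp0.eq_or_lt with hp | hp
  · rw [← hp, u_percProb_zero (by omega)]
    norm_num
  · have hpL : p = Real.exp (-(-Real.log p)) := by rw [neg_neg, Real.exp_log hp]
    have hLL : L' ≤ -Real.log p := by
      have h1 := Real.log_le_log hp hp1
      rw [Real.log_exp] at h1
      linarith
    rw [hpL]
    refine hD1 n d k (-Real.log p) (by omega) hck hkM hkn (by linarith) ?_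
    have h1 : ((k : ℝ) / 2 + 1) * L' ≤ ((k : ℝ) / 2 + 1) * (-Real.log p) :=
      mul_le_mul_of_nonneg_left hLL (by positivity)
    have h2 : Fex xs n d k = d * Real.log n + ∑ t ∈ Finset.range k, ax xs d t := rfl
    linarith

/-! ### the upper bound -/

theorem pc_mid_upper (c₀ C ε : ℝ) (hc₀ : 0 < c₀) (hε : 0 < ε) : ∃ D₀ : ℕ, ∀ n d : ℕ, D₀ ≤ d →
    c₀ * d ≤ Real.log n → Real.log n ≤ C * d →
    pc n d 2 ≤
      Real.exp (-(d * ell (Real.log n / d) + 2 * Real.log d - cexp (Real.log n / d) - ε)) := by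
  obtain ⟨M, hM⟩ := exists_nat_ge (4 * C + 3)
  -- the parameters
  have hL1 : ∀ l, ∃ e₀ : ℝ, 0 < e₀ ∧ (1 ≤ l → ∀ e, 0 < e → e ≤ e₀ →
      ∃ ν, AdmL (yl l) ((1 + e) * lam l) ν (fun ρ => Phi (yl l) ((1 + e) * lam l * ρ))) := by
    intro l
    rcases Nat.lt_or_ge l 1 with hl | hl
    · exact ⟨1, one_pos, fun h => by omega⟩
    · obtain ⟨e₀, he₀, h⟩ := adm_lower l hl
      exact ⟨e₀, he₀, fun _ => h⟩
  choose ef hef0 hef using hL1
  obtain ⟨e₁, he₁0, he₁⟩ := u_min ef (2 * M + 3) (fun l _ => hef0 l)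
  set e : ℝ := min e₁ (Real.exp (ε / 2) - 1) with he
  have he0 : 0 < e := lt_min he₁0 (by
    have := Real.add_one_lt_exp (x := ε / 2) (by positivity)
    linarith)
  have hloge : Real.log (1 + e) ≤ ε / 2 := by
    have h1 : 1 + e ≤ Real.exp (ε / 2) := by
      have := min_le_right e₁ (Real.exp (ε / 2) - 1)
      linarith
    have h2 := Real.log_le_log (by linarith) h1
    rwa [Real.log_exp] at h2
  set xs : ℕ → ℝ := fun l => (1 + e) * lam l with hxs
  have hxs0 : ∀ l, 1 ≤ l → 0 < xs l := fun l hl => mul_pos (by linarith) (lam_pos l hl)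
  set gg : ℕ → ℝ → ℝ := fun l ρ => Phi (yl l) ((1 + e) * lam l * ρ) with hgg
  have hN1 : ∀ l, ∃ ν : ℝ, 0 < ν ∧ (1 ≤ l → l ≤ 2 * M + 3 → AdmL (yl l) (xs l) ν (gg l)) := by
    intro l
    by_cases hl : 1 ≤ l ∧ l ≤ 2 * M + 3
    · obtain ⟨ν, hν⟩ := hef l hl.1 e he0 ((min_le_left _ _).trans (he₁ l hl.1 hl.2))
      exact ⟨ν, hν.ν_pos, fun _ _ => hν⟩
    · exact ⟨1, one_pos, fun h1 h2 => absurd ⟨h1, h2⟩ hl⟩
  choose νf hνf0 hνf using hN1
  obtain ⟨ν, hν0, hν⟩ := u_min νf (2 * M + 3) (fun l _ => hνf0 l)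
  have hadm : ∀ l, 1 ≤ l → l ≤ 2 * M + 3 → AdmL (yl l) (xs l) ν (gg l) := fun l h1 h2 =>
    (hνf l h1 h2).mono_nu hν0 (hν l h1 h2)
  set σ : ℝ := vslope M with hσ
  have hσ0 : 0 < σ := u_vslope_pos M
  obtain ⟨D1, hD1⟩ := percProb_mid_ge M xs gg ν (c₀ * ε / 8) c₀ 3 C hadm (by positivity) hc₀
    le_rfl
  obtain ⟨D2, hD2⟩ := Fex_asymp c₀ C (8 / σ) (c₀ * ε / 8) hc₀ (by positivity) xs hxs0
  obtain ⟨Cc, hCc0, hCc⟩ := u_cexp c₀ hc₀ M
  obtain ⟨D3, hD3⟩ := u_large (1 + Cc + ε) (8 / σ) c₀ hc₀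
  obtain ⟨D4, hD4⟩ := u_large 1 1 (σ / 2) (by positivity)
  have hvc : 0 < vfun (2 * c₀) := by
    have h1 := u_slope ⌈2 * c₀⌉₊ (u := 0) (w := 2 * c₀) (Nat.le_ceil _) (by positivity)
    rw [vfun_zero] at h1
    have := mul_pos (show (0 : ℝ) < 2 * c₀ - 0 by linarith) (u_vslope_pos ⌈2 * c₀⌉₊)
    linarith
  obtain ⟨D5, hD5⟩ := u_large 1 2 (vfun (2 * c₀)) hvc
  refine ⟨D1 + D2 + D3 + D4 + D5, fun n d hd hn1 hn2 => ?_⟩
  obtain ⟨hl1, hl2, hd2⟩ := hD3 d (by omega)
  obtain ⟨_, hl4, _⟩ := hD4 d (by omega)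
  obtain ⟨_, hl5, _⟩ := hD5 d (by omega)
  have hd0 : (0 : ℝ) < d := by exact_mod_cast (by omega : 0 < d)
  have hlog1 : 1 ≤ Real.log d := by linarith
  have hlog0 : 0 ≤ Real.log d := by linarith
  obtain ⟨hb0, ha1, ha2, hell⟩ := u_data c₀ C hc₀ M hM (by omega) hn1 hn2
  set b := Real.log n / d with hb
  set a := aopt b with ha
  have ha0 : 0 < a := by linarith
  have hcc := hCc b ha1 (by linarith)
  have hcc1 := (abs_le.1 hcc).2
  have hcc2 := (abs_le.1 hcc).1
  set L : ℝ := d * ell b + 2 * Real.log d - cexp b - ε with hL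
  have hdv : 0 ≤ d * ell b := by
    rw [hell]
    exact mul_nonneg hd0.le (vfun_nonneg ha0.le)
  have hlog2 : Real.log 2 ≤ Real.log d := Real.log_le_log (by norm_num) (by exact_mod_cast hd2)
  have hL0 : 3 * Real.log d ≤ L := by
    have h1 : vfun (2 * c₀) ≤ vfun a := vfun_monotone ha1
    have h2 : 2 * Real.log d ≤ d * ell b := by
      rw [hell]
      have := mul_le_mul_of_nonneg_left h1 hd0.le
      linarith
    rw [hL]
    linarith
  -- the critical size
  classical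
  set P : ℕ → Prop := fun t => sfun d t + 3 * Real.log d ≤ L with hP
  have hP0 : P 0 := by
    simp only [hP]
    rw [sfun_zero]
    linarith
  set k : ℕ := Nat.findGreatest P (M * d) with hk
  have hPk : P k := Nat.findGreatest_spec (Nat.zero_le _) hP0
  have hkle : k ≤ M * d := Nat.findGreatest_le _
  have hPM : ¬ P (M * d) := by
    simp only [hP, not_le]
    have h1 : sfun d (M * d) = d * vfun M := by
      unfold sfun
      congr 2
      push_cast
      field_simp
    have h2 := u_slope M (u := a) (w := M) le_rfl (by linarith)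
    have h3 : σ ≤ vfun M - vfun a := by
      have : 1 * σ ≤ ((M : ℝ) - a) * σ := mul_le_mul_of_nonneg_right (by linarith) hσ0.le
      linarith
    have h4 := mul_le_mul_of_nonneg_left h3 hd0.le
    rw [h1, hL, hell]
    nlinarith
  have hklt : k < M * d := by
    rcases hkle.lt_or_eq with h | h
    · exact h
    · exfalso
      rw [h] at hPk
      exact hPM hPk
  have hPk1 : ¬ P (k + 1) := fun h => by
    have := Nat.le_findGreatest (P := P) (n := M * d) (m := k + 1) (by omega) h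
    omega
  have hkL1 : sfun d k + 3 * Real.log d ≤ L := hPk
  have hkL2 : L ≤ sfun d k + (3 + 1) * Real.log d := by
    have h1 : L < sfun d (k + 1) + 3 * Real.log d := not_le.1 hPk1
    have h2 := sfun_add_le d k 1 (by omega)
    push_cast at h2
    linarith
  -- its distance to the optimum
  have hdist : |(k : ℝ) - a * d| ≤ 8 / σ * Real.log d := by
    have hkd : (k : ℝ) / d ≤ M := by
      rw [div_le_iff₀ hd0]
      exact_mod_cast hkle
    have h1 := u_slope_abs M hkd (by linarith : a ≤ M)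
    have h2 : |d * vfun ((k : ℝ) / d) - d * vfun a| ≤ 8 * Real.log d := by
      have h3 : sfun d k = d * vfun ((k : ℝ) / d) := rfl
      rw [← h3, ← hell, abs_le]
      constructor <;> linarith
    rw [← mul_sub, abs_mul, abs_of_pos hd0] at h2
    have h4 : σ * |(k : ℝ) - a * d| ≤ 8 * Real.log d := by
      have h5 : |(k : ℝ) - a * d| = d * |(k : ℝ) / d - a| := by
        rw [← abs_of_pos hd0, ← abs_mul, abs_of_pos hd0]
        congr 1
        field_simp
      rw [h5]
      have h6 := mul_le_mul_of_nonneg_left h1 hd0.le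
      rw [← hσ] at h6
      linarith
    rw [div_mul_eq_mul_div, le_div_iff₀ hσ0]
    linarith
  have hck : c₀ * d ≤ k := by
    have h1 := (abs_le.1 hdist).1
    have h2 : 2 * c₀ * d ≤ a * d := mul_le_mul_of_nonneg_right ha1 hd0.le
    linarith
  have hF := hD2 n d k (by omega) hn1 hn2 hdist
  rw [← hb, ← ha] at hF
  have hbrk : (2 * brk xs a + 2 * vfun a) / a = cexp b + Real.log (1 + e) := by
    rw [hxs, u_brk lam (1 + e) (by linarith) lam_pos ha0]
    rfl
  rw [hbrk] at hF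
  have hF1 := (abs_le.1 hF).1
  have hL00 : 0 ≤ L := by linarith
  have hmain : ((k : ℝ) / 2 + 1) * L + c₀ * ε / 8 * d ≤
      d * Real.log n + ∑ t ∈ Finset.range k, ax xs d t := by
    have h2 : Fex xs n d k = d * Real.log n + ∑ t ∈ Finset.range k, ax xs d t := rfl
    rw [← h2]
    have h3 : ((k : ℝ) / 2 + 1) * (L + ε / 2) ≤ ((k : ℝ) / 2 + 1) *
        (d * ell b + 2 * Real.log d - (cexp b + Real.log (1 + e))) := by
      refine mul_le_mul_of_nonneg_left ?_ (by positivity)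
      rw [hL]
      linarith
    have h4 : 2 * (c₀ * ε / 8 * d) ≤ ((k : ℝ) / 2 + 1) * (ε / 2) := by
      have h5 := mul_le_mul_of_nonneg_right hck (show (0 : ℝ) ≤ ε / 4 by linarith)
      linarith
    have h5 : ((k : ℝ) / 2 + 1) * (L + ε / 2) =
        ((k : ℝ) / 2 + 1) * L + ((k : ℝ) / 2 + 1) * (ε / 2) := by ring
    rw [h5] at h3
    clear_value L
    linarith
  have hp := hD1 n d k L (by omega) hck hkle hn1 hn2 hkL1 hkL2 hmain
  exact pc_le_of n d _ (Real.exp_pos _).le (Real.exp_le_one_iff.2 (by linarith)) hp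

/-! ### both bounds together -/

theorem pc_mid (c₀ C ε : ℝ) (hc₀ : 0 < c₀) (hε : 0 < ε) : ∃ D₀ : ℕ, ∀ n d : ℕ, D₀ ≤ d →
    c₀ * d ≤ Real.log n → Real.log n ≤ C * d →
    |pc n d 2 * d ^ 2 * Real.exp (d * ell (Real.log n / d) - cexp (Real.log n / d)) - 1| ≤ ε := by
  have hε' : 0 < Real.log (1 + ε) := Real.log_pos (by linarith)
  obtain ⟨D1, hD1⟩ := pc_mid_lower c₀ C (Real.log (1 + ε)) hc₀ hε'
  obtain ⟨D2, hD2⟩ := pc_mid_upper c₀ C (Real.log (1 + ε)) hc₀ hε'
  refine ⟨D1 + D2 + 1, fun n d hd hn1 hn2 => ?_⟩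
  have h1 := hD1 n d (by omega) hn1 hn2
  have h2 := hD2 n d (by omega) hn1 hn2
  have hd0 : (0 : ℝ) < d := by exact_mod_cast (by omega : 0 < d)
  set A : ℝ := d * ell (Real.log n / d) with hA
  set B : ℝ := cexp (Real.log n / d) with hB
  have hdd : (d : ℝ) ^ 2 = Real.exp (2 * Real.log d) := by
    rw [mul_comm, Real.exp_mul, Real.exp_log hd0]
    norm_num
  have hpos : 0 < (d : ℝ) ^ 2 * Real.exp (A - B) := by positivity
  have e1 : Real.exp (-(A + 2 * Real.log d - B + Real.log (1 + ε))) *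
      ((d : ℝ) ^ 2 * Real.exp (A - B)) = (1 + ε)⁻¹ := by
    rw [hdd, ← Real.exp_add, ← Real.exp_add,
      show -(A + 2 * Real.log d - B + Real.log (1 + ε)) + (2 * Real.log d + (A - B)) =
        -Real.log (1 + ε) by ring, Real.exp_neg, Real.exp_log (by linarith)]
  have e2 : Real.exp (-(A + 2 * Real.log d - B - Real.log (1 + ε))) *
      ((d : ℝ) ^ 2 * Real.exp (A - B)) = 1 + ε := by
    rw [hdd, ← Real.exp_add, ← Real.exp_add,
      show -(A + 2 * Real.log d - B - Real.log (1 + ε)) + (2 * Real.log d + (A - B)) =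
        Real.log (1 + ε) by ring, Real.exp_log (by linarith)]
  have h3 := mul_le_mul_of_nonneg_right h1 hpos.le
  have h4 := mul_le_mul_of_nonneg_right h2 hpos.le
  rw [e1] at h3
  rw [e2] at h4
  have h5 : 1 - ε ≤ (1 + ε)⁻¹ := by
    rw [← one_div, le_div_iff₀ (by linarith)]
    nlinarith
  rw [mul_assoc, abs_le]
  constructor <;> linarith

end Pool.Agent.Lib.MP_8501c9_pr.Mid
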