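import Pool.Agent.Lib.MP_8501c9_pr.SharpDefs

/-!
# Definitions for the sharp asymptotics when `d` is of order `log n`
-/

set_option autoImplicit false
open Set

namespace Pool.Agent.Lib.MP_8501c9_pr.Mid

open Pool.Agent.Lib.MP_8501c9_pr

/-! ### the pantograph functions -/

/-- the deformed exponential series, a solution of `f' x = - f (y * x)` -/
noncomputable def Phi (y x : ℝ) : ℝ :=
  ∑' j : ℕ, (-x) ^ j * y ^ (j * (j - 1) / 2) / (Nat.factorial j : ℝ)

/-- the deformation parameter of level `l` -/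
noncomputable def yl (l : ℕ) : ℝ := ((l : ℝ) / (l + 1)) ^ 2

/-- the least positive zero of the series of level `l` -/
noncomputable def lam (l : ℕ) : ℝ := sInf {x : ℝ | 0 < x ∧ Phi (yl l) x = 0}

/-- what the supersolution needs -/
structure AdmU (y x K : ℝ) (h : ℝ → ℝ) : Prop where
  x_pos : 0 < x
  K_nonneg : 0 ≤ K
  zero : h 0 = 1
  anti : AntitoneOn h (Icc 0 1)
  lower : ∀ ρ, 0 ≤ ρ → ρ ≤ 1 → Real.exp (-K) ≤ h ρ
  lip : ∀ ρ δ, 0 ≤ δ → δ ≤ ρ → ρ ≤ 1 → h (ρ - δ) ≤ h ρ * Real.exp (K * δ)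
  sum : ∀ (N ρ : ℝ) (M : ℕ), 0 < N → 0 ≤ ρ → ρ + M / N ≤ 1 →
    ∑ i ∈ Finset.range M, x / N * h (y * (ρ + (i + 1) / N)) ≤ h ρ

/-- what the subsolution needs -/
structure AdmL (y x ν : ℝ) (g : ℝ → ℝ) : Prop where
  x_pos : 0 < x
  ν_pos : 0 < ν
  ν_le : ν ≤ 1 / 2
  zero : g 0 = 1
  anti : AntitoneOn g (Icc 0 1)
  lip : ∀ a b, 0 ≤ a → a ≤ b → b ≤ 1 → g a - g b ≤ x * (b - a)
  y_le : y * (1 + ν) ≤ 1
  y_nonneg : ∀ s, 0 ≤ s → s ≤ y * (1 + ν) → 0 ≤ g s
  top : ∀ s, 1 - ν ≤ s → s ≤ 1 → g s ≤ 0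
  sum : ∀ (N ρ : ℝ) (M : ℕ), 0 < N → 0 ≤ ρ → ρ ≤ 1 → 1 ≤ ρ + M / N → ρ + M / N ≤ 1 + ν →
    g ρ + ν - x / N ≤ ∑ i ∈ Finset.range M, x / N * g (y * (ρ + (i + 1) / N))

/-! ### levels -/

/-- common side length of the directions not yet enlarged, balanced box of size `t` -/
def lev (d t : ℕ) : ℕ := t / d + 1

/-- number of directions not yet enlarged, balanced box of size `t` -/
def rem (d t : ℕ) : ℕ := d - t % d

/-- the exponent per unit of size -/
noncomputable def ax (xs : ℕ → ℝ) (d t : ℕ) : ℝ :=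
  sfun d t / 2 - Real.log (((lev d t : ℝ) + 1) / lev d t) / 4 + Real.log (rem d t) -
    Real.log (lev d t) + Real.log (2 / xs (lev d t)) / 2

/-! ### combinatorics of boxes -/

variable {n d : ℕ}

/-- how far `x` sticks out of `Q` in direction `i` -/
def out (Q : BoxT n d) (x : Vtx n d) (i : Fin d) : ℕ := ((Q.1 i : ℕ) - x i) + ((x i : ℕ) - Q.2 i)

/-- the box spanned by `Q` and the point `x` -/
def ext (Q : BoxT n d) (x : Vtx n d) : BoxT n d := hull Q (x, x)

open Classical in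
/-- the points whose addition enlarges the size by exactly two -/
noncomputable def N2 (Q : BoxT n d) : Finset (Vtx n d) :=
  Finset.univ.filter (fun x => phi (ext Q x) = phi Q + 2)

/-- the finite set `T` extends the box `Q` to `R` by adding single points, one after the other,
each enlarging the size by exactly two -/
inductive Ext2 (Q : BoxT n d) : Finset (Vtx n d) → BoxT n d → Prop
  | nil : Ext2 Q ∅ Q
  | cons {T : Finset (Vtx n d)} {B : BoxT n d} (h : Ext2 Q T B) (x : Vtx n d)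
      (hx : phi (ext B x) = phi B + 2) : Ext2 Q (insert x T) (ext B x)

open Classical in
/-- generating function, with values of `g` at the final box, of the sets extending `Q` which
avoid `Z` -/
noncomputable def Fz (p : ℝ) (g : BoxT n d → ℝ) (Z : Finset (Vtx n d)) (Q : BoxT n d) : ℝ :=
  ∑ T : Finset (Vtx n d) with Disjoint T Z, ∑ R : BoxT n d with Ext2 Q T R, p ^ T.card * g R

/-- a fixed injective rank of the vertices -/
noncomputable def rk (x : Vtx n d) : ℕ := Fintype.equivFin (Vtx n d) x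

open Classical in
/-- the forbidden set after `x` has been chosen -/
noncomputable def Znext (Q : BoxT n d) (Z : Finset (Vtx n d)) (x : Vtx n d) : Finset (Vtx n d) :=
  Z ∪ (N2 Q).filter (fun y => rk y ≤ rk x)

/-- side box conditions: `P` merges with the larger box `Q`, and the merger is not an addition
of a single point at distance two -/
def Side (Q P : BoxT n d) : Prop :=
  P.1 ≤ P.2 ∧ Near Q P ∧ hull Q P ≠ Q ∧ hull Q P ≠ P ∧ phi P ≤ phi Q ∧
    ¬ (phi P = 0 ∧ phi (hull Q P) = phi Q + 2)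

/-- boxes crossing the size `k` -/
def Cross (k : ℕ) (Q P : BoxT n d) : Prop :=
  P.1 ≤ P.2 ∧ Near Q P ∧ phi P ≤ phi Q ∧ k ≤ phi (hull Q P)

open Classical in
/-- contribution of the side boxes -/
noncomputable def XG (p : ℝ) (k : ℕ) (G : BoxT n d → ℝ) (Q : BoxT n d) : ℝ :=
  ∑ P : BoxT n d with (Side Q P ∧ phi (hull Q P) < k), wt p P * G (hull Q P)

open Classical in
/-- contribution of the crossing of size `k` -/
noncomputable def TT (p : ℝ) (k : ℕ) (Q : BoxT n d) : ℝ :=
  ∑ P : BoxT n d with Cross k Q P, wt p P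

/-- volume of a box -/
noncomputable def vol (Q : BoxT n d) : ℝ := ∏ i, (sd Q i : ℝ)

/-- number of directions of side length `l` -/
def rr (l : ℕ) (Q : BoxT n d) : ℕ := (Finset.univ.filter (fun i => sd Q i = l)).card

/-- number of directions of side length at most `l` -/
def nle (l : ℕ) (Q : BoxT n d) : ℕ := (Finset.univ.filter (fun i => sd Q i ≤ l)).card

/-- excess over the side length `l + 1` -/
def Exc (l : ℕ) (Q : BoxT n d) : ℕ := ∑ i, (sd Q i - (l + 1))

/-- lag below the side length `l` -/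
def Lag (l : ℕ) (Q : BoxT n d) : ℕ := ∑ i, (l - sd Q i)

/-- regular points: stick out by one in two directions of side length `l` -/
def Nreg (l : ℕ) (Q : BoxT n d) : Finset (Vtx n d) :=
  Finset.univ.filter (fun x => (∀ i, out Q x i ≤ 1 ∧ (out Q x i = 1 → sd Q i = l)) ∧
    ∑ i, out Q x i = 2)

/-- the number of regular points (away from the boundary of the grid) -/
noncomputable def nst (l : ℕ) (Q : BoxT n d) : ℝ :=
  2 * (rr l Q : ℝ) * ((rr l Q : ℝ) - 1) * vol Q / (l : ℝ) ^ 2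

/-- fraction of forbidden regular points -/
noncomputable def rho (l : ℕ) (Z : Finset (Vtx n d)) (Q : BoxT n d) : ℝ :=
  ((Nreg l Q ∩ Z).card : ℝ) / nst l Q

/-! ### the potential -/

/-- boundary layers, where a generous extra factor is allowed -/
def Bad (d k r0 m1 t : ℕ) : Prop := t < m1 ∨ rem d t < 2 * r0 ∨ k < t + 2 * r0

instance (d k r0 m1 t : ℕ) : Decidable (Bad d k r0 m1 t) := by unfold Bad; infer_instance

/-- number of remaining sizes in the boundary layers -/
def nbad (d k r0 m1 t : ℕ) : ℕ := ((Finset.Ico t k).filter (fun s => Bad d k r0 m1 s)).card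

/-- penalty length -/
def th (d k r0 t : ℕ) : ℕ := min (rem d t) (k - t) - r0

/-- the potential of balanced boxes -/
noncomputable def psi (xs : ℕ → ℝ) (d k r0 m1 : ℕ) (L ε Λ : ℝ) (t : ℕ) : ℝ :=
  ∑ s ∈ Finset.Ico t k, (ax xs d s - L / 2 + ε) + Λ * nbad d k r0 m1 t

/-- the potential -/
noncomputable def GG (xs : ℕ → ℝ) (k r0 m1 : ℕ) (L ε Λ c : ℝ) (Q : BoxT n d) : ℝ :=
  if phi Q < k then
    Real.exp (psi xs d k r0 m1 L ε Λ (phi Q) - c * th d k r0 (phi Q) * Exc (lev d (phi Q)) Q)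
  else 0

/-- the potential with forbidden points -/
noncomputable def UU (xs : ℕ → ℝ) (hs : ℕ → ℝ → ℝ) (k r0 m1 : ℕ) (L ε Λ c κ : ℝ)
    (Z : Finset (Vtx n d)) (Q : BoxT n d) : ℝ :=
  if Bad d k r0 m1 (phi Q) then 2 * GG xs k r0 m1 L ε Λ c Q
  else κ⁻¹ * hs (lev d (phi Q)) (rho (lev d (phi Q)) Z Q) * GG xs k r0 m1 L ε Λ c Q

end Pool.Agent.Lib.MP_8501c9_pr.Mid
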