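import Pool.Agent.Lib.MP_8501c9_pr.Mid.Defs

/-!
# Definitions for the upper bound: decision trees and the growth strategy
-/

set_option autoImplicit false
open Set

namespace Pool.Agent.Lib.MP_8501c9_pr.Mid

open Pool.Agent.Lib.MP_8501c9_pr

/-- decision trees: look through a list of sites until the first one in the random set is found,
then continue depending on it -/
inductive DT (V : Type) : Type
  | win : DT V
  | node (l : List V) (f : V → DT V) : DT V

namespace DT

variable {V : Type} [DecidableEq V]

/-- the exploration of `A` succeeds -/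
def succ : DT V → Finset V → Prop
  | win, _ => True
  | node l f, A => ∃ x, l.find? (fun y => decide (y ∈ A)) = some x ∧ (f x).succ A

/-- no site is looked at twice and the sites of `Z` are never looked at -/
def Valid : DT V → Finset V → Prop
  | win, _ => True
  | node l f, Z => l.Nodup ∧ (∀ x ∈ l, x ∉ Z) ∧
      ∀ (pre post : List V) (x : V), l = pre ++ x :: post → (f x).Valid (insert x (Z ∪ pre.toFinset))

/-- probability of success -/
noncomputable def val (p : ℝ) : DT V → ℝ
  | win => 1
  | node l f => ∑ i : Fin l.length, p * (1 - p) ^ (i : ℕ) * (f (l.get i)).val p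

/-- the sets of sites found on a successful branch -/
inductive Win : DT V → Finset V → Prop
  | win : Win DT.win ∅
  | node {l : List V} {f : V → DT V} {x : V} {T : Finset V} (hx : x ∈ l) (h : Win (f x) T) :
      Win (DT.node l f) (insert x T)

/-- all sites looked at lie in `C` -/
def Inside (C : Set V) : DT V → Prop
  | win => True
  | node l f => (∀ x ∈ l, x ∈ C) ∧ ∀ x ∈ l, (f x).Inside C

end DT

variable {n d : ℕ}

/-- number of directions in which `z` sticks out of `Q` -/
def outs (Q : BoxT n d) (z : Vtx n d) : ℕ := (Finset.univ.filter (fun i => out Q z i ≠ 0)).card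

/-- boxes all of whose sides are `l` or `l + 1` where `l` is the level -/
def Balanced (Q : BoxT n d) : Prop := ∀ i, sd Q i = lev d (phi Q) ∨ sd Q i = lev d (phi Q) + 1

/-- two shortest directions among those not enlarged from `Q'` to `Q` -/
def PairDir (Q' Q : BoxT n d) (P : Fin d × Fin d) : Prop :=
  P.1 ≠ P.2 ∧ sd Q' P.1 = sd Q P.1 ∧ sd Q' P.2 = sd Q P.2 ∧
    ∀ i, sd Q' i = sd Q i → i ≠ P.1 → i ≠ P.2 → sd Q P.1 ≤ sd Q i ∧ sd Q P.2 ≤ sd Q i

/-- points sticking out of `Q` by one in the two directions `P`, and also sticking out of `Q'` in a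
third direction -/
def Fresh (Q' Q : BoxT n d) (P : Fin d × Fin d) : Finset (Vtx n d) :=
  Finset.univ.filter (fun x => out Q x P.1 = 1 ∧ out Q x P.2 = 1 ∧
    (∀ i, i ≠ P.1 → i ≠ P.2 → out Q x i = 0) ∧ ∃ i, i ≠ P.1 ∧ i ≠ P.2 ∧ out Q' x i ≠ 0)

/-- sizes at which the main strategy is used -/
def Main (d s0 k1 t : ℕ) : Prop := 2 * s0 ≤ rem d t ∧ t < k1

instance (d s0 k1 t : ℕ) : Decidable (Main d s0 k1 t) := by unfold Main; infer_instance

open Classical in
/-- the sites looked at when the current box is `Q` and the previous box is `Q'` -/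
noncomputable def cand (s0 k1 : ℕ) (Q' Q : BoxT n d) : Finset (Vtx n d) :=
  if Main d s0 k1 (phi Q) then Nreg (lev d (phi Q)) Q
  else if h : ∃ P : Fin d × Fin d, PairDir Q' Q P then Fresh Q' Q h.choose else ∅

/-- the growth strategy, `m` more steps -/
noncomputable def gtree (s0 k1 : ℕ) :
    ℕ → BoxT n d → BoxT n d → Finset (Vtx n d) → DT (Vtx n d)
  | 0, _, _, _ => DT.win
  | m + 1, Q', Q, Z => DT.node (cand s0 k1 Q' Q \ Z).toList (fun x =>
      gtree s0 k1 m Q (ext Q x) (insert x (Z ∪
        ((cand s0 k1 Q' Q \ Z).toList.takeWhile (fun y => decide (y ≠ x))).toFinset)))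

/-- the growth strategy started from the point `z` -/
noncomputable def rtree (s0 k1 m : ℕ) (z : Vtx n d) : DT (Vtx n d) :=
  DT.node [z] (fun _ => gtree s0 k1 m (z, z) (z, z) {z})

/-- at least `w` free layers around the point `z` in the grid -/
def Room (w : ℕ) (z : Vtx n d) : Prop := ∀ i, w ≤ (z i : ℕ) ∧ (z i : ℕ) + w < n

/-- number of regular points of a balanced box of size `t` -/
noncomputable def nt (d t : ℕ) : ℝ :=
  2 * (rem d t : ℝ) * ((rem d t : ℝ) - 1) * Real.exp (sfun d t) / (lev d t : ℝ) ^ 2

/-- lower bound for the success probability of the strategy, `m` more steps from size `t` -/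
noncomputable def Wv (xs : ℕ → ℝ) (ν cF p : ℝ) (d s0 k1 : ℕ) : ℕ → ℕ → ℝ
  | 0, _ => 1
  | m + 1, t => Wv xs ν cF p d s0 k1 m (t + 2) *
      if Main d s0 k1 t then
        (if Main d s0 k1 (t + 2) then p * nt d t / xs (lev d t) else ν * p * nt d t) *
          Real.exp (-(2 * p * nt d t))
      else (1 - Real.exp (-(p * (cF * Real.exp (sfun d t))))) *
        (if Main d s0 k1 (t + 2) then 1 / 2 else 1)

end Pool.Agent.Lib.MP_8501c9_pr.Mid
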