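import Pool.Agent.Lib.MP_8501c9_pr.Mid.Defs
import Mathlib

/-!
# The pantograph functions: the least positive zero and the two admissibility statements
-/

set_option autoImplicit false
open Set

namespace Pool.Agent.Lib.MP_8501c9_pr.Mid

open Pool.Agent.Lib.MP_8501c9_pr

/-! ### the series -/

theorem a_term_bound (y x : ℝ) (hy0 : 0 ≤ y) (hy1 : y ≤ 1) (j m : ℕ) :
    ‖(-x) ^ j * y ^ m / (Nat.factorial j : ℝ)‖ ≤ |x| ^ j / (Nat.factorial j : ℝ) := by
  rw [norm_div, norm_mul, norm_pow, norm_pow, norm_neg, Real.norm_eq_abs, Real.norm_eq_abs,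
    Real.norm_eq_abs, abs_of_nonneg hy0, abs_of_nonneg (Nat.cast_nonneg (Nat.factorial j) : (0 : ℝ) ≤ _)]
  have h1 : y ^ m ≤ 1 := pow_le_one₀ hy0 hy1
  have h2 : 0 ≤ |x| ^ j := by positivity
  have h3 : (0 : ℝ) < (Nat.factorial j : ℝ) := by positivity
  rw [div_le_div_iff_of_pos_right h3]
  calc |x| ^ j * y ^ m ≤ |x| ^ j * 1 := mul_le_mul_of_nonneg_left h1 h2
    _ = |x| ^ j := mul_one _

theorem a_summable (y x : ℝ) (hy0 : 0 ≤ y) (hy1 : y ≤ 1) (f : ℕ → ℕ) :
    Summable (fun j : ℕ => (-x) ^ j * y ^ (f j) / (Nat.factorial j : ℝ)) :=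
  Summable.of_norm_bounded (Real.summable_pow_div_factorial |x|)
    (fun j => a_term_bound y x hy0 hy1 j (f j))

theorem a_Phi_zero (y : ℝ) : Phi y 0 = 1 := by
  unfold Phi
  rw [tsum_eq_single 0]
  · simp
  · intro j hj
    simp [hj]

theorem a_tri (j : ℕ) : (j + 1) * (j + 1 - 1) / 2 = j * (j - 1) / 2 + j := by
  rcases j with _ | j
  · simp
  · simp only [Nat.add_sub_cancel]
    have h : (j + 1 + 1) * (j + 1) = (j + 1) * j + (j + 1) * 2 := by ring
    rw [h, Nat.add_mul_div_right _ _ (by norm_num)]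

theorem a_deriv (y : ℝ) (hy0 : 0 ≤ y) (hy1 : y ≤ 1) (x : ℝ) :
    HasDerivAt (Phi y) (-Phi y (y * x)) x := by
  have hR : 0 ≤ |x| + 1 := by positivity
  have key : HasDerivAt (fun z => ∑' j : ℕ, (-z) ^ j * y ^ (j * (j - 1) / 2) /
      (Nat.factorial j : ℝ))
      (∑' j : ℕ, ((j : ℝ) * (-x) ^ (j - 1) * (-1)) * y ^ (j * (j - 1) / 2) /
        (Nat.factorial j : ℝ)) x := by
    refine hasDerivAt_tsum_of_isPreconnected (𝕜 := ℝ)
      (u := fun j : ℕ => (j : ℝ) * (|x| + 1) ^ (j - 1) / (Nat.factorial j : ℝ))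
      (g := fun (j : ℕ) (z : ℝ) => (-z) ^ j * y ^ (j * (j - 1) / 2) / (Nat.factorial j : ℝ))
      (g' := fun (j : ℕ) (z : ℝ) => ((j : ℝ) * (-z) ^ (j - 1) * (-1)) * y ^ (j * (j - 1) / 2) /
        (Nat.factorial j : ℝ))
      (t := Ioo (-(|x| + 1)) (|x| + 1)) (y₀ := 0) ?_ isOpen_Ioo isPreconnected_Ioo ?_ ?_ ?_ ?_ ?_
    · rw [← summable_nat_add_iff 1]
      refine (Real.summable_pow_div_factorial (|x| + 1)).congr ?_
      intro j
      simp only [Nat.add_sub_cancel, Nat.factorial_succ]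
      push_cast
      have h1 : ((j : ℝ) + 1) ≠ 0 := by positivity
      have h2 : (Nat.factorial j : ℝ) ≠ 0 := by positivity
      field_simp
    · intro j z hz
      have h1 : HasDerivAt (fun z : ℝ => (-z) ^ j) ((j : ℝ) * (-z) ^ (j - 1) * (-1)) z := by
        have := (hasDerivAt_neg z).fun_pow j
        simpa using this
      exact (h1.mul_const _).div_const _
    · intro j z hz
      have hz' : |z| ≤ |x| + 1 := abs_le.mpr ⟨hz.1.le, hz.2.le⟩
      rw [norm_div, norm_mul, norm_mul, norm_mul, norm_pow, norm_pow, norm_neg, norm_neg,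
        norm_one, Real.norm_eq_abs, Real.norm_eq_abs, Real.norm_eq_abs, Real.norm_eq_abs,
        abs_of_nonneg hy0, abs_of_nonneg (Nat.cast_nonneg (Nat.factorial j) : (0 : ℝ) ≤ _),
        abs_of_nonneg (Nat.cast_nonneg j : (0 : ℝ) ≤ _)]
      have h1 : y ^ (j * (j - 1) / 2) ≤ 1 := pow_le_one₀ hy0 hy1
      have h3 : (0 : ℝ) < (Nat.factorial j : ℝ) := by positivity
      rw [div_le_div_iff_of_pos_right h3, mul_one]
      have h4 : (j : ℝ) * |z| ^ (j - 1) ≤ (j : ℝ) * (|x| + 1) ^ (j - 1) :=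
        mul_le_mul_of_nonneg_left (pow_le_pow_left₀ (abs_nonneg z) hz' _) (Nat.cast_nonneg j)
      calc (j : ℝ) * |z| ^ (j - 1) * y ^ (j * (j - 1) / 2) ≤ (j : ℝ) * |z| ^ (j - 1) * 1 :=
            mul_le_mul_of_nonneg_left h1 (by positivity)
        _ = (j : ℝ) * |z| ^ (j - 1) := mul_one _
        _ ≤ _ := h4
    · constructor
      · have : 0 ≤ |x| := abs_nonneg x
        linarith
      · have : 0 ≤ |x| := abs_nonneg x
        linarith
    · exact a_summable y 0 hy0 hy1 _
    · constructor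
      · have := neg_abs_le x
        linarith
      · have := le_abs_self x
        linarith
  have h2 : (∑' j : ℕ, ((j : ℝ) * (-x) ^ (j - 1) * (-1)) * y ^ (j * (j - 1) / 2) /
        (Nat.factorial j : ℝ)) = -Phi y (y * x) := by
    have hs : Summable (fun j : ℕ => ((j : ℝ) * (-x) ^ (j - 1) * (-1)) *
        y ^ (j * (j - 1) / 2) / (Nat.factorial j : ℝ)) := by
      rw [← summable_nat_add_iff 1]
      refine ((a_summable y x hy0 hy1 (fun j => j * (j - 1) / 2 + j)).mul_left (-1)).congr ?_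
      intro j
      rw [a_tri]
      simp only [Nat.add_sub_cancel, Nat.factorial_succ]
      push_cast
      have h1 : ((j : ℝ) + 1) ≠ 0 := by positivity
      have h2 : (Nat.factorial j : ℝ) ≠ 0 := by positivity
      field_simp
    rw [hs.tsum_eq_zero_add]
    simp only [Nat.cast_zero, zero_mul, zero_div, zero_add]
    unfold Phi
    rw [← tsum_neg]
    refine tsum_congr ?_
    intro j
    rw [a_tri]
    simp only [Nat.add_sub_cancel, Nat.factorial_succ]
    push_cast
    have h1 : ((j : ℝ) + 1) ≠ 0 := by positivity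
    have h2 : (Nat.factorial j : ℝ) ≠ 0 := by positivity
    have h3 : (-(y * x)) ^ j = y ^ j * (-x) ^ j := by
      rw [← mul_pow]
      ring
    rw [h3, pow_add]
    field_simp
  rw [← h2]
  exact key

theorem a_cont (y : ℝ) (hy0 : 0 ≤ y) (hy1 : y ≤ 1) : Continuous (Phi y) :=
  continuous_iff_continuousAt.mpr fun x => (a_deriv y hy0 hy1 x).continuousAt

/-- mean value theorem -/
theorem a_mvt (y : ℝ) (hy0 : 0 ≤ y) (hy1 : y ≤ 1) {a b : ℝ} (hab : a < b) :
    ∃ c, a < c ∧ c < b ∧ Phi y a - Phi y b = (b - a) * Phi y (y * c) := by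
  obtain ⟨c, hc, h⟩ := exists_hasDerivAt_eq_slope (Phi y) (fun x => -Phi y (y * x)) hab
    (a_cont y hy0 hy1).continuousOn (fun x _ => a_deriv y hy0 hy1 x)
  refine ⟨c, hc.1, hc.2, ?_⟩
  have hne : b - a ≠ 0 := by
    intro h0
    linarith
  rw [eq_div_iff hne] at h
  linarith

/-- if `Phi` is nonnegative on `[0, X]` then it decreases on `[0, X / y]` -/
theorem a_anti (y : ℝ) (hy0 : 0 < y) (hy1 : y ≤ 1) {X : ℝ}
    (h : ∀ x, 0 ≤ x → x ≤ X → 0 ≤ Phi y x) {a b : ℝ} (ha : 0 ≤ a) (hab : a ≤ b)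
    (hb : y * b ≤ X) : Phi y b ≤ Phi y a := by
  rcases hab.eq_or_lt with rfl | hab'
  · exact le_rfl
  · obtain ⟨c, h1, h2, h3⟩ := a_mvt y hy0.le hy1 hab'
    have hc : 0 ≤ y * c := mul_nonneg hy0.le (by linarith)
    have hc2 : y * c ≤ X := (mul_le_mul_of_nonneg_left h2.le hy0.le).trans hb
    have := mul_nonneg (sub_nonneg.mpr hab) (h _ hc hc2)
    linarith

theorem a_exists_nonpos (y : ℝ) (hy0 : 0 < y) (hy1 : y < 1) :
    ∃ x, 0 ≤ x ∧ Phi y x ≤ 0 := by
  by_contra hcon
  push Not at hcon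
  have hpos : ∀ x, 0 ≤ x → 0 < Phi y x := hcon
  set X : ℝ := 1 / (1 - y) with hX
  have h1y : 0 < 1 - y := by linarith
  have hX0 : 0 < X := by positivity
  have hlt : y * X < X := by nlinarith
  obtain ⟨c, h1, h2, h3⟩ := a_mvt y hy0.le hy1.le hlt
  have h4 : X - y * X = 1 := by
    rw [hX]
    field_simp
  have hc0 : 0 ≤ y * c := mul_nonneg hy0.le (by nlinarith)
  have h5 : Phi y (y * X) ≤ Phi y (y * c) :=
    a_anti y hy0 hy1.le (X := y * (y * X)) (fun x hx _ => (hpos x hx).le) hc0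
      (mul_le_mul_of_nonneg_left h2.le hy0.le) le_rfl
  rw [h4, one_mul] at h3
  have := hpos X hX0.le
  linarith

/-- the set of positive zeros is nonempty -/
theorem a_zeros_nonempty (y : ℝ) (hy0 : 0 < y) (hy1 : y < 1) :
    {x : ℝ | 0 < x ∧ Phi y x = 0}.Nonempty := by
  obtain ⟨x, hx0, hx⟩ := a_exists_nonpos y hy0 hy1
  have hc : ContinuousOn (Phi y) (Icc 0 x) := (a_cont y hy0.le hy1.le).continuousOn
  have := intermediate_value_Icc' hx0 hc
  have h0 : (0 : ℝ) ∈ Icc (Phi y x) (Phi y 0) := ⟨hx, by rw [a_Phi_zero]; norm_num⟩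
  obtain ⟨z, hz, hz2⟩ := this h0
  refine ⟨z, ?_, hz2⟩
  rcases hz.1.eq_or_lt with h | h
  · exfalso
    rw [← h, a_Phi_zero] at hz2
    norm_num at hz2
  · exact h

/-- the least zero -/
theorem a_least (y : ℝ) (hy0 : 0 < y) (hy1 : y < 1) :
    ∃ m, sInf {x : ℝ | 0 < x ∧ Phi y x = 0} = m ∧ 0 < m ∧ Phi y m = 0 ∧
      ∀ x, 0 ≤ x → x < m → 0 < Phi y x := by
  refine ⟨_, rfl, ?_⟩
  set S : Set ℝ := {x : ℝ | 0 < x ∧ Phi y x = 0} with hS
  have hne : S.Nonempty := a_zeros_nonempty y hy0 hy1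
  have hbdd : BddBelow S := ⟨0, fun x hx => hx.1.le⟩
  have hset : S = Ici 0 ∩ Phi y ⁻¹' {0} := by
    ext x
    simp only [hS, mem_ofPred_eq, mem_inter_iff, mem_Ici, mem_preimage, mem_singleton_iff]
    constructor
    · rintro ⟨h1, h2⟩
      exact ⟨h1.le, h2⟩
    · rintro ⟨h1, h2⟩
      refine ⟨?_, h2⟩
      rcases h1.eq_or_lt with h | h
      · exfalso
        rw [← h, a_Phi_zero] at h2
        norm_num at h2
      · exact h
  have hclosed : IsClosed S := by
    rw [hset]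
    exact isClosed_Ici.inter (isClosed_singleton.preimage (a_cont y hy0.le hy1.le))
  have hmem : sInf S ∈ S := hclosed.csInf_mem hne hbdd
  refine ⟨hmem.1, hmem.2, ?_⟩
  intro x hx0 hx
  by_contra hneg
  push Not at hneg
  have hc : ContinuousOn (Phi y) (Icc 0 x) := (a_cont y hy0.le hy1.le).continuousOn
  have := intermediate_value_Icc' hx0 hc
  have h0 : (0 : ℝ) ∈ Icc (Phi y x) (Phi y 0) := ⟨hneg, by rw [a_Phi_zero]; norm_num⟩
  obtain ⟨z, hz, hz2⟩ := this h0
  have hzS : z ∈ S := by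
    rw [hset]
    exact ⟨hz.1, hz2⟩
  have := csInf_le hbdd hzS
  have := hz.2
  linarith

/-- `yl l` is in the open unit interval -/
theorem a_yl (l : ℕ) (hl : 1 ≤ l) : 0 < yl l ∧ yl l < 1 := by
  unfold yl
  have hl' : (1 : ℝ) ≤ l := by exact_mod_cast hl
  constructor
  · positivity
  · have h1 : (l : ℝ) / (l + 1) < 1 := by
      rw [div_lt_one (by positivity)]
      linarith
    have h0 : (0 : ℝ) ≤ (l : ℝ) / (l + 1) := by positivity
    exact pow_lt_one₀ h0 h1 (by norm_num)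

/-- all the facts used about the least zero -/
structure AZ (y m : ℝ) : Prop where
  y0 : 0 < y
  y1 : y < 1
  pos : 0 < m
  zero : Phi y m = 0
  lt : ∀ x, 0 ≤ x → x < m → 0 < Phi y x

theorem a_AZ (l : ℕ) (hl : 1 ≤ l) : AZ (yl l) (lam l) := by
  obtain ⟨m, h1, h2, h3, h4⟩ := a_least (yl l) (a_yl l hl).1 (a_yl l hl).2
  have : lam l = m := h1
  rw [this]
  exact ⟨(a_yl l hl).1, (a_yl l hl).2, h2, h3, h4⟩

namespace AZ
variable {y m : ℝ}

theorem nonneg (H : AZ y m) {x : ℝ} (hx0 : 0 ≤ x) (hx : x ≤ m) : 0 ≤ Phi y x := by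
  rcases hx.eq_or_lt with h | h
  · rw [h, H.zero]
  · exact (H.lt x hx0 h).le

theorem anti (H : AZ y m) {a b : ℝ} (ha : 0 ≤ a) (hab : a ≤ b) (hb : y * b ≤ m) :
    Phi y b ≤ Phi y a :=
  a_anti y H.y0 H.y1.le (fun _ h0 h1 => H.nonneg h0 h1) ha hab hb

theorem le_one (H : AZ y m) {a : ℝ} (ha : 0 ≤ a) (hb : y * a ≤ m) : Phi y a ≤ 1 := by
  have := H.anti le_rfl ha hb
  rwa [a_Phi_zero] at this

/-- the increments -/
theorem incr_ge (H : AZ y m) {a b : ℝ} (ha : 0 ≤ a) (hab : a ≤ b) (hb : y * (y * b) ≤ m) :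
    (b - a) * Phi y (y * b) ≤ Phi y a - Phi y b := by
  rcases hab.eq_or_lt with rfl | hab'
  · simp
  · obtain ⟨c, h1, h2, h3⟩ := a_mvt y H.y0.le H.y1.le hab'
    rw [h3]
    refine mul_le_mul_of_nonneg_left ?_ (sub_nonneg.mpr hab)
    exact H.anti (mul_nonneg H.y0.le (ha.trans h1.le)) (mul_le_mul_of_nonneg_left h2.le H.y0.le)
      hb

theorem incr_le (H : AZ y m) {a b : ℝ} (ha : 0 ≤ a) (hab : a ≤ b) (hb : y * (y * b) ≤ m) :
    Phi y a - Phi y b ≤ (b - a) * Phi y (y * a) := by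
  rcases hab.eq_or_lt with rfl | hab'
  · simp
  · obtain ⟨c, h1, h2, h3⟩ := a_mvt y H.y0.le H.y1.le hab'
    rw [h3]
    refine mul_le_mul_of_nonneg_left ?_ (sub_nonneg.mpr hab)
    refine H.anti (mul_nonneg H.y0.le ha) (mul_le_mul_of_nonneg_left h1.le H.y0.le) ?_
    refine le_trans ?_ hb
    exact mul_le_mul_of_nonneg_left (mul_le_mul_of_nonneg_left h2.le H.y0.le) H.y0.le

theorem le_of (H : AZ y m) {a : ℝ} (ha : 0 ≤ a) (h : a ≤ m) : y * a ≤ m := by
  have := mul_le_mul_of_nonneg_right H.y1.le ha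
  linarith

/-- strictly negative just after the zero -/
theorem neg (H : AZ y m) {x : ℝ} (hx : m < x) (hy : y * x ≤ m) : Phi y x < 0 := by
  obtain ⟨c, h1, h2, h3⟩ := a_mvt y H.y0.le H.y1.le hx
  rw [H.zero] at h3
  have hc : y * c < m := lt_of_lt_of_le (mul_lt_mul_of_pos_left h2 H.y0) hy
  have := mul_pos (sub_pos.mpr hx) (H.lt (y * c) (mul_nonneg H.y0.le (H.pos.le.trans h1.le)) hc)
  linarith

theorem nonpos (H : AZ y m) {x : ℝ} (hx : m ≤ x) (hy : y * x ≤ m) : Phi y x ≤ 0 := by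
  rcases hx.eq_or_lt with h | h
  · rw [← h, H.zero]
  · exact (H.neg h hy).le

end AZ

theorem lam_pos (l : ℕ) (hl : 1 ≤ l) : 0 < lam l := (a_AZ l hl).pos

theorem adm_upper (l : ℕ) (hl : 1 ≤ l) (ε : ℝ) (h0 : 0 < ε) (h1 : ε < 1) :
    ∃ K, AdmU (yl l) ((1 - ε) * lam l) K (fun ρ => Phi (yl l) ((1 - ε) * lam l * ρ)) := by
  have H := a_AZ l hl
  set y := yl l
  set m := lam l
  set x := (1 - ε) * m with hx
  have hx0 : 0 < x := mul_pos (by linarith) H.pos
  have hxm : x < m := by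
    have := mul_pos h0 H.pos
    rw [hx]
    linarith
  have hP : 0 < Phi y x := H.lt x hx0.le hxm
  have hmon : ∀ a b : ℝ, 0 ≤ a → a ≤ b → b ≤ 1 → Phi y (x * b) ≤ Phi y (x * a) := by
    intro a b ha hab hb
    refine H.anti (mul_nonneg hx0.le ha) (mul_le_mul_of_nonneg_left hab hx0.le) ?_
    refine H.le_of (mul_nonneg hx0.le (ha.trans hab)) ?_
    have := mul_le_mul_of_nonneg_left hb hx0.le
    linarith
  have hlow : ∀ ρ : ℝ, 0 ≤ ρ → ρ ≤ 1 → Phi y x ≤ Phi y (x * ρ) := by
    intro ρ h0 h1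
    have := hmon ρ 1 h0 h1 le_rfl
    rwa [mul_one] at this
  set K := max (-Real.log (Phi y x)) (x / Phi y x) with hK
  have hK1 : -Real.log (Phi y x) ≤ K := le_max_left _ _
  have hK2 : x / Phi y x ≤ K := le_max_right _ _
  have hK0 : 0 ≤ K := le_trans (by positivity) hK2
  refine ⟨K, ?_⟩
  refine
    { x_pos := hx0
      K_nonneg := hK0
      zero := ?_
      anti := ?_
      lower := ?_
      lip := ?_
      sum := ?_ }
  · simp only [mul_zero, a_Phi_zero]
  · intro a ha b hb hab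
    exact hmon a b ha.1 hab hb.2
  · intro ρ hρ0 hρ1
    have h2 : Real.exp (-K) ≤ Phi y x := by
      rw [← Real.le_log_iff_exp_le hP]
      linarith
    exact h2.trans (hlow ρ hρ0 hρ1)
  · intro ρ δ hδ hδρ hρ
    have hρ0 : 0 ≤ ρ := hδ.trans hδρ
    have hxρ : x * ρ ≤ m := by
      have := mul_le_mul_of_nonneg_left hρ hx0.le
      linarith
    have hyxρ : y * (x * ρ) ≤ m := H.le_of (mul_nonneg hx0.le hρ0) hxρ
    have h2 : Phi y (x * (ρ - δ)) - Phi y (x * ρ) ≤ (x * ρ - x * (ρ - δ)) *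
        Phi y (y * (x * (ρ - δ))) := by
      refine H.incr_le (mul_nonneg hx0.le (by linarith)) ?_ ?_
      · exact mul_le_mul_of_nonneg_left (by linarith) hx0.le
      · exact H.le_of (mul_nonneg H.y0.le (mul_nonneg hx0.le hρ0)) hyxρ
    have h3 : Phi y (y * (x * (ρ - δ))) ≤ 1 := by
      have h30 : 0 ≤ y * (x * (ρ - δ)) := mul_nonneg H.y0.le (mul_nonneg hx0.le (by linarith))
      have h31 : x * (ρ - δ) ≤ x * ρ := mul_le_mul_of_nonneg_left (by linarith) hx0.le
      have h32 : y * (x * (ρ - δ)) ≤ m :=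
        (mul_le_mul_of_nonneg_left h31 H.y0.le).trans hyxρ
      exact H.le_one h30 (H.le_of h30 h32)
    have h4 : Phi y (x * (ρ - δ)) ≤ Phi y (x * ρ) + x * δ := by
      have h41 : (x * ρ - x * (ρ - δ)) = x * δ := by ring
      rw [h41] at h2
      have := mul_le_mul_of_nonneg_left h3 (mul_nonneg hx0.le hδ)
      linarith
    have hq : 0 < Phi y (x * ρ) := lt_of_lt_of_le hP (hlow ρ hρ0 hρ)
    have h5 : x * δ ≤ Phi y (x * ρ) * (K * δ) := by
      have h51 : x ≤ K * Phi y x := by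
        rwa [div_le_iff₀ hP] at hK2
      have h52 : K * Phi y x ≤ K * Phi y (x * ρ) :=
        mul_le_mul_of_nonneg_left (hlow ρ hρ0 hρ) hK0
      have := mul_le_mul_of_nonneg_right (h51.trans h52) hδ
      linarith
    have h6 : K * δ + 1 ≤ Real.exp (K * δ) := Real.add_one_le_exp _
    have h7 := mul_le_mul_of_nonneg_left h6 hq.le
    show Phi y (x * (ρ - δ)) ≤ Phi y (x * ρ) * Real.exp (K * δ)
    linarith
  · intro N ρ M hN hρ hM
    show ∑ i ∈ Finset.range M, x / N * Phi y (x * (y * (ρ + (i + 1) / N))) ≤ Phi y (x * ρ)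
    have key : ∀ M' : ℕ, ρ + M' / N ≤ 1 →
        ∑ i ∈ Finset.range M', x / N * Phi y (x * (y * (ρ + (i + 1) / N))) ≤
          Phi y (x * ρ) - Phi y (x * (ρ + M' / N)) := by
      intro M'
      induction M' with
      | zero => intro _; simp
      | succ M' ih =>
        intro hM'
        have hle : ρ + (M' : ℝ) / N ≤ ρ + ((M' + 1 : ℕ) : ℝ) / N := by
          push_cast
          have : (M' : ℝ) / N ≤ ((M' : ℝ) + 1) / N := by
            apply div_le_div_of_nonneg_right _ hN.le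
            linarith
          linarith
        have ih' := ih (hle.trans hM')
        rw [Finset.sum_range_succ]
        have hs0 : 0 ≤ ρ + (M' : ℝ) / N := by positivity
        have h8 := H.incr_ge (a := x * (ρ + (M' : ℝ) / N))
          (b := x * (ρ + ((M' + 1 : ℕ) : ℝ) / N)) (mul_nonneg hx0.le hs0)
          (mul_le_mul_of_nonneg_left hle hx0.le) (by
            have h81 : 0 ≤ x * (ρ + ((M' + 1 : ℕ) : ℝ) / N) :=
              mul_nonneg hx0.le (hs0.trans hle)
            have h82 : x * (ρ + ((M' + 1 : ℕ) : ℝ) / N) ≤ m := by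
              have := mul_le_mul_of_nonneg_left hM' hx0.le
              linarith
            exact H.le_of (mul_nonneg H.y0.le h81) (H.le_of h81 h82))
        have h9 : x * (ρ + ((M' + 1 : ℕ) : ℝ) / N) - x * (ρ + (M' : ℝ) / N) = x / N := by
          push_cast
          field_simp
          ring
        rw [h9] at h8
        have h10 : y * (x * (ρ + ((M' + 1 : ℕ) : ℝ) / N)) = x * (y * (ρ + ((M' : ℝ) + 1) / N)) := by
          push_cast
          ring
        rw [h10] at h8
        linarith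
    have h11 := key M hM
    have hMN : (0 : ℝ) ≤ (M : ℝ) / N := by positivity
    have h12 : 0 ≤ Phi y (x * (ρ + M / N)) := hP.le.trans (hlow _ (by positivity) hM)
    linarith

theorem adm_lower (l : ℕ) (hl : 1 ≤ l) : ∃ ε₀ : ℝ, 0 < ε₀ ∧ ∀ ε, 0 < ε → ε ≤ ε₀ →
    ∃ ν, AdmL (yl l) ((1 + ε) * lam l) ν (fun ρ => Phi (yl l) ((1 + ε) * lam l * ρ)) := by
  have H := a_AZ l hl
  set y := yl l
  set m := lam l
  refine ⟨(1 / y - 1) / 2, ?_, ?_⟩
  · have : 1 < 1 / y := by
      rw [lt_div_iff₀ H.y0]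
      linarith [H.y1]
    linarith
  intro ε hε hε0
  set x := (1 + ε) * m with hx
  have hy0 := H.y0
  have hy1 := H.y1
  have hεy : (1 + ε) * y < 1 := by
    have h2 : (1 + ε) ≤ (1 / y + 1) / 2 := by linarith
    have h3 : (1 + ε) * y ≤ (1 / y + 1) / 2 * y := mul_le_mul_of_nonneg_right h2 hy0.le
    have h4 : (1 / y + 1) / 2 * y = (1 + y) / 2 := by
      field_simp
    linarith
  have hx0 : 0 < x := mul_pos (by linarith) H.pos
  have hmx : m < x := by
    have := mul_pos hε H.pos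
    rw [hx]
    linarith
  have hyx : y * x < m := by
    have := mul_lt_mul_of_pos_right hεy H.pos
    rw [hx]
    linarith
  have hneg : Phi y x < 0 := H.neg hmx hyx.le
  -- the constant
  set ν := min (min (1 / 2) (-Phi y x)) (min (1 / ((1 + ε) * y) - 1) (ε / (1 + ε))) with hν
  have hν1 : ν ≤ 1 / 2 := (min_le_left _ _).trans (min_le_left _ _)
  have hν2 : ν ≤ -Phi y x := (min_le_left _ _).trans (min_le_right _ _)
  have hν3 : ν ≤ 1 / ((1 + ε) * y) - 1 := (min_le_right _ _).trans (min_le_left _ _)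
  have hν4 : ν ≤ ε / (1 + ε) := (min_le_right _ _).trans (min_le_right _ _)
  have hεy0 : 0 < (1 + ε) * y := by positivity
  have hν0 : 0 < ν := by
    have h5 : 1 < 1 / ((1 + ε) * y) := by
      rw [lt_div_iff₀ hεy0]
      linarith
    refine lt_min (lt_min (by norm_num) (by linarith)) (lt_min (by linarith) (by positivity))
  have h5 : (1 + ε) * y * (1 + ν) ≤ 1 := by
    have h51 : 1 + ν ≤ 1 / ((1 + ε) * y) := by linarith
    have := mul_le_mul_of_nonneg_left h51 hεy0.le
    have h52 : (1 + ε) * y * (1 / ((1 + ε) * y)) = 1 := by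
      field_simp
    linarith
  have h6 : 1 ≤ (1 + ε) * (1 - ν) := by
    have h61 : (1 + ε) * ν ≤ (1 + ε) * (ε / (1 + ε)) :=
      mul_le_mul_of_nonneg_left hν4 (by linarith)
    have h62 : (1 + ε) * (ε / (1 + ε)) = ε := by
      field_simp
    linarith
  have h7 : y * (1 + ν) ≤ 1 := by
    have h71 : 0 ≤ ε * (y * (1 + ν)) := by positivity
    linarith
  -- bound for all arguments used
  have h8 : ∀ s : ℝ, s ≤ 1 + ν → y * (x * s) ≤ m := by
    intro s hs
    have h81 : y * (x * s) = ((1 + ε) * y * s) * m := by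
      rw [hx]
      ring
    rw [h81]
    have h82 : (1 + ε) * y * s ≤ (1 + ε) * y * (1 + ν) := mul_le_mul_of_nonneg_left hs hεy0.le
    have := mul_le_mul_of_nonneg_right (h82.trans h5) H.pos.le
    linarith
  refine ⟨ν, ?_⟩
  refine
    { x_pos := hx0
      ν_pos := hν0
      ν_le := hν1
      zero := ?_
      anti := ?_
      lip := ?_
      y_le := h7
      y_nonneg := ?_
      top := ?_
      sum := ?_ }
  · simp only [mul_zero, a_Phi_zero]
  · intro a ha b hb hab
    exact H.anti (mul_nonneg hx0.le ha.1) (mul_le_mul_of_nonneg_left hab hx0.le)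
      (h8 b (by linarith [hb.2]))
  · intro a b ha hab hb
    have h9 := H.incr_le (a := x * a) (b := x * b) (mul_nonneg hx0.le ha)
      (mul_le_mul_of_nonneg_left hab hx0.le)
      (H.le_of (mul_nonneg hy0.le (mul_nonneg hx0.le (ha.trans hab))) (h8 b (by linarith)))
    have h10 : Phi y (y * (x * a)) ≤ 1 := by
      have h101 : 0 ≤ y * (x * a) := by positivity
      exact H.le_one h101 (H.le_of h101 (h8 a (by linarith)))
    have h11 : 0 ≤ x * b - x * a := sub_nonneg.mpr (mul_le_mul_of_nonneg_left hab hx0.le)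
    have := mul_le_mul_of_nonneg_left h10 h11
    show Phi y (x * a) - Phi y (x * b) ≤ x * (b - a)
    linarith
  · intro s hs0 hs
    refine H.nonneg (mul_nonneg hx0.le hs0) ?_
    have h12 : x * s ≤ x * (y * (1 + ν)) := mul_le_mul_of_nonneg_left hs hx0.le
    have h13 : x * (y * (1 + ν)) = ((1 + ε) * y * (1 + ν)) * m := by
      rw [hx]
      ring
    have := mul_le_mul_of_nonneg_right h5 H.pos.le
    linarith
  · intro s hs0 hs1
    refine H.nonpos ?_ (h8 s (by linarith))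
    have h14 : x * (1 - ν) ≤ x * s := mul_le_mul_of_nonneg_left hs0 hx0.le
    have h15 : x * (1 - ν) = ((1 + ε) * (1 - ν)) * m := by
      rw [hx]
      ring
    have := mul_le_mul_of_nonneg_right h6 H.pos.le
    linarith
  · intro N ρ M hN hρ hρ1 hM1 hM2
    show Phi y (x * ρ) + ν - x / N ≤
      ∑ i ∈ Finset.range M, x / N * Phi y (x * (y * (ρ + (i + 1) / N)))
    have key : ∀ M' : ℕ, ρ + M' / N ≤ 1 + ν →
        Phi y (x * ρ) - Phi y (x * (ρ + M' / N)) ≤
          ∑ i ∈ Finset.range M', x / N * Phi y (x * (y * (ρ + (i + 1) / N))) +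
            x / N * Phi y (x * (y * ρ)) - x / N * Phi y (x * (y * (ρ + M' / N))) := by
      intro M'
      induction M' with
      | zero => intro _; simp
      | succ M' ih =>
        intro hM'
        have hle : ρ + (M' : ℝ) / N ≤ ρ + ((M' + 1 : ℕ) : ℝ) / N := by
          push_cast
          have : (M' : ℝ) / N ≤ ((M' : ℝ) + 1) / N := by
            apply div_le_div_of_nonneg_right _ hN.le
            linarith
          linarith
        have ih' := ih (hle.trans hM')
        rw [Finset.sum_range_succ]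
        have hs0 : 0 ≤ ρ + (M' : ℝ) / N := by positivity
        have h16 := H.incr_le (a := x * (ρ + (M' : ℝ) / N))
          (b := x * (ρ + ((M' + 1 : ℕ) : ℝ) / N)) (mul_nonneg hx0.le hs0)
          (mul_le_mul_of_nonneg_left hle hx0.le)
          (H.le_of (mul_nonneg hy0.le (mul_nonneg hx0.le (hs0.trans hle))) (h8 _ hM'))
        have h17 : x * (ρ + ((M' + 1 : ℕ) : ℝ) / N) - x * (ρ + (M' : ℝ) / N) = x / N := by
          push_cast
          field_simp
          ring
        rw [h17] at h16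
        have h18 : y * (x * (ρ + (M' : ℝ) / N)) = x * (y * (ρ + (M' : ℝ) / N)) := by ring
        rw [h18] at h16
        have h19 : (((M' + 1 : ℕ) : ℝ)) = (M' : ℝ) + 1 := by push_cast; ring
        rw [h19] at h16 ⊢
        linarith
    have h20 := key M hM2
    have hMN : (0 : ℝ) ≤ (M : ℝ) / N := by positivity
    have hρM : 0 ≤ ρ + (M : ℝ) / N := by positivity
    -- the end point
    have h21 : Phi y (x * (ρ + M / N)) ≤ Phi y x := by
      have h211 : x ≤ x * (ρ + M / N) := by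
        have := mul_le_mul_of_nonneg_left hM1 hx0.le
        linarith
      exact H.anti hx0.le h211 (h8 _ hM2)
    have h22 : Phi y (x * (y * ρ)) ≤ 1 := by
      have h221 : x * (y * ρ) = y * (x * ρ) := by ring
      rw [h221]
      have h222 : 0 ≤ y * (x * ρ) := by positivity
      exact H.le_one h222 (H.le_of h222 (h8 ρ (by linarith)))
    have h23 : 0 ≤ Phi y (x * (y * (ρ + M / N))) := by
      have h231 : x * (y * (ρ + M / N)) = y * (x * (ρ + M / N)) := by ring
      rw [h231]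
      exact H.nonneg (by positivity) (h8 _ hM2)
    have hxN : 0 ≤ x / N := by positivity
    have h24 := mul_le_mul_of_nonneg_left h22 hxN
    have h25 := mul_nonneg hxN h23
    linarith

/-- enlarging the constant -/
theorem AdmU.mono_K {y x K K' : ℝ} {h : ℝ → ℝ} (H : AdmU y x K h) (hK : K ≤ K') :
    AdmU y x K' h := by
  refine
    { x_pos := H.x_pos
      K_nonneg := H.K_nonneg.trans hK
      zero := H.zero
      anti := H.anti
      lower := ?_
      lip := ?_
      sum := H.sum }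
  · intro ρ h0 h1
    exact (Real.exp_le_exp.mpr (by linarith)).trans (H.lower ρ h0 h1)
  · intro ρ δ hδ hδρ hρ
    refine (H.lip ρ δ hδ hδρ hρ).trans ?_
    have h0 : 0 ≤ h ρ := (Real.exp_pos _).le.trans (H.lower ρ (hδ.trans hδρ) hρ)
    refine mul_le_mul_of_nonneg_left ?_ h0
    exact Real.exp_le_exp.mpr (mul_le_mul_of_nonneg_right hK hδ)

end Pool.Agent.Lib.MP_8501c9_pr.Mid
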